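import Pool.Agent.Helper60.HD.BIa

/-!
# The basic inequality
-/

set_option autoImplicit false

namespace Pool.Agent.Helper60.HD

variable {K : ℕ} {φ : ℕ → Tr → ℝ} {lo hi : ℕ → ℕ} {ex : ℕ → Prop} {C ε : ℝ} {exc : ℕ → ℕ → Prop}

/-- sum of the coefficients of the cut part -/
lemma BI_mu {cut : Finset ℕ} {μ : ℕ → ℝ} (hμ : ∑ k ∈ cut, μ k ^ 2 ≤ 8) :
    ∑ k ∈ cut, μ k ≤ 3 * √cut.card := by
  calc ∑ k ∈ cut, μ k = ∑ k ∈ cut, μ k * 1 := by simp
    _ ≤ √(∑ k ∈ cut, μ k ^ 2) * √(∑ k ∈ cut, 1 ^ 2) := Real.sum_mul_le_sqrt_mul_sqrt _ _ _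
    _ ≤ √8 * √(∑ k ∈ cut, 1 ^ 2) := by gcongr
    _ ≤ 3 * √cut.card := by
        have := BIa_sqrt8
        simp only [one_pow, Finset.sum_const, nsmul_eq_mul, mul_one]
        gcongr

theorem bi_high (H : BIH K φ lo hi ex C ε exc) (N : ND) (f : Fin N.d → Tr) (hT : Valid (.node N f))
    (hex : ¬ ex N.i) (A : Finset ℕ) (hA : Cvx K A) :
    |∑ k ∈ A, φ k (.node N f)| ≤ C + 8 * C / m N.i * √A.card + ε * A.card := by
  classical
  have hC := H.C0
  have he := H.e0
  have hm := BIa_mpos N.i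
  obtain ⟨cut, As, μ, U, h1, h2, h3, h4, h5, h6, h7⟩ := node_split H.toSys N f hT hex A hA
  rw [h7]
  have hN : NodeOk N f := hT.2
  -- the cut part
  have c1 : |∑ k ∈ cut, μ k * φ k (U k)| ≤ C + (C / m N.i) * (3 * √cut.card) + ε * cut.card := by
    have hb : ∀ k ∈ cut, |μ k * φ k (U k)| ≤ (if exc k N.i then C else 0) + ((C / m N.i) * μ k + ε) := by
      intro k hk
      obtain ⟨u1, u2, u3, u4⟩ := h5 k hk
      rw [abs_mul, abs_of_nonneg u1]
      split_ifs with hx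
      · have := H.bd k (hA.1 k (h1 hk)) _ u3
        have h8 : μ k * |φ k (U k)| ≤ 1 * C := by gcongr
        have h9 : 0 ≤ C / m N.i * μ k := by positivity
        linarith
      · have := H.bc k (hA.1 k (h1 hk)) _ N.i u3 u4 hex hx
        have h8 : μ k * |φ k (U k)| ≤ μ k * (C / m N.i + ε) := by gcongr
        have h9 : μ k * ε ≤ 1 * ε := by gcongr
        nlinarith
    have hs : ∑ k ∈ cut, (if exc k N.i then C else 0) ≤ C := by
      by_cases hx : ∃ k ∈ cut, exc k N.i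
      · obtain ⟨k, hk, hk'⟩ := hx
        rw [Finset.sum_eq_single_of_mem k hk]
        · simp [hk']
        · intro l hl hlk
          rw [if_neg]
          intro hl'
          exact hlk (H.uni N.i l k (hA.1 l (h1 hl)) (hA.1 k (h1 hk)) hl' hk')
      · push Not at hx
        rw [Finset.sum_eq_zero]
        · exact hC
        · intro k hk
          rw [if_neg (hx k hk)]
    calc |∑ k ∈ cut, μ k * φ k (U k)| ≤ ∑ k ∈ cut, |μ k * φ k (U k)| := Finset.abs_sum_le_sum_abs _ _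
      _ ≤ ∑ k ∈ cut, ((if exc k N.i then C else 0) + ((C / m N.i) * μ k + ε)) := Finset.sum_le_sum hb
      _ = ∑ k ∈ cut, (if exc k N.i then C else 0) + (C / m N.i) * ∑ k ∈ cut, μ k + ε * cut.card := by
          rw [Finset.sum_add_distrib, Finset.sum_add_distrib, Finset.mul_sum, Finset.sum_const, nsmul_eq_mul]
          ring
      _ ≤ _ := by
          have h8 := BI_mu h6
          have h9 : (C / m N.i) * ∑ k ∈ cut, μ k ≤ (C / m N.i) * (3 * √cut.card) := by gcongr
          linarith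
  -- the children
  have c2 := BIa_child (N := N) (f := f) hN (G := fun s => ∑ k ∈ As s, φ k (f s))
      (X := fun s => ((As s).card : ℝ)) (Y := fun s => ((As s).card : ℝ)) (Z := 4 * C) (ε := ε) (by positivity) he
      (fun s => by positivity) (fun s => by positivity)
      (fun s => bi_l2 H (f s) (hT.1 s) (As s) (h2 s).1)
  have e4 := h3 (fun _ => 1) (fun _ => zero_le_one)
  simp only [Finset.sum_const, nsmul_eq_mul, mul_one] at e4
  have p1 : (0 : ℝ) ≤ cut.card := by positivity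
  have p2 : (0 : ℝ) ≤ ∑ s, ((As s).card : ℝ) := Finset.sum_nonneg fun s _ => by positivity
  have q1 : √(cut.card : ℝ) ≤ √(A.card : ℝ) := Real.sqrt_le_sqrt (by linarith)
  have q2 : √(∑ s, ((As s).card : ℝ)) ≤ √(A.card : ℝ) := Real.sqrt_le_sqrt (by linarith)
  have r1 : (C / m N.i) * (3 * √cut.card) ≤ (C / m N.i) * (3 * √A.card) := by gcongr
  have r2 : 4 * C / m N.i * √(∑ s, ((As s).card : ℝ)) ≤ 4 * C / m N.i * √A.card := by gcongr
  have r3 : ε * cut.card + ε * ∑ s, ((As s).card : ℝ) ≤ ε * A.card := by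
    rw [← mul_add]; gcongr
  have r4 : 0 ≤ C / m N.i * √A.card := by positivity
  have e10 := abs_add_le (∑ k ∈ cut, μ k * φ k (U k)) (1 / (m N.i : ℝ) * ∑ s, (N.c s : ℝ) * ∑ k ∈ As s, φ k (f s))
  have r5 : 8 * C / m N.i * √A.card = (C / m N.i) * (3 * √A.card) + 4 * C / m N.i * √A.card + C / m N.i * √A.card := by
    ring
  rw [r5]
  linarith

/-- the step for low classes -/
lemma BI_low (H : BIH K φ lo hi ex C ε exc) (h : ℕ) (W Z : ℝ) (hW : 0 ≤ W) (hZ : 0 ≤ Z)
    (hg : ∀ T, Valid T → ∀ A, Cvx K A → |∑ k ∈ A, φ k T| ≤ C * W + C * Z * √A.card + ε * A.card)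
    (N : ND) (f : Fin N.d → Tr) (hT : Valid (.node N f))
    (hex : ¬ ex N.i) (hi : N.i < h) (A : Finset ℕ) (hA : Cvx K A) :
    |∑ k ∈ A, φ k (.node N f)| ≤ C * (3 * 2 ^ (2 * m h)) + 1 / m N.i * (C * W * 2 ^ (2 * m h))
      + 1 / m N.i * (C * Z * √A.card) + ε * A.card := by
  have hC := H.C0
  have he := H.e0
  have hm := BIa_mpos N.i
  obtain ⟨cut, As, μ, U, h1, h2, h3, h4, h5, h6, h7⟩ := node_split H.toSys N f hT hex A hA
  rw [h7]
  have hN : NodeOk N f := hT.2
  have hd : √(N.d : ℝ) ≤ 2 ^ (2 * m h) := by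
    have h8 : (N.d : ℝ) ≤ nn N.i := by exact_mod_cast hN.dn
    calc √(N.d : ℝ) ≤ √(((2 : ℝ) ^ (2 * m h)) ^ 2) := Real.sqrt_le_sqrt (h8.trans (nn_low hi))
      _ = 2 ^ (2 * m h) := Real.sqrt_sq (by positivity)
  have e4 := h3 (fun _ => 1) (fun _ => zero_le_one)
  simp only [Finset.sum_const, nsmul_eq_mul, mul_one] at e4
  have p1 : (0 : ℝ) ≤ cut.card := by positivity
  have p2 : (0 : ℝ) ≤ ∑ s, ((As s).card : ℝ) := Finset.sum_nonneg fun s _ => by positivity
  -- the cut part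
  have c1 : |∑ k ∈ cut, μ k * φ k (U k)| ≤ C * (3 * 2 ^ (2 * m h)) := by
    calc |∑ k ∈ cut, μ k * φ k (U k)| ≤ ∑ k ∈ cut, |μ k * φ k (U k)| := Finset.abs_sum_le_sum_abs _ _
      _ ≤ ∑ k ∈ cut, C * μ k := by
          apply Finset.sum_le_sum
          intro k hk
          obtain ⟨u1, u2, u3, u4⟩ := h5 k hk
          rw [abs_mul, abs_of_nonneg u1, mul_comm]
          exact mul_le_mul_of_nonneg_right (H.bd k (hA.1 k (h1 hk)) _ u3) u1
      _ = C * ∑ k ∈ cut, μ k := by rw [Finset.mul_sum]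
      _ ≤ C * (3 * √cut.card) := by have := BI_mu h6; gcongr
      _ ≤ C * (3 * √N.d) := by gcongr
      _ ≤ C * (3 * 2 ^ (2 * m h)) := by gcongr
  -- sum of the coefficients
  have c2 : ∑ s, |(N.c s : ℝ)| ≤ 2 ^ (2 * m h) := by
    calc ∑ s, |(N.c s : ℝ)| = ∑ s, |(N.c s : ℝ)| * 1 := by simp
      _ ≤ √(∑ s, |(N.c s : ℝ)| ^ 2) * √(∑ _s : Fin N.d, 1 ^ 2) := Real.sum_mul_le_sqrt_mul_sqrt _ _ _
      _ ≤ 1 * √N.d := by
          have e1 : √(∑ s, |(N.c s : ℝ)| ^ 2) ≤ 1 := by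
            rw [Real.sqrt_le_one]
            simp only [sq_abs]
            exact BIa_csum hN
          simp only [one_pow, Finset.sum_const, nsmul_eq_mul, mul_one, Finset.card_univ, Fintype.card_fin]
          gcongr
      _ ≤ 2 ^ (2 * m h) := by linarith
  have c3 : ∑ s, |(N.c s : ℝ)| * √(As s).card ≤ √A.card := by
    calc ∑ s, |(N.c s : ℝ)| * √(As s).card ≤ √(∑ s, |(N.c s : ℝ)| ^ 2) * √(∑ s, √((As s).card : ℝ) ^ 2) :=
          Real.sum_mul_le_sqrt_mul_sqrt _ _ _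
      _ ≤ 1 * √(∑ s, ((As s).card : ℝ)) := by
          have e1 : √(∑ s, |(N.c s : ℝ)| ^ 2) ≤ 1 := by
            rw [Real.sqrt_le_one]
            simp only [sq_abs]
            exact BIa_csum hN
          have e2 : ∑ s, √((As s).card : ℝ) ^ 2 = ∑ s, ((As s).card : ℝ) :=
            Finset.sum_congr rfl fun s _ => Real.sq_sqrt (by positivity)
          rw [e2]
          gcongr
      _ ≤ √A.card := by
          rw [one_mul]
          apply Real.sqrt_le_sqrt
          linarith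
  have c4 : ∑ s, |(N.c s : ℝ)| * (As s).card ≤ ∑ s, ((As s).card : ℝ) := by
    apply Finset.sum_le_sum
    intro s _
    have := BIa_cle hN s
    have h8 : (0 : ℝ) ≤ (As s).card := by positivity
    nlinarith
  -- the children
  have c5 : |∑ s, (N.c s : ℝ) * ∑ k ∈ As s, φ k (f s)| ≤ C * W * 2 ^ (2 * m h) + C * Z * √A.card
      + ε * ∑ s, ((As s).card : ℝ) := by
    calc |∑ s, (N.c s : ℝ) * ∑ k ∈ As s, φ k (f s)| ≤ ∑ s, |(N.c s : ℝ) * ∑ k ∈ As s, φ k (f s)| :=
          Finset.abs_sum_le_sum_abs _ _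
      _ ≤ ∑ s, (C * W * |(N.c s : ℝ)| + C * Z * (|(N.c s : ℝ)| * √(As s).card)
            + ε * (|(N.c s : ℝ)| * (As s).card)) := by
          apply Finset.sum_le_sum
          intro s _
          rw [abs_mul]
          have h8 := hg (f s) (hT.1 s) (As s) (h2 s).1
          have h9 : 0 ≤ |(N.c s : ℝ)| := abs_nonneg _
          calc |(N.c s : ℝ)| * |∑ k ∈ As s, φ k (f s)|
              ≤ |(N.c s : ℝ)| * (C * W + C * Z * √(As s).card + ε * (As s).card) := by gcongr
            _ = _ := by ring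
      _ = C * W * (∑ s, |(N.c s : ℝ)|) + C * Z * (∑ s, |(N.c s : ℝ)| * √(As s).card)
            + ε * ∑ s, |(N.c s : ℝ)| * (As s).card := by
          rw [Finset.sum_add_distrib, Finset.sum_add_distrib, Finset.mul_sum, Finset.mul_sum, Finset.mul_sum]
      _ ≤ _ := by gcongr
  have c6 : |1 / (m N.i : ℝ) * ∑ s, (N.c s : ℝ) * ∑ k ∈ As s, φ k (f s)| ≤
      1 / m N.i * (C * W * 2 ^ (2 * m h)) + 1 / m N.i * (C * Z * √A.card) + ε * A.card := by
    rw [abs_mul, abs_of_nonneg (BIa_inv0 N.i)]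
    have h5' : 1 / (m N.i : ℝ) ≤ 1 := (BIa_inv N.i).trans (by norm_num)
    have h6' : ε * ∑ s, ((As s).card : ℝ) ≤ ε * A.card := by gcongr; linarith
    have h7' : 0 ≤ ε * ∑ s, ((As s).card : ℝ) := mul_nonneg he p2
    have h8' := BIa_inv0 N.i
    calc 1 / (m N.i : ℝ) * |∑ s, (N.c s : ℝ) * ∑ k ∈ As s, φ k (f s)|
        ≤ 1 / (m N.i : ℝ) * (C * W * 2 ^ (2 * m h) + C * Z * √A.card + ε * ∑ s, ((As s).card : ℝ)) := by gcongr
      _ = 1 / m N.i * (C * W * 2 ^ (2 * m h)) + 1 / m N.i * (C * Z * √A.card)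
          + 1 / (m N.i : ℝ) * (ε * ∑ s, ((As s).card : ℝ)) := by ring
      _ ≤ 1 / m N.i * (C * W * 2 ^ (2 * m h)) + 1 / m N.i * (C * Z * √A.card)
          + 1 * (ε * ∑ s, ((As s).card : ℝ)) := by gcongr
      _ ≤ _ := by linarith
  have e10 := abs_add_le (∑ k ∈ cut, μ k * φ k (U k)) (1 / (m N.i : ℝ) * ∑ s, (N.c s : ℝ) * ∑ k ∈ As s, φ k (f s))
  linarith

/-- the basic inequality -/
theorem bi_gen (H : BIH K φ lo hi ex C ε exc) (h : ℕ) (M : ℝ) (hM : 0 < M)
    (hh : ∀ i, h ≤ i → ¬ ex i → M ≤ m i) (D : ℕ) (T : Tr) (hT : Valid T) (A : Finset ℕ) (hA : Cvx K A) :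
    |∑ k ∈ A, φ k T| ≤ C * (4 + (8 / M + 4 * (1 / 65536) ^ D) * √A.card + (2 ^ (2 * m h + 2)) ^ D)
      + ε * A.card := by
  have hC := H.C0
  have he := H.e0
  induction D generalizing T A with
  | zero =>
    have h1 := bi_l2 H T hT A hA
    have h2 : 0 ≤ C * (4 + 8 / M * √A.card + 1) := by positivity
    simp only [pow_zero, mul_one]
    nlinarith
  | succ D ih =>
    have hR : 0 ≤ C * (4 + (8 / M + 4 * (1 / 65536) ^ (D + 1)) * √A.card + (2 ^ (2 * m h + 2)) ^ (D + 1))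
      + ε * A.card := by positivity
    have hR' : C ≤ C * (4 + (8 / M + 4 * (1 / 65536) ^ (D + 1)) * √A.card + (2 ^ (2 * m h + 2)) ^ (D + 1)) := by
      have : 1 ≤ (4 + (8 / M + 4 * (1 / 65536) ^ (D + 1)) * √A.card + (2 ^ (2 * m h + 2)) ^ (D + 1) : ℝ) := by
        have h1 : 0 ≤ (8 / M + 4 * (1 / 65536) ^ (D + 1)) * √A.card := by positivity
        have h2 : (0 : ℝ) ≤ (2 ^ (2 * m h + 2)) ^ (D + 1) := by positivity
        linarith
      nlinarith
    induction T with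
    | leaf n =>
      apply BIa_leaf_le H.toSys n A hA _ hR
      intro k hk
      have h1 := H.bd k (hA.1 k hk) _ hT
      have h2 : 0 ≤ ε * A.card := by positivity
      linarith
    | comb p q s t B B' ih1 ih2 =>
      exact BIa_comb_le H.toSys hT A hA _ hR (ih1 hT.1) (ih2 hT.2.1)
    | node N f _ =>
      by_cases hx : ex N.i
      · have h1 := H.bx N f hT hx A hA
        linarith
      by_cases hi' : N.i < h
      · have hX : (1 : ℝ) ≤ 2 ^ (2 * m h) := one_le_pow₀ (by norm_num)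
        have hP : (1 : ℝ) ≤ (2 ^ (2 * m h + 2)) ^ D := one_le_pow₀ (one_le_pow₀ (by norm_num))
        have h1 := BI_low H h (4 + (2 ^ (2 * m h + 2)) ^ D) (8 / M + 4 * (1 / 65536) ^ D) (by positivity) (by positivity)
          (fun T hT A hA => by
            have h2 := ih T hT A hA
            have e : C * (4 + (8 / M + 4 * (1 / 65536) ^ D) * √A.card + (2 ^ (2 * m h + 2)) ^ D)
              = C * (4 + (2 ^ (2 * m h + 2)) ^ D) + C * (8 / M + 4 * (1 / 65536) ^ D) * √A.card := by ring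
            rw [e] at h2
            exact h2) N f hT hx hi' A hA
        refine h1.trans ?_
        have k1 := BIa_inv N.i
        have k0 := BIa_inv0 N.i
        have s0 := Real.sqrt_nonneg (A.card : ℝ)
        generalize hXe : (2 : ℝ) ^ (2 * m h) = X at *
        generalize hSe : √(A.card : ℝ) = q at *
        have hPe : (2 : ℝ) ^ (2 * m h + 2) = 4 * X := by rw [pow_add, hXe]; ring
        rw [hPe] at hP ⊢
        generalize hQe : (4 * X) ^ D = Q at *
        generalize hθe : (1 / 65536 : ℝ) ^ D = θ at *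
        have hθ : 0 ≤ θ := by rw [← hθe]; positivity
        rw [pow_succ (4 * X), pow_succ (1 / 65536 : ℝ), hQe, hθe]
        have i1 : 1 / (m N.i : ℝ) * (C * (4 + Q) * X) ≤ 1 / 65536 * (C * (4 + Q) * X) := by gcongr
        have i2 : 1 / (m N.i : ℝ) * (C * (8 / M + 4 * θ) * q) ≤ 1 / 65536 * (C * (8 / M + 4 * θ) * q) := by gcongr
        have i3 : 0 ≤ C * (8 / M) * q := by positivity
        have i4 : X ≤ Q * X := by nlinarith
        have i5 : C * X ≤ C * (Q * X) := by gcongr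
        have i6 : 0 ≤ C * X := by positivity
        nlinarith
      · have h1 := bi_high H N f hT hx A hA
        refine h1.trans ?_
        have h2 := hh N.i (not_lt.1 hi') hx
        have h3 : 8 * C / m N.i ≤ 8 * C / M := by gcongr
        have h4 : 8 * C / m N.i * √A.card ≤ 8 * C / M * √A.card := by gcongr
        have h5 : 0 ≤ C * (4 * (1 / 65536) ^ (D + 1) * √A.card) := by positivity
        have h6 : 0 ≤ C * (2 ^ (2 * m h + 2)) ^ (D + 1) := by positivity
        have h7 : C * (4 + (8 / M + 4 * (1 / 65536) ^ (D + 1)) * √A.card + (2 ^ (2 * m h + 2)) ^ (D + 1))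
          = 4 * C + 8 * C / M * √A.card + C * (4 * (1 / 65536) ^ (D + 1) * √A.card)
            + C * (2 ^ (2 * m h + 2)) ^ (D + 1) := by ring
        rw [h7]
        linarith

/-- the basic inequality for low classes -/
theorem bi_low (H : BIH K φ lo hi ex C ε exc) (h : ℕ) (M : ℝ) (hM : 0 < M)
    (hh : ∀ i, h ≤ i → ¬ ex i → M ≤ m i) (D : ℕ) (N : ND) (f : Fin N.d → Tr) (hT : Valid (.node N f))
    (hex : ¬ ex N.i) (hi : N.i < h) (A : Finset ℕ) (hA : Cvx K A) :
    |∑ k ∈ A, φ k (.node N f)| ≤ C * (3 * 2 ^ (2 * m h) + 1 / m N.i *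
      ((4 + (2 ^ (2 * m h + 2)) ^ D) * 2 ^ (2 * m h) + (8 / M + 4 * (1 / 65536) ^ D) * √A.card))
      + ε * A.card := by
  have h1 := BI_low H h (4 + (2 ^ (2 * m h + 2)) ^ D) (8 / M + 4 * (1 / 65536) ^ D) (by positivity) (by positivity)
    (fun T hT A hA => by
      have h2 := bi_gen H h M hM hh D T hT A hA
      have e : C * (4 + (8 / M + 4 * (1 / 65536) ^ D) * √A.card + (2 ^ (2 * m h + 2)) ^ D)
        = C * (4 + (2 ^ (2 * m h + 2)) ^ D) + C * (8 / M + 4 * (1 / 65536) ^ D) * √A.card := by ring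
      rw [e] at h2
      exact h2) N f hT hex hi A hA
  refine h1.trans (le_of_eq ?_)
  ring

end Pool.Agent.Helper60.HD
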