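import Pool.Agent.Helper60.HD.A1b
import Pool.Agent.Helper60.HD.BI

/-!
# Non-aligned parts are bounded
-/

set_option autoImplicit false

namespace Pool.Agent.Helper60.HD

lemma A1_bih (a b : ℕ) (N : ND) (f : Fin N.d → Tr) (ho : Odd N.i) (hT : Valid (.node N f)) :
    BIH N.d (ph a b N f) (sl N f) (sh N f) (fun i => i = N.i) (2 * C0) (2 * C0 / (nn N.i) ^ 3)
      (fun k i => ∃ h : k < N.d, (f ⟨k, h⟩).cls = some i) := by
  have hC : (0 : ℝ) ≤ C0 := by unfold C0; norm_num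
  have hn : (1 : ℝ) ≤ nn N.i := by exact_mod_cast nn_pos N.i
  refine { ph_sys a b N f ho hT with
    C0 := by positivity
    e0 := by positivity
    bd := fun k _ T hV => ph_bd a b N f ho hT k T hV
    bc := ?_
    uni := ?_
    bx := fun N' f' hT' hi A _ => ph_bx a b N f ho hT N' f' hT' hi A }
  · intro k hk T i hV hi hex hexc
    refine (ph_bc a b N f ho hT k T i hV hi hex ?_).trans ?_
    · intro h hc
      exact hexc ⟨h, hc⟩
    · have h1 : C0 / (nn N.i : ℝ) ^ 4 ≤ 2 * C0 / (nn N.i : ℝ) ^ 3 := by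
        rw [div_le_div_iff₀ (by positivity) (by positivity)]
        have h2 : (nn N.i : ℝ) ^ 3 ≤ (nn N.i : ℝ) ^ 4 := pow_le_pow_right₀ hn (by norm_num)
        have h3 : (0 : ℝ) ≤ (nn N.i : ℝ) ^ 3 := by positivity
        nlinarith
      linarith
  · rintro i k l hk hl ⟨h1, h2⟩ ⟨h3, h4⟩
    have e1 : (f ⟨k, h1⟩).cls = some (cod N.i (pre f N.v k)) := hT.2.cls ho ⟨k, h1⟩
    have e2 : (f ⟨l, h3⟩).cls = some (cod N.i (pre f N.v l)) := hT.2.cls ho ⟨l, h3⟩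
    rw [h2] at e1
    rw [h4] at e2
    have h5 : cod N.i (pre f N.v k) = cod N.i (pre f N.v l) := by
      rw [← Option.some.inj e1, ← Option.some.inj e2]
    exact (A1b_pre f N.v f N.v hk hl (cod_inj _ h5)).1

theorem be_le : ∃ C1 : ℝ, 0 ≤ C1 ∧ ∀ (a b : ℕ) (N : ND) (f : Fin N.d → Tr) (T : Tr), Odd N.i →
    Valid (.node N f) → Valid T → |be a b (.node N f) T| ≤ C1 := by
  classical
  have hC : (0 : ℝ) ≤ C0 := by unfold C0; norm_num
  refine ⟨28 * C0, by positivity, fun a b N f T ho hT hV => ?_⟩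
  rw [be_eq]
  rcases le_or_gt N.r (m N.i ^ 2) with hr | hr
  · rw [lam_zero hr]
    simpa using hC
  have hok := hT.2
  set r := N.r with hrdef
  set M : ℝ := (m N.i : ℝ) with hM
  have hM1 : (1 : ℝ) ≤ M := by
    have := m_ge N.i
    rw [hM]
    exact_mod_cast (by omega : 1 ≤ m N.i)
  set q : ℝ := (1 / 2) ^ r with hq
  have hq0 : 0 < q := by positivity
  have hqr : q * 2 ^ r = 1 := by rw [hq, ← mul_pow]; norm_num
  let I : Finset ℕ := (Finset.range N.d).filter (fun k => ∃ h : k < N.d, N.c ⟨k, h⟩ ≠ 0)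
  have hI : Cvx N.d I := by
    refine ⟨fun k hk => Finset.mem_range.1 (Finset.mem_filter.1 hk).1, ?_⟩
    intro k hk l k' hk' hkl hlk
    obtain ⟨h1, h2, h3⟩ := Finset.mem_filter.1 hk
    obtain ⟨h4, h5, h6⟩ := Finset.mem_filter.1 hk'
    have hl : l < N.d := lt_of_le_of_lt hlk h5
    refine Finset.mem_filter.2 ⟨Finset.mem_range.2 hl, hl, ?_⟩
    exact hok.cvx ho ⟨k, h2⟩ ⟨l, hl⟩ ⟨k', h5⟩ hkl hlk h3 h6
  have hsum : ∑ k : Fin N.d, (N.c k : ℝ) * ph a b N f k T = q * ∑ k ∈ I, ph a b N f k T := by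
    have h1 : ∑ k : Fin N.d, (N.c k : ℝ) * ph a b N f k T
        = ∑ k ∈ Finset.range N.d, (if ∃ h : k < N.d, N.c ⟨k, h⟩ ≠ 0 then q * ph a b N f k T else 0) := by
      rw [Finset.sum_range]
      refine Finset.sum_congr rfl fun k _ => ?_
      by_cases h : N.c k = 0
      · rw [if_neg (by rintro ⟨_, h2⟩; exact h2 h), h]
        simp
      · rw [if_pos ⟨k.2, h⟩]
        rcases hok.co ho k with h2 | h2
        · exact absurd h2 h
        · rw [h2, hq]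
          push_cast
          ring
    rw [h1, ← Finset.sum_filter, Finset.mul_sum]
  have hcard : q ^ 2 * (I.card : ℝ) ≤ 1 := by
    have h1 : ∑ k : Fin N.d, (N.c k : ℝ) ^ 2 = q ^ 2 * (I.card : ℝ) := by
      have h2 : ∑ k : Fin N.d, (N.c k : ℝ) ^ 2
          = ∑ k ∈ Finset.range N.d, (if ∃ h : k < N.d, N.c ⟨k, h⟩ ≠ 0 then q ^ 2 else 0) := by
        rw [Finset.sum_range]
        refine Finset.sum_congr rfl fun k _ => ?_
        by_cases h : N.c k = 0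
        · rw [if_neg (by rintro ⟨_, h2⟩; exact h2 h), h]
          simp
        · rw [if_pos ⟨k.2, h⟩]
          rcases hok.co ho k with h2 | h2
          · exact absurd h2 h
          · rw [h2, hq]
            push_cast
            ring
      rw [h2, ← Finset.sum_filter, Finset.sum_const, nsmul_eq_mul, mul_comm]
    rw [← h1]
    exact_mod_cast hok.sq
  have hsq : q * √(I.card : ℝ) ≤ 1 := by
    have h1 : q * √(I.card : ℝ) = √(q ^ 2 * (I.card : ℝ)) := by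
      rw [Real.sqrt_mul (by positivity), Real.sqrt_sq hq0.le]
    rw [h1]
    exact Real.sqrt_le_one.2 hcard |> fun h => h
  have hc2 : q * (I.card : ℝ) ≤ 2 ^ r := by
    have h1 : q * (I.card : ℝ) = (q ^ 2 * I.card) * 2 ^ r := by
      calc q * (I.card : ℝ) = q * (I.card : ℝ) * (q * 2 ^ r) := by rw [hqr, mul_one]
        _ = (q ^ 2 * I.card) * 2 ^ r := by ring
    rw [h1]
    calc (q ^ 2 * (I.card : ℝ)) * 2 ^ r ≤ 1 * 2 ^ r := mul_le_mul_of_nonneg_right hcard (by positivity)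
      _ = 2 ^ r := one_mul _
  have hbi := bi_gen (A1_bih a b N f ho hT) N.i (M ^ 2) (by positivity) (by
    intro i h1 h2
    have h3 : N.i + 1 ≤ i := by
      have : i ≠ N.i := h2
      omega
    have h4 : m (N.i + 1) ≤ m i := m_strict.monotone h3
    rw [m_succ] at h4
    rw [hM]
    exact_mod_cast h4) (2 ^ (N.i + 1)) T hV I hI
  rw [theta_pow] at hbi
  have hbig := par_big N.i
  set PD : ℝ := ((2 : ℝ) ^ (2 * m N.i + 2)) ^ (2 ^ (N.i + 1)) with hPD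
  have hPD0 : 0 < PD := by positivity
  have hX1 : (1 : ℝ) ≤ 2 ^ (2 * m N.i) := one_le_pow₀ (by norm_num)
  have hpow1 : (2 : ℝ) ^ (m N.i ^ 2) ≤ 2 ^ r := pow_le_pow_right₀ (by norm_num) hr.le
  have hpow2 : (2 : ℝ) ^ r ≤ 2 ^ rr N.i := pow_le_pow_right₀ (by norm_num) (hok.rle ho)
  have hnum1 : M ^ 2 * (4 + PD) ≤ 2 ^ r := by
    refine le_trans ?_ (hbig.trans hpow1)
    have h1 : (0 : ℝ) ≤ M ^ 2 * (4 + PD) := by positivity
    have h2 : 3 * M ^ 2 * 2 ^ (2 * m N.i) * (4 + PD) = (3 * 2 ^ (2 * m N.i)) * (M ^ 2 * (4 + PD)) := by ring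
    rw [h2]
    nlinarith
  have hnum2 : M ^ 2 ≤ 2 ^ rr N.i := by
    refine le_trans ?_ (hnum1.trans hpow2)
    have h1 : (0 : ℝ) ≤ M ^ 2 := by positivity
    nlinarith
  have hnn : (nn N.i : ℝ) = ((2 : ℝ) ^ rr N.i) ^ 2 := nn_cast N.i
  set Y : ℝ := 2 ^ rr N.i with hY
  have hY1 : (1 : ℝ) ≤ Y := one_le_pow₀ (by norm_num)
  have hlam : (lam N.i r : ℝ) ≤ M ^ 2 := by rw [hM]; exact_mod_cast lam_le N.i r
  have hlam0 : (0 : ℝ) ≤ lam N.i r := Nat.cast_nonneg _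
  rw [hsum, abs_mul, abs_mul, abs_of_nonneg hlam0, abs_of_pos hq0]
  have hS : q * |∑ k ∈ I, ph a b N f k T| ≤ 2 * C0 * ((4 + PD) * q + 12 / M ^ 2) +
      2 * C0 / (nn N.i) ^ 3 * 2 ^ r := by
    calc q * |∑ k ∈ I, ph a b N f k T|
        ≤ q * (2 * C0 * (4 + (8 / M ^ 2 + 4 * (1 / M ^ 2)) * √(I.card : ℝ) + PD) +
          2 * C0 / (nn N.i) ^ 3 * I.card) := mul_le_mul_of_nonneg_left hbi hq0.le
      _ = 2 * C0 * ((4 + PD) * q + 12 / M ^ 2 * (q * √(I.card : ℝ))) +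
          2 * C0 / (nn N.i) ^ 3 * (q * I.card) := by ring
      _ ≤ 2 * C0 * ((4 + PD) * q + 12 / M ^ 2 * 1) + 2 * C0 / (nn N.i) ^ 3 * 2 ^ r := by
          have h1 : (0 : ℝ) ≤ 12 / M ^ 2 := by positivity
          have h2 : (0 : ℝ) ≤ 2 * C0 / (nn N.i : ℝ) ^ 3 := by positivity
          gcongr
      _ = _ := by rw [mul_one]
  have hT1 : M ^ 2 * ((4 + PD) * q) ≤ 1 := by
    calc M ^ 2 * ((4 + PD) * q) = (M ^ 2 * (4 + PD)) * q := by ring
      _ ≤ 2 ^ r * q := mul_le_mul_of_nonneg_right hnum1 hq0.le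
      _ = 1 := by rw [mul_comm, hqr]
  have hT2 : M ^ 2 * (2 * C0 / (nn N.i) ^ 3 * 2 ^ r) ≤ 2 * C0 := by
    rw [hnn]
    have h1 : M ^ 2 * (2 : ℝ) ^ r ≤ (Y ^ 2) ^ 3 := by
      calc M ^ 2 * (2 : ℝ) ^ r ≤ Y * Y := mul_le_mul hnum2 hpow2 (by positivity) (by positivity)
        _ = Y ^ 2 := by ring
        _ ≤ Y ^ 6 := pow_le_pow_right₀ hY1 (by norm_num)
        _ = (Y ^ 2) ^ 3 := by ring
    have h2 : M ^ 2 * (2 * C0 / (Y ^ 2) ^ 3 * 2 ^ r) = 2 * C0 * ((M ^ 2 * 2 ^ r) / (Y ^ 2) ^ 3) := by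
      ring
    rw [h2]
    have h3 : (M ^ 2 * (2 : ℝ) ^ r) / (Y ^ 2) ^ 3 ≤ 1 := (div_le_one (by positivity)).2 h1
    have h4 : (0 : ℝ) ≤ 2 * C0 := by positivity
    nlinarith
  have hT3 : M ^ 2 * (12 / M ^ 2) = 12 := by field_simp
  calc (lam N.i r : ℝ) * (q * |∑ k ∈ I, ph a b N f k T|)
      ≤ M ^ 2 * (2 * C0 * ((4 + PD) * q + 12 / M ^ 2) + 2 * C0 / (nn N.i) ^ 3 * 2 ^ r) :=
        mul_le_mul hlam hS (by positivity) (by positivity)
    _ = 2 * C0 * (M ^ 2 * ((4 + PD) * q) + M ^ 2 * (12 / M ^ 2)) +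
        M ^ 2 * (2 * C0 / (nn N.i) ^ 3 * 2 ^ r) := by ring
    _ ≤ 2 * C0 * (1 + 12) + 2 * C0 := by
        rw [hT3]
        have h4 : (0 : ℝ) ≤ 2 * C0 := by positivity
        nlinarith
    _ = 28 * C0 := by ring

end Pool.Agent.Helper60.HD
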