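import Pool.Agent.Helper60.HD.A1d

/-!
# The system of functionals of a special node
-/

set_option autoImplicit false

namespace Pool.Agent.Helper60.HD

lemma A1a_m_pos (i : ℕ) : (0 : ℝ) < m i := by
  have := m_ge i
  have h : 0 < m i := by omega
  exact_mod_cast h

lemma A1a_one_le_m (i : ℕ) : (1 : ℝ) ≤ m i := by
  have := m_ge i
  have h : 1 ≤ m i := by omega
  exact_mod_cast h

lemma A1a_al_eq (a b : ℕ) (N : ND) (f : Fin N.d → Tr) (t : Tr) :
    al a b (.node N f) t = ∑ k : Fin N.d, (open Classical in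
      if GoodC (N.v k) (f k) then (N.c k : ℝ) * m N.i else 0) * al1 a b N f k t := by
  classical
  have hm := A1a_m_pos N.i
  cases t with
  | leaf n => simp [al, al1]
  | comb p q s t A B => simp [al, al1]
  | node N' f' =>
    simp only [al, al1]
    by_cases hi : N.i = N'.i
    · simp only [hi, if_true]
      refine Finset.sum_congr rfl fun k _ => ?_
      rw [Finset.mul_sum]
      refine Finset.sum_congr rfl fun k' _ => ?_
      have hm' : (m N'.i : ℝ) ≠ 0 := (A1a_m_pos N'.i).ne'
      by_cases hg : GoodC (N.v k) (f k)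
      · by_cases h1 : f k = f' k' ∧ N.v k = N'.v k'
        · have : f k = f' k' ∧ N.v k = N'.v k' ∧ GoodC (N.v k) (f k) := ⟨h1.1, h1.2, hg⟩
          rw [if_pos this, if_pos hg, if_pos h1]
          field_simp
        · have : ¬ (f k = f' k' ∧ N.v k = N'.v k' ∧ GoodC (N.v k) (f k)) := fun h => h1 ⟨h.1, h.2.1⟩
          rw [if_neg this, if_neg h1, mul_zero]
      · have : ¬ (f k = f' k' ∧ N.v k = N'.v k' ∧ GoodC (N.v k) (f k)) := fun h => hg h.2.2
        rw [if_neg this, if_neg hg, zero_mul]
    · simp only [hi, if_false, mul_zero, Finset.sum_const_zero]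

lemma A1a_ph_fin (a b : ℕ) (N : ND) (f : Fin N.d → Tr) (k : Fin N.d) (T : Tr) :
    ph a b N f k T = open Classical in
      if GoodC (N.v k) (f k) then
        ip (ct a b (rv (N.v k))) (yv T) - lin (al1 a b N f k) T else 0 := by
  classical
  unfold ph
  rw [dif_pos k.2]

theorem be_eq (a b : ℕ) (N : ND) (f : Fin N.d → Tr) (T : Tr) :
    be a b (.node N f) T = lam N.i N.r * ∑ k : Fin N.d, (N.c k : ℝ) * ph a b N f k T := by
  classical
  have hm := A1a_m_pos N.i
  have h1 : lin (al a b (.node N f)) T = ∑ k : Fin N.d,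
      (if GoodC (N.v k) (f k) then (N.c k : ℝ) * m N.i else 0) * lin (al1 a b N f k) T := by
    have : al a b (.node N f) = fun t => ∑ k ∈ (Finset.univ : Finset (Fin N.d)),
        (fun (k : Fin N.d) (t : Tr) => (if GoodC (N.v k) (f k) then (N.c k : ℝ) * m N.i else 0) *
          al1 a b N f k t) k t := by
      funext t
      rw [A1a_al_eq]
    rw [this, lin_sum]
    refine Finset.sum_congr rfl fun k _ => ?_
    rw [lin_mul]
  have h2 : ip (ct a b (Tr.kp (.node N f))) (yv T) = lam N.i N.r * ∑ k : Fin N.d,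
      if GoodC (N.v k) (f k) then (N.c k : ℝ) * ip (ct a b (rv (N.v k))) (yv T) else 0 := by
    simp only [Tr.kp, KP]
    rw [map_smul, map_smul, LinearMap.smul_apply, smul_eq_mul, map_sum, map_sum,
      LinearMap.sum_apply]
    congr 1
    refine Finset.sum_congr rfl fun k _ => ?_
    split_ifs with h
    · rw [map_smul, map_smul, LinearMap.smul_apply, smul_eq_mul]
    · simp
  unfold be alp
  rw [h1, h2]
  simp only [Tr.lm]
  rw [Finset.mul_sum, Finset.mul_sum, Finset.mul_sum, ← Finset.sum_sub_distrib]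
  refine Finset.sum_congr rfl fun k _ => ?_
  rw [A1a_ph_fin]
  by_cases hg : GoodC (N.v k) (f k)
  · simp only [hg, if_true]
    field_simp
  · simp only [hg, if_false]
    ring

lemma A1a_al1_le (a b : ℕ) (N : ND) (f : Fin N.d → Tr) (k : Fin N.d) (t : Tr) (ht : Valid t) :
    |al1 a b N f k t| ≤ (|ip (ct a b (rv (N.v k))) (yv (f k))| / m N.i) * nch (f k) t := by
  classical
  have hm := A1a_m_pos N.i
  cases t with
  | leaf n => simp [al1, nch]
  | comb p q s t A B => simp [al1, nch]
  | node N' f' =>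
    simp only [al1, nch]
    have h0 : 0 ≤ |ip (ct a b (rv (N.v k))) (yv (f k))| / (m N.i : ℝ) := by positivity
    by_cases hi : N.i = N'.i
    · rw [if_pos hi, Finset.mul_sum]
      refine (Finset.abs_sum_le_sum_abs _ _).trans (Finset.sum_le_sum fun k' _ => ?_)
      by_cases h1 : f k = f' k' ∧ N.v k = N'.v k'
      · rw [if_pos h1]
        by_cases hc : N'.c k' = 0
        · rw [if_neg (fun h => h.1 hc), hc]
          simp
        · rw [if_pos ⟨hc, h1.1.symm⟩, mul_one, abs_mul, abs_div, abs_of_pos hm]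
          have hc1 := coef_le ht.2 k'
          rw [div_mul_eq_mul_div]
          refine div_le_div_of_nonneg_right ?_ hm.le
          calc |(N'.c k' : ℝ)| * |ip (ct a b (rv (N.v k))) (yv (f k))|
              ≤ 1 * |ip (ct a b (rv (N.v k))) (yv (f k))| :=
                mul_le_mul_of_nonneg_right hc1 (abs_nonneg _)
            _ = _ := one_mul _
      · rw [if_neg h1, abs_zero]
        refine mul_nonneg h0 ?_
        split_ifs <;> norm_num
    · rw [if_neg hi, abs_zero]
      refine mul_nonneg h0 (Finset.sum_nonneg fun k' _ => ?_)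
      split_ifs <;> norm_num

theorem ph_sys (a b : ℕ) (N : ND) (f : Fin N.d → Tr) (ho : Odd N.i) (hT : Valid (.node N f)) :
    Sys N.d (ph a b N f) (sl N f) (sh N f) (fun i => i = N.i) := by
  classical
  obtain ⟨hc, hN⟩ := valid_node.1 hT
  refine ⟨?_, ?_, ?_, ?_, ?_⟩
  · intro k hk
    simp only [sl, sh, dif_pos hk]
    exact lo_lt_hi (hc _)
  · intro k l hkl hl
    have hk : k < N.d := hkl.trans hl
    simp only [sl, sh, dif_pos hk, dif_pos hl]
    exact hN.suc _ _ (by exact hkl)
  · intro k hk p q s t A B _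
    have e := fun T => A1a_ph_fin a b N f ⟨k, hk⟩ T
    simp only at e
    rw [e, e, e]
    split_ifs with hg
    · rw [lin_comb]
      simp only [yv]
      rw [map_add, map_smul, map_smul, smul_eq_mul, smul_eq_mul]
      ring
    · ring
  · intro k hk N' f' _ hex
    have e := fun T => A1a_ph_fin a b N f ⟨k, hk⟩ T
    simp only at e
    have hne : N.i ≠ N'.i := fun h => hex h.symm
    rw [e]
    simp only [e]
    split_ifs with hg
    · rw [lin_node]
      have h0 : al1 a b N f ⟨k, hk⟩ (.node N' f') = 0 := by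
        simp only [al1]
        rw [if_neg hne]
      rw [h0]
      simp only [yv, ite_self, zero_add]
      rw [map_smul, map_sum, smul_eq_mul, ← mul_sub, ← Finset.sum_sub_distrib]
      congr 1
      refine Finset.sum_congr rfl fun s _ => ?_
      rw [map_smul, smul_eq_mul]
      ring
    · simp
  · intro k hk T hV hloc
    have e := A1a_ph_fin a b N f ⟨k, hk⟩ T
    simp only at e
    simp only [sl, sh, dif_pos hk] at hloc
    rw [e]
    split_ifs with hg
    · have h1 : ip (ct a b (rv (N.v ⟨k, hk⟩))) (yv T) = 0 := by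
        apply ip_disj
        intro n hn hy
        have h2 : N.v ⟨k, hk⟩ n ≠ 0 := by
          rw [ct_apply] at hn
          intro h0
          apply hn
          rw [rv_apply, h0]
          simp
        have h3 := hN.vs ho ⟨k, hk⟩ n (Finsupp.mem_support_iff.2 h2)
        have h4 := yv_supp hV hy
        omega
      have h2 : lin (al1 a b N f ⟨k, hk⟩) T = 0 := by
        refine lin_none hV (X := f ⟨k, hk⟩) (lo_lt_hi (hc _))
          (fun t ht => A1a_al1_le a b N f ⟨k, hk⟩ t ht) ?_
        rcases hloc with h | h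
        · exact Or.inl h
        · exact Or.inr (Or.inl h)
      rw [h1, h2, sub_zero]
    · rfl

lemma A1a_C0_pos : (0 : ℝ) < C0 := by unfold C0; norm_num

theorem ph_bd (a b : ℕ) (N : ND) (f : Fin N.d → Tr) (ho : Odd N.i) (hT : Valid (.node N f)) (k : ℕ)
    (T : Tr) (hV : Valid T) : |ph a b N f k T| ≤ 2 * C0 := by
  classical
  obtain ⟨hc, hN⟩ := valid_node.1 hT
  have hC := A1a_C0_pos
  have hm := A1a_one_le_m N.i
  by_cases hk : k < N.d
  · have e := A1a_ph_fin a b N f ⟨k, hk⟩ T
    simp only at e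
    rw [e]
    split_ifs with hg
    · obtain ⟨w, hw, hG⟩ := hg
      have h1 := (hG a b T hV).1
      have h2 := (hG a b (f ⟨k, hk⟩) (hc _)).1
      have h3 : |lin (al1 a b N f ⟨k, hk⟩) T| ≤ |ip (ct a b (rv (N.v ⟨k, hk⟩))) (yv (f ⟨k, hk⟩))| / m N.i :=
        lin_le hV (X := f ⟨k, hk⟩) (lo_lt_hi (hc _)) (by positivity)
          (fun t ht => A1a_al1_le a b N f ⟨k, hk⟩ t ht)
      have h4 : |ip (ct a b (rv (N.v ⟨k, hk⟩))) (yv (f ⟨k, hk⟩))| / (m N.i : ℝ) ≤ C0 := by
        rw [div_le_iff₀ (by linarith)]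
        nlinarith
      calc |ip (ct a b (rv (N.v ⟨k, hk⟩))) (yv T) - lin (al1 a b N f ⟨k, hk⟩) T|
          ≤ |ip (ct a b (rv (N.v ⟨k, hk⟩))) (yv T)| + |lin (al1 a b N f ⟨k, hk⟩) T| := abs_sub _ _
        _ ≤ 2 * C0 := by linarith
    · rw [abs_zero]; linarith
  · unfold ph
    rw [dif_neg hk, abs_zero]
    linarith

theorem ph_bc (a b : ℕ) (N : ND) (f : Fin N.d → Tr) (ho : Odd N.i) (hT : Valid (.node N f)) (k : ℕ)
    (T : Tr) (i : ℕ) (hV : Valid T) (hi : T.cls = some i) (hj : i ≠ N.i)
    (hk : ∀ h : k < N.d, (f ⟨k, h⟩).cls ≠ some i) : |ph a b N f k T| ≤ 2 * C0 / m i + C0 / (nn N.i) ^ 4 := by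
  classical
  obtain ⟨hc, hN⟩ := valid_node.1 hT
  have hC := A1a_C0_pos
  have hm := A1a_one_le_m N.i
  have hmi := A1a_one_le_m i
  have hmi0 := A1a_m_pos i
  have hn0 : (0 : ℝ) < nn N.i := by exact_mod_cast nn_pos N.i
  have hn4 : (0 : ℝ) < (nn N.i : ℝ) ^ 4 := by positivity
  have hR : 0 ≤ 2 * C0 / m i + C0 / (nn N.i : ℝ) ^ 4 := by positivity
  by_cases hkd : k < N.d
  · have e := A1a_ph_fin a b N f ⟨k, hkd⟩ T
    simp only at e
    rw [e]
    split_ifs with hg
    · obtain ⟨w, hw, hG⟩ := hg
      have hcl := hN.cls ho ⟨k, hkd⟩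
      have hwc : w = cod N.i (pre f N.v k) := by
        rw [hw] at hcl
        exact Option.some.inj hcl
      have hwi : w ≠ i := by
        intro h
        exact hk hkd (by rw [hw, h])
      have h1 : |ip (ct a b (rv (N.v ⟨k, hkd⟩))) (yv T)| ≤ C0 / m i + C0 / (nn N.i : ℝ) ^ 4 := by
        have hA := hG a b T hV
        rcases lt_or_gt_of_ne hwi with h | h
        · have h2 := hA.2.2 i hi h
          have h3 : C0 / (m w : ℝ) ≤ C0 / (nn N.i : ℝ) ^ 4 := by
            refine div_le_div_of_nonneg_left hC.le hn4 ?_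
            rw [hwc]
            exact cod_big _ _
          have h4 : 0 ≤ C0 / (m i : ℝ) := by positivity
          linarith
        · have h2 := hA.2.1 i hi h
          have h4 : 0 ≤ C0 / (nn N.i : ℝ) ^ 4 := by positivity
          linarith
      have h2 := (hG a b (f ⟨k, hkd⟩) (hc _)).1
      have h3 : |lin (al1 a b N f ⟨k, hkd⟩) T| ≤ C0 / m i := by
        cases T with
        | leaf n => simp at hi
        | comb p q s t A B => simp at hi
        | node N' f' =>
          simp only [cls_node, Option.some.injEq] at hi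
          have h5 := lin_le_node hV (φ := al1 a b N f ⟨k, hkd⟩) (X := f ⟨k, hkd⟩) (lo_lt_hi (hc _))
            (c := |ip (ct a b (rv (N.v ⟨k, hkd⟩))) (yv (f ⟨k, hkd⟩))| / m N.i) (by positivity)
            (fun t ht => A1a_al1_le a b N f ⟨k, hkd⟩ t ht) (by
              intro _
              simp only [al1]
              rw [if_neg]
              intro h
              exact hj (by rw [h, hi]))
          rw [hi] at h5
          refine h5.trans ?_
          refine div_le_div_of_nonneg_right ?_ hmi0.le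
          rw [div_le_iff₀ (by linarith)]
          nlinarith
      calc |ip (ct a b (rv (N.v ⟨k, hkd⟩))) (yv T) - lin (al1 a b N f ⟨k, hkd⟩) T|
          ≤ |ip (ct a b (rv (N.v ⟨k, hkd⟩))) (yv T)| + |lin (al1 a b N f ⟨k, hkd⟩) T| := abs_sub _ _
        _ ≤ (C0 / m i + C0 / (nn N.i : ℝ) ^ 4) + C0 / m i := add_le_add h1 h3
        _ = 2 * C0 / m i + C0 / (nn N.i : ℝ) ^ 4 := by ring
    · rw [abs_zero]; exact hR
  · unfold ph
    rw [dif_neg hkd, abs_zero]
    exact hR

end Pool.Agent.Helper60.HD
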