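import Pool.Agent.Helper60.HD.A1a

/-!
# Nodes of the same class
-/

set_option autoImplicit false

namespace Pool.Agent.Helper60.HD

lemma A1b_al1_le (a b : ℕ) (N : ND) (f : Fin N.d → Tr) (k : Fin N.d) (hf : Valid (f k))
    (hg : GoodC (N.v k) (f k)) (t : Tr) (ht : Valid t) :
    |al1 a b N f k t| ≤ C0 / m N.i * nch (f k) t := by
  classical
  have hm : (0 : ℝ) < m N.i := by
    have := m_ge N.i
    exact_mod_cast (by omega : 0 < m N.i)
  have hC : (0 : ℝ) ≤ C0 := by unfold C0; norm_num
  obtain ⟨c, hc, hG⟩ := hg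
  cases t with
  | leaf n => simp [al1, nch]
  | comb p q s t A B => simp [al1, nch]
  | node N' f' =>
    rw [al1, nch]
    split_ifs with h1
    · rw [Finset.mul_sum]
      refine (Finset.abs_sum_le_sum_abs _ _).trans (Finset.sum_le_sum fun s _ => ?_)
      by_cases h2 : f k = f' s ∧ N.v k = N'.v s
      · rw [if_pos h2]
        by_cases h3 : N'.c s = 0
        · rw [if_neg (by tauto), h3]
          simp
        · rw [if_pos ⟨h3, h2.1.symm⟩, mul_one, abs_mul, abs_div, abs_of_pos hm]
          have h4 := coef_le ht.2 s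
          have h5 := (hG a b (f k) hf).1
          calc |(N'.c s : ℝ)| / m N.i * |ip (ct a b (rv (N.v k))) (yv (f k))| ≤ 1 / m N.i * C0 := by
                refine mul_le_mul ?_ h5 (abs_nonneg _) (by positivity)
                exact div_le_div_of_nonneg_right h4 hm.le
            _ = C0 / m N.i := by ring
      · rw [if_neg h2, abs_zero]
        refine mul_nonneg (by positivity) ?_
        split_ifs <;> norm_num
    · rw [abs_zero]
      exact mul_nonneg (by positivity) (Finset.sum_nonneg fun s _ => by split_ifs <;> norm_num)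

lemma A1b_small (a b : ℕ) (N : ND) (f : Fin N.d → Tr) (ho : Odd N.i) (hT : Valid (.node N f))
    (N' : ND) (f' : Fin N'.d → Tr) (hT' : Valid (.node N' f')) (hi : N'.i = N.i) (k : ℕ)
    (hk : ∀ h : k < N.d, ∀ s, (f' s).cls = (f ⟨k, h⟩).cls → f ⟨k, h⟩ = f' s ∧ N.v ⟨k, h⟩ = N'.v s) :
    |ph a b N f k (.node N' f')| ≤ 2 * C0 / (nn N.i) ^ 3 := by
  classical
  have hm1 : (1 : ℝ) ≤ m N.i := by
    have := m_ge N.i
    exact_mod_cast (by omega : 1 ≤ m N.i)
  have hC : (0 : ℝ) ≤ C0 := by unfold C0; norm_num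
  have hn : (0 : ℝ) < nn N.i := by exact_mod_cast nn_pos N.i
  rw [ph]
  split_ifs with h1 h2
  · set K : Fin N.d := ⟨k, h1⟩ with hK
    have hk' := hk h1
    rw [← hK] at hk'
    have hfk : Valid (f K) := hT.1 K
    have hcls : (f K).cls = some (cod N.i (pre f N.v K)) := hT.2.cls ho K
    have hal := A1b_al1_le a b N f K hfk h2
    obtain ⟨c, hc, hG⟩ := h2
    have hcc : c = cod N.i (pre f N.v K) := by
      rw [hcls] at hc
      exact (Option.some.inj hc).symm
    have hbox := lo_lt_hi hfk
    set x : ℕ →₀ ℝ := ct a b (rv (N.v K)) with hx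
    -- terms
    have hX : ∀ s : Fin N'.d, |ip x (yv (f' s)) - lin (al1 a b N f K) (f' s) -
        (if f K = f' s ∧ N.v K = N'.v s then ip x (yv (f K)) else 0)| ≤ 2 * C0 / (nn N.i) ^ 4 := by
      intro s
      have hfs : Valid (f' s) := hT'.1 s
      by_cases h3 : f K = f' s ∧ N.v K = N'.v s
      · rw [if_pos h3, ← h3.1]
        have h4 : lin (al1 a b N f K) (f K) = 0 :=
          lin_none hfk hbox (c := C0 / m N.i) hal (Or.inr (Or.inr le_rfl))
        rw [h4]
        have : ip x (yv (f K)) - 0 - ip x (yv (f K)) = 0 := by ring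
        rw [this, abs_zero]
        positivity
      · rw [if_neg h3, sub_zero]
        have h4 : (f' s).cls ≠ (f K).cls := fun h => h3 (hk' s h)
        have ho' : Odd N'.i := by rw [hi]; exact ho
        have hcls' : (f' s).cls = some (cod N'.i (pre f' N'.v s)) := hT'.2.cls ho' s
        set c' := cod N'.i (pre f' N'.v s) with hc'
        have hne : c' ≠ c := by
          intro h
          apply h4
          rw [hcls', hc, h]
        have hb1 : (nn N.i : ℝ) ^ 4 ≤ m c' := by rw [hc', hi]; exact cod_big _ _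
        have hb2 : (nn N.i : ℝ) ^ 4 ≤ m c := by rw [hcc]; exact cod_big _ _
        have h5 : |ip x (yv (f' s))| ≤ C0 / (nn N.i) ^ 4 := by
          rcases lt_or_gt_of_ne hne with h | h
          · exact ((hG a b (f' s) hfs).2.1 c' hcls' h).trans (div_le_div_of_nonneg_left hC (by positivity) hb1)
          · exact ((hG a b (f' s) hfs).2.2 c' hcls' h).trans (div_le_div_of_nonneg_left hC (by positivity) hb2)
        have h6 : |lin (al1 a b N f K) (f' s)| ≤ C0 / (nn N.i) ^ 4 := by
          cases hfs' : f' s with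
          | leaf n => rw [hfs'] at hcls'; simp at hcls'
          | comb p q u v A B => rw [hfs'] at hcls'; simp at hcls'
          | node M g =>
            rw [hfs'] at hcls' hfs
            have h7 : M.i = c' := by simpa using hcls'
            have h8 : N.i < M.i := by rw [h7, hc', hi]; exact lt_cod _ _
            have h9 := lin_le_node hfs hbox (by positivity : (0 : ℝ) ≤ C0 / m N.i) hal
              (fun _ => by rw [al1, if_neg (by omega)])
            refine h9.trans ?_
            rw [h7]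
            calc C0 / m N.i / m c' ≤ C0 / m c' := by
                  refine div_le_div_of_nonneg_right (div_le_self hC hm1) ?_
                  exact Nat.cast_nonneg _
              _ ≤ C0 / (nn N.i) ^ 4 := div_le_div_of_nonneg_left hC (by positivity) hb1
        have h7 := abs_sub (ip x (yv (f' s))) (lin (al1 a b N f K) (f' s))
        calc |ip x (yv (f' s)) - lin (al1 a b N f K) (f' s)|
            ≤ |ip x (yv (f' s))| + |lin (al1 a b N f K) (f' s)| := h7
          _ ≤ C0 / (nn N.i) ^ 4 + C0 / (nn N.i) ^ 4 := add_le_add h5 h6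
          _ = 2 * C0 / (nn N.i) ^ 4 := by ring
    -- expansion
    have hexp : ip x (yv (.node N' f')) - lin (al1 a b N f K) (.node N' f')
        = ∑ s, (N'.c s : ℝ) / m N.i * (ip x (yv (f' s)) - lin (al1 a b N f K) (f' s) -
          (if f K = f' s ∧ N.v K = N'.v s then ip x (yv (f K)) else 0)) := by
      have ho' : Odd N'.i := by rw [hi]; exact ho
      rw [lin_node, if_pos ho', yv, map_smul, map_sum, al1, if_pos hi.symm, hi, smul_eq_mul,
        Finset.mul_sum, Finset.mul_sum, ← Finset.sum_add_distrib, ← Finset.sum_sub_distrib]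
      refine Finset.sum_congr rfl fun s _ => ?_
      rw [map_smul, smul_eq_mul]
      split_ifs <;> ring
    rw [hexp]
    calc |∑ s, (N'.c s : ℝ) / m N.i * (ip x (yv (f' s)) - lin (al1 a b N f K) (f' s) -
          (if f K = f' s ∧ N.v K = N'.v s then ip x (yv (f K)) else 0))|
        ≤ ∑ s : Fin N'.d, 2 * C0 / (nn N.i) ^ 4 := by
          refine (Finset.abs_sum_le_sum_abs _ _).trans (Finset.sum_le_sum fun s _ => ?_)
          rw [abs_mul]
          have h3 : |(N'.c s : ℝ) / m N.i| ≤ 1 := by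
            rw [abs_div, abs_of_pos (by linarith : (0 : ℝ) < m N.i), div_le_one (by linarith)]
            exact (coef_le hT'.2 s).trans hm1
          calc |(N'.c s : ℝ) / m N.i| * _ ≤ 1 * (2 * C0 / (nn N.i) ^ 4) :=
                mul_le_mul h3 (hX s) (abs_nonneg _) zero_le_one
            _ = 2 * C0 / (nn N.i) ^ 4 := one_mul _
      _ = N'.d * (2 * C0 / (nn N.i) ^ 4) := by
          rw [Finset.sum_const, Finset.card_univ, Fintype.card_fin, nsmul_eq_mul]
      _ ≤ nn N.i * (2 * C0 / (nn N.i) ^ 4) := by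
          refine mul_le_mul_of_nonneg_right ?_ (by positivity)
          have := hT'.2.dn
          rw [hi] at this
          exact_mod_cast this
      _ = 2 * C0 / (nn N.i) ^ 3 := by
          field_simp
  · rw [abs_zero]; positivity
  · rw [abs_zero]; positivity

lemma A1b_pre {d d' : ℕ} (f : Fin d → Tr) (v : Fin d → (ℕ →₀ ℚ)) (f' : Fin d' → Tr)
    (v' : Fin d' → (ℕ →₀ ℚ)) {l l' : ℕ} (hl : l < d) (hl' : l' < d') (h : pre f v l = pre f' v' l') :
    l = l' ∧ ∀ k (hk : k < l) (h1 : k < d) (h2 : k < d'), f ⟨k, h1⟩ = f' ⟨k, h2⟩ ∧ v ⟨k, h1⟩ = v' ⟨k, h2⟩ := by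
  have h1 : l = l' := by
    have := congrArg List.length h
    simp only [pre, List.length_take, List.length_ofFn] at this
    omega
  refine ⟨h1, ?_⟩
  subst h1
  intro k hk hd hd'
  have h2 : (pre f v l)[k]? = (pre f' v' l)[k]? := by rw [h]
  simp only [pre, List.getElem?_take, hk, if_true] at h2
  rw [List.getElem?_ofFn, List.getElem?_ofFn, dif_pos hd, dif_pos hd'] at h2
  simpa using h2

theorem ph_bx (a b : ℕ) (N : ND) (f : Fin N.d → Tr) (ho : Odd N.i) (hT : Valid (.node N f))
    (N' : ND) (f' : Fin N'.d → Tr) (hT' : Valid (.node N' f')) (hi : N'.i = N.i) (A : Finset ℕ) :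
    |∑ k ∈ A, ph a b N f k (.node N' f')| ≤ 2 * C0 + 2 * C0 / (nn N.i) ^ 3 * A.card := by
  classical
  have hC : (0 : ℝ) ≤ C0 := by unfold C0; norm_num
  have hn : (0 : ℝ) < nn N.i := by exact_mod_cast nn_pos N.i
  let bad : ℕ → Prop := fun k => ∃ h : k < N.d, ∃ s, (f' s).cls = (f ⟨k, h⟩).cls ∧
    ¬ (f ⟨k, h⟩ = f' s ∧ N.v ⟨k, h⟩ = N'.v s)
  have hcode : ∀ k (h : k < N.d) (s : Fin N'.d), (f' s).cls = (f ⟨k, h⟩).cls →
      k = s ∧ ∀ k' (hk : k' < k) (h1 : k' < N.d) (h2 : k' < N'.d),
        f ⟨k', h1⟩ = f' ⟨k', h2⟩ ∧ N.v ⟨k', h1⟩ = N'.v ⟨k', h2⟩ := by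
    intro k h s hcl
    have ho' : Odd N'.i := by rw [hi]; exact ho
    have h1 : (f' s).cls = some (cod N'.i (pre f' N'.v s)) := hT'.2.cls ho' s
    have h2 : (f ⟨k, h⟩).cls = some (cod N.i (pre f N.v k)) := hT.2.cls ho ⟨k, h⟩
    rw [h1, h2, hi] at hcl
    have h3 := cod_inj _ (Option.some.inj hcl)
    exact A1b_pre f N.v f' N'.v h s.2 h3.symm
  have hlt : ∀ k l, bad k → bad l → ¬ k < l := by
    rintro k l ⟨hk, s, hs1, hs2⟩ ⟨hl, s', hs1', _⟩ hkl
    obtain ⟨h1, -⟩ := hcode k hk s hs1
    obtain ⟨h2, h3⟩ := hcode l hl s' hs1'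
    apply hs2
    have h4 : s = ⟨k, by rw [h1]; exact s.2⟩ := Fin.ext h1.symm
    rw [h4]
    exact h3 k hkl hk _
  have huniq : ∀ k l, bad k → bad l → k = l := fun k l h1 h2 => by
    rcases lt_trichotomy k l with h | h | h
    · exact absurd h (hlt k l h1 h2)
    · exact h
    · exact absurd h (hlt l k h2 h1)
  have hgood : ∀ k, ¬ bad k → |ph a b N f k (.node N' f')| ≤ 2 * C0 / (nn N.i) ^ 3 := by
    intro k hk
    refine A1b_small a b N f ho hT N' f' hT' hi k ?_
    intro h s hs
    by_contra hcon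
    exact hk ⟨h, s, hs, hcon⟩
  have hsplit : ∑ k ∈ A, ph a b N f k (.node N' f') = ∑ k ∈ A.filter bad, ph a b N f k (.node N' f') +
      ∑ k ∈ A.filter (fun k => ¬ bad k), ph a b N f k (.node N' f') :=
    (Finset.sum_filter_add_sum_filter_not A bad _).symm
  have hcard : (A.filter bad).card ≤ 1 := by
    rw [Finset.card_le_one]
    intro k hk l hl
    exact huniq k l (Finset.mem_filter.1 hk).2 (Finset.mem_filter.1 hl).2
  have h1 : |∑ k ∈ A.filter bad, ph a b N f k (.node N' f')| ≤ 2 * C0 := by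
    calc |∑ k ∈ A.filter bad, ph a b N f k (.node N' f')|
        ≤ ∑ k ∈ A.filter bad, 2 * C0 := by
          refine (Finset.abs_sum_le_sum_abs _ _).trans (Finset.sum_le_sum fun k _ => ?_)
          exact ph_bd a b N f ho hT k _ hT'
      _ = (A.filter bad).card * (2 * C0) := by rw [Finset.sum_const, nsmul_eq_mul]
      _ ≤ 1 * (2 * C0) := by
          refine mul_le_mul_of_nonneg_right ?_ (by positivity)
          exact_mod_cast hcard
      _ = 2 * C0 := one_mul _
  have h2 : |∑ k ∈ A.filter (fun k => ¬ bad k), ph a b N f k (.node N' f')| ≤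
      2 * C0 / (nn N.i) ^ 3 * A.card := by
    calc |∑ k ∈ A.filter (fun k => ¬ bad k), ph a b N f k (.node N' f')|
        ≤ ∑ k ∈ A.filter (fun k => ¬ bad k), 2 * C0 / (nn N.i) ^ 3 := by
          refine (Finset.abs_sum_le_sum_abs _ _).trans (Finset.sum_le_sum fun k hk => ?_)
          exact hgood k (Finset.mem_filter.1 hk).2
      _ = (A.filter (fun k => ¬ bad k)).card * (2 * C0 / (nn N.i) ^ 3) := by
          rw [Finset.sum_const, nsmul_eq_mul]
      _ ≤ A.card * (2 * C0 / (nn N.i) ^ 3) := by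
          refine mul_le_mul_of_nonneg_right ?_ (by positivity)
          exact_mod_cast Finset.card_filter_le _ _
      _ = 2 * C0 / (nn N.i) ^ 3 * A.card := mul_comm _ _
  rw [hsplit]
  exact (abs_add_le _ _).trans (add_le_add h1 h2)

end Pool.Agent.Helper60.HD
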