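import Pool.Agent.Helper60.HD.Spl

/-!
# The basic inequality
-/

set_option autoImplicit false

namespace Pool.Agent.Helper60.HD

variable {K : ℕ} {φ : ℕ → Tr → ℝ} {lo hi : ℕ → ℕ} {ex : ℕ → Prop}

/-- a leaf meets at most one slot -/
lemma BIa_leaf (S : Sys K φ lo hi ex) (n : ℕ) (A : Finset ℕ) (hA : Cvx K A) :
    (∑ k ∈ A, φ k (.leaf n) = 0) ∨ ∃ k ∈ A, ∑ k ∈ A, φ k (.leaf n) = φ k (.leaf n) := by
  classical
  by_cases h : ∃ k ∈ A, lo k ≤ n ∧ n < hi k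
  · obtain ⟨k, hk, h1, h2⟩ := h
    right
    refine ⟨k, hk, ?_⟩
    rw [Finset.sum_eq_single_of_mem k hk]
    intro l hl hlk
    have hkK := hA.1 k hk
    have hlK := hA.1 l hl
    apply S.loc l hlK _ (valid_leaf n)
    rcases lt_or_gt_of_ne hlk with h' | h'
    · right
      have := S.suc l k h' hkK
      simp only [lo_leaf]
      omega
    · left
      have := S.suc k l h' hlK
      simp only [hi_leaf]
      omega
  · left
    apply Finset.sum_eq_zero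
    intro k hk
    apply S.loc k (hA.1 k hk) _ (valid_leaf n)
    by_contra h'
    apply h
    refine ⟨k, hk, ?_⟩
    simp only [hi_leaf, lo_leaf, not_or, not_le] at h'
    omega

/-- bound at a leaf -/
lemma BIa_leaf_le (S : Sys K φ lo hi ex) (n : ℕ) (A : Finset ℕ) (hA : Cvx K A) (R : ℝ) (hR : 0 ≤ R)
    (h : ∀ k ∈ A, |φ k (.leaf n)| ≤ R) : |∑ k ∈ A, φ k (.leaf n)| ≤ R := by
  rcases BIa_leaf S n A hA with h0 | ⟨k, hk, h1⟩
  · rw [h0, abs_zero]; exact hR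
  · rw [h1]; exact h k hk

/-- bound at a combination -/
lemma BIa_comb_le (S : Sys K φ lo hi ex) {p q : ℕ} {s t : ℚ} {B B' : Tr} (hT : Valid (.comb p q s t B B'))
    (A : Finset ℕ) (hA : Cvx K A) (R : ℝ) (hR : 0 ≤ R)
    (h1 : |∑ k ∈ A, φ k B| ≤ R) (h2 : |∑ k ∈ A, φ k B'| ≤ R) :
    |∑ k ∈ A, φ k (.comb p q s t B B')| ≤ R := by
  have e : ∑ k ∈ A, φ k (.comb p q s t B B') = (s : ℝ) * ∑ k ∈ A, φ k B + (t : ℝ) * ∑ k ∈ A, φ k B' := by
    rw [Finset.mul_sum, Finset.mul_sum, ← Finset.sum_add_distrib]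
    exact Finset.sum_congr rfl fun k hk => S.comb k (hA.1 k hk) _ _ _ _ _ _ hT
  have hst : |(s : ℝ)| + |(t : ℝ)| ≤ 1 := by
    have := hT.2.2.1
    exact_mod_cast this
  rw [e]
  calc |(s : ℝ) * ∑ k ∈ A, φ k B + (t : ℝ) * ∑ k ∈ A, φ k B'|
      ≤ |(s : ℝ)| * |∑ k ∈ A, φ k B| + |(t : ℝ)| * |∑ k ∈ A, φ k B'| := by
        rw [← abs_mul, ← abs_mul]; exact abs_add_le _ _
    _ ≤ |(s : ℝ)| * R + |(t : ℝ)| * R := by gcongr
    _ = (|(s : ℝ)| + |(t : ℝ)|) * R := by ring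
    _ ≤ 1 * R := by gcongr
    _ = R := one_mul R

lemma BIa_sqrt8 : √8 ≤ (3 : ℝ) := by
  rw [show (3 : ℝ) = √(3 ^ 2) by rw [Real.sqrt_sq (by norm_num)]]
  exact Real.sqrt_le_sqrt (by norm_num)

lemma BIa_csum {N : ND} {f : Fin N.d → Tr} (hN : NodeOk N f) : ∑ s, (N.c s : ℝ) ^ 2 ≤ 1 := by
  have := hN.sq
  exact_mod_cast this

lemma BIa_cle {N : ND} {f : Fin N.d → Tr} (hN : NodeOk N f) (s : Fin N.d) : |(N.c s : ℝ)| ≤ 1 := by
  have h1 : (N.c s : ℝ) ^ 2 ≤ 1 :=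
    le_trans (Finset.single_le_sum (f := fun s => (N.c s : ℝ) ^ 2) (fun i _ => sq_nonneg _) (Finset.mem_univ s))
      (BIa_csum hN)
  exact abs_le_one_iff_mul_self_le_one.2 (by nlinarith)

lemma BIa_mpos (i : ℕ) : (0 : ℝ) < m i := by
  have := m_ge i
  have h : (65536 : ℝ) ≤ m i := by exact_mod_cast this
  linarith

lemma BIa_inv (i : ℕ) : 1 / (m i : ℝ) ≤ 1 / 65536 := by
  have := m_ge i
  have h : (65536 : ℝ) ≤ m i := by exact_mod_cast this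
  exact one_div_le_one_div_of_le (by norm_num) h

lemma BIa_inv0 (i : ℕ) : 0 ≤ 1 / (m i : ℝ) := by
  have := BIa_mpos i
  positivity

/-- the sum over the cut slots -/
lemma BIa_cut {cut : Finset ℕ} {μ g b : ℕ → ℝ} (h0 : ∀ k ∈ cut, 0 ≤ μ k) (hμ : ∑ k ∈ cut, μ k ^ 2 ≤ 8)
    (hg : ∀ k ∈ cut, |g k| ≤ b k) : |∑ k ∈ cut, μ k * g k| ≤ 3 * √(∑ k ∈ cut, b k ^ 2) := by
  calc |∑ k ∈ cut, μ k * g k| ≤ ∑ k ∈ cut, |μ k * g k| := Finset.abs_sum_le_sum_abs _ _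
    _ ≤ ∑ k ∈ cut, μ k * b k := by
        apply Finset.sum_le_sum
        intro k hk
        rw [abs_mul, abs_of_nonneg (h0 k hk)]
        exact mul_le_mul_of_nonneg_left (hg k hk) (h0 k hk)
    _ ≤ √(∑ k ∈ cut, μ k ^ 2) * √(∑ k ∈ cut, b k ^ 2) := Real.sum_mul_le_sqrt_mul_sqrt _ _ _
    _ ≤ √8 * √(∑ k ∈ cut, b k ^ 2) := by gcongr
    _ ≤ 3 * √(∑ k ∈ cut, b k ^ 2) := by
        have := BIa_sqrt8
        gcongr

/-- the sum over the children -/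
lemma BIa_child {N : ND} {f : Fin N.d → Tr} (hN : NodeOk N f) {G X Y : Fin N.d → ℝ}
    {Z ε : ℝ} (hZ : 0 ≤ Z) (hε : 0 ≤ ε) (hX : ∀ s, 0 ≤ X s) (hY : ∀ s, 0 ≤ Y s)
    (hG : ∀ s, |G s| ≤ Z * √(X s) + ε * Y s) :
    |1 / (m N.i : ℝ) * ∑ s, (N.c s : ℝ) * G s| ≤ Z / m N.i * √(∑ s, X s) + ε * ∑ s, Y s := by
  have hm := BIa_mpos N.i
  have h1 : |∑ s, (N.c s : ℝ) * G s| ≤ Z * √(∑ s, X s) + ε * ∑ s, Y s := by
    calc |∑ s, (N.c s : ℝ) * G s| ≤ ∑ s, |(N.c s : ℝ) * G s| := Finset.abs_sum_le_sum_abs _ _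
      _ ≤ ∑ s, (Z * (|(N.c s : ℝ)| * √(X s)) + ε * Y s) := by
          apply Finset.sum_le_sum
          intro s _
          rw [abs_mul]
          have hc := BIa_cle hN s
          have h2 := hG s
          have h3 : 0 ≤ |(N.c s : ℝ)| := abs_nonneg _
          have h4 : 0 ≤ √(X s) := Real.sqrt_nonneg _
          calc |(N.c s : ℝ)| * |G s| ≤ |(N.c s : ℝ)| * (Z * √(X s) + ε * Y s) := by gcongr
            _ = Z * (|(N.c s : ℝ)| * √(X s)) + |(N.c s : ℝ)| * (ε * Y s) := by ring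
            _ ≤ Z * (|(N.c s : ℝ)| * √(X s)) + 1 * (ε * Y s) := by
                have : 0 ≤ ε * Y s := mul_nonneg hε (hY s)
                gcongr
            _ = _ := by ring
      _ = Z * (∑ s, |(N.c s : ℝ)| * √(X s)) + ε * ∑ s, Y s := by
          rw [Finset.sum_add_distrib, Finset.mul_sum, Finset.mul_sum]
      _ ≤ Z * (√(∑ s, |(N.c s : ℝ)| ^ 2) * √(∑ s, √(X s) ^ 2)) + ε * ∑ s, Y s := by
          gcongr
          exact Real.sum_mul_le_sqrt_mul_sqrt _ _ _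
      _ ≤ Z * (1 * √(∑ s, X s)) + ε * ∑ s, Y s := by
          have e1 : √(∑ s, |(N.c s : ℝ)| ^ 2) ≤ 1 := by
            rw [Real.sqrt_le_one]
            simp only [sq_abs]
            exact BIa_csum hN
          have e2 : √(∑ s, √(X s) ^ 2) = √(∑ s, X s) := by
            congr 1
            exact Finset.sum_congr rfl fun s _ => Real.sq_sqrt (hX s)
          rw [e2]
          gcongr
      _ = _ := by ring
  rw [abs_mul, abs_of_nonneg (BIa_inv0 N.i)]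
  have h5 : 1 / (m N.i : ℝ) ≤ 1 := (BIa_inv N.i).trans (by norm_num)
  have h6 : 0 ≤ ε * ∑ s, Y s := mul_nonneg hε (Finset.sum_nonneg fun s _ => hY s)
  calc 1 / (m N.i : ℝ) * |∑ s, (N.c s : ℝ) * G s| ≤ 1 / (m N.i : ℝ) * (Z * √(∑ s, X s) + ε * ∑ s, Y s) := by
        have := BIa_inv0 N.i
        gcongr
    _ = Z / m N.i * √(∑ s, X s) + 1 / (m N.i : ℝ) * (ε * ∑ s, Y s) := by ring
    _ ≤ Z / m N.i * √(∑ s, X s) + 1 * (ε * ∑ s, Y s) := by gcongr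
    _ = _ := by ring

/-- the upper 2-estimate for systems -/
theorem l2_est (S : Sys K φ lo hi ex) (b : ℕ → ℝ) (hb0 : ∀ k, 0 ≤ b k)
    (hb : ∀ k < K, ∀ T, Valid T → |φ k T| ≤ b k) (ε : ℝ) (hε : 0 ≤ ε)
    (hex : ∀ N f, Valid (.node N f) → ex N.i → ∀ A, Cvx K A →
      |∑ k ∈ A, φ k (.node N f)| ≤ 4 * √(∑ k ∈ A, b k ^ 2) + ε * A.card) :
    ∀ T, Valid T → ∀ A, Cvx K A → |∑ k ∈ A, φ k T| ≤ 4 * √(∑ k ∈ A, b k ^ 2) + ε * A.card := by
  have hR : ∀ A : Finset ℕ, 0 ≤ 4 * √(∑ k ∈ A, b k ^ 2) + ε * A.card := fun A => by positivity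
  intro T
  induction T with
  | leaf n =>
    intro hT A hA
    apply BIa_leaf_le S n A hA _ (hR A)
    intro k hk
    have h1 : b k ≤ √(∑ k ∈ A, b k ^ 2) := by
      apply Real.le_sqrt_of_sq_le
      exact Finset.single_le_sum (f := fun k => b k ^ 2) (fun i _ => sq_nonneg _) hk
    have h2 := hb k (hA.1 k hk) _ hT
    have h3 : 0 ≤ ε * A.card := by positivity
    have h4 : 0 ≤ √(∑ k ∈ A, b k ^ 2) := Real.sqrt_nonneg _
    linarith
  | comb p q s t B B' ih1 ih2 =>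
    intro hT A hA
    exact BIa_comb_le S hT A hA _ (hR A) (ih1 hT.1 A hA) (ih2 hT.2.1 A hA)
  | node N f ih =>
    intro hT A hA
    by_cases hi' : ex N.i
    · exact hex N f hT hi' A hA
    obtain ⟨cut, As, μ, U, h1, h2, h3, h4, h5, h6, h7⟩ := node_split S N f hT hi' A hA
    rw [h7]
    have hN : NodeOk N f := hT.2
    have e1 := BIa_cut (g := fun k => φ k (U k)) (b := b) (fun k hk => (h5 k hk).1) h6
      (fun k hk => hb k (hA.1 k (h1 hk)) _ (h5 k hk).2.2.1)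
    have e2 := BIa_child (N := N) (f := f) hN (G := fun s => ∑ k ∈ As s, φ k (f s))
      (X := fun s => ∑ k ∈ As s, b k ^ 2) (Y := fun s => ((As s).card : ℝ)) (Z := 4) (ε := ε) (by norm_num) hε
      (fun s => Finset.sum_nonneg fun k _ => sq_nonneg _) (fun s => by positivity)
      (fun s => ih s (hT.1 s) (As s) (h2 s).1)
    have e3 := h3 (fun k => b k ^ 2) (fun k => sq_nonneg _)
    have e4 := h3 (fun _ => 1) (fun _ => zero_le_one)
    simp only [Finset.sum_const, nsmul_eq_mul, mul_one] at e4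
    have e5 : √(∑ k ∈ cut, b k ^ 2) ≤ √(∑ k ∈ A, b k ^ 2) := by
      apply Real.sqrt_le_sqrt
      have : 0 ≤ ∑ s, ∑ k ∈ As s, b k ^ 2 := Finset.sum_nonneg fun s _ => Finset.sum_nonneg fun k _ => sq_nonneg _
      linarith
    have e6 : √(∑ s, ∑ k ∈ As s, b k ^ 2) ≤ √(∑ k ∈ A, b k ^ 2) := by
      apply Real.sqrt_le_sqrt
      have : 0 ≤ ∑ k ∈ cut, b k ^ 2 := Finset.sum_nonneg fun k _ => sq_nonneg _
      linarith
    have e7 : 4 / (m N.i : ℝ) ≤ 1 := by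
      have := BIa_inv N.i
      rw [show 4 / (m N.i : ℝ) = 4 * (1 / (m N.i : ℝ)) by ring]
      linarith
    have e8 : 4 / (m N.i : ℝ) * √(∑ s, ∑ k ∈ As s, b k ^ 2) ≤ 1 * √(∑ k ∈ A, b k ^ 2) := by
      have := Real.sqrt_nonneg (∑ s, ∑ k ∈ As s, b k ^ 2)
      gcongr
    have e9 : ε * ∑ s, ((As s).card : ℝ) ≤ ε * A.card := by
      have : (0 : ℝ) ≤ cut.card := by positivity
      have : ∑ s, ((As s).card : ℝ) ≤ A.card := by linarith
      gcongr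
    have e10 := abs_add_le (∑ k ∈ cut, μ k * φ k (U k)) (1 / (m N.i : ℝ) * ∑ s, (N.c s : ℝ) * ∑ k ∈ As s, φ k (f s))
    linarith

/-- hypotheses of the basic inequality -/
structure BIH (K : ℕ) (φ : ℕ → Tr → ℝ) (lo hi : ℕ → ℕ) (ex : ℕ → Prop) (C ε : ℝ)
    (exc : ℕ → ℕ → Prop) : Prop extends Sys K φ lo hi ex where
  C0 : 0 ≤ C
  e0 : 0 ≤ ε
  bd : ∀ k < K, ∀ T, Valid T → |φ k T| ≤ C
  bc : ∀ k < K, ∀ T i, Valid T → T.cls = some i → ¬ ex i → ¬ exc k i → |φ k T| ≤ C / m i + ε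
  uni : ∀ i k l, k < K → l < K → exc k i → exc l i → k = l
  bx : ∀ N f, Valid (.node N f) → ex N.i → ∀ A, Cvx K A → |∑ k ∈ A, φ k (.node N f)| ≤ C + ε * A.card

variable {C ε : ℝ} {exc : ℕ → ℕ → Prop}

theorem bi_l2 (H : BIH K φ lo hi ex C ε exc) (T : Tr) (hT : Valid T) (A : Finset ℕ) (hA : Cvx K A) :
    |∑ k ∈ A, φ k T| ≤ 4 * C * √A.card + ε * A.card := by
  have hC := H.C0
  have e : ∀ A : Finset ℕ, √(∑ _k ∈ A, C ^ 2) = C * √A.card := by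
    intro A
    rw [Finset.sum_const, nsmul_eq_mul, Real.sqrt_mul (by positivity), Real.sqrt_sq hC, mul_comm]
  have h := l2_est H.toSys (fun _ => C) (fun _ => hC) H.bd ε H.e0 (by
    intro N f hN hi' B hB
    rw [e]
    by_cases hB0 : B = ∅
    · subst hB0; simp
    · have h1 := H.bx N f hN hi' B hB
      have h2 : 1 ≤ B.card := Finset.card_pos.2 (Finset.nonempty_iff_ne_empty.2 hB0)
      have h3 : (1 : ℝ) ≤ √B.card := by
        rw [Real.one_le_sqrt]; exact_mod_cast h2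
      nlinarith [mul_nonneg hC (sub_nonneg.2 h3)]) T hT A hA
  rw [e] at h
  linarith

end Pool.Agent.Helper60.HD
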