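import Pool.Agent.Helper60.HD.Rec
import Pool.Agent.Helper60.HD.BIa

/-!
# Functionals attached to the members of a special sequence
-/

set_option autoImplicit false

namespace Pool.Agent.Helper60.HD

open Classical in
/-- alignment with the `k`-th member of a special node, at one node -/
noncomputable def al1 (a b : ℕ) (N : ND) (f : Fin N.d → Tr) (k : Fin N.d) : Tr → ℝ
  | .leaf _ => 0
  | .comb _ _ _ _ _ _ => 0
  | .node N' f' => if N.i = N'.i then ∑ k', if f k = f' k' ∧ N.v k = N'.v k' then
      (N'.c k' : ℝ) / m N.i * ip (ct a b (rv (N.v k))) (yv (f k)) else 0 else 0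

open Classical in
/-- the functional of the `k`-th member of a special node -/
noncomputable def ph (a b : ℕ) (N : ND) (f : Fin N.d → Tr) (k : ℕ) (T : Tr) : ℝ :=
  if h : k < N.d then
    if GoodC (N.v ⟨k, h⟩) (f ⟨k, h⟩) then
      ip (ct a b (rv (N.v ⟨k, h⟩))) (yv T) - lin (al1 a b N f ⟨k, h⟩) T else 0
  else 0

/-- slots of a special node -/
def sl (N : ND) (f : Fin N.d → Tr) (k : ℕ) : ℕ := if h : k < N.d then (f ⟨k, h⟩).lo else 0

/-- slots of a special node -/
def sh (N : ND) (f : Fin N.d → Tr) (k : ℕ) : ℕ := if h : k < N.d then (f ⟨k, h⟩).hi else 0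

end Pool.Agent.Helper60.HD
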