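import Pool.Agent.Helper60.HD.ResA

/-!
# Restrictions of nodes and trees
-/

set_option autoImplicit false

namespace Pool.Agent.Helper60.HD

/-- absolutely convex combinations of trees -/
theorem lin_tr (a b : ℕ) (hab : a < b) {ι : Type} (S : Finset ι) (c : ι → ℚ) (T : ι → Tr)
    (hT : ∀ k ∈ S, Valid (T k) ∧ a ≤ (T k).lo ∧ (T k).hi ≤ b) (hc : ∑ k ∈ S, |c k| ≤ 1) :
    ∃ U, Valid U ∧ U.lo = a ∧ U.hi = b ∧ yv U = ∑ k ∈ S, (c k : ℝ) • yv (T k) := by
  classical
  induction S using Finset.induction_on generalizing c with
  | empty =>
    refine ⟨.comb a b 0 0 (.leaf a) (.leaf a), ?_, rfl, rfl, ?_⟩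
    · rw [valid_comb]
      refine ⟨valid_leaf a, valid_leaf a, by norm_num, le_refl a, ?_, le_refl a, ?_⟩
      · simpa using hab
      · simpa using hab
    · simp [yv]
  | insert k S hk ih =>
    rw [Finset.sum_insert hk] at hc
    have hTk := hT k (Finset.mem_insert_self k S)
    have hTS : ∀ j ∈ S, Valid (T j) ∧ a ≤ (T j).lo ∧ (T j).hi ≤ b :=
      fun j hj => hT j (Finset.mem_insert_of_mem hj)
    have hσ0 : 0 ≤ ∑ j ∈ S, |c j| := Finset.sum_nonneg fun j _ => abs_nonneg _
    rcases hσ0.eq_or_lt with h0 | hpos
    · have hz : ∀ j ∈ S, c j = 0 := by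
        intro j hj
        have := (Finset.sum_eq_zero_iff_of_nonneg (fun j _ => abs_nonneg (c j))).1 h0.symm j hj
        exact abs_eq_zero.1 this
      refine ⟨.comb a b (c k) 0 (T k) (T k), ?_, rfl, rfl, ?_⟩
      · rw [valid_comb]
        refine ⟨hTk.1, hTk.1, ?_, hTk.2.1, hTk.2.2, hTk.2.1, hTk.2.2⟩
        rw [abs_zero, add_zero]
        rw [← h0, add_zero] at hc
        exact hc
      · rw [Finset.sum_insert hk]
        have e1 : ∑ j ∈ S, (c j : ℝ) • yv (T j) = 0 := by
          refine Finset.sum_eq_zero fun j hj => ?_
          rw [hz j hj, Rat.cast_zero, zero_smul]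
        rw [e1]
        simp [yv]
    · set σ : ℚ := ∑ j ∈ S, |c j| with hσ
      obtain ⟨U, hU1, hU2, hU3, hU4⟩ := ih (fun j => c j / σ) hTS (by
        have e : ∑ j ∈ S, |c j / σ| = 1 := by
          have e2 : ∀ j ∈ S, |c j / σ| = |c j| / σ := by
            intro j _
            rw [abs_div, abs_of_pos hpos]
          rw [Finset.sum_congr rfl e2, ← Finset.sum_div, ← hσ, div_self hpos.ne']
        exact e.le)
      refine ⟨.comb a b (c k) σ (T k) U, ?_, rfl, rfl, ?_⟩
      · rw [valid_comb]
        refine ⟨hTk.1, hU1, ?_, hTk.2.1, hTk.2.2, hU2.ge, hU3.le⟩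
        rw [abs_of_pos hpos]
        exact hc
      · rw [Finset.sum_insert hk]
        simp only [yv]
        rw [hU4, Finset.smul_sum]
        congr 1
        refine Finset.sum_congr rfl fun j _ => ?_
        rw [smul_smul]
        congr 1
        have hσ' : (σ : ℝ) ≠ 0 := by exact_mod_cast hpos.ne'
        push_cast
        field_simp

theorem res_ct {T : Tr} (hT : Valid T) (a b : ℕ) :
    ct a b (yv T) = ct (max a T.lo) (min b T.hi) (yv T) := by
  have h : ct T.lo T.hi (yv T) = yv T := ct_self fun k hk => yv_supp hT hk
  rw [← ct_ct, h]

/-- restriction of a tree to an interval -/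
theorem restr (T : Tr) (hT : Valid T) (a b : ℕ) (hab : a < b) :
    ∃ U, Valid U ∧ U.lo = a ∧ U.hi = b ∧ ct a b (yv T) = (2 : ℝ) • yv U := by
  classical
  induction T generalizing a b with
  | leaf n =>
    by_cases h : a ≤ n ∧ n < b
    · refine ⟨.comb a b (1 / 2) 0 (.leaf n) (.leaf n), ?_, rfl, rfl, ?_⟩
      · rw [valid_comb]
        refine ⟨valid_leaf n, valid_leaf n, ?_, h.1, ?_, h.1, ?_⟩
        · rw [abs_of_nonneg (by norm_num), abs_zero]
          norm_num
        · simpa using h.2
        · simpa using h.2
      · have e : ct a b (yv (.leaf n)) = yv (.leaf n) := by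
          refine ct_self fun k hk => ?_
          have := yv_supp (valid_leaf n) hk
          simp only [lo_leaf, hi_leaf] at this
          omega
        rw [e]
        simp [yv]
    · refine ⟨.comb a b 0 0 (.leaf a) (.leaf a), ?_, rfl, rfl, ?_⟩
      · rw [valid_comb]
        refine ⟨valid_leaf a, valid_leaf a, by norm_num, le_refl a, ?_, le_refl a, ?_⟩
        · simpa using hab
        · simpa using hab
      · have e : ct a b (yv (.leaf n)) = 0 := by
          refine ct_none fun k hk => ?_
          have := yv_supp (valid_leaf n) hk
          simp only [lo_leaf, hi_leaf] at this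
          omega
        rw [e]
        simp [yv]
  | comb p q s t A B ihA ihB =>
    rw [valid_comb] at hT
    obtain ⟨hA, hB, hst, -, -, -, -⟩ := hT
    obtain ⟨A', hA1, hA2, hA3, hA4⟩ := ihA hA a b hab
    obtain ⟨B', hB1, hB2, hB3, hB4⟩ := ihB hB a b hab
    refine ⟨.comb a b s t A' B', ?_, rfl, rfl, ?_⟩
    · rw [valid_comb]
      exact ⟨hA1, hB1, hst, hA2.ge, hA3.le, hB2.ge, hB3.le⟩
    · simp only [yv]
      rw [map_add, map_smul, map_smul, hA4, hB4, smul_add, smul_comm, smul_comm (t : ℝ)]
  | node N f ih =>
    obtain ⟨hv, hn⟩ := valid_node.1 hT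
    have hU : ∀ k, ∃ U, Valid U ∧ (a < (f k).hi → (f k).lo < b →
        U.lo = max a (f k).lo ∧ U.hi = min b (f k).hi ∧ ct a b (yv (f k)) = (2 : ℝ) • yv U) ∧
        (¬ (a < (f k).hi ∧ (f k).lo < b) → U = f k) := by
      intro k
      by_cases h : a < (f k).hi ∧ (f k).lo < b
      · have hlt : max a (f k).lo < min b (f k).hi := by
          have := lo_lt_hi (hv k)
          rw [max_lt_iff, lt_min_iff, lt_min_iff]
          exact ⟨⟨hab, h.1⟩, h.2, this⟩
        obtain ⟨U, h1, h2, h3, h4⟩ := ih k (hv k) _ _ hlt
        refine ⟨U, h1, fun _ _ => ⟨h2, h3, ?_⟩, fun h' => absurd h h'⟩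
        rw [res_ct (hv k), h4]
      · exact ⟨f k, hv k, fun h1 h2 => absurd ⟨h1, h2⟩ h, fun _ => rfl⟩
    choose U hU1 hU2 hU3 using hU
    have hno : ∀ k, ¬ (a < (f k).hi ∧ (f k).lo < b) → ct a b (yv (f k)) = 0 := by
      intro k hk
      refine ct_none fun n hn' => ?_
      have := yv_supp (hv k) hn'
      omega
    by_cases ho : Odd N.i
    · -- special node
      set S : Finset (Fin N.d) := Finset.univ.filter fun k => a ≤ (f k).lo ∧ (f k).hi ≤ b with hSdef
      have hmS : ∀ k, k ∈ S ↔ a ≤ (f k).lo ∧ (f k).hi ≤ b := by
        intro k
        rw [hSdef, Finset.mem_filter]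
        simp
      have hSc : ∀ k ∈ S, ∀ l, ∀ k' ∈ S, k ≤ l → l ≤ k' → l ∈ S := by
        intro k hk l k' hk' hkl hlk'
        rw [hmS] at hk hk' ⊢
        have h1 := lo_lt_hi (hv k)
        have h2 := lo_lt_hi (hv l)
        have h3 := lo_lt_hi (hv k')
        constructor
        · rcases hkl.eq_or_lt with h | h
          · rw [← h]
            exact hk.1
          · have := hn.suc k l h
            omega
        · rcases hlk'.eq_or_lt with h | h
          · rw [h]
            exact hk'.2
          · have := hn.suc l k' h
            omega
      obtain ⟨r', c', μ, hμ0, hμ1, -, hval, hc'⟩ := node_restrict N f hT S hSc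
      set P : Finset (Fin N.d) := Finset.univ.filter
        fun k => (a < (f k).hi ∧ (f k).lo < b) ∧ ¬ (a ≤ (f k).lo ∧ (f k).hi ≤ b) with hPdef
      have hmP : ∀ k, k ∈ P ↔ (a < (f k).hi ∧ (f k).lo < b) ∧ ¬ (a ≤ (f k).lo ∧ (f k).hi ≤ b) := by
        intro k
        rw [hPdef, Finset.mem_filter]
        simp
      have hcardP : P.card ≤ 2 := by
        have hsub : P ⊆ (Finset.univ.filter fun k => (f k).lo < a ∧ a < (f k).hi) ∪
            (Finset.univ.filter fun k => (f k).lo < b ∧ b < (f k).hi) := by
          intro k hk
          rw [hmP] at hk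
          rw [Finset.mem_union, Finset.mem_filter, Finset.mem_filter]
          simp only [Finset.mem_univ, true_and]
          omega
        have hone : ∀ x : ℕ, (Finset.univ.filter fun k => (f k).lo < x ∧ x < (f k).hi).card ≤ 1 := by
          intro x
          rw [Finset.card_le_one]
          intro k hk l hl
          rw [Finset.mem_filter] at hk hl
          by_contra hne
          rcases lt_or_gt_of_ne hne with h | h
          · have := hn.suc k l h
            omega
          · have := hn.suc l k h
            omega
        calc P.card ≤ _ := Finset.card_le_card hsub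
          _ ≤ _ := Finset.card_union_le _ _
          _ ≤ 1 + 1 := Nat.add_le_add (hone a) (hone b)
          _ = 2 := rfl
      have hm : (65536 : ℚ) ≤ (m N.i : ℚ) := by exact_mod_cast m_ge N.i
      have hmpos : (0 : ℚ) < (m N.i : ℚ) := by linarith
      have hmR : (m N.i : ℝ) ≠ 0 := by
        have : (0 : ℝ) < (m N.i : ℝ) := by exact_mod_cast hmpos
        exact this.ne'
      obtain ⟨V, hV1, hV2, hV3, hV4⟩ := lin_tr a b hab P (fun k => 2 * N.c k / m N.i) U
        (by
          intro k hk
          rw [hmP] at hk
          obtain ⟨h1, h2, -⟩ := hU2 k hk.1.1 hk.1.2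
          refine ⟨hU1 k, ?_, ?_⟩
          · rw [h1]
            exact le_max_left _ _
          · rw [h2]
            exact min_le_left _ _)
        (by
          have hb : ∀ k ∈ P, |2 * N.c k / (m N.i : ℚ)| ≤ 1 / 2 := by
            intro k _
            have h1 : |N.c k| ≤ 1 := by
              have := coef_le hn k
              exact_mod_cast this
            rw [abs_div, abs_mul, abs_of_pos hmpos, abs_of_pos (by norm_num : (0 : ℚ) < 2),
              div_le_div_iff₀ hmpos (by norm_num)]
            linarith
          calc ∑ k ∈ P, |2 * N.c k / (m N.i : ℚ)| ≤ ∑ _k ∈ P, (1 / 2 : ℚ) := Finset.sum_le_sum hb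
            _ = P.card * (1 / 2) := by rw [Finset.sum_const, nsmul_eq_mul]
            _ ≤ 2 * (1 / 2) := by
              have : (P.card : ℚ) ≤ 2 := by exact_mod_cast hcardP
              linarith
            _ = 1 := by norm_num)
      -- the main part
      obtain ⟨W, hW1, hW2, hW3, hW4⟩ : ∃ W, Valid W ∧ W.lo = a ∧ W.hi = b ∧
          (μ : ℝ) • yv W = (1 / (m N.i : ℝ)) • ∑ k ∈ S, (N.c k : ℝ) • yv (f k) := by
        by_cases hμ : μ = 0
        · refine ⟨V, hV1, hV2, hV3, ?_⟩
          rw [hμ, Rat.cast_zero, zero_smul]
          have : ∑ k ∈ S, (N.c k : ℝ) • yv (f k) = 0 := by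
            refine Finset.sum_eq_zero fun k hk => ?_
            have := hc' k
            rw [hμ, zero_mul, if_pos hk] at this
            rw [← this, Rat.cast_zero, zero_smul]
          rw [this, smul_zero]
        · refine ⟨.node {N with p := a, q := b, r := r', c := c'} f, ?_, rfl, rfl, ?_⟩
          · rw [valid_node]
            refine ⟨hv, ?_⟩
            have hn' : NodeOk {N with r := r', c := c'} f := (valid_node.1 hval).2
            exact
              { pq := hab
                dn := hn'.dn
                sq := hn'.sq
                suc := hn'.suc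
                box := fun k hk => by
                  have hk' : c' k ≠ 0 := hk
                  by_cases hkS : k ∈ S
                  · exact (hmS k).1 hkS
                  · have := hc' k
                    rw [if_neg hkS] at this
                    rcases mul_eq_zero.1 this with h | h
                    · exact absurd h hμ
                    · exact absurd h hk'
                rle := hn'.rle
                co := hn'.co
                cvx := hn'.cvx
                cls := hn'.cls
                vs := hn'.vs }
          · simp only [yv]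
            rw [smul_comm]
            congr 1
            rw [Finset.smul_sum]
            rw [← Finset.sum_filter_add_sum_filter_not Finset.univ (fun k => k ∈ S)]
            have e1 : ∑ k ∈ Finset.univ.filter (fun k => ¬ k ∈ S), (μ : ℝ) • (c' k : ℝ) • yv (f k) = 0 := by
              refine Finset.sum_eq_zero fun k hk => ?_
              have hk' : k ∉ S := (Finset.mem_filter.1 hk).2
              have := hc' k
              rw [if_neg hk'] at this
              rw [smul_smul, ← Rat.cast_mul, this, Rat.cast_zero, zero_smul]
            rw [e1, add_zero, Finset.filter_mem_eq_inter, Finset.univ_inter]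
            refine Finset.sum_congr rfl fun k hk => ?_
            have := hc' k
            rw [if_pos hk] at this
            rw [smul_smul, ← Rat.cast_mul, this]
      refine ⟨.comb a b (μ / 2) (1 / 2) W V, ?_, rfl, rfl, ?_⟩
      · rw [valid_comb]
        refine ⟨hW1, hV1, ?_, hW2.ge, hW3.le, hV2.ge, hV3.le⟩
        rw [abs_of_nonneg (by linarith), abs_of_nonneg (by norm_num)]
        linarith
      · have e0 : yv (Tr.comb a b (μ / 2) (1 / 2) W V) = ((μ / 2 : ℚ) : ℝ) • yv W + ((1 / 2 : ℚ) : ℝ) • yv V := rfl
        rw [e0, smul_add, smul_smul, smul_smul]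
        have e1 : (2 : ℝ) * ((μ / 2 : ℚ) : ℝ) = (μ : ℝ) := by
          push_cast
          ring
        have e2 : (2 : ℝ) * ((1 / 2 : ℚ) : ℝ) = 1 := by
          push_cast
          ring
        rw [e1, e2, one_smul, hW4, hV4]
        have e3 : ct a b (yv (.node N f)) = (1 / (m N.i : ℝ)) • ∑ k, (N.c k : ℝ) • ct a b (yv (f k)) := by
          simp only [yv]
          rw [map_smul, map_sum]
          congr 1
          refine Finset.sum_congr rfl fun k _ => ?_
          rw [map_smul]
        have e4 : ∀ k, (N.c k : ℝ) • ct a b (yv (f k)) =
            (if k ∈ S then (N.c k : ℝ) • yv (f k) else 0) +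
            (if k ∈ P then (N.c k : ℝ) • (2 : ℝ) • yv (U k) else 0) := by
          intro k
          by_cases h1 : k ∈ S
          · have h1' := (hmS k).1 h1
            have h2 : k ∉ P := by
              rw [hmP]
              exact fun h => h.2 h1'
            rw [if_pos h1, if_neg h2, add_zero]
            congr 1
            refine ct_self fun n hn' => ?_
            have := yv_supp (hv k) hn'
            omega
          · rw [if_neg h1, zero_add]
            by_cases h2 : k ∈ P
            · rw [if_pos h2]
              rw [hmP] at h2
              rw [(hU2 k h2.1.1 h2.1.2).2.2]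
            · rw [if_neg h2, hno k ?_, smul_zero]
              intro h3
              rw [hmP] at h2
              rw [hmS] at h1
              exact h2 ⟨h3, h1⟩
        rw [e3, Finset.sum_congr rfl (fun k _ => e4 k), Finset.sum_add_distrib, Finset.sum_ite_mem,
          Finset.sum_ite_mem, Finset.univ_inter, Finset.univ_inter, smul_add]
        congr 1
        rw [Finset.smul_sum]
        refine Finset.sum_congr rfl fun k _ => ?_
        rw [smul_smul, smul_smul]
        congr 1
        push_cast
        field_simp
    · -- generic node
      refine ⟨.node {N with p := a, q := b, c := fun k => if a < (f k).hi ∧ (f k).lo < b then N.c k else 0} U,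
        ?_, rfl, rfl, ?_⟩
      · rw [valid_node]
        refine ⟨hU1, ?_⟩
        have hlo : ∀ k, (f k).lo ≤ (U k).lo := by
          intro k
          by_cases h : a < (f k).hi ∧ (f k).lo < b
          · rw [(hU2 k h.1 h.2).1]
            exact le_max_right _ _
          · rw [hU3 k h]
        have hhi : ∀ k, (U k).hi ≤ (f k).hi := by
          intro k
          by_cases h : a < (f k).hi ∧ (f k).lo < b
          · rw [(hU2 k h.1 h.2).2.1]
            exact min_le_right _ _
          · rw [hU3 k h]
        exact
          { pq := hab
            dn := hn.dn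
            sq := by
              refine le_trans (Finset.sum_le_sum fun k _ => ?_) hn.sq
              show (if a < (f k).hi ∧ (f k).lo < b then N.c k else 0) ^ 2 ≤ N.c k ^ 2
              split_ifs
              · exact le_refl _
              · rw [zero_pow two_ne_zero]
                exact sq_nonneg _
            suc := fun k l hkl => (hhi k).trans ((hn.suc k l hkl).trans (hlo l))
            box := fun k hk => by
              have hk' : (if a < (f k).hi ∧ (f k).lo < b then N.c k else 0) ≠ 0 := hk
              by_cases h : a < (f k).hi ∧ (f k).lo < b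
              · obtain ⟨h1, h2, -⟩ := hU2 k h.1 h.2
                constructor
                · show a ≤ (U k).lo
                  rw [h1]
                  exact le_max_left _ _
                · show (U k).hi ≤ b
                  rw [h2]
                  exact min_le_left _ _
              · rw [if_neg h] at hk'
                exact absurd rfl hk'
            rle := fun h => absurd h ho
            co := fun h => absurd h ho
            cvx := fun h => absurd h ho
            cls := fun h => absurd h ho
            vs := fun h => absurd h ho }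
      · simp only [yv]
        rw [map_smul, map_sum, smul_comm (2 : ℝ), Finset.smul_sum (r := (2 : ℝ))]
        congr 1
        refine Finset.sum_congr rfl fun k _ => ?_
        rw [map_smul]
        by_cases h : a < (f k).hi ∧ (f k).lo < b
        · rw [if_pos h, (hU2 k h.1 h.2).2.2, smul_comm]
        · rw [if_neg h, hno k h, Rat.cast_zero, zero_smul, smul_zero, smul_zero]

end Pool.Agent.Helper60.HD
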