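import Pool.Agent.Helper60.HD.A2g
import Pool.Agent.Helper60.HD.A1a
import Pool.Agent.Helper60.HD.Res

/-!
# Non-aligned parts and the gauge
-/

set_option autoImplicit false

namespace Pool.Agent.Helper60.HD

open Classical in
/-- aligned part at one child -/
noncomputable def A2aC (a b : ℕ) (N : ND) (f : Fin N.d → Tr) (N' : ND) (f' : Fin N'.d → Tr)
    (s : Fin N'.d) : ℝ :=
  if N.i = N'.i then ∑ k, if f k = f' s ∧ N.v k = N'.v s ∧ GoodC (N.v k) (f k) then
    (N.c k : ℝ) * ip (ct a b (rv (N.v k))) (yv (f k)) else 0 else 0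

/-- the contribution of one child, independent of the coefficients of the second node -/
noncomputable def A2aB (a b : ℕ) (N : ND) (f : Fin N.d → Tr) (N' : ND) (f' : Fin N'.d → Tr)
    (s : Fin N'.d) : ℝ :=
  1 / (m N'.i : ℝ) * be a b (.node N f) (f' s) - (lam N.i N.r : ℝ) / m N.i * A2aC a b N f N' f' s

theorem A2a_al (a b : ℕ) (N : ND) (f : Fin N.d → Tr) (N' : ND) (f' : Fin N'.d → Tr) :
    al a b (.node N f) (.node N' f') = ∑ s, (N'.c s : ℝ) * A2aC a b N f N' f' s := by
  simp only [al, A2aC]
  split_ifs with h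
  · rw [Finset.sum_comm]
    refine Finset.sum_congr rfl fun s _ => ?_
    rw [Finset.mul_sum]
    refine Finset.sum_congr rfl fun k _ => ?_
    split_ifs <;> ring
  · simp

theorem A2a_node (a b : ℕ) (N : ND) (f : Fin N.d → Tr) (ho : Odd N.i) (N' : ND)
    (f' : Fin N'.d → Tr) :
    be a b (.node N f) (.node N' f') = ∑ s, (N'.c s : ℝ) * A2aB a b N f N' f' s := by
  have e1 : ip (ct a b (Tr.kp (.node N f))) (yv (.node N' f')) =
      1 / (m N'.i : ℝ) * ∑ s, (N'.c s : ℝ) * ip (ct a b (Tr.kp (.node N f))) (yv (f' s)) := by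
    rw [yv, map_smul, map_sum, smul_eq_mul]
    congr 1
    refine Finset.sum_congr rfl fun s _ => ?_
    rw [map_smul, smul_eq_mul]
  have e2 : lin (al a b (.node N f)) (.node N' f') = ∑ s, (N'.c s : ℝ) * A2aC a b N f N' f' s +
      1 / (m N'.i : ℝ) * ∑ s, (N'.c s : ℝ) * lin (al a b (.node N f)) (f' s) := by
    rw [lin_node]
    congr 1
    rw [← A2a_al]
    by_cases h : N.i = N'.i
    · rw [if_pos (h ▸ ho)]
    · have : al a b (.node N f) (.node N' f') = 0 := by
        simp only [al]
        rw [if_neg h]
      rw [this]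
      simp
  rw [be, alp, e1, e2]
  have e3 : Tr.lm (.node N f) = (lam N.i N.r : ℝ) / m N.i := rfl
  rw [e3, mul_add, Finset.mul_sum, Finset.mul_sum, Finset.mul_sum, Finset.mul_sum,
    ← sub_sub, sub_right_comm, ← Finset.sum_sub_distrib, ← Finset.sum_sub_distrib]
  refine Finset.sum_congr rfl fun s _ => ?_
  rw [A2aB, be, alp, e3]
  ring

theorem A2a_comb (a b : ℕ) (t : Tr) (p q : ℕ) (s s' : ℚ) (A B : Tr) :
    be a b t (.comb p q s s' A B) = s * be a b t A + s' * be a b t B := by
  unfold be alp
  rw [lin_comb, yv, map_add, map_smul, map_smul, smul_eq_mul, smul_eq_mul]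
  ring

theorem A2a_loc (a b : ℕ) (N : ND) (f : Fin N.d → Tr) (ho : Odd N.i)
    (hT : Valid (.node N f)) (p q : ℕ) (hp : p ≤ N.p) (hq : N.q ≤ q) (T : Tr) (hV : Valid T)
    (h : T.hi ≤ p ∨ q ≤ T.lo) : be a b (.node N f) T = 0 := by
  rw [be_eq]
  have hS := ph_sys a b N f ho hT
  have hN := (valid_node.mp hT).2
  rw [Finset.sum_eq_zero, mul_zero]
  intro k _
  by_cases hk : N.c k = 0
  · rw [hk]; simp
  · have hb := hN.box k hk
    rw [hS.loc k k.2 T hV, mul_zero]
    have e1 : sl N f k = (f k).lo := by rw [sl, dif_pos k.2]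
    have e2 : sh N f k = (f k).hi := by rw [sh, dif_pos k.2]
    rw [e1, e2]
    rcases h with h | h
    · left; omega
    · right; omega

theorem A2a_GG (p q : ℕ) (N : ND) (f : Fin N.d → Tr) : GG p q (.node N f) =
    √(∑ k, (N.c k : ℝ) ^ 2 * (4 * ind p q (f k).lo + 4 * ind p q (f k).hi +
      (GG p q (f k)) ^ 2 / (m N.i : ℝ) ^ 2)) := by
  rw [GG]

/-- the coefficients do not matter for the contribution of a child -/
theorem A2aB_congr (a b : ℕ) (N : ND) (f : Fin N.d → Tr) (N' : ND) (f' : Fin N'.d → Tr)
    (r' : ℕ) (c' : Fin N'.d → ℚ) (s : Fin N'.d) :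
    A2aB a b N f {N' with r := r', c := c'} f' s = A2aB a b N f N' f' s := rfl

/-- given the uniform bound, the non-aligned part is bounded by the gauge -/
theorem be_GG (C1 : ℝ) (h0 : 0 ≤ C1) (a b : ℕ) (N : ND) (f : Fin N.d → Tr) (ho : Odd N.i)
    (hT : Valid (.node N f)) (h1 : ∀ T, Valid T → |be a b (.node N f) T| ≤ C1) (p q : ℕ)
    (hp : p ≤ N.p) (hq : N.q ≤ q) (T : Tr) (hV : Valid T) :
    |be a b (.node N f) T| ≤ C1 * GG p q T := by
  induction T with
  | leaf n =>
    unfold GG ind
    split_ifs with h
    · rw [mul_one]; exact h1 _ hV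
    · rw [A2a_loc a b N f ho hT p q hp hq _ hV]
      · simp
      · simp only [hi_leaf, lo_leaf]
        by_contra hc
        apply h
        omega
  | comb p' q' s t A B ihA ihB =>
    have hv := valid_comb.mp hV
    rw [A2a_comb]
    unfold GG
    have e1 := ihA hv.1
    have e2 := ihB hv.2.1
    calc |(s : ℝ) * be a b (.node N f) A + (t : ℝ) * be a b (.node N f) B|
        ≤ |(s : ℝ) * be a b (.node N f) A| + |(t : ℝ) * be a b (.node N f) B| := abs_add_le _ _
      _ = |(s : ℝ)| * |be a b (.node N f) A| + |(t : ℝ)| * |be a b (.node N f) B| := by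
          rw [abs_mul, abs_mul]
      _ ≤ |(s : ℝ)| * (C1 * GG p q A) + |(t : ℝ)| * (C1 * GG p q B) :=
          add_le_add (mul_le_mul_of_nonneg_left e1 (abs_nonneg _))
            (mul_le_mul_of_nonneg_left e2 (abs_nonneg _))
      _ = C1 * (|(s : ℝ)| * GG p q A + |(t : ℝ)| * GG p q B) := by ring
  | node N' f' ih =>
    have hv := valid_node.mp hV
    have hN := (valid_node.mp hT).2
    have hTc := (valid_node.mp hT).1
    -- children meeting the interval
    set S : Finset (Fin N'.d) :=
      Finset.univ.filter (fun s => p < (f' s).hi ∧ (f' s).lo < q) with hS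
    have memS : ∀ s, s ∈ S ↔ p < (f' s).hi ∧ (f' s).lo < q := by
      intro s; rw [hS, Finset.mem_filter]; simp
    have hlh : ∀ s, (f' s).lo < (f' s).hi := fun s => lo_lt_hi (hv.1 s)
    have hScvx : ∀ k ∈ S, ∀ l, ∀ k' ∈ S, k ≤ l → l ≤ k' → l ∈ S := by
      intro k hk l k' hk' hkl hlk'
      rw [memS] at hk hk' ⊢
      constructor
      · rcases hkl.lt_or_eq with h | h
        · have e1 := hv.2.suc k l h
          have e2 := hlh l
          omega
        · rw [← h]; exact hk.1
      · rcases hlk'.lt_or_eq with h | h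
        · have e1 := hv.2.suc l k' h
          have e2 := hlh l
          omega
        · rw [h]; exact hk'.2
    -- aligned children lie in the interval
    have hal : ∀ (s : Fin N'.d) (k : Fin N.d), f k = f' s → N.c k ≠ 0 →
        p ≤ (f' s).lo ∧ (f' s).hi ≤ q := by
      intro s k hk hc
      have hb := hN.box k hc
      rw [hk] at hb
      omega
    -- no aligned child : the correction vanishes
    have hC0 : ∀ s : Fin N'.d, (∀ k : Fin N.d, f k = f' s → N.c k = 0) →
        A2aC a b N f N' f' s = 0 := by
      intro s hs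
      unfold A2aC
      split_ifs with h
      · apply Finset.sum_eq_zero
        intro k _
        split_ifs with h'
        · rw [hs k h'.1]; simp
        · rfl
      · rfl
    -- contributions of the children outside S vanish
    have hB0 : ∀ s, s ∉ S → A2aB a b N f N' f' s = 0 := by
      intro s hs
      rw [memS] at hs
      have e1 : be a b (.node N f) (f' s) = 0 := by
        apply A2a_loc a b N f ho hT p q hp hq _ (hv.1 s)
        by_contra hc
        apply hs
        omega
      have e2 : A2aC a b N f N' f' s = 0 := by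
        apply hC0
        intro k hk
        by_contra hc
        apply hs
        have e3 := hal s k hk hc
        have e4 := hlh s
        omega
      rw [A2aB, e1, e2]; simp
    have hbe : be a b (.node N f) (.node N' f') = ∑ s ∈ S, (N'.c s : ℝ) * A2aB a b N f N' f' s := by
      rw [A2a_node a b N f ho]
      symm
      apply Finset.sum_subset (Finset.subset_univ _)
      intro s _ hs
      rw [hB0 s hs, mul_zero]
    have hterm0 : ∀ s : Fin N'.d, 0 ≤ (N'.c s : ℝ) ^ 2 * (4 * ind p q (f' s).lo +
        4 * ind p q (f' s).hi + (GG p q (f' s)) ^ 2 / (m N'.i : ℝ) ^ 2) := by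
      intro s
      have i1 : 0 ≤ ind p q (f' s).lo := by unfold ind; split_ifs <;> norm_num
      have i2 : 0 ≤ ind p q (f' s).hi := by unfold ind; split_ifs <;> norm_num
      positivity
    -- case : all members of S touch an end
    have caseA : (∀ s ∈ S, 1 ≤ ind p q (f' s).lo + ind p q (f' s).hi) →
        |be a b (.node N f) (.node N' f')| ≤ C1 * GG p q (.node N' f') := by
      intro hend
      obtain ⟨r', c', μ, hμ0, hμ1, hμ2, hval, hμc⟩ := node_restrict N' f' hV S hScvx
      have e1 : be a b (.node N f) (.node N' f') =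
          μ * be a b (.node N f) (.node {N' with r := r', c := c'} f') := by
        rw [hbe, A2a_node a b N f ho, Finset.mul_sum]
        have e2 : ∑ s ∈ S, (N'.c s : ℝ) * A2aB a b N f N' f' s =
            ∑ s, (if s ∈ S then (N'.c s : ℝ) * A2aB a b N f N' f' s else 0) := by
          rw [Finset.sum_ite_mem, Finset.univ_inter]
        rw [e2]
        refine Finset.sum_congr rfl fun s _ => ?_
        have e3 : ((μ * c' s : ℚ) : ℝ) = ((if s ∈ S then N'.c s else 0 : ℚ) : ℝ) := by
          rw [hμc s]
        rw [Rat.cast_mul] at e3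
        have e4 : A2aB a b N f {N' with r := r', c := c'} f' s = A2aB a b N f N' f' s := rfl
        rw [e4]
        change _ = (μ : ℝ) * ((c' s : ℝ) * A2aB a b N f N' f' s)
        rw [← mul_assoc, e3]
        split_ifs <;> simp
      rw [e1, abs_mul, abs_of_nonneg (by exact_mod_cast hμ0)]
      have e5 := h1 _ hval
      have e6 : (μ : ℝ) ≤ GG p q (.node N' f') := by
        refine hμ2.trans ?_
        rw [A2a_GG]
        have e7 : (2 : ℝ) * √(∑ k ∈ S, (N'.c k : ℝ) ^ 2) = √(∑ k ∈ S, 4 * (N'.c k : ℝ) ^ 2) := by
          rw [← Finset.mul_sum, Real.sqrt_mul (by norm_num), show (4 : ℝ) = 2 ^ 2 by norm_num,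
            Real.sqrt_sq (by norm_num)]
        rw [e7]
        apply Real.sqrt_le_sqrt
        refine le_trans (Finset.sum_le_sum fun s hs => ?_)
          (Finset.sum_le_sum_of_subset_of_nonneg (Finset.subset_univ S) fun s _ _ => hterm0 s)
        have e8 := hend s hs
        have e9 : 0 ≤ (GG p q (f' s)) ^ 2 / (m N'.i : ℝ) ^ 2 := by positivity
        have e10 : 0 ≤ (N'.c s : ℝ) ^ 2 := sq_nonneg _
        nlinarith [mul_nonneg e10 e9, mul_le_mul_of_nonneg_left e8 e10]
      calc (μ : ℝ) * |be a b (.node N f) (.node {N' with r := r', c := c'} f')|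
          ≤ μ * C1 := mul_le_mul_of_nonneg_left e5 (by exact_mod_cast hμ0)
        _ ≤ GG p q (.node N' f') * C1 := mul_le_mul_of_nonneg_right e6 h0
        _ = _ := mul_comm _ _
    rcases lt_trichotomy S.card 1 with hc | hc | hc
    · -- S is empty
      have hSe : S = ∅ := Finset.card_eq_zero.mp (by omega)
      apply caseA
      intro s hs
      rw [hSe] at hs
      exact absurd hs (Finset.notMem_empty _)
    · -- one child
      obtain ⟨s, hs⟩ := Finset.card_eq_one.mp hc
      have hsS : s ∈ S := by rw [hs]; exact Finset.mem_singleton_self _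
      by_cases hex : ∃ k : Fin N.d, f k = f' s ∧ N.c k ≠ 0
      · obtain ⟨k, hk, hck⟩ := hex
        apply caseA
        intro s' hs'
        rw [hs, Finset.mem_singleton] at hs'
        subst hs'
        have e1 := hal s' k hk hck
        have e2 := hlh s'
        have i1 : ind p q (f' s').lo = 1 := by
          unfold ind
          rw [if_pos]
          omega
        have i2 : 0 ≤ ind p q (f' s').hi := by unfold ind; split_ifs <;> norm_num
        linarith
      · have e1 : A2aC a b N f N' f' s = 0 := by
          apply hC0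
          intro k hk
          by_contra hne
          exact hex ⟨k, hk, hne⟩
        rw [hbe, hs, Finset.sum_singleton, A2aB, e1, mul_zero, sub_zero]
        have e2 := ih s (hv.1 s)
        have hm : (0 : ℝ) ≤ 1 / (m N'.i : ℝ) := by positivity
        rw [abs_mul, abs_mul, abs_of_nonneg hm]
        have e3 : |(N'.c s : ℝ)| * (1 / (m N'.i : ℝ) * GG p q (f' s)) ≤ GG p q (.node N' f') := by
          rw [A2a_GG]
          apply Real.le_sqrt_of_sq_le
          refine le_trans ?_ (Finset.single_le_sum (fun s _ => hterm0 s) (Finset.mem_univ s))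
          have i1 : 0 ≤ ind p q (f' s).lo := by unfold ind; split_ifs <;> norm_num
          have i2 : 0 ≤ ind p q (f' s).hi := by unfold ind; split_ifs <;> norm_num
          have e10 : 0 ≤ (N'.c s : ℝ) ^ 2 := sq_nonneg _
          have e11 : (|(N'.c s : ℝ)| * (1 / (m N'.i : ℝ) * GG p q (f' s))) ^ 2 =
              (N'.c s : ℝ) ^ 2 * ((GG p q (f' s)) ^ 2 / (m N'.i : ℝ) ^ 2) := by
            rw [mul_pow, sq_abs]
            ring
          rw [e11]
          apply mul_le_mul_of_nonneg_left _ e10
          linarith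
        calc |(N'.c s : ℝ)| * (1 / (m N'.i : ℝ) * |be a b (.node N f) (f' s)|)
            ≤ |(N'.c s : ℝ)| * (1 / (m N'.i : ℝ) * (C1 * GG p q (f' s))) :=
              mul_le_mul_of_nonneg_left (mul_le_mul_of_nonneg_left e2 hm) (abs_nonneg _)
          _ = C1 * (|(N'.c s : ℝ)| * (1 / (m N'.i : ℝ) * GG p q (f' s))) := by ring
          _ ≤ C1 * GG p q (.node N' f') := mul_le_mul_of_nonneg_left e3 h0
    · -- at least two children
      apply caseA
      intro s hs
      obtain ⟨s', hs', hne⟩ := Finset.exists_mem_ne hc s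
      have m1 := (memS s).mp hs
      have m2 := (memS s').mp hs'
      have l1 := hlh s
      have l2 := hlh s'
      have i1 : 0 ≤ ind p q (f' s).lo := by unfold ind; split_ifs <;> norm_num
      have i2 : 0 ≤ ind p q (f' s).hi := by unfold ind; split_ifs <;> norm_num
      rcases lt_or_gt_of_ne hne with h | h
      · -- s' < s
        have e1 := hv.2.suc s' s h
        have i3 : ind p q (f' s).lo = 1 := by
          unfold ind
          rw [if_pos]
          omega
        linarith
      · have e1 := hv.2.suc s s' h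
        have i3 : ind p q (f' s).hi = 1 := by
          unfold ind
          rw [if_pos]
          omega
        linarith

end Pool.Agent.Helper60.HD
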