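import Pool.Agent.Helper60.HD.A1
import Pool.Agent.Helper60.HD.A2a

/-!
# Sums of non-aligned parts are bounded
-/

set_option autoImplicit false

namespace Pool.Agent.Helper60.HD

lemma A2_cs {ι : Type} (S : Finset ι) (c G : ι → ℝ) (g : ℝ) (hg : 0 ≤ g) (hc : ∑ k ∈ S, c k ^ 2 ≤ 1)
    (hG : ∑ k ∈ S, G k ^ 2 ≤ g ^ 2) : ∑ k ∈ S, |c k| * G k ≤ g := by
  have h1 := Finset.sum_mul_sq_le_sq_mul_sq S (fun k => |c k|) G
  simp only [sq_abs] at h1
  have h2 : (∑ k ∈ S, |c k| * G k) ^ 2 ≤ g ^ 2 := by
    refine h1.trans ?_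
    calc (∑ k ∈ S, c k ^ 2) * ∑ k ∈ S, G k ^ 2 ≤ 1 * g ^ 2 :=
          mul_le_mul hc hG (Finset.sum_nonneg fun k _ => sq_nonneg _) zero_le_one
      _ = g ^ 2 := one_mul _
  exact le_of_sq_le_sq h2 hg |> fun h => h

theorem lin_be_le : ∃ C2 : ℝ, 0 ≤ C2 ∧ ∀ (a b : ℕ) (T T' : Tr), Valid T → Valid T' →
    |lin (fun t => be a b t T') T| ≤ C2 := by
  classical
  obtain ⟨C1, hC0, hC1⟩ := be_le
  refine ⟨6 * C1, by positivity, fun a b T T' hT hT' => ?_⟩
  have key : ∀ T, Valid T → |lin (fun t => be a b t T') T| ≤ 2 * C1 * GG T.lo T.hi T' := by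
    intro T
    induction T with
    | leaf n =>
      intro _
      rw [lin_leaf, abs_zero]
      exact mul_nonneg (by positivity) (GG_nonneg _ _ _)
    | comb p q s t A B ihA ihB =>
      rintro ⟨hA, hB, hst, h1, h2, h3, h4⟩
      rw [lin_comb]
      have e1 := (ihA hA).trans (mul_le_mul_of_nonneg_left (GG_mono T' h1 h2) (by positivity))
      have e2 := (ihB hB).trans (mul_le_mul_of_nonneg_left (GG_mono T' h3 h4) (by positivity))
      have hst' : |(s : ℝ)| + |(t : ℝ)| ≤ 1 := by exact_mod_cast hst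
      have hG := GG_nonneg p q T'
      calc |(s : ℝ) * lin (fun t => be a b t T') A + (t : ℝ) * lin (fun t => be a b t T') B|
          ≤ |(s : ℝ)| * |lin (fun t => be a b t T') A| + |(t : ℝ)| * |lin (fun t => be a b t T') B| := by
            refine (abs_add_le _ _).trans ?_
            rw [abs_mul, abs_mul]
        _ ≤ |(s : ℝ)| * (2 * C1 * GG p q T') + |(t : ℝ)| * (2 * C1 * GG p q T') := by
            gcongr
        _ = (|(s : ℝ)| + |(t : ℝ)|) * (2 * C1 * GG p q T') := by ring
        _ ≤ 1 * (2 * C1 * GG p q T') := by gcongr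
        _ = 2 * C1 * GG p q T' := one_mul _
    | node N f ih =>
      intro hV
      have hf := hV.1
      have hok := hV.2
      have hm : (2 : ℝ) ≤ m N.i := by
        have := m_ge N.i
        exact_mod_cast (by omega : 2 ≤ m N.i)
      rw [lin_node]
      have hG := GG_nonneg N.p N.q T'
      have hown : |if Odd N.i then be a b (.node N f) T' else 0| ≤ C1 * GG N.p N.q T' := by
        split_ifs with ho
        · exact be_GG C1 hC0 a b N f ho hV (fun U hU => hC1 a b N f U ho hV hU) N.p N.q le_rfl le_rfl T' hT'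
        · rw [abs_zero]; positivity
      have hch : |∑ k, (N.c k : ℝ) * lin (fun t => be a b t T') (f k)| ≤ 2 * C1 * GG N.p N.q T' := by
        let S : Finset (Fin N.d) := Finset.univ.filter fun k => N.c k ≠ 0
        have h1 : ∑ k, (N.c k : ℝ) * lin (fun t => be a b t T') (f k)
            = ∑ k ∈ S, (N.c k : ℝ) * lin (fun t => be a b t T') (f k) := by
          symm
          refine Finset.sum_subset (Finset.subset_univ _) fun k _ hk => ?_
          have : N.c k = 0 := by
            by_contra h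
            exact hk (Finset.mem_filter.2 ⟨Finset.mem_univ _, h⟩)
          rw [this]; simp
        have h2 : ∑ k ∈ S, (N.c k : ℝ) ^ 2 ≤ 1 := by
          have h3 : ∑ k : Fin N.d, (N.c k : ℝ) ^ 2 ≤ 1 := by exact_mod_cast hok.sq
          exact (Finset.sum_le_sum_of_subset_of_nonneg (Finset.subset_univ _) fun k _ _ => sq_nonneg _).trans h3
        have h3 : ∑ k ∈ S, GG (f k).lo (f k).hi T' ^ 2 ≤ GG N.p N.q T' ^ 2 := by
          refine GG_super T' S (fun k => (f k).lo) (fun k => (f k).hi) N.p N.q ?_ ?_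
          · intro k hk
            exact hok.box k (Finset.mem_filter.1 hk).2
          · intro k _ k' _ hkk
            rcases lt_or_gt_of_ne hkk with h | h
            · exact Or.inl (hok.suc k k' h)
            · exact Or.inr (hok.suc k' k h)
        have h4 := A2_cs S (fun k => (N.c k : ℝ)) (fun k => GG (f k).lo (f k).hi T') _ hG h2 h3
        rw [h1]
        calc |∑ k ∈ S, (N.c k : ℝ) * lin (fun t => be a b t T') (f k)|
            ≤ ∑ k ∈ S, |(N.c k : ℝ)| * (2 * C1 * GG (f k).lo (f k).hi T') := by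
              refine (Finset.abs_sum_le_sum_abs _ _).trans (Finset.sum_le_sum fun k _ => ?_)
              rw [abs_mul]
              exact mul_le_mul_of_nonneg_left (ih k (hf k)) (abs_nonneg _)
          _ = 2 * C1 * ∑ k ∈ S, |(N.c k : ℝ)| * GG (f k).lo (f k).hi T' := by
              rw [Finset.mul_sum]
              refine Finset.sum_congr rfl fun k _ => ?_
              ring
          _ ≤ 2 * C1 * GG N.p N.q T' := mul_le_mul_of_nonneg_left h4 (by positivity)
      calc |(if Odd N.i then be a b (.node N f) T' else 0) +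
            1 / (m N.i : ℝ) * ∑ k, (N.c k : ℝ) * lin (fun t => be a b t T') (f k)|
          ≤ C1 * GG N.p N.q T' + 1 / (m N.i : ℝ) * (2 * C1 * GG N.p N.q T') := by
            refine (abs_add_le _ _).trans (add_le_add hown ?_)
            rw [abs_mul, abs_of_nonneg (by positivity : (0 : ℝ) ≤ 1 / (m N.i : ℝ))]
            exact mul_le_mul_of_nonneg_left hch (by positivity)
        _ ≤ C1 * GG N.p N.q T' + 1 / 2 * (2 * C1 * GG N.p N.q T') := by
            have : 1 / (m N.i : ℝ) ≤ 1 / 2 := one_div_le_one_div_of_le (by norm_num) hm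
            gcongr
        _ = 2 * C1 * GG N.p N.q T' := by ring
  calc |lin (fun t => be a b t T') T| ≤ 2 * C1 * GG T.lo T.hi T' := key T hT
    _ ≤ 2 * C1 * 3 := mul_le_mul_of_nonneg_left (GG_le hT' _ _) (by positivity)
    _ = 6 * C1 := by ring

end Pool.Agent.Helper60.HD
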