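import Pool.Agent.Helper60.HD.Bas

/-!
# The gauge of a tree seen from an interval
-/

set_option autoImplicit false

namespace Pool.Agent.Helper60.HD

open Classical in
/-- indicator of an endpoint -/
noncomputable def ind (a b n : ℕ) : ℝ := if a ≤ n ∧ n < b then 1 else 0

/-- the gauge -/
noncomputable def GG (a b : ℕ) : Tr → ℝ
  | .leaf n => ind a b n
  | .comb _ _ s t A B => |(s : ℝ)| * GG a b A + |(t : ℝ)| * GG a b B
  | .node N f => √(∑ k, (N.c k : ℝ) ^ 2 * (4 * ind a b (f k).lo + 4 * ind a b (f k).hi +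
      (GG a b (f k)) ^ 2 / (m N.i : ℝ) ^ 2))

lemma A2g_ind_nonneg (a b n : ℕ) : 0 ≤ ind a b n := by
  unfold ind; split_ifs <;> norm_num

lemma A2g_ind_le (a b n : ℕ) : ind a b n ≤ 1 := by
  unfold ind; split_ifs <;> norm_num

lemma A2g_ind_mono {a b c d n : ℕ} (h1 : a ≤ c) (h2 : d ≤ b) : ind c d n ≤ ind a b n := by
  unfold ind
  by_cases h : c ≤ n ∧ n < d
  · have h' : a ≤ n ∧ n < b := ⟨h1.trans h.1, lt_of_lt_of_le h.2 h2⟩
    rw [if_pos h, if_pos h']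
  · rw [if_neg h]
    split_ifs <;> norm_num

lemma A2g_ind_sum {ι : Type} (S : Finset ι) (l h : ι → ℕ) (a b n : ℕ)
    (h1 : ∀ k ∈ S, a ≤ l k ∧ h k ≤ b) (h2 : ∀ k ∈ S, ∀ k' ∈ S, k ≠ k' → h k ≤ l k' ∨ h k' ≤ l k) :
    ∑ k ∈ S, ind (l k) (h k) n ≤ ind a b n := by
  by_cases hex : ∃ k ∈ S, l k ≤ n ∧ n < h k
  · obtain ⟨k0, hk0, hk1, hk2⟩ := hex
    rw [Finset.sum_eq_single_of_mem k0 hk0]
    · exact A2g_ind_mono (h1 k0 hk0).1 (h1 k0 hk0).2
    · intro k hk hne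
      have := h2 k hk k0 hk0 hne
      unfold ind
      rw [if_neg]
      rintro ⟨h3, h4⟩
      omega
  · rw [Finset.sum_eq_zero]
    · exact A2g_ind_nonneg _ _ _
    · intro k hk
      unfold ind
      rw [if_neg]
      rintro ⟨h3, h4⟩
      exact hex ⟨k, hk, h3, h4⟩

theorem GG_nonneg (a b : ℕ) (T : Tr) : 0 ≤ GG a b T := by
  induction T with
  | leaf n => exact A2g_ind_nonneg _ _ _
  | comb p q s t A B ihA ihB =>
    simp only [GG]
    positivity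
  | node N f ih =>
    simp only [GG]
    positivity

lemma A2g_in_nonneg (a b : ℕ) (N : ND) (f : Fin N.d → Tr) (k : Fin N.d) :
    0 ≤ 4 * ind a b (f k).lo + 4 * ind a b (f k).hi + (GG a b (f k)) ^ 2 / (m N.i : ℝ) ^ 2 := by
  have h1 := A2g_ind_nonneg a b (f k).lo
  have h2 := A2g_ind_nonneg a b (f k).hi
  positivity

lemma A2g_node_sq (a b : ℕ) (N : ND) (f : Fin N.d → Tr) :
    GG a b (.node N f) ^ 2 = ∑ k, (N.c k : ℝ) ^ 2 * (4 * ind a b (f k).lo + 4 * ind a b (f k).hi +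
      (GG a b (f k)) ^ 2 / (m N.i : ℝ) ^ 2) := by
  have h : GG a b (.node N f) = √(∑ k, (N.c k : ℝ) ^ 2 * (4 * ind a b (f k).lo + 4 * ind a b (f k).hi +
      (GG a b (f k)) ^ 2 / (m N.i : ℝ) ^ 2)) := by simp only [GG]
  rw [h, Real.sq_sqrt]
  exact Finset.sum_nonneg fun k _ => mul_nonneg (sq_nonneg _) (A2g_in_nonneg a b N f k)

theorem GG_le {T : Tr} (hT : Valid T) (a b : ℕ) : GG a b T ≤ 3 := by
  induction T with
  | leaf n =>
    simp only [GG]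
    have := A2g_ind_le a b n
    linarith
  | comb p q s t A B ihA ihB =>
    rw [valid_comb] at hT
    have hA := ihA hT.1
    have hB := ihB hT.2.1
    have hst : |(s : ℝ)| + |(t : ℝ)| ≤ 1 := by
      have := hT.2.2.1
      exact_mod_cast this
    simp only [GG]
    nlinarith [abs_nonneg (s : ℝ), abs_nonneg (t : ℝ)]
  | node N f ih =>
    rw [valid_node] at hT
    have hm : (1 : ℝ) ≤ (m N.i : ℝ) ^ 2 := by
      have h1 : (65536 : ℝ) ≤ m N.i := by exact_mod_cast m_ge N.i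
      nlinarith
    have hm9 : (9 : ℝ) / (m N.i : ℝ) ^ 2 ≤ 1 := by
      have h1 : (65536 : ℝ) ≤ m N.i := by exact_mod_cast m_ge N.i
      rw [div_le_one (by positivity)]
      nlinarith
    have hsq : ∑ k, (N.c k : ℝ) ^ 2 ≤ 1 := by
      have := hT.2.sq
      exact_mod_cast this
    have key : GG a b (.node N f) ^ 2 ≤ 9 := by
      rw [A2g_node_sq]
      calc ∑ k, (N.c k : ℝ) ^ 2 * (4 * ind a b (f k).lo + 4 * ind a b (f k).hi +
            (GG a b (f k)) ^ 2 / (m N.i : ℝ) ^ 2)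
          ≤ ∑ k, (N.c k : ℝ) ^ 2 * 9 := by
            refine Finset.sum_le_sum fun k _ => mul_le_mul_of_nonneg_left ?_ (sq_nonneg _)
            have h1 := A2g_ind_le a b (f k).lo
            have h2 := A2g_ind_le a b (f k).hi
            have h3 := ih k (hT.1 k)
            have h4 := GG_nonneg a b (f k)
            have h5 : (GG a b (f k)) ^ 2 / (m N.i : ℝ) ^ 2 ≤ 9 / (m N.i : ℝ) ^ 2 := by
              apply div_le_div_of_nonneg_right _ (by positivity)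
              nlinarith
            linarith
        _ = (∑ k, (N.c k : ℝ) ^ 2) * 9 := by rw [Finset.sum_mul]
        _ ≤ 9 := by linarith
    have h0 := GG_nonneg a b (.node N f)
    nlinarith

theorem GG_mono (T : Tr) {a b c d : ℕ} (h1 : a ≤ c) (h2 : d ≤ b) : GG c d T ≤ GG a b T := by
  induction T with
  | leaf n => exact A2g_ind_mono h1 h2
  | comb p q s t A B ihA ihB =>
    simp only [GG]
    gcongr
  | node N f ih =>
    simp only [GG]
    apply Real.sqrt_le_sqrt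
    refine Finset.sum_le_sum fun k _ => mul_le_mul_of_nonneg_left ?_ (sq_nonneg _)
    have h3 := A2g_ind_mono (n := (f k).lo) h1 h2
    have h4 := A2g_ind_mono (n := (f k).hi) h1 h2
    have h5 : (GG c d (f k)) ^ 2 / (m N.i : ℝ) ^ 2 ≤ (GG a b (f k)) ^ 2 / (m N.i : ℝ) ^ 2 := by
      apply div_le_div_of_nonneg_right _ (by positivity)
      exact pow_le_pow_left₀ (GG_nonneg _ _ _) (ih k) 2
    linarith

/-- Minkowski for squares -/
lemma A2g_mink {ι : Type} (S : Finset ι) (x y : ι → ℝ) (s t X Y : ℝ) (hs : 0 ≤ s) (ht : 0 ≤ t)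
    (hX : 0 ≤ X) (hY : 0 ≤ Y)
    (h1 : ∑ k ∈ S, x k ^ 2 ≤ X ^ 2) (h2 : ∑ k ∈ S, y k ^ 2 ≤ Y ^ 2) :
    ∑ k ∈ S, (s * x k + t * y k) ^ 2 ≤ (s * X + t * Y) ^ 2 := by
  have hcs : (∑ k ∈ S, x k * y k) ^ 2 ≤ (∑ k ∈ S, x k ^ 2) * (∑ k ∈ S, y k ^ 2) :=
    Finset.sum_mul_sq_le_sq_mul_sq S x y
  have hx0 : 0 ≤ ∑ k ∈ S, x k ^ 2 := Finset.sum_nonneg fun _ _ => sq_nonneg _
  have hy0 : 0 ≤ ∑ k ∈ S, y k ^ 2 := Finset.sum_nonneg fun _ _ => sq_nonneg _
  have hxy : ∑ k ∈ S, x k * y k ≤ X * Y := by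
    apply abs_le_of_sq_le_sq' _ (by positivity) |>.2
    calc (∑ k ∈ S, x k * y k) ^ 2 ≤ (∑ k ∈ S, x k ^ 2) * (∑ k ∈ S, y k ^ 2) := hcs
      _ ≤ X ^ 2 * Y ^ 2 := mul_le_mul h1 h2 hy0 (by positivity)
      _ = (X * Y) ^ 2 := by ring
  have e : ∑ k ∈ S, (s * x k + t * y k) ^ 2
      = s ^ 2 * ∑ k ∈ S, x k ^ 2 + 2 * s * t * ∑ k ∈ S, x k * y k + t ^ 2 * ∑ k ∈ S, y k ^ 2 := by
    rw [Finset.mul_sum, Finset.mul_sum, Finset.mul_sum, ← Finset.sum_add_distrib, ← Finset.sum_add_distrib]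
    refine Finset.sum_congr rfl fun k _ => ?_
    ring
  rw [e]
  have h3 : s ^ 2 * ∑ k ∈ S, x k ^ 2 ≤ s ^ 2 * X ^ 2 := mul_le_mul_of_nonneg_left h1 (by positivity)
  have h4 : t ^ 2 * ∑ k ∈ S, y k ^ 2 ≤ t ^ 2 * Y ^ 2 := mul_le_mul_of_nonneg_left h2 (by positivity)
  have h5 : 2 * s * t * ∑ k ∈ S, x k * y k ≤ 2 * s * t * (X * Y) :=
    mul_le_mul_of_nonneg_left hxy (by positivity)
  nlinarith

/-- superadditivity of the square -/
theorem GG_super (T : Tr) {ι : Type} (S : Finset ι) (l h : ι → ℕ) (a b : ℕ)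
    (h1 : ∀ k ∈ S, a ≤ l k ∧ h k ≤ b) (h2 : ∀ k ∈ S, ∀ k' ∈ S, k ≠ k' → h k ≤ l k' ∨ h k' ≤ l k) :
    ∑ k ∈ S, GG (l k) (h k) T ^ 2 ≤ GG a b T ^ 2 := by
  induction T with
  | leaf n =>
    simp only [GG]
    have h3 : ∀ x : ℝ, ∀ a b : ℕ, ind a b n ^ 2 = ind a b n := by
      intro _ a b
      unfold ind; split_ifs <;> norm_num
    rw [h3 0 a b]
    calc ∑ k ∈ S, ind (l k) (h k) n ^ 2 = ∑ k ∈ S, ind (l k) (h k) n :=
          Finset.sum_congr rfl fun k _ => h3 0 _ _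
      _ ≤ ind a b n := A2g_ind_sum S l h a b n h1 h2
  | comb p q s t A B ihA ihB =>
    simp only [GG]
    exact A2g_mink S _ _ _ _ _ _ (abs_nonneg _) (abs_nonneg _) (GG_nonneg _ _ _) (GG_nonneg _ _ _) ihA ihB
  | node N f ih =>
    rw [A2g_node_sq]
    calc ∑ k ∈ S, GG (l k) (h k) (.node N f) ^ 2
        = ∑ k ∈ S, ∑ j, (N.c j : ℝ) ^ 2 * (4 * ind (l k) (h k) (f j).lo + 4 * ind (l k) (h k) (f j).hi +
          (GG (l k) (h k) (f j)) ^ 2 / (m N.i : ℝ) ^ 2) := by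
          refine Finset.sum_congr rfl fun k _ => A2g_node_sq _ _ _ _
      _ = ∑ j, ∑ k ∈ S, (N.c j : ℝ) ^ 2 * (4 * ind (l k) (h k) (f j).lo + 4 * ind (l k) (h k) (f j).hi +
          (GG (l k) (h k) (f j)) ^ 2 / (m N.i : ℝ) ^ 2) := Finset.sum_comm
      _ ≤ ∑ j, (N.c j : ℝ) ^ 2 * (4 * ind a b (f j).lo + 4 * ind a b (f j).hi +
          (GG a b (f j)) ^ 2 / (m N.i : ℝ) ^ 2) := by
          refine Finset.sum_le_sum fun j _ => ?_
          rw [← Finset.mul_sum]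
          refine mul_le_mul_of_nonneg_left ?_ (sq_nonneg _)
          rw [Finset.sum_add_distrib, Finset.sum_add_distrib, ← Finset.mul_sum, ← Finset.mul_sum,
            ← Finset.sum_div]
          have h3 := A2g_ind_sum S l h a b (f j).lo h1 h2
          have h4 := A2g_ind_sum S l h a b (f j).hi h1 h2
          have h5 : (∑ k ∈ S, (GG (l k) (h k) (f j)) ^ 2) / (m N.i : ℝ) ^ 2
              ≤ (GG a b (f j)) ^ 2 / (m N.i : ℝ) ^ 2 :=
            div_le_div_of_nonneg_right (ih j) (by positivity)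
          linarith

end Pool.Agent.Helper60.HD
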