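import Pool.Agent.Helper60.HD.A3a

/-!
# Aligned parts cancel
-/

set_option autoImplicit false

namespace Pool.Agent.Helper60.HD

lemma a3_al_symm (a b : ℕ) (t t' : Tr) : al a b t t' = al a b t' t := by
  classical
  cases t with
  | leaf n => cases t' <;> rfl
  | comb p q s u A B => cases t' <;> rfl
  | node N f =>
    cases t' with
    | leaf n => rfl
    | comb p q s u A B => rfl
    | node N' f' =>
      simp only [al]
      by_cases h : N.i = N'.i
      · rw [if_pos h, if_pos h.symm, Finset.sum_comm]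
        refine Finset.sum_congr rfl fun k' _ => Finset.sum_congr rfl fun k _ => ?_
        by_cases h1 : f k = f' k' ∧ N.v k = N'.v k' ∧ GoodC (N.v k) (f k)
        · have h2 : f' k' = f k ∧ N'.v k' = N.v k ∧ GoodC (N'.v k') (f' k') :=
            ⟨h1.1.symm, h1.2.1.symm, by rw [← h1.1, ← h1.2.1]; exact h1.2.2⟩
          rw [if_pos h1, if_pos h2, h1.1, h1.2.1]
          ring
        · have h2 : ¬ (f' k' = f k ∧ N'.v k' = N.v k ∧ GoodC (N'.v k') (f' k')) := by
            rintro ⟨e1, e2, e3⟩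
            exact h1 ⟨e1.symm, e2.symm, by rw [← e1, ← e2]; exact e3⟩
          rw [if_neg h1, if_neg h2]
      · rw [if_neg h, if_neg fun h' => h h'.symm]

/-- number of pairs of equal children with nonzero coefficients -/
noncomputable def a3A (t t' : Tr) : ℝ :=
  match t with
  | .node N f => ∑ k, if N.c k = 0 then 0 else nch (f k) t'
  | _ => 0

/-- scale -/
noncomputable def a3r : Tr → ℕ
  | .node N _ => N.r
  | _ => 0

lemma a3A_symm (t t' : Tr) (h : ∃ N f, t = .node N f) (h' : ∃ N f, t' = .node N f) : a3A t t' = a3A t' t := by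
  classical
  obtain ⟨N, f, rfl⟩ := h
  obtain ⟨N', f', rfl⟩ := h'
  simp only [a3A, nch]
  have e1 : ∀ k, (if N.c k = 0 then (0 : ℝ) else ∑ k', if N'.c k' ≠ 0 ∧ f' k' = f k then 1 else 0) =
      ∑ k', if N.c k ≠ 0 ∧ N'.c k' ≠ 0 ∧ f k = f' k' then (1 : ℝ) else 0 := by
    intro k
    by_cases h : N.c k = 0
    · simp [h]
    · rw [if_neg h]
      refine Finset.sum_congr rfl fun k' _ => ?_
      simp only [ne_eq, h, not_false_eq_true, true_and, eq_comm]
  have e2 : ∀ k', (if N'.c k' = 0 then (0 : ℝ) else ∑ k, if N.c k ≠ 0 ∧ f k = f' k' then 1 else 0) =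
      ∑ k, if N.c k ≠ 0 ∧ N'.c k' ≠ 0 ∧ f k = f' k' then (1 : ℝ) else 0 := by
    intro k'
    by_cases h : N'.c k' = 0
    · simp [h]
    · rw [if_neg h]
      refine Finset.sum_congr rfl fun k _ => ?_
      simp only [ne_eq, h, not_false_eq_true, true_and]
  rw [Finset.sum_congr rfl fun k _ => e1 k, Finset.sum_congr rfl fun k' _ => e2 k']
  exact Finset.sum_comm

/-- pointwise bound of the kernel -/
lemma a3_ker (a b : ℕ) (t t' : Tr) (ht : Valid t) (ht' : Valid t') (h : ∃ N f, t = .node N f ∧ Odd N.i)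
    (h' : ∃ N f, t' = .node N f ∧ Odd N.i) :
    |(t.lm - t'.lm) * al a b t t'| ≤
      C0 * (√|(a3r t : ℝ) - a3r t'| * ((1 / 2) ^ a3r t * (1 / 2) ^ a3r t') * a3A t t') := by
  classical
  obtain ⟨N, f, rfl, ho⟩ := h
  obtain ⟨N', f', rfl, ho'⟩ := h'
  have hC0 : (0 : ℝ) ≤ C0 := by unfold C0; norm_num
  have hA0 : 0 ≤ a3A (.node N f) (.node N' f') := by
    simp only [a3A]
    refine Finset.sum_nonneg fun k _ => ?_
    split_ifs
    · exact le_rfl
    · exact nch_nonneg _ _
  simp only [al, Tr.lm, a3r]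
  by_cases hi : N.i = N'.i
  · rw [if_pos hi, abs_mul]
    have hm := ent_mpos N.i
    have h1 : |(lam N.i N.r : ℝ) / m N.i - (lam N'.i N'.r : ℝ) / m N'.i| ≤ √|(N.r : ℝ) - N'.r| := by
      rw [← hi, ← sub_div, abs_div, abs_of_pos hm, div_le_iff₀ hm, mul_comm]
      exact lam_sub _ _ _
    rw [valid_node] at ht ht'
    have h2 : |∑ k, ∑ k', (if f k = f' k' ∧ N.v k = N'.v k' ∧ GoodC (N.v k) (f k) then
        (N.c k : ℝ) * N'.c k' * ip (ct a b (rv (N.v k))) (yv (f k)) else 0)| ≤
        C0 * (((1 / 2) ^ N.r * (1 / 2) ^ N'.r) * a3A (.node N f) (.node N' f')) := by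
      simp only [a3A, nch]
      rw [Finset.mul_sum, Finset.mul_sum]
      refine (Finset.abs_sum_le_sum_abs _ _).trans (Finset.sum_le_sum fun k _ => ?_)
      refine (Finset.abs_sum_le_sum_abs _ _).trans ?_
      by_cases hc : N.c k = 0
      · rw [if_pos hc]
        simp [hc]
      rw [if_neg hc, Finset.mul_sum, Finset.mul_sum]
      refine Finset.sum_le_sum fun k' _ => ?_
      by_cases hc' : N'.c k' = 0
      · simp [hc']
      by_cases h1 : f k = f' k' ∧ N.v k = N'.v k' ∧ GoodC (N.v k) (f k)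
      · rw [if_pos h1, if_pos ⟨hc', h1.1.symm⟩]
        obtain ⟨w, hw, hg⟩ := h1.2.2
        have hg1 := (hg a b (f k) (ht.1 k)).1
        have hck : (N.c k : ℝ) = (1 / 2) ^ N.r := by
          rcases ht.2.co ho k with e | e
          · exact absurd e hc
          · rw [e]; push_cast; rfl
        have hck' : (N'.c k' : ℝ) = (1 / 2) ^ N'.r := by
          rcases ht'.2.co ho' k' with e | e
          · exact absurd e hc'
          · rw [e]; push_cast; rfl
        rw [hck, hck', abs_mul, abs_of_pos (by positivity : (0 : ℝ) < (1 / 2) ^ N.r * (1 / 2) ^ N'.r)]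
        have := mul_le_mul_of_nonneg_left hg1 (by positivity : (0 : ℝ) ≤ (1 / 2) ^ N.r * (1 / 2) ^ N'.r)
        linarith
      · rw [if_neg h1, abs_zero]
        split_ifs <;> positivity
    calc _ ≤ √|(N.r : ℝ) - N'.r| * (C0 * (((1 / 2) ^ N.r * (1 / 2) ^ N'.r) * a3A (.node N f) (.node N' f'))) :=
          mul_le_mul h1 h2 (abs_nonneg _) (Real.sqrt_nonneg _)
      _ = _ := by ring
  · rw [if_neg hi, mul_zero, abs_zero]
    positivity

lemma a3_swap {ι : Type} (K : Finset ι) (S : Multiset Rc) (F : ι → Rc → ℝ) :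
    (S.map fun x => ∑ k ∈ K, F k x).sum = ∑ k ∈ K, (S.map (F k)).sum := by
  induction S using Multiset.induction_on with
  | empty => simp
  | cons a S ih => simp only [Multiset.map_cons, Multiset.sum_cons, ih, Finset.sum_add_distrib]

/-- counting -/
lemma a3_cnt {t : Tr} (ht : Valid t) (h : ∃ N f, t = .node N f ∧ Odd N.i) {T' : Tr} (hT' : Valid T') :
    ((1 / 2 : ℝ) ^ a3r t) ^ 2 * ((recs T').map fun x => x.p * a3A t x.t).sum ≤ 1 := by
  classical
  obtain ⟨N, f, rfl, ho⟩ := h
  rw [valid_node] at ht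
  simp only [a3A, a3r]
  have h1 : ((recs T').map fun x => x.p * ∑ k, if N.c k = 0 then 0 else nch (f k) x.t).sum =
      ∑ k, if N.c k = 0 then 0 else ((recs T').map fun x => x.p * nch (f k) x.t).sum := by
    have e : ∀ x : Rc, x.p * ∑ k, (if N.c k = 0 then 0 else nch (f k) x.t) =
        ∑ k, x.p * (if N.c k = 0 then 0 else nch (f k) x.t) := fun x => Finset.mul_sum _ _ _
    simp only [e]
    rw [a3_swap]
    refine Finset.sum_congr rfl fun k _ => ?_
    split_ifs with hk
    · simp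
    · rfl
  rw [h1, Finset.mul_sum]
  have h2 : ∀ k, ((1 / 2 : ℝ) ^ N.r) ^ 2 * (if N.c k = 0 then 0 else
      ((recs T').map fun x => x.p * nch (f k) x.t).sum) ≤ (N.c k : ℝ) ^ 2 := by
    intro k
    split_ifs with hk
    · simp [hk]
    · have := cnt_le hT' (f k) (lo_lt_hi (ht.1 k))
      have hck : (N.c k : ℝ) = (1 / 2) ^ N.r := by
        rcases ht.2.co ho k with e | e
        · exact absurd e hk
        · rw [e]; push_cast; rfl
      rw [hck]
      have := mul_le_mul_of_nonneg_left this (by positivity : (0 : ℝ) ≤ ((1 / 2 : ℝ) ^ N.r) ^ 2)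
      linarith
  refine (Finset.sum_le_sum fun k _ => h2 k).trans ?_
  exact_mod_cast ht.2.sq

lemma a3_dbl_swap (S S' : Multiset Rc) (F : Rc → Rc → ℝ) :
    (S.map fun x => (S'.map fun x' => F x x').sum).sum = (S'.map fun x' => (S.map fun x => F x x').sum).sum := by
  induction S using Multiset.induction_on with
  | empty => simp
  | cons a S ih => simp only [Multiset.map_cons, Multiset.sum_cons, ih, Multiset.sum_map_add]

theorem alp_le : ∃ C3 : ℝ, 0 ≤ C3 ∧ ∀ (a b : ℕ) (T T' : Tr), Valid T → Valid T' →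
    |lin (fun t => alp a b t T') T - lin (fun t => alp a b t T) T'| ≤ C3 := by
  classical
  obtain ⟨C, hC, hE⟩ := ent_recs
  have hC0 : (0 : ℝ) ≤ C0 := by unfold C0; norm_num
  refine ⟨8 * C0 * C, by positivity, fun a b T T' hT hT' => ?_⟩
  have e1 : lin (fun t => alp a b t T') T =
      lin (fun t => lin (fun t' => t.lm * al a b t t') T') T := by
    simp only [alp, lin_mul]
  have e2 : lin (fun t => alp a b t T) T' =
      lin (fun t => lin (fun t' => t'.lm * al a b t t') T') T := by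
    simp only [alp, ← lin_mul]
    rw [lin_swap]
    simp only [a3_al_symm a b]
  rw [e1, e2, ← lin_sub]
  have e3 : (fun t => lin (fun t' => t.lm * al a b t t') T' - lin (fun t' => t'.lm * al a b t t') T') =
      fun t => lin (fun t' => (t.lm - t'.lm) * al a b t t') T' := by
    funext t
    rw [← lin_sub]
    congr 1
    funext t'
    ring
  rw [e3]
  -- the entropy weights
  set e : Rc → ℝ := fun x => x.g ^ 2 * (1 - Real.log |x.g|) with he
  have key : |lin (fun t => lin (fun t' => (t.lm - t'.lm) * al a b t t') T') T| ≤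
      ((recs T).map fun x => ((recs T').map fun x' =>
        4 * C0 * (x.p * x'.p * a3A x.t x'.t * (((1 / 2) ^ a3r x.t) ^ 2 * e x)) +
        4 * C0 * (x.p * x'.p * a3A x.t x'.t * (((1 / 2) ^ a3r x'.t) ^ 2 * e x'))).sum).sum := by
    rw [lin]
    refine (Multiset.abs_sum_le_sum_abs).trans ?_
    rw [Multiset.map_map]
    refine Multiset.sum_map_le_sum_map _ _ fun x hx => ?_
    simp only [Function.comp]
    obtain ⟨x1, x2, x3, x4, x5, x6, x7⟩ := recs_mem hT hx
    have f1 : |x.p * x.g * lin (fun t' => (x.t.lm - t'.lm) * al a b x.t t') T'| ≤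
        ((recs T').map fun x' => |x.p * x.g| * |x'.p * x'.g * ((x.t.lm - x'.t.lm) * al a b x.t x'.t)|).sum := by
      rw [abs_mul, lin, Multiset.sum_map_mul_left]
      refine mul_le_mul_of_nonneg_left ?_ (abs_nonneg _)
      refine (Multiset.abs_sum_le_sum_abs).trans ?_
      rw [Multiset.map_map]
      exact le_rfl
    refine f1.trans ?_
    refine Multiset.sum_map_le_sum_map _ _ fun x' hx' => ?_
    obtain ⟨y1, y2, y3, y4, y5, y6, y7⟩ := recs_mem hT' hx'
    have g1 := a3_ker a b x.t x'.t x1 y1 x6 y6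
    have g2 := pt_le x.g x'.g x5 y5 (a3r x.t) (a3r x'.t)
    have hA0 : 0 ≤ a3A x.t x'.t := by
      obtain ⟨N, f, h, -⟩ := x6
      rw [h]
      simp only [a3A]
      refine Finset.sum_nonneg fun k _ => ?_
      split_ifs
      · exact le_rfl
      · exact nch_nonneg _ _
    have hpp : 0 ≤ x.p * x'.p := mul_nonneg x4 y4
    calc |x.p * x.g| * |x'.p * x'.g * ((x.t.lm - x'.t.lm) * al a b x.t x'.t)|
        = (x.p * x'.p) * (|x.g * x'.g| * |(x.t.lm - x'.t.lm) * al a b x.t x'.t|) := by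
          rw [abs_mul, abs_mul (x'.p * x'.g), abs_mul x'.p, abs_of_nonneg x4, abs_of_nonneg y4, abs_mul x.g]
          ring
      _ ≤ (x.p * x'.p) * (|x.g * x'.g| * (C0 * (√|(a3r x.t : ℝ) - a3r x'.t| *
            ((1 / 2) ^ a3r x.t * (1 / 2) ^ a3r x'.t) * a3A x.t x'.t))) :=
          mul_le_mul_of_nonneg_left (mul_le_mul_of_nonneg_left g1 (abs_nonneg _)) hpp
      _ = (C0 * (x.p * x'.p * a3A x.t x'.t)) * (|x.g * x'.g| * ((1 / 2) ^ a3r x.t * (1 / 2) ^ a3r x'.t) *
            √|(a3r x.t : ℝ) - a3r x'.t|) := by ring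
      _ ≤ (C0 * (x.p * x'.p * a3A x.t x'.t)) * (4 * (((1 / 2) ^ a3r x.t) ^ 2 * (x.g ^ 2 * (1 - Real.log |x.g|)) +
            ((1 / 2) ^ a3r x'.t) ^ 2 * (x'.g ^ 2 * (1 - Real.log |x'.g|)))) :=
          mul_le_mul_of_nonneg_left g2 (by positivity)
      _ = _ := by rw [he]; ring
  refine key.trans ?_
  simp only [Multiset.sum_map_add]
  have he0 : ∀ {U : Tr}, Valid U → ∀ x ∈ recs U, 0 ≤ x.p * e x := by
    intro U hU x hx
    obtain ⟨x1, x2, x3, x4, x5, x6, x7⟩ := recs_mem hU hx
    have : 0 ≤ - Real.log |x.g| := neg_nonneg.2 (Real.log_nonpos (abs_nonneg _) x5)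
    rw [he]
    exact mul_nonneg x4 (mul_nonneg (sq_nonneg _) (by linarith))
  have half : ∀ {U U' : Tr}, Valid U → Valid U' →
      ((recs U).map fun x => ((recs U').map fun x' =>
        4 * C0 * (x.p * x'.p * a3A x.t x'.t * (((1 / 2) ^ a3r x.t) ^ 2 * e x))).sum).sum ≤ 4 * C0 * C := by
    intro U U' hU hU'
    have h1 : ((recs U).map fun x => ((recs U').map fun x' =>
        4 * C0 * (x.p * x'.p * a3A x.t x'.t * (((1 / 2) ^ a3r x.t) ^ 2 * e x))).sum).sum ≤
        ((recs U).map fun x => 4 * C0 * (x.p * e x)).sum := by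
      refine Multiset.sum_map_le_sum_map _ _ fun x hx => ?_
      obtain ⟨x1, x2, x3, x4, x5, x6, x7⟩ := recs_mem hU hx
      have h2 := a3_cnt x1 x6 hU'
      have h3 : ((recs U').map fun x' =>
          4 * C0 * (x.p * x'.p * a3A x.t x'.t * (((1 / 2) ^ a3r x.t) ^ 2 * e x))).sum =
          4 * C0 * (x.p * e x) * (((1 / 2 : ℝ) ^ a3r x.t) ^ 2 *
            ((recs U').map fun x' => x'.p * a3A x.t x'.t).sum) := by
        rw [← Multiset.sum_map_mul_left, ← Multiset.sum_map_mul_left]
        congr 1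
        refine Multiset.map_congr rfl fun x' _ => ?_
        ring
      rw [h3]
      have h4 : 0 ≤ 4 * C0 * (x.p * e x) := mul_nonneg (by positivity) (he0 hU x hx)
      calc _ ≤ 4 * C0 * (x.p * e x) * 1 := mul_le_mul_of_nonneg_left h2 h4
        _ = _ := mul_one _
    refine h1.trans ?_
    rw [Multiset.sum_map_mul_left]
    exact mul_le_mul_of_nonneg_left (hE U hU) (by positivity)
  have A1 := half hT hT'
  have A2 := half hT' hT
  have A3 : ((recs T).map fun x => ((recs T').map fun x' =>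
        4 * C0 * (x.p * x'.p * a3A x.t x'.t * (((1 / 2) ^ a3r x'.t) ^ 2 * e x'))).sum).sum =
      ((recs T').map fun x => ((recs T).map fun x' =>
        4 * C0 * (x.p * x'.p * a3A x.t x'.t * (((1 / 2) ^ a3r x.t) ^ 2 * e x))).sum).sum := by
    rw [a3_dbl_swap]
    congr 1
    refine Multiset.map_congr rfl fun x hx => ?_
    congr 1
    refine Multiset.map_congr rfl fun x' hx' => ?_
    obtain ⟨-, -, -, -, -, ⟨N, f, h, -⟩, -⟩ := recs_mem hT' hx
    obtain ⟨-, -, -, -, -, ⟨N', f', h', -⟩, -⟩ := recs_mem hT hx'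
    rw [a3A_symm x'.t x.t ⟨N', f', h'⟩ ⟨N, f, h⟩]
    ring
  rw [A3]
  linarith

end Pool.Agent.Helper60.HD
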