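import Pool.Agent.Helper60.HD.Rec

/-!
# The entropy bound
-/

set_option autoImplicit false

namespace Pool.Agent.Helper60.HD

/-- entropy of subprobability weights -/
theorem ent_le (d : ℕ) (c : Fin d → ℝ) (hc : ∑ k, c k ^ 2 ≤ 1) :
    ∑ k, c k ^ 2 * (- Real.log (c k ^ 2)) ≤ Real.log (d + 1) + 1 := by
  have hd : (0 : ℝ) < (d : ℝ) + 1 := by positivity
  have hl : 0 ≤ Real.log ((d : ℝ) + 1) := Real.log_nonneg (by linarith [Nat.cast_nonneg (α := ℝ) d])
  have key : ∀ x : ℝ, 0 ≤ x → x * (- Real.log x) ≤ x * Real.log (d + 1) + 1 / (d + 1) := by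
    intro x hx
    rcases hx.eq_or_lt with h0 | h0
    · rw [← h0]; simp; positivity
    · have h1 := Real.log_le_sub_one_of_pos (show 0 < 1 / (x * ((d : ℝ) + 1)) by positivity)
      rw [Real.log_div one_ne_zero (by positivity), Real.log_one, Real.log_mul h0.ne' hd.ne'] at h1
      have h2 : x * (0 - (Real.log x + Real.log ((d : ℝ) + 1))) ≤ x * (1 / (x * ((d : ℝ) + 1)) - 1) :=
        mul_le_mul_of_nonneg_left h1 hx
      have h3 : x * (1 / (x * ((d : ℝ) + 1)) - 1) = 1 / ((d : ℝ) + 1) - x := by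
        field_simp
      rw [h3] at h2
      nlinarith
  calc ∑ k, c k ^ 2 * (- Real.log (c k ^ 2))
      ≤ ∑ k : Fin d, (c k ^ 2 * Real.log (d + 1) + 1 / (d + 1)) :=
        Finset.sum_le_sum fun k _ => key _ (sq_nonneg _)
    _ = (∑ k, c k ^ 2) * Real.log (d + 1) + d * (1 / (d + 1)) := by
        rw [Finset.sum_add_distrib, Finset.sum_mul]
        simp
    _ ≤ 1 * Real.log (d + 1) + 1 := by
        refine add_le_add (mul_le_mul_of_nonneg_right hc hl) ?_
        rw [mul_one_div, div_le_one hd]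
        linarith
    _ = _ := by ring

/-- second moment of the records -/
noncomputable def entM (T : Tr) : ℝ := ((recs T).map fun x => x.p * x.g ^ 2).sum

/-- entropy of the records -/
noncomputable def entL (T : Tr) : ℝ := ((recs T).map fun x => x.p * (x.g ^ 2 * (- Real.log |x.g|))).sum

lemma ent_term {g : ℝ} (hg : |g| ≤ 1) : 0 ≤ g ^ 2 * (- Real.log |g|) :=
  mul_nonneg (sq_nonneg _) (neg_nonneg.2 (Real.log_nonpos (abs_nonneg _) hg))

lemma ent_sg (s : ℚ) : |sg s| = 1 := by unfold sg; split_ifs <;> simp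

lemma ent_sc_comb (S : Multiset Rc) (φ : ℝ → ℝ) (hφ : ∀ s : ℚ, ∀ g : ℝ, φ (sg s * g) = φ g) (s : ℚ) :
    ((S.map (Rc.sc |(s : ℝ)| (sg s))).map fun x => x.p * φ x.g).sum =
      |(s : ℝ)| * (S.map fun x => x.p * φ x.g).sum := by
  rw [Multiset.map_map, ← Multiset.sum_map_mul_left]
  congr 1
  refine Multiset.map_congr rfl fun x _ => ?_
  simp only [Function.comp, Rc.sc, hφ]
  ring

lemma entM_nonneg {T : Tr} (hT : Valid T) : 0 ≤ entM T := by
  unfold entM
  refine Multiset.sum_nonneg fun y hy => ?_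
  obtain ⟨x, hx, rfl⟩ := Multiset.mem_map.1 hy
  exact mul_nonneg (recs_mem hT hx).2.2.2.1 (sq_nonneg _)

lemma entL_nonneg {T : Tr} (hT : Valid T) : 0 ≤ entL T := by
  unfold entL
  refine Multiset.sum_nonneg fun y hy => ?_
  obtain ⟨x, hx, rfl⟩ := Multiset.mem_map.1 hy
  exact mul_nonneg (recs_mem hT hx).2.2.2.1 (ent_term (recs_mem hT hx).2.2.2.2.1)

lemma ent_sum_map {ι : Type} (S : Finset ι) (F : ι → Multiset Rc) (φ : Rc → ℝ) :
    ((∑ k ∈ S, F k).map φ).sum = ∑ k ∈ S, ((F k).map φ).sum := by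
  classical
  induction S using Finset.induction_on with
  | empty => simp
  | insert a S ha ih => rw [Finset.sum_insert ha, Finset.sum_insert ha, Multiset.map_add, Multiset.sum_add, ih]

lemma entM_comb (p q : ℕ) (s t : ℚ) (A B : Tr) :
    entM (.comb p q s t A B) = |(s : ℝ)| * entM A + |(t : ℝ)| * entM B := by
  have hφ : ∀ s : ℚ, ∀ g : ℝ, (fun g : ℝ => g ^ 2) (sg s * g) = (fun g : ℝ => g ^ 2) g := by
    intro s g
    simp only
    rw [mul_pow, ← sq_abs (sg s), ent_sg]
    ring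
  simp only [entM, recs, Multiset.map_add, Multiset.sum_add]
  exact congrArg₂ (· + ·) (ent_sc_comb (recs A) (fun g => g ^ 2) hφ s)
    (ent_sc_comb (recs B) (fun g => g ^ 2) hφ t)

lemma entL_comb (p q : ℕ) (s t : ℚ) (A B : Tr) :
    entL (.comb p q s t A B) = |(s : ℝ)| * entL A + |(t : ℝ)| * entL B := by
  have hφ : ∀ s : ℚ, ∀ g : ℝ, (fun g : ℝ => g ^ 2 * (- Real.log |g|)) (sg s * g) =
      (fun g : ℝ => g ^ 2 * (- Real.log |g|)) g := by
    intro s g
    simp only
    rw [mul_pow, abs_mul, ← sq_abs (sg s), ent_sg]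
    ring_nf
  simp only [entL, recs, Multiset.map_add, Multiset.sum_add]
  exact congrArg₂ (· + ·) (ent_sc_comb (recs A) (fun g => g ^ 2 * (- Real.log |g|)) hφ s)
    (ent_sc_comb (recs B) (fun g => g ^ 2 * (- Real.log |g|)) hφ t)

lemma entM_node (N : ND) (f : Fin N.d → Tr) :
    entM (.node N f) = (if Odd N.i then 1 else 0) +
      ∑ k, ((N.c k : ℝ) / m N.i) ^ 2 * entM (f k) := by
  simp only [entM, recs, Multiset.map_add, Multiset.sum_add, ent_sum_map]
  congr 1
  · split_ifs <;> simp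
  · refine Finset.sum_congr rfl fun k _ => ?_
    split_ifs with h
    · simp [h]
    · rw [Multiset.map_map, ← Multiset.sum_map_mul_left]
      congr 1
      refine Multiset.map_congr rfl fun x _ => ?_
      simp only [Function.comp, Rc.sc]
      ring

lemma ent_mpos (i : ℕ) : (0 : ℝ) < m i := by
  have := m_ge i
  exact_mod_cast (by omega : 0 < m i)

lemma entL_node {N : ND} {f : Fin N.d → Tr} :
    entL (.node N f) = ∑ k, (((N.c k : ℝ) / m N.i) ^ 2 * entL (f k) +
      ((N.c k : ℝ) / m N.i) ^ 2 * (- Real.log |(N.c k : ℝ) / m N.i|) * entM (f k)) := by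
  simp only [entL, entM, recs, Multiset.map_add, Multiset.sum_add, ent_sum_map]
  have h0 : ((if Odd N.i then ({⟨1, 1, .node N f⟩} : Multiset Rc) else 0).map
      fun x => x.p * (x.g ^ 2 * (- Real.log |x.g|))).sum = 0 := by
    split_ifs <;> simp
  rw [h0, zero_add]
  refine Finset.sum_congr rfl fun k _ => ?_
  split_ifs with h
  · simp [h]
  · rw [Multiset.map_map, ← Multiset.sum_map_mul_left, ← Multiset.sum_map_mul_left,
      ← Multiset.sum_map_add]
    congr 1
    refine Multiset.map_congr rfl fun x _ => ?_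
    simp only [Function.comp, Rc.sc]
    by_cases hg : x.g = 0
    · simp [hg]
    have hc : (N.c k : ℝ) / m N.i ≠ 0 := div_ne_zero (by exact_mod_cast h) (ent_mpos _).ne'
    rw [abs_mul, Real.log_mul (abs_ne_zero.2 hc) (abs_ne_zero.2 hg)]
    ring

lemma entM_le {T : Tr} : Valid T → entM T ≤ 2 := by
  induction T with
  | leaf n => intro _; simp [entM, recs]
  | comb p q s t A B ihA ihB =>
    intro h
    rw [valid_comb] at h
    rw [entM_comb]
    have hst : |(s : ℝ)| + |(t : ℝ)| ≤ 1 := by exact_mod_cast h.2.2.1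
    have h1 := mul_le_mul_of_nonneg_left (ihA h.1) (abs_nonneg (s : ℝ))
    have h2 := mul_le_mul_of_nonneg_left (ihB h.2.1) (abs_nonneg (t : ℝ))
    linarith
  | node N f ih =>
    intro h
    rw [valid_node] at h
    rw [entM_node]
    have hm := ent_mpos N.i
    have hm1 : (65536 : ℝ) ≤ m N.i := by exact_mod_cast m_ge N.i
    have h1 : ∑ k, ((N.c k : ℝ) / m N.i) ^ 2 * entM (f k) ≤ ∑ k, ((N.c k : ℝ) / m N.i) ^ 2 * 2 :=
      Finset.sum_le_sum fun k _ => mul_le_mul_of_nonneg_left (ih k (h.1 k)) (sq_nonneg _)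
    have h2 : ∑ k, ((N.c k : ℝ) / m N.i) ^ 2 * 2 = (∑ k, (N.c k : ℝ) ^ 2) * (2 / (m N.i : ℝ) ^ 2) := by
      rw [Finset.sum_mul]
      refine Finset.sum_congr rfl fun k _ => ?_
      rw [div_pow]
      ring
    have h3 : ∑ k, (N.c k : ℝ) ^ 2 ≤ 1 := by exact_mod_cast h.2.sq
    have h4 : 2 / (m N.i : ℝ) ^ 2 ≤ 1 := by
      rw [div_le_one (by positivity)]
      nlinarith
    have h5 : (∑ k, (N.c k : ℝ) ^ 2) * (2 / (m N.i : ℝ) ^ 2) ≤ 1 * 1 :=
      mul_le_mul h3 h4 (by positivity) zero_le_one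
    split_ifs <;> linarith

lemma entL_le {T : Tr} : Valid T → entL T ≤ 16 := by
  induction T with
  | leaf n => intro _; simp [entL, recs]
  | comb p q s t A B ihA ihB =>
    intro h
    rw [valid_comb] at h
    rw [entL_comb]
    have hst : |(s : ℝ)| + |(t : ℝ)| ≤ 1 := by exact_mod_cast h.2.2.1
    have h1 := mul_le_mul_of_nonneg_left (ihA h.1) (abs_nonneg (s : ℝ))
    have h2 := mul_le_mul_of_nonneg_left (ihB h.2.1) (abs_nonneg (t : ℝ))
    linarith
  | node N f ih =>
    intro h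
    rw [valid_node] at h
    rw [entL_node]
    have hm := ent_mpos N.i
    have hm1 : (65536 : ℝ) ≤ m N.i := by exact_mod_cast m_ge N.i
    have hlm : 0 ≤ Real.log (m N.i : ℝ) := Real.log_nonneg (by linarith)
    have hlm2 : Real.log (m N.i : ℝ) ≤ m N.i := by linarith [Real.log_le_sub_one_of_pos hm]
    have hsq : ∑ k, (N.c k : ℝ) ^ 2 ≤ 1 := by exact_mod_cast h.2.sq
    have hsq0 : 0 ≤ ∑ k, (N.c k : ℝ) ^ 2 := Finset.sum_nonneg fun k _ => sq_nonneg _
    have hterm : ∀ k, ((N.c k : ℝ) / m N.i) ^ 2 * entL (f k) +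
        ((N.c k : ℝ) / m N.i) ^ 2 * (- Real.log |(N.c k : ℝ) / m N.i|) * entM (f k) ≤
        (1 / (m N.i : ℝ) ^ 2) * ((N.c k : ℝ) ^ 2 * (16 + 2 * Real.log (m N.i : ℝ)) +
          (N.c k : ℝ) ^ 2 * (- Real.log ((N.c k : ℝ) ^ 2))) := by
      intro k
      have h1 := mul_le_mul_of_nonneg_left (ih k (h.1 k)) (sq_nonneg ((N.c k : ℝ) / m N.i))
      have hc : |(N.c k : ℝ)| ≤ 1 := coef_le h.2 k
      have hcm : |(N.c k : ℝ) / m N.i| ≤ 1 := by
        rw [abs_div, abs_of_pos hm, div_le_one hm]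
        linarith
      have h2 := mul_le_mul_of_nonneg_left (entM_le (h.1 k)) (ent_term hcm)
      refine (add_le_add h1 h2).trans (le_of_eq ?_)
      by_cases h0 : (N.c k : ℝ) = 0
      · simp [h0]
      · rw [abs_div, abs_of_pos hm, Real.log_div (abs_ne_zero.2 h0) hm.ne',
          Real.log_abs, Real.log_pow, div_pow]
        push_cast
        field_simp
        ring
    refine (Finset.sum_le_sum fun k _ => hterm k).trans ?_
    rw [← Finset.mul_sum, Finset.sum_add_distrib, ← Finset.sum_mul]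
    have h5 := ent_le N.d (fun k => (N.c k : ℝ)) hsq
    have hlog : Real.log ((N.d : ℝ) + 1) ≤ 1 + 4 * (m N.i : ℝ) ^ 2 := by
      have hd : (N.d : ℝ) + 1 ≤ 2 * (nn N.i : ℝ) := by
        have := h.2.dn
        have h1 := nn_pos N.i
        exact_mod_cast (by omega : N.d + 1 ≤ 2 * nn N.i)
      have hn : (0 : ℝ) < nn N.i := by exact_mod_cast nn_pos N.i
      refine (Real.log_le_log (by positivity) hd).trans ?_
      rw [Real.log_mul two_ne_zero hn.ne', nn_cast, Real.log_pow, Real.log_pow, rr_eq]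
      push_cast
      have hl2 : Real.log 2 ≤ 1 := by linarith [Real.log_le_sub_one_of_pos (show (0 : ℝ) < 2 by norm_num)]
      have hl0 : 0 ≤ Real.log 2 := Real.log_nonneg (by norm_num)
      nlinarith [sq_nonneg (m N.i : ℝ)]
    rw [one_div_mul_eq_div, div_le_iff₀ (by positivity)]
    have h6 : (∑ k, (N.c k : ℝ) ^ 2) * (16 + 2 * Real.log (m N.i : ℝ)) ≤ 1 * (16 + 2 * Real.log (m N.i : ℝ)) :=
      mul_le_mul_of_nonneg_right hsq (by positivity)
    nlinarith

theorem ent_recs : ∃ C : ℝ, 0 ≤ C ∧ ∀ T, Valid T →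
    ((recs T).map fun x => x.p * (x.g ^ 2 * (1 - Real.log |x.g|))).sum ≤ C := by
  refine ⟨18, by norm_num, fun T hT => ?_⟩
  have h : ((recs T).map fun x => x.p * (x.g ^ 2 * (1 - Real.log |x.g|))).sum = entM T + entL T := by
    unfold entM entL
    rw [← Multiset.sum_map_add]
    congr 1
    refine Multiset.map_congr rfl fun x _ => ?_
    ring
  rw [h]
  linarith [entM_le hT, entL_le hT]

lemma ent_pair {x x' : ℝ} (hx : 0 < x) (hx' : 0 < x') :
    x * x' * √|Real.log x - Real.log x'| ≤ x ^ 2 + x' ^ 2 := by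
  have key : ∀ {u v : ℝ}, 0 < u → 0 < v → v ≤ u → u * v * √|Real.log u - Real.log v| ≤ u ^ 2 := by
    intro u v hu hv h
    have h1 : Real.log u - Real.log v ≤ u / v := by
      rw [← Real.log_div hu.ne' hv.ne']
      linarith [Real.log_le_sub_one_of_pos (div_pos hu hv)]
    have h0 : 0 ≤ Real.log u - Real.log v := sub_nonneg.2 (Real.log_le_log hv h)
    have h2 : 1 ≤ u / v := (one_le_div hv).2 h
    have h3 : √|Real.log u - Real.log v| ≤ u / v := by
      rw [abs_of_nonneg h0]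
      refine Real.sqrt_le_iff.2 ⟨by positivity, h1.trans ?_⟩
      nlinarith
    calc u * v * √|Real.log u - Real.log v| ≤ u * v * (u / v) :=
          mul_le_mul_of_nonneg_left h3 (by positivity)
      _ = u ^ 2 := by field_simp
  rcases le_total x' x with h | h
  · exact (key hx hx' h).trans (by nlinarith)
  · have := key hx' hx h
    rw [abs_sub_comm, mul_comm x x']
    exact this.trans (by nlinarith)

lemma ent_half {x x' L : ℝ} (hL : 0 ≤ L) :
    x * x' * √L ≤ (x ^ 2 * L + x' ^ 2) / 2 := by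
  have h := sq_nonneg (x * √L - x')
  have h2 := Real.sq_sqrt hL
  nlinarith

/-- the pointwise inequality -/
theorem pt_le (g g' : ℝ) (hg : |g| ≤ 1) (hg' : |g'| ≤ 1) (r r' : ℕ) :
    |g * g'| * ((1 / 2) ^ r * (1 / 2) ^ r') * √|(r : ℝ) - r'| ≤
      4 * (((1 / 2) ^ r) ^ 2 * (g ^ 2 * (1 - Real.log |g|)) +
        ((1 / 2) ^ r') ^ 2 * (g' ^ 2 * (1 - Real.log |g'|))) := by
  have hL : 0 ≤ - Real.log |g| := neg_nonneg.2 (Real.log_nonpos (abs_nonneg _) hg)
  have hL' : 0 ≤ - Real.log |g'| := neg_nonneg.2 (Real.log_nonpos (abs_nonneg _) hg')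
  have hR : 0 ≤ 4 * (((1 / 2) ^ r) ^ 2 * (g ^ 2 * (1 - Real.log |g|)) +
        ((1 / 2) ^ r') ^ 2 * (g' ^ 2 * (1 - Real.log |g'|))) := by
    have h1 : 0 ≤ 1 - Real.log |g| := by linarith
    have h2 : 0 ≤ 1 - Real.log |g'| := by linarith
    positivity
  by_cases h0 : g = 0
  · rw [h0] at hR ⊢; simpa using hR
  by_cases h0' : g' = 0
  · rw [h0'] at hR ⊢; simpa using hR
  have ag := abs_pos.2 h0
  have ag' := abs_pos.2 h0'
  set L := - Real.log |g| with hLdef
  set L' := - Real.log |g'| with hLdef'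
  set x := |g| * (1 / 2) ^ r with hx
  set x' := |g'| * (1 / 2) ^ r' with hx'
  have hx0 : 0 < x := by positivity
  have hx0' : 0 < x' := by positivity
  have hl2 : (1 : ℝ) / 2 ≤ Real.log 2 := by
    have := Real.log_two_gt_d9
    linarith
  have lx : Real.log x = - L - r * Real.log 2 := by
    rw [hx, Real.log_mul ag.ne' (by positivity), Real.log_pow, one_div, Real.log_inv, hLdef]
    ring
  have lx' : Real.log x' = - L' - r' * Real.log 2 := by
    rw [hx', Real.log_mul ag'.ne' (by positivity), Real.log_pow, one_div, Real.log_inv, hLdef']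
    ring
  have hD : |(r : ℝ) - r'| ≤ 2 * (|Real.log x - Real.log x'| + L + L') := by
    have h1 : ((r : ℝ) - r') * Real.log 2 = - (Real.log x - Real.log x') + (L' - L) := by
      rw [lx, lx']; ring
    have h2 : |((r : ℝ) - r') * Real.log 2| ≤ |Real.log x - Real.log x'| + (L + L') := by
      rw [h1]
      refine (abs_add_le _ _).trans ?_
      rw [abs_neg]
      have : |L' - L| ≤ L + L' := abs_le.2 ⟨by linarith, by linarith⟩
      linarith
    rw [abs_mul, abs_of_nonneg (by linarith : (0 : ℝ) ≤ Real.log 2)] at h2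
    nlinarith [abs_nonneg ((r : ℝ) - r')]
  have hs : √|(r : ℝ) - r'| ≤ (3 / 2) * (√|Real.log x - Real.log x'| + √L + √L') := by
    refine Real.sqrt_le_iff.2 ⟨by positivity, hD.trans ?_⟩
    have e1 := Real.sq_sqrt (abs_nonneg (Real.log x - Real.log x'))
    have e2 := Real.sq_sqrt hL
    have e3 := Real.sq_sqrt hL'
    have p1 := Real.sqrt_nonneg |Real.log x - Real.log x'|
    have p2 := Real.sqrt_nonneg L
    have p3 := Real.sqrt_nonneg L'
    nlinarith [mul_nonneg p1 p2, mul_nonneg p1 p3, mul_nonneg p2 p3]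
  have e0 : |g * g'| * ((1 / 2) ^ r * (1 / 2) ^ r') = x * x' := by
    rw [abs_mul, hx, hx']; ring
  rw [e0]
  have b1 := ent_pair hx0 hx0'
  have b2 := ent_half (x := x) (x' := x') hL
  have b3 := ent_half (x := x') (x' := x) hL'
  have ex : ((1 / 2) ^ r) ^ 2 * (g ^ 2 * (1 - Real.log |g|)) = x ^ 2 * (1 + L) := by
    rw [hx, hLdef, mul_pow, sq_abs]; ring
  have ex' : ((1 / 2) ^ r') ^ 2 * (g' ^ 2 * (1 - Real.log |g'|)) = x' ^ 2 * (1 + L') := by
    rw [hx', hLdef', mul_pow, sq_abs]; ring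
  rw [ex, ex']
  have h3 := mul_le_mul_of_nonneg_left hs (mul_pos hx0 hx0').le
  have p4 : 0 ≤ x ^ 2 * L := mul_nonneg (sq_nonneg _) hL
  have p5 : 0 ≤ x' ^ 2 * L' := mul_nonneg (sq_nonneg _) hL'
  nlinarith [sq_nonneg x, sq_nonneg x']

end Pool.Agent.Helper60.HD
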