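import Pool.Agent.Helper60.HD.A2
import Pool.Agent.Helper60.HD.A3

/-!
# Antisymmetry
-/

set_option autoImplicit false

namespace Pool.Agent.Helper60.HD

theorem anti : ∃ CA : ℝ, 1 ≤ CA ∧ ∀ (a b : ℕ) (T T' : Tr), Valid T → Valid T' →
    |ip (ct a b (uv T)) (yv T') - ip (ct a b (uv T')) (yv T)| ≤ CA := by
  obtain ⟨C2, h20, h2⟩ := lin_be_le
  obtain ⟨C3, h30, h3⟩ := alp_le
  refine ⟨1 + 2 * C2 + C3, by linarith, fun a b T T' hT hT' => ?_⟩
  rw [ip_uv, ip_uv]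
  have e1 : ∀ U : Tr, (fun t => ip (ct a b t.kp) (yv U)) = fun t => be a b t U + alp a b t U := by
    intro U
    funext t
    rw [be]
    ring
  rw [e1, e1, lin_add, lin_add]
  have h4 := abs_le.1 (h2 a b T T' hT hT')
  have h5 := abs_le.1 (h2 a b T' T hT' hT)
  have h6 := abs_le.1 (h3 a b T T' hT hT')
  rw [abs_le]
  constructor <;> linarith [h4.1, h4.2, h5.1, h5.2, h6.1, h6.2]

end Pool.Agent.Helper60.HD
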