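import Pool.Agent.Helper60.HD.BasB

/-!
# The norm of V and its dual
-/

set_option autoImplicit false

namespace Pool.Agent.Helper60.HD

/-! ### the norm of V -/

lemma bas_le_l1 {T : Tr} (hT : Valid T) (a b : ℕ) (x : ℕ →₀ ℝ) : |ip (ct a b x) (yv T)| ≤ l1 x := by
  have h1 : |ip (ct a b x) (yv T)| ≤ 1 * l1 (ct a b x) := ip_le_l1 (fun k => yv_le_one hT k)
  rw [one_mul] at h1
  exact h1.trans (l1_ct a b x)

lemma bas_bdd (x : ℕ →₀ ℝ) :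
    BddAbove {t | ∃ (a b : ℕ) (T : Tr), Valid T ∧ t = |ip (ct a b x) (yv T)|} := by
  refine ⟨l1 x, ?_⟩
  rintro t ⟨a, b, T, hT, rfl⟩
  exact bas_le_l1 hT a b x

lemma bas_ne (x : ℕ →₀ ℝ) :
    {t | ∃ (a b : ℕ) (T : Tr), Valid T ∧ t = |ip (ct a b x) (yv T)|}.Nonempty :=
  ⟨_, 0, 0, .leaf 0, valid_leaf 0, rfl⟩

lemma le_nV {T : Tr} (hT : Valid T) (a b : ℕ) (x : ℕ →₀ ℝ) : |ip (ct a b x) (yv T)| ≤ nV x :=
  le_csSup (bas_bdd x) ⟨a, b, T, hT, rfl⟩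

lemma ip_le_nV {T : Tr} (hT : Valid T) (x : ℕ →₀ ℝ) : |ip x (yv T)| ≤ nV x := by
  have h1 := le_nV hT T.lo T.hi x
  rwa [ip_ct, ct_self (fun k hk => yv_supp hT hk)] at h1

lemma nV_le {x : ℕ →₀ ℝ} {C : ℝ} (h0 : 0 ≤ C)
    (h : ∀ a b T, Valid T → |ip (ct a b x) (yv T)| ≤ C) : nV x ≤ C := by
  have := h0
  refine csSup_le (bas_ne x) ?_
  rintro t ⟨a, b, T, hT, rfl⟩
  exact h a b T hT

lemma nV_nonneg (x : ℕ →₀ ℝ) : 0 ≤ nV x :=
  (abs_nonneg _).trans (le_nV (valid_leaf 0) 0 0 x)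

lemma nV_add (x y : ℕ →₀ ℝ) : nV (x + y) ≤ nV x + nV y := by
  refine nV_le (add_nonneg (nV_nonneg x) (nV_nonneg y)) (fun a b T hT => ?_)
  rw [map_add, map_add, LinearMap.add_apply]
  exact (abs_add_le _ _).trans (add_le_add (le_nV hT a b x) (le_nV hT a b y))

lemma bas_smul_le (c : ℝ) (x : ℕ →₀ ℝ) : nV (c • x) ≤ |c| * nV x := by
  refine nV_le (mul_nonneg (abs_nonneg c) (nV_nonneg x)) (fun a b T hT => ?_)
  rw [map_smul, map_smul, LinearMap.smul_apply, smul_eq_mul, abs_mul]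
  exact mul_le_mul_of_nonneg_left (le_nV hT a b x) (abs_nonneg c)

lemma nV_smul (c : ℝ) (x : ℕ →₀ ℝ) : nV (c • x) = |c| * nV x := by
  refine le_antisymm (bas_smul_le c x) ?_
  rcases eq_or_ne c 0 with rfl | hc
  · rw [abs_zero, zero_mul]; exact nV_nonneg _
  · have h1 := bas_smul_le c⁻¹ (c • x)
    rw [smul_smul, inv_mul_cancel₀ hc, one_smul, abs_inv] at h1
    have h2 : 0 < |c| := abs_pos.mpr hc
    calc |c| * nV x ≤ |c| * (|c|⁻¹ * nV (c • x)) := mul_le_mul_of_nonneg_left h1 h2.le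
      _ = nV (c • x) := by rw [← mul_assoc, mul_inv_cancel₀ h2.ne', one_mul]

lemma bas_nV_zero : nV 0 = 0 := by
  have h := nV_smul 0 0
  rwa [zero_smul, abs_zero, zero_mul] at h

lemma nV_sum {ι : Type} (S : Finset ι) (x : ι → (ℕ →₀ ℝ)) : nV (∑ k ∈ S, x k) ≤ ∑ k ∈ S, nV (x k) := by
  classical
  induction S using Finset.induction_on with
  | empty => rw [Finset.sum_empty, Finset.sum_empty, bas_nV_zero]
  | insert a s ha ih =>
    rw [Finset.sum_insert ha, Finset.sum_insert ha]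
    exact (nV_add _ _).trans (add_le_add le_rfl ih)

lemma nV_ct (a b : ℕ) (x : ℕ →₀ ℝ) : nV (ct a b x) ≤ nV x := by
  refine nV_le (nV_nonneg x) (fun a' b' T hT => ?_)
  rw [ct_ct]
  exact le_nV hT _ _ x

lemma bas_ip_single (x : ℕ →₀ ℝ) (k : ℕ) : ip x (Finsupp.single k 1) = x k := by
  rw [ip_comm, ip_eq _ _ {k} Finsupp.support_single_subset, Finset.sum_singleton,
    Finsupp.single_eq_same, one_mul]

lemma nV_coord (x : ℕ →₀ ℝ) (k : ℕ) : |x k| ≤ nV x := by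
  have h1 := ip_le_nV (valid_leaf k) x
  rwa [yv, bas_ip_single] at h1

lemma nV_le_l1 (x : ℕ →₀ ℝ) : nV x ≤ l1 x :=
  nV_le (l1_nonneg x) (fun a b _ hT => bas_le_l1 hT a b x)

lemma nV_pos {x : ℕ →₀ ℝ} (h : x ≠ 0) : 0 < nV x := by
  obtain ⟨k, hk⟩ := Finsupp.ne_iff.mp h
  exact (abs_pos.mpr hk).trans_le (nV_coord x k)

lemma exists_nV {x : ℕ →₀ ℝ} {c : ℝ} (h : c < nV x) : ∃ a b T, Valid T ∧ c < ip (ct a b x) (yv T) := by
  obtain ⟨t, ⟨a, b, T, hT, rfl⟩, ht⟩ := exists_lt_of_lt_csSup (bas_ne x) h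
  rcases le_total 0 (ip (ct a b x) (yv T)) with h0 | h0
  · rw [abs_of_nonneg h0] at ht
    exact ⟨a, b, T, hT, ht⟩
  · rw [abs_of_nonpos h0] at ht
    refine ⟨a, b, .comb T.lo T.hi (-1) 0 T T, ?_, ?_⟩
    · rw [valid_comb]
      refine ⟨hT, hT, ?_, le_rfl, le_rfl, le_rfl, le_rfl⟩
      simp
    · have h1 : yv (.comb T.lo T.hi (-1) 0 T T) = - yv T := by
        simp only [yv]
        simp
      rw [h1, map_neg]
      exact ht

/-! ### the dual norm -/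

lemma bas_dle_l1 {x : ℕ →₀ ℝ} (hx : nV x ≤ 1) (y : ℕ →₀ ℝ) : |ip x y| ≤ l1 y := by
  rw [ip_comm]
  have h1 : |ip y x| ≤ 1 * l1 y := ip_le_l1 (fun k => (nV_coord x k).trans hx)
  rwa [one_mul] at h1

lemma bas_dbdd (y : ℕ →₀ ℝ) : BddAbove {t | ∃ x : ℕ →₀ ℝ, nV x ≤ 1 ∧ t = |ip x y|} := by
  refine ⟨l1 y, ?_⟩
  rintro t ⟨x, hx, rfl⟩
  exact bas_dle_l1 hx y

lemma bas_dne (y : ℕ →₀ ℝ) : {t | ∃ x : ℕ →₀ ℝ, nV x ≤ 1 ∧ t = |ip x y|}.Nonempty :=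
  ⟨_, 0, by rw [bas_nV_zero]; exact zero_le_one, rfl⟩

lemma bas_le_nD {x : ℕ →₀ ℝ} (hx : nV x ≤ 1) (y : ℕ →₀ ℝ) : |ip x y| ≤ nD y :=
  le_csSup (bas_dbdd y) ⟨x, hx, rfl⟩

lemma le_nD (x y : ℕ →₀ ℝ) : |ip x y| ≤ nV x * nD y := by
  rcases eq_or_ne x 0 with rfl | hx
  · rw [map_zero, LinearMap.zero_apply, abs_zero, bas_nV_zero, zero_mul]
  · have hp := nV_pos hx
    have h1 : nV ((nV x)⁻¹ • x) ≤ 1 := by
      rw [nV_smul, abs_inv, abs_of_pos hp, inv_mul_cancel₀ hp.ne']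
    have h2 := bas_le_nD h1 y
    rw [map_smul, LinearMap.smul_apply, smul_eq_mul, abs_mul, abs_inv, abs_of_pos hp] at h2
    calc |ip x y| = nV x * ((nV x)⁻¹ * |ip x y|) := by
          rw [← mul_assoc, mul_inv_cancel₀ hp.ne', one_mul]
      _ ≤ nV x * nD y := mul_le_mul_of_nonneg_left h2 hp.le

lemma nD_le {y : ℕ →₀ ℝ} {C : ℝ} (h0 : 0 ≤ C) (h : ∀ x, nV x ≤ 1 → |ip x y| ≤ C) : nD y ≤ C := by
  have := h0
  refine csSup_le (bas_dne y) ?_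
  rintro t ⟨x, hx, rfl⟩
  exact h x hx

lemma nD_nonneg (y : ℕ →₀ ℝ) : 0 ≤ nD y := by
  have h0 : nV (0 : ℕ →₀ ℝ) ≤ 1 := by rw [bas_nV_zero]; exact zero_le_one
  exact (abs_nonneg _).trans (bas_le_nD h0 y)

lemma nD_add (x y : ℕ →₀ ℝ) : nD (x + y) ≤ nD x + nD y := by
  refine nD_le (add_nonneg (nD_nonneg x) (nD_nonneg y)) (fun z hz => ?_)
  rw [map_add]
  exact (abs_add_le _ _).trans (add_le_add (bas_le_nD hz x) (bas_le_nD hz y))

lemma bas_dsmul_le (c : ℝ) (x : ℕ →₀ ℝ) : nD (c • x) ≤ |c| * nD x := by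
  refine nD_le (mul_nonneg (abs_nonneg c) (nD_nonneg x)) (fun z hz => ?_)
  rw [map_smul, smul_eq_mul, abs_mul]
  exact mul_le_mul_of_nonneg_left (bas_le_nD hz x) (abs_nonneg c)

lemma nD_smul (c : ℝ) (x : ℕ →₀ ℝ) : nD (c • x) = |c| * nD x := by
  refine le_antisymm (bas_dsmul_le c x) ?_
  rcases eq_or_ne c 0 with rfl | hc
  · rw [abs_zero, zero_mul]; exact nD_nonneg _
  · have h1 := bas_dsmul_le c⁻¹ (c • x)
    rw [smul_smul, inv_mul_cancel₀ hc, one_smul, abs_inv] at h1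
    have h2 : 0 < |c| := abs_pos.mpr hc
    calc |c| * nD x ≤ |c| * (|c|⁻¹ * nD (c • x)) := mul_le_mul_of_nonneg_left h1 h2.le
      _ = nD (c • x) := by rw [← mul_assoc, mul_inv_cancel₀ h2.ne', one_mul]

lemma bas_nD_zero : nD 0 = 0 := by
  have h := nD_smul 0 0
  rwa [zero_smul, abs_zero, zero_mul] at h

lemma nD_sum {ι : Type} (S : Finset ι) (x : ι → (ℕ →₀ ℝ)) : nD (∑ k ∈ S, x k) ≤ ∑ k ∈ S, nD (x k) := by
  classical
  induction S using Finset.induction_on with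
  | empty => rw [Finset.sum_empty, Finset.sum_empty, bas_nD_zero]
  | insert a s ha ih =>
    rw [Finset.sum_insert ha, Finset.sum_insert ha]
    exact (nD_add _ _).trans (add_le_add le_rfl ih)

lemma nD_ct (a b : ℕ) (x : ℕ →₀ ℝ) : nD (ct a b x) ≤ nD x := by
  refine nD_le (nD_nonneg x) (fun z hz => ?_)
  rw [← ip_ct]
  exact bas_le_nD ((nV_ct a b z).trans hz) x

lemma nD_yv {T : Tr} (hT : Valid T) : nD (yv T) ≤ 1 :=
  nD_le zero_le_one (fun x hx => (ip_le_nV hT x).trans hx)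

lemma nD_coord (x : ℕ →₀ ℝ) (k : ℕ) : |x k| ≤ nD x := by
  have h1 : nV (Finsupp.single k (1 : ℝ)) ≤ 1 := by
    refine (nV_le_l1 _).trans ?_
    rw [l1_eq _ {k} Finsupp.support_single_subset, Finset.sum_singleton,
      Finsupp.single_eq_same, abs_one]
  have h2 := bas_le_nD h1 x
  rwa [ip_comm, bas_ip_single] at h2

lemma nD_le_l1 (x : ℕ →₀ ℝ) : nD x ≤ l1 x :=
  nD_le (l1_nonneg x) (fun _ hz => bas_dle_l1 hz x)

lemma nD_pos {x : ℕ →₀ ℝ} (h : x ≠ 0) : 0 < nD x := by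
  obtain ⟨k, hk⟩ := Finsupp.ne_iff.mp h
  exact (abs_pos.mpr hk).trans_le (nD_coord x k)

lemma exists_nD {y : ℕ →₀ ℝ} {c : ℝ} (h : c < nD y) : ∃ x, nV x ≤ 1 ∧ c < ip x y := by
  obtain ⟨t, ⟨x, hx, rfl⟩, ht⟩ := exists_lt_of_lt_csSup (bas_dne y) h
  rcases le_total 0 (ip x y) with h0 | h0
  · rw [abs_of_nonneg h0] at ht
    exact ⟨x, hx, ht⟩
  · rw [abs_of_nonpos h0] at ht
    refine ⟨-x, ?_, ?_⟩
    · have h1 := nV_smul (-1) x
      rw [neg_one_smul, abs_neg, abs_one, one_mul] at h1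
      rw [h1]; exact hx
    · rw [map_neg, LinearMap.neg_apply]
      exact ht

end Pool.Agent.Helper60.HD
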