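import Pool.Agent.Helper60.HD.Par

/-!
# Pairing, restriction, l1 norm
-/

set_option autoImplicit false

namespace Pool.Agent.Helper60.HD

lemma ip_eq (x y : ℕ →₀ ℝ) (S : Finset ℕ) (hS : x.support ⊆ S) : ip x y = ∑ k ∈ S, x k * y k := by
  exact Finsupp.sum_of_support_subset x hS (fun k a => a * y k) (fun _ _ => zero_mul _)

lemma ip_comm (x y : ℕ →₀ ℝ) : ip x y = ip y x := by
  rw [ip_eq x y (x.support ∪ y.support) Finset.subset_union_left,
    ip_eq y x (x.support ∪ y.support) Finset.subset_union_right]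
  exact Finset.sum_congr rfl fun k _ => mul_comm _ _

lemma ct_apply (a b : ℕ) (x : ℕ →₀ ℝ) (k : ℕ) : ct a b x k = if a ≤ k ∧ k < b then x k else 0 := by
  show (x.filter (fun k => a ≤ k ∧ k < b)) k = _
  rw [Finsupp.filter_apply]

lemma ip_ct (a b : ℕ) (x y : ℕ →₀ ℝ) : ip (ct a b x) y = ip x (ct a b y) := by
  rw [ip_eq (ct a b x) y x.support (by
      intro k hk
      rw [Finsupp.mem_support_iff, ct_apply] at hk
      rw [Finsupp.mem_support_iff]
      intro h
      apply hk
      split_ifs <;> simp [h]),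
    ip_eq x (ct a b y) x.support (Finset.Subset.refl _)]
  refine Finset.sum_congr rfl fun k _ => ?_
  rw [ct_apply, ct_apply]
  split_ifs <;> simp

lemma ct_ct (a b c d : ℕ) (x : ℕ →₀ ℝ) : ct a b (ct c d x) = ct (max a c) (min b d) x := by
  ext k
  rw [ct_apply, ct_apply, ct_apply]
  by_cases h1 : a ≤ k ∧ k < b
  · by_cases h2 : c ≤ k ∧ k < d
    · rw [if_pos h1, if_pos h2, if_pos (by omega)]
    · rw [if_pos h1, if_neg h2, if_neg (by omega)]
  · rw [if_neg h1, if_neg (by omega)]

lemma ct_self {a b : ℕ} {x : ℕ →₀ ℝ} (h : ∀ k, x k ≠ 0 → a ≤ k ∧ k < b) : ct a b x = x := by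
  ext k
  rw [ct_apply]
  split_ifs with h1
  · rfl
  · by_contra h2
    exact h1 (h k (Ne.symm h2))

lemma ct_none {a b : ℕ} {x : ℕ →₀ ℝ} (h : ∀ k, x k ≠ 0 → k < a ∨ b ≤ k) : ct a b x = 0 := by
  ext k
  rw [ct_apply, Finsupp.zero_apply]
  split_ifs with h1
  · by_contra h2
    have := h k h2
    omega
  · rfl

/-- vectors with disjoint supports are orthogonal -/
lemma ip_disj {x y : ℕ →₀ ℝ} (h : ∀ k, x k ≠ 0 → y k ≠ 0 → False) : ip x y = 0 := by
  rw [ip_eq x y x.support (Finset.Subset.refl _)]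
  refine Finset.sum_eq_zero fun k hk => ?_
  rw [Finsupp.mem_support_iff] at hk
  have : y k = 0 := by
    by_contra h2
    exact h k hk h2
  rw [this, mul_zero]

lemma rv_apply (x : ℕ →₀ ℚ) (k : ℕ) : rv x k = (x k : ℝ) := by
  unfold rv
  rw [Finsupp.mapRange_apply]

lemma l1_nonneg (x : ℕ →₀ ℝ) : 0 ≤ l1 x := Finset.sum_nonneg fun _ _ => abs_nonneg _

lemma l1_eq (x : ℕ →₀ ℝ) (S : Finset ℕ) (hS : x.support ⊆ S) : l1 x = ∑ k ∈ S, |x k| := by
  unfold l1
  refine Finset.sum_subset hS fun k _ hk => ?_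
  rw [Finsupp.notMem_support_iff] at hk
  rw [hk, abs_zero]

lemma l1_add (x y : ℕ →₀ ℝ) : l1 (x + y) ≤ l1 x + l1 y := by
  classical
  rw [l1_eq (x + y) (x.support ∪ y.support) Finsupp.support_add,
    l1_eq x (x.support ∪ y.support) Finset.subset_union_left,
    l1_eq y (x.support ∪ y.support) Finset.subset_union_right, ← Finset.sum_add_distrib]
  exact Finset.sum_le_sum fun k _ => by rw [Finsupp.add_apply]; exact abs_add_le _ _

lemma l1_smul (c : ℝ) (x : ℕ →₀ ℝ) : l1 (c • x) = |c| * l1 x := by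
  rw [l1_eq (c • x) x.support Finsupp.support_smul, l1, Finset.mul_sum]
  exact Finset.sum_congr rfl fun k _ => by rw [Finsupp.smul_apply, smul_eq_mul, abs_mul]

lemma l1_zero : l1 0 = 0 := by simp [l1]

lemma l1_sum {ι : Type} (S : Finset ι) (x : ι → (ℕ →₀ ℝ)) : l1 (∑ k ∈ S, x k) ≤ ∑ k ∈ S, l1 (x k) := by
  classical
  induction S using Finset.induction_on with
  | empty => simp [l1_zero]
  | insert i S hi ih =>
    rw [Finset.sum_insert hi, Finset.sum_insert hi]
    exact (l1_add _ _).trans (by linarith)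

lemma l1_ct (a b : ℕ) (x : ℕ →₀ ℝ) : l1 (ct a b x) ≤ l1 x := by
  rw [l1_eq (ct a b x) x.support (by
      intro k hk
      rw [Finsupp.mem_support_iff, ct_apply] at hk
      rw [Finsupp.mem_support_iff]
      intro h
      apply hk
      split_ifs <;> simp [h]), l1]
  refine Finset.sum_le_sum fun k _ => ?_
  rw [ct_apply]
  split_ifs
  · exact le_rfl
  · rw [abs_zero]; exact abs_nonneg _

lemma ip_le_l1 {x y : ℕ →₀ ℝ} {C : ℝ} (h : ∀ k, |y k| ≤ C) : |ip x y| ≤ C * l1 x := by
  rw [ip_eq x y x.support (Finset.Subset.refl _), l1, Finset.mul_sum]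
  refine (Finset.abs_sum_le_sum_abs _ _).trans (Finset.sum_le_sum fun k _ => ?_)
  rw [abs_mul, mul_comm]
  exact mul_le_mul_of_nonneg_right (h k) (abs_nonneg _)

/-- rational approximation -/
lemma exists_rv (x : ℕ →₀ ℝ) (η : ℝ) (hη : 0 < η) :
    ∃ x' : ℕ →₀ ℚ, (∀ n ∈ x'.support, x n ≠ 0) ∧ l1 (rv x' - x) ≤ η := by
  classical
  have hd : 0 < η / (x.support.card + 1) := by positivity
  have h : ∀ k, ∃ q : ℚ, |(q : ℝ) - x k| < η / (x.support.card + 1) := by
    intro k
    obtain ⟨q, h1, h2⟩ := exists_rat_btwn (show x k < x k + η / (x.support.card + 1) by linarith)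
    exact ⟨q, by rw [abs_lt]; constructor <;> linarith⟩
  choose q hq using h
  refine ⟨Finsupp.onFinset x.support (fun k => if k ∈ x.support then q k else 0) (by
    intro k hk
    by_contra h
    simp [h] at hk), ?_, ?_⟩
  · intro n hn
    rw [Finsupp.mem_support_iff, Finsupp.onFinset_apply] at hn
    by_contra h
    apply hn
    rw [if_neg]
    rw [Finsupp.mem_support_iff]
    exact fun h' => h' h
  · rw [l1_eq _ x.support]
    · have h1 : ∀ k ∈ x.support, |(rv (Finsupp.onFinset x.support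
          (fun k => if k ∈ x.support then q k else 0) (by
            intro k hk
            by_contra h
            simp [h] at hk)) - x) k| ≤ η / (x.support.card + 1) := by
        intro k hk
        rw [Finsupp.sub_apply, rv_apply, Finsupp.onFinset_apply, if_pos hk]
        exact (hq k).le
      refine (Finset.sum_le_sum h1).trans ?_
      rw [Finset.sum_const, nsmul_eq_mul]
      have h4 : (0 : ℝ) < x.support.card + 1 := by positivity
      rw [mul_div_assoc', div_le_iff₀ h4]
      nlinarith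
    · intro k hk
      by_contra h
      rw [Finsupp.mem_support_iff, Finsupp.sub_apply, rv_apply, Finsupp.onFinset_apply,
        if_neg h] at hk
      rw [Finsupp.notMem_support_iff] at h
      simp [h] at hk

end Pool.Agent.Helper60.HD
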