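import Pool.Agent.Helper60.HD.BasA

/-!
# Supports and coefficients of tree functionals
-/

set_option autoImplicit false

namespace Pool.Agent.Helper60.HD

lemma lo_lt_hi {T : Tr} (hT : Valid T) : T.lo < T.hi := by
  induction T with
  | leaf n => simp
  | comb p q s t A B ihA _ =>
    rw [valid_comb] at hT
    obtain ⟨hA, _, _, h1, h2, _⟩ := hT
    have := ihA hA
    simp only [lo_comb, hi_comb]
    omega
  | node N f _ => exact hT.2.pq

lemma yv_supp {T : Tr} (hT : Valid T) {n : ℕ} (h : yv T n ≠ 0) : T.lo ≤ n ∧ n < T.hi := by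
  induction T with
  | leaf k =>
    have : k = n := by
      by_contra hk
      apply h
      simp [yv, hk]
    subst this
    simp
  | comb p q s t A B ihA ihB =>
    rw [valid_comb] at hT
    obtain ⟨hA, hB, _, h1, h2, h3, h4⟩ := hT
    simp only [lo_comb, hi_comb]
    by_cases ha : yv A n = 0
    · by_cases hb : yv B n = 0
      · exfalso
        apply h
        simp [yv, ha, hb]
      · have := ihB hB hb
        omega
    · have := ihA hA ha
      omega
  | node N f ih =>
    obtain ⟨hv, hN⟩ := hT
    simp only [lo_node, hi_node]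
    have h1 : (∑ k, (N.c k : ℝ) • yv (f k)) n ≠ 0 := by
      intro h0
      apply h
      simp only [yv, Finsupp.smul_apply, h0, smul_zero]
    rw [Finsupp.finsetSum_apply] at h1
    obtain ⟨k, _, hk⟩ := Finset.exists_ne_zero_of_sum_ne_zero h1
    rw [Finsupp.smul_apply, smul_eq_mul] at hk
    have hc : N.c k ≠ 0 := by
      intro h0
      apply hk
      rw [h0]
      simp
    have hy : yv (f k) n ≠ 0 := right_ne_zero_of_mul hk
    have h2 := ih k (hv k) hy
    have h3 := hN.box k hc
    omega

lemma kp_supp {N : ND} {f : Fin N.d → Tr} (hT : Valid (.node N f)) (ho : Odd N.i) {n : ℕ}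
    (h : KP N f n ≠ 0) : N.p ≤ n ∧ n < N.q := by
  classical
  obtain ⟨_, hN⟩ := hT
  unfold KP at h
  rw [Finsupp.smul_apply, smul_eq_mul] at h
  have h1 := right_ne_zero_of_mul h
  rw [Finsupp.finsetSum_apply] at h1
  obtain ⟨k, _, hk⟩ := Finset.exists_ne_zero_of_sum_ne_zero h1
  split_ifs at hk with hg
  · rw [Finsupp.smul_apply, smul_eq_mul] at hk
    have hc : N.c k ≠ 0 := by
      intro h0
      apply hk
      rw [h0]
      simp
    have hy : rv (N.v k) n ≠ 0 := right_ne_zero_of_mul hk
    rw [rv_apply] at hy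
    have hy' : n ∈ (N.v k).support := by
      rw [Finsupp.mem_support_iff]
      intro h0
      apply hy
      rw [h0]
      simp
    have h2 := hN.vs ho k n hy'
    have h3 := hN.box k hc
    omega
  · simp at hk

lemma uv_supp {T : Tr} (hT : Valid T) {n : ℕ} (h : uv T n ≠ 0) : T.lo ≤ n ∧ n < T.hi := by
  induction T with
  | leaf k => simp [uv] at h
  | comb p q s t A B ihA ihB =>
    rw [valid_comb] at hT
    obtain ⟨hA, hB, _, h1, h2, h3, h4⟩ := hT
    simp only [lo_comb, hi_comb]
    by_cases ha : uv A n = 0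
    · by_cases hb : uv B n = 0
      · exfalso
        apply h
        simp [uv, ha, hb]
      · have := ihB hB hb
        omega
    · have := ihA hA ha
      omega
  | node N f ih =>
    have hT' := hT
    obtain ⟨hv, hN⟩ := hT'
    simp only [lo_node, hi_node]
    by_cases h1 : (∑ k, (N.c k : ℝ) • uv (f k)) n = 0
    · by_cases ho : Odd N.i
      · apply kp_supp hT ho
        intro h0
        apply h
        simp only [uv, Finsupp.add_apply, Finsupp.smul_apply, h1, smul_zero, if_pos ho, h0, add_zero]
      · exfalso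
        apply h
        simp only [uv, Finsupp.add_apply, Finsupp.smul_apply, h1, smul_zero, if_neg ho,
          Finsupp.zero_apply, add_zero]
    · rw [Finsupp.finsetSum_apply] at h1
      obtain ⟨k, _, hk⟩ := Finset.exists_ne_zero_of_sum_ne_zero h1
      rw [Finsupp.smul_apply, smul_eq_mul] at hk
      have hc : N.c k ≠ 0 := by
        intro h0
        apply hk
        rw [h0]
        simp
      have hy : uv (f k) n ≠ 0 := right_ne_zero_of_mul hk
      have h2 := ih k (hv k) hy
      have h3 := hN.box k hc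
      omega

/-- the coefficients of a valid node are at most one -/
lemma coef_le {N : ND} {f : Fin N.d → Tr} (h : NodeOk N f) (k : Fin N.d) : |(N.c k : ℝ)| ≤ 1 := by
  have h1 : N.c k ^ 2 ≤ 1 :=
    (Finset.single_le_sum (f := fun k => N.c k ^ 2) (fun i _ => sq_nonneg _)
      (Finset.mem_univ k)).trans h.sq
  have h2 : ((N.c k : ℝ)) ^ 2 ≤ 1 := by exact_mod_cast h1
  exact (sq_le_one_iff_abs_le_one _).mp h2

/-- at most one child of a node is nonzero at a point -/
lemma BasB_one {N : ND} {f : Fin N.d → Tr} (hT : Valid (.node N f)) (n : ℕ) {C : ℝ} (hC : 0 ≤ C)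
    (h : ∀ k, |yv (f k) n| ≤ C) : |(∑ k, (N.c k : ℝ) • yv (f k)) n| ≤ C := by
  obtain ⟨hv, hN⟩ := hT
  rw [Finsupp.finsetSum_apply]
  by_cases hz : ∀ k, yv (f k) n = 0
  · rw [Finset.sum_eq_zero (fun k _ => by rw [Finsupp.smul_apply, hz k, smul_zero]), abs_zero]
    exact hC
  · push Not at hz
    obtain ⟨k, hk⟩ := hz
    rw [Finset.sum_eq_single k]
    · rw [Finsupp.smul_apply, smul_eq_mul, abs_mul]
      calc |(N.c k : ℝ)| * |yv (f k) n| ≤ 1 * C :=
            mul_le_mul (coef_le hN k) (h k) (abs_nonneg _) zero_le_one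
        _ = C := one_mul C
    · intro l _ hlk
      rw [Finsupp.smul_apply, smul_eq_mul]
      have : yv (f l) n = 0 := by
        by_contra hl
        have h1 := yv_supp (hv k) hk
        have h2 := yv_supp (hv l) hl
        rcases lt_or_gt_of_ne hlk with h3 | h3
        · have := hN.suc l k h3
          omega
        · have := hN.suc k l h3
          omega
      rw [this, mul_zero]
    · intro h0
      exact absurd (Finset.mem_univ _) h0

lemma yv_le_one {T : Tr} (hT : Valid T) (n : ℕ) : |yv T n| ≤ 1 := by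
  induction T with
  | leaf k =>
    simp only [yv, Finsupp.single_apply]
    split_ifs <;> simp
  | comb p q s t A B ihA ihB =>
    rw [valid_comb] at hT
    obtain ⟨hA, hB, hst, _⟩ := hT
    have hst' : |(s : ℝ)| + |(t : ℝ)| ≤ 1 := by exact_mod_cast hst
    have h1 := ihA hA
    have h2 := ihB hB
    simp only [yv, Finsupp.add_apply, Finsupp.smul_apply, smul_eq_mul]
    calc |(s : ℝ) * yv A n + (t : ℝ) * yv B n| ≤ |(s : ℝ) * yv A n| + |(t : ℝ) * yv B n| :=
          abs_add_le _ _
      _ = |(s : ℝ)| * |yv A n| + |(t : ℝ)| * |yv B n| := by rw [abs_mul, abs_mul]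
      _ ≤ |(s : ℝ)| * 1 + |(t : ℝ)| * 1 := by gcongr
      _ ≤ 1 := by linarith
  | node N f ih =>
    have h1 := BasB_one hT n zero_le_one (fun k => ih k (hT.1 k))
    have hm : (1 : ℝ) ≤ m N.i := by exact_mod_cast (le_trans (by norm_num) (m_ge N.i))
    simp only [yv, Finsupp.smul_apply, smul_eq_mul, abs_mul]
    have h2 : |1 / (m N.i : ℝ)| ≤ 1 := by
      rw [abs_of_nonneg (by positivity), div_le_one (by linarith)]
      exact hm
    calc |1 / (m N.i : ℝ)| * |(∑ k, (N.c k : ℝ) • yv (f k)) n| ≤ 1 * 1 :=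
          mul_le_mul h2 h1 (abs_nonneg _) zero_le_one
      _ = 1 := one_mul 1

lemma yv_cls {T : Tr} (hT : Valid T) {i : ℕ} (hi : T.cls = some i) (n : ℕ) : |yv T n| ≤ 1 / m i := by
  cases T with
  | leaf k => simp at hi
  | comb p q s t A B => simp at hi
  | node N f =>
    have hi' : N.i = i := by simpa using hi
    subst hi'
    have h1 := BasB_one hT n zero_le_one (fun k => yv_le_one (hT.1 k) n)
    simp only [yv, Finsupp.smul_apply, smul_eq_mul, abs_mul]
    rw [abs_of_nonneg (by positivity : (0 : ℝ) ≤ 1 / (m N.i : ℝ))]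
    calc 1 / (m N.i : ℝ) * |(∑ k, (N.c k : ℝ) • yv (f k)) n| ≤ 1 / (m N.i : ℝ) * 1 :=
          mul_le_mul_of_nonneg_left h1 (by positivity)
      _ = 1 / (m N.i : ℝ) := mul_one _

end Pool.Agent.Helper60.HD
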