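import Pool.Agent.Helper60.HD.DecA

/-!
# Decomposition, self-duality estimates, upper estimates in X
-/

set_option autoImplicit false

namespace Pool.Agent.Helper60.HD

open Finset

lemma decC_jn_sum {ι : Type} (S : Finset ι) (x y : ι → (ℕ →₀ ℝ)) :
    jn (∑ k ∈ S, x k) (∑ k ∈ S, y k) = ∑ k ∈ S, jn (x k) (y k) := by
  classical
  induction S using Finset.induction_on with
  | empty => simp [jn]
  | insert a S ha ih => rw [sum_insert ha, sum_insert ha, sum_insert ha, jn_add, ih]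

/-- the generic node on a family of trees -/
lemma decC_valid (i : ℕ) (hi : Even i) (s : ℕ → ℕ) (hs : StrictMono s) (f : ℕ → Tr)
    (hf : ∀ k < nn i, Valid (f k) ∧ (f k).lo = s k ∧ (f k).hi = s (k + 1)) :
    Valid (.node ⟨s 0, s (nn i), i, nn i, 0, fun _ => (1 / 2) ^ rr i, fun _ => 0⟩
      (fun k : Fin (nn i) => f k)) := by
  have ho : ¬ Odd i := Nat.not_odd_iff_even.2 hi
  refine valid_node.2 ⟨fun k => (hf k k.2).1, ?_⟩
  refine ⟨hs (nn_pos i), le_refl _, ?_, ?_, ?_, fun h => absurd h ho, fun h => absurd h ho,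
    fun h => absurd h ho, fun h => absurd h ho, fun h => absurd h ho⟩
  · have e : ((nn i : ℕ) : ℚ) = (4 : ℚ) ^ rr i := by
      rw [nn_eq]
      push_cast
      rfl
    change ∑ _k : Fin (nn i), ((1 / 2 : ℚ) ^ rr i) ^ 2 ≤ 1
    rw [Finset.sum_const, Finset.card_univ, Fintype.card_fin, nsmul_eq_mul]
    rw [e, ← pow_mul, mul_comm (rr i) 2, pow_mul, ← mul_pow]
    norm_num
  · intro k l hkl
    change (f k).hi ≤ (f l).lo
    rw [(hf k k.2).2.2, (hf l l.2).2.1]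
    exact hs.monotone (Nat.succ_le_of_lt hkl)
  · intro k _
    change s 0 ≤ (f k).lo ∧ (f k).hi ≤ s (nn i)
    rw [(hf k k.2).2.1, (hf k k.2).2.2]
    exact ⟨hs.monotone (Nat.zero_le _), hs.monotone (Nat.succ_le_of_lt k.2)⟩

lemma decC_sum_fin {M : Type} [AddCommMonoid M] (K : ℕ) (g : ℕ → M) :
    ∑ k : Fin K, g k = ∑ k ∈ range K, g k := Fin.sum_univ_eq_sum_range g K

/-- upper estimates for blocks in X -/
theorem nN_up : ∃ C : ℝ, 0 ≤ C ∧ ∀ i, Even i → ∀ (z : ℕ → (ℕ →₀ ℝ)) (s : ℕ → ℕ), StrictMono s →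
    (∀ k < nn i, nN (z k) ≤ 1 ∧ ∀ n, z k n ≠ 0 → 2 * s k ≤ n ∧ n < 2 * s (k + 1)) →
    nN (∑ k ∈ range (nn i), z k) ≤ C * m i * 2 ^ rr i := by
  obtain ⟨CD, hCD, hdec⟩ := nN_dec
  obtain ⟨CT, hCT, htr⟩ := nN_tr
  refine ⟨1 + 4 * (CD + 2) + 2 * CT, by positivity, ?_⟩
  intro i hi z s hs hz
  have ho : ¬ Odd i := Nat.not_odd_iff_even.2 hi
  have hnn : (0 : ℝ) < nn i := by exact_mod_cast nn_pos i
  have hnn1 : (1 : ℝ) ≤ nn i := by exact_mod_cast nn_pos i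
  -- decomposition of each block
  have h1 : ∀ k, ∃ (T : Tr) (x' : ℕ →₀ ℝ), k < nn i → (Valid T ∧ T.lo = s k ∧ T.hi = s (k + 1) ∧
      (∀ n, x' n ≠ 0 → s k ≤ n ∧ n < s (k + 1)) ∧
      nN (z k - jn x' 0 - (2 * (1 : ℝ)) • jn (uv T) (yv T)) ≤ 1 / nn i ∧
      nV x' ≤ CD + 2) := by
    intro k
    by_cases hk : k < nn i
    · obtain ⟨T, x', a1, a2, a3, a4, a5, a6⟩ := hdec (s k) (s (k + 1)) (hs (Nat.lt_succ_self k)) (z k)
        (hz k hk).2 1 one_pos ((nD_ys_le' _).trans (hz k hk).1) (1 / nn i) (by positivity)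
      refine ⟨T, x', fun _ => ⟨a1, a2, a3, a4, a5, ?_⟩⟩
      have h2 : (1 : ℝ) / nn i ≤ 1 := by
        rw [div_le_one hnn]
        exact hnn1
      linarith [(hz k hk).1]
    · exact ⟨.leaf 0, 0, fun h => absurd h hk⟩
  choose T x' hT using h1
  -- the generic node
  have hval := decC_valid i hi s hs T (fun k hk => ⟨(hT k hk).1, (hT k hk).2.1, (hT k hk).2.2.1⟩)
  set W : Tr := .node ⟨s 0, s (nn i), i, nn i, 0, fun _ => (1 / 2) ^ rr i, fun _ => 0⟩
      (fun k : Fin (nn i) => T k) with hW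
  have hm : (0 : ℝ) < m i := by
    have := m_ge i
    have h3 : 0 < m i := by omega
    exact_mod_cast h3
  have hm1 : (1 : ℝ) ≤ m i := by
    have := m_ge i
    have h3 : 1 ≤ m i := by omega
    exact_mod_cast h3
  have h2r : (1 : ℝ) ≤ 2 ^ rr i := one_le_pow₀ (by norm_num)
  have h2r0 : (0 : ℝ) < 2 ^ rr i := by positivity
  have hyW : yv W = ((1 / (m i : ℝ)) * (1 / 2) ^ rr i) • ∑ k ∈ range (nn i), yv (T k) := by
    rw [hW, yv]
    change (1 / (m i : ℝ)) • ∑ k : Fin (nn i), ((((1 / 2) ^ rr i : ℚ)) : ℝ) • yv (T k) = _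
    rw [decC_sum_fin (nn i) (fun k => ((((1 / 2) ^ rr i : ℚ)) : ℝ) • yv (T k)), ← Finset.smul_sum,
      smul_smul]
    push_cast
    rfl
  have huW : uv W = ((1 / (m i : ℝ)) * (1 / 2) ^ rr i) • ∑ k ∈ range (nn i), uv (T k) := by
    rw [hW, uv]
    change (1 / (m i : ℝ)) • (∑ k : Fin (nn i), ((((1 / 2) ^ rr i : ℚ)) : ℝ) • uv (T k)) +
      (if Odd i then _ else 0) = _
    rw [if_neg ho, add_zero, decC_sum_fin (nn i) (fun k => ((((1 / 2) ^ rr i : ℚ)) : ℝ) • uv (T k)),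
      ← Finset.smul_sum, smul_smul]
    push_cast
    rfl
  have hjW : ∑ k ∈ range (nn i), jn (uv (T k)) (yv (T k)) =
      ((m i : ℝ) * 2 ^ rr i) • jn (uv W) (yv W) := by
    rw [hyW, huW, jn_smul, decC_jn_sum, smul_smul]
    have e : (m i : ℝ) * 2 ^ rr i * (1 / (m i : ℝ) * (1 / 2) ^ rr i) = 1 := by
      rw [one_div_pow]
      field_simp
    rw [e, one_smul]
  have hjn : nN (∑ k ∈ range (nn i), jn (uv (T k)) (yv (T k))) ≤ m i * 2 ^ rr i * CT := by
    rw [hjW, nN_smul, abs_of_pos (by positivity)]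
    exact mul_le_mul_of_nonneg_left (htr W hval) (by positivity)
  -- the first coordinates
  have hx : nN (∑ k ∈ range (nn i), jn (x' k) 0) ≤ 4 * ((CD + 2) * 2 ^ rr i) := by
    have e : ∑ k ∈ range (nn i), jn (x' k) 0 = jn (∑ k ∈ range (nn i), x' k) 0 := by
      rw [← decC_jn_sum]
      simp
    rw [e, nN_jn0]
    refine (nV_up (nn i) x' s hs (fun k hk => (hT k hk).2.2.2.1)).trans ?_
    refine mul_le_mul_of_nonneg_left ?_ (by norm_num)
    apply Real.sqrt_le_iff.2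
    refine ⟨by positivity, ?_⟩
    calc ∑ k ∈ range (nn i), nV (x' k) ^ 2 ≤ ∑ k ∈ range (nn i), (CD + 2) ^ 2 := by
          apply Finset.sum_le_sum
          intro k hk
          exact pow_le_pow_left₀ (nV_nonneg _) (hT k (mem_range.1 hk)).2.2.2.2.2 2
      _ = ((CD + 2) * 2 ^ rr i) ^ 2 := by
          rw [Finset.sum_const, card_range, nsmul_eq_mul, nn_cast, mul_pow]
          ring
  -- the errors
  have he : nN (∑ k ∈ range (nn i), (z k - jn (x' k) 0 - (2 * (1 : ℝ)) • jn (uv (T k)) (yv (T k)))) ≤ 1 := by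
    refine (nN_sum _ _).trans ?_
    calc ∑ k ∈ range (nn i), nN (z k - jn (x' k) 0 - (2 * (1 : ℝ)) • jn (uv (T k)) (yv (T k)))
        ≤ ∑ k ∈ range (nn i), (1 / nn i : ℝ) := by
          apply Finset.sum_le_sum
          intro k hk
          exact (hT k (mem_range.1 hk)).2.2.2.2.1
      _ = 1 := by
          rw [Finset.sum_const, card_range, nsmul_eq_mul]
          field_simp
  have hsum : ∑ k ∈ range (nn i), z k =
      ∑ k ∈ range (nn i), (z k - jn (x' k) 0 - (2 * (1 : ℝ)) • jn (uv (T k)) (yv (T k))) +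
      ∑ k ∈ range (nn i), jn (x' k) 0 +
      (2 : ℝ) • ∑ k ∈ range (nn i), jn (uv (T k)) (yv (T k)) := by
    rw [Finset.smul_sum, ← Finset.sum_add_distrib, ← Finset.sum_add_distrib]
    refine Finset.sum_congr rfl fun k _ => ?_
    rw [mul_one]
    abel
  rw [hsum]
  have h5 := nN_add (∑ k ∈ range (nn i), (z k - jn (x' k) 0 - (2 * (1 : ℝ)) • jn (uv (T k)) (yv (T k))) +
      ∑ k ∈ range (nn i), jn (x' k) 0) ((2 : ℝ) • ∑ k ∈ range (nn i), jn (uv (T k)) (yv (T k)))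
  have h6 := nN_add (∑ k ∈ range (nn i), (z k - jn (x' k) 0 - (2 * (1 : ℝ)) • jn (uv (T k)) (yv (T k))))
      (∑ k ∈ range (nn i), jn (x' k) 0)
  have h7 := nN_smul 2 (∑ k ∈ range (nn i), jn (uv (T k)) (yv (T k)))
  rw [abs_of_pos (by norm_num : (0 : ℝ) < 2)] at h7
  have h8 : (1 : ℝ) ≤ m i * 2 ^ rr i := one_le_mul_of_one_le_of_one_le hm1 h2r
  have h9 : (2 : ℝ) ^ rr i ≤ m i * 2 ^ rr i := le_mul_of_one_le_left h2r0.le hm1
  have h10 : (CD + 2) * 2 ^ rr i ≤ (CD + 2) * (m i * 2 ^ rr i) :=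
    mul_le_mul_of_nonneg_left h9 (by linarith)
  nlinarith [h5, h6, h7, h8, h10, hx, he, hjn]

end Pool.Agent.Helper60.HD
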