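import Pool.Agent.Helper60.HD.DecB
import Pool.Agent.Helper60.HD.DecC

/-!
# Decomposition, self-duality estimates, upper estimates in X
-/

set_option autoImplicit false

namespace Pool.Agent.Helper60.HD

open Finset

end Pool.Agent.Helper60.HD
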