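import Pool.Agent.Helper60.HD.Res

/-!
# Estimates in V and in its dual
-/

set_option autoImplicit false

namespace Pool.Agent.Helper60.HD

/-- successive vectors in `[a, b)` -/
def Suc : ℕ → ℕ → List (ℕ →₀ ℝ) → Prop
  | a, b, [] => a ≤ b
  | a, b, x :: L => ∃ c, a < c ∧ (∀ n, x n ≠ 0 → a ≤ n ∧ n < c) ∧ Suc c b L

theorem UpB_mono {a b c : ℕ} {L : List (ℕ →₀ ℝ)} (hab : a ≤ b) (h : Suc b c L) : Suc a c L := by
  cases L with
  | nil => exact hab.trans h
  | cons x L =>
    obtain ⟨e, h1, h2, h3⟩ := h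
    exact ⟨e, by omega, fun n hn => ⟨hab.trans (h2 n hn).1, (h2 n hn).2⟩, h3⟩

theorem Suc.append {a b c : ℕ} {L L' : List (ℕ →₀ ℝ)} (h : Suc a b L) (h' : Suc b c L') :
    Suc a c (L ++ L') := by
  induction L generalizing a with
  | nil => exact UpB_mono h h'
  | cons x L ih =>
    obtain ⟨e, h1, h2, h3⟩ := h
    exact ⟨e, h1, h2, ih h3⟩

theorem Suc.le {a b : ℕ} {L : List (ℕ →₀ ℝ)} (h : Suc a b L) : a ≤ b := by
  induction L generalizing a with
  | nil => exact h
  | cons x L ih =>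
    obtain ⟨e, h1, h2, h3⟩ := h
    exact h1.le.trans (ih h3)

theorem Suc.supp {a b : ℕ} {L : List (ℕ →₀ ℝ)} (h : Suc a b L) (n : ℕ) (hn : L.sum n ≠ 0) :
    a ≤ n ∧ n < b := by
  induction L generalizing a with
  | nil => simp at hn
  | cons x L ih =>
    obtain ⟨e, h1, h2, h3⟩ := h
    rw [List.sum_cons, Finsupp.add_apply] at hn
    by_cases hx : x n = 0
    · rw [hx, zero_add] at hn
      have := ih h3 hn
      exact ⟨by omega, this.2⟩
    · have h4 := h2 n hx
      have h5 := Suc.le h3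
      exact ⟨h4.1, by omega⟩

/-- a tree in a slot that almost norms a vector -/
theorem UpB_tree {x : ℕ →₀ ℝ} {p q : ℕ} (hpq : p < q) (hx : ∀ n, x n ≠ 0 → p ≤ n ∧ n < q)
    {t : ℝ} (ht : t < nV x) :
    ∃ U, Valid U ∧ U.lo = p ∧ U.hi = q ∧ t < 2 * ip x (yv U) := by
  obtain ⟨a, b, T, hT, h⟩ := exists_nV ht
  have hxx : ct p q x = x := ct_self hx
  have h1 : ct a b x = ct (max a p) (min b q) x := by
    conv_lhs => rw [← hxx]
    rw [ct_ct]
  rw [h1] at h
  by_cases hc : max a p < min b q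
  · obtain ⟨U, hU, hlo, hhi, hy⟩ := restr T hT _ _ hc
    rw [ip_ct, hy, map_smul, smul_eq_mul] at h
    obtain ⟨W, hW, hWlo, hWhi, hWy⟩ := lin_tr p q hpq (Finset.univ : Finset Unit) (fun _ => 1)
      (fun _ => U) (fun _ _ => ⟨hU, by rw [hlo]; exact le_max_right _ _, by
        rw [hhi]; exact min_le_right _ _⟩) (by simp)
    refine ⟨W, hW, hWlo, hWhi, ?_⟩
    rw [hWy]
    simpa using h
  · have h2 : ct (max a p) (min b q) x = 0 := by
      refine ct_none fun k _ => ?_
      push Not at hc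
      by_cases h3 : k < max a p
      · exact Or.inl h3
      · exact Or.inr (by omega)
    rw [h2, map_zero, LinearMap.zero_apply] at h
    obtain ⟨W, hW, hWlo, hWhi, hWy⟩ := lin_tr p q hpq (∅ : Finset Unit) (fun _ => 1)
      (fun _ => T) (fun _ h => absurd h (Finset.notMem_empty _)) (by simp)
    refine ⟨W, hW, hWlo, hWhi, ?_⟩
    rw [hWy]
    simpa using h

theorem UpB_rat {α ε : ℝ} (hα : 0 ≤ α) (hε : 0 < ε) : ∃ c : ℚ, 0 ≤ c ∧ (c : ℝ) ≤ α ∧ α - ε ≤ c := by
  obtain ⟨q, h1, h2⟩ := exists_rat_btwn (show α - ε < α by linarith)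
  refine ⟨max q 0, le_max_right _ _, ?_, ?_⟩
  · rw [Rat.cast_max, Rat.cast_zero]
    exact max_le h2.le hα
  · rw [Rat.cast_max]
    exact h1.le.trans (le_max_left _ _)

theorem UpB_smono {s : ℕ → ℕ} {d : ℕ} (hs : ∀ k < d, s k < s (k + 1)) {k l : ℕ} (hkl : k ≤ l)
    (hl : l ≤ d) : s k ≤ s l := by
  induction l, hkl using Nat.le_induction with
  | base => exact le_rfl
  | succ l hkl ih => exact (ih (by omega)).trans (hs l (by omega)).le

open Finset in
theorem UpB_low (i : ℕ) (hi : Even i) (d : ℕ) (s : ℕ → ℕ) (hs : ∀ k < d, s k < s (k + 1))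
    (x : ℕ → (ℕ →₀ ℝ)) (hx : ∀ k < d, ∀ n, x k n ≠ 0 → s k ≤ n ∧ n < s (k + 1)) (hd : d ≤ nn i) :
    √(∑ k ∈ range d, nV (x k) ^ 2) ≤ 2 * m i * nV (∑ k ∈ range d, x k) := by
  have hm : (0 : ℝ) < m i := by
    have := m_ge i
    exact_mod_cast (by omega : 0 < m i)
  set σ := √(∑ k ∈ range d, nV (x k) ^ 2) with hσ
  have hrhs : 0 ≤ 2 * m i * nV (∑ k ∈ range d, x k) :=
    mul_nonneg (by positivity) (nV_nonneg _)
  rcases (Real.sqrt_nonneg (∑ k ∈ range d, nV (x k) ^ 2)).eq_or_lt with h0 | h0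
  · rw [hσ, ← h0]
    exact hrhs
  rw [← hσ] at h0
  have hσ2 : σ ^ 2 = ∑ k ∈ range d, nV (x k) ^ 2 :=
    Real.sq_sqrt (sum_nonneg fun k _ => sq_nonneg _)
  have hd0 : 0 < d := by
    rcases Nat.eq_zero_or_pos d with h | h
    · rw [h, range_zero, sum_empty] at hσ2
      nlinarith
    · exact h
  have hle1 : ∀ k ∈ range d, nV (x k) ≤ σ := by
    intro k hk
    refine Real.le_sqrt_of_sq_le ?_
    exact single_le_sum (f := fun k => nV (x k) ^ 2) (fun k _ => sq_nonneg _) hk
  have key : ∀ ε : ℝ, 0 < ε → σ ≤ 2 * m i * nV (∑ k ∈ range d, x k) +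
      ε * (∑ k ∈ range d, nV (x k) + d) := by
    intro ε hε
    have hU : ∀ k : Fin d, ∃ U, Valid U ∧ U.lo = s k ∧ U.hi = s (k + 1) ∧
        nV (x k) - ε < 2 * ip (x k) (yv U) := fun k =>
      UpB_tree (hs k k.2) (hx k k.2) (by linarith)
    choose U hUv hUlo hUhi hUy using hU
    have hc : ∀ k : Fin d, ∃ c : ℚ, 0 ≤ c ∧ (c : ℝ) ≤ nV (x k) / σ ∧ nV (x k) / σ - ε ≤ c :=
      fun k => UpB_rat (div_nonneg (nV_nonneg _) h0.le) hε
    choose c hc0 hc1 hc2 using hc
    let N : ND := ⟨s 0, s d, i, d, 0, c, fun _ => 0⟩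
    have hodd : ¬ Odd i := Nat.not_odd_iff_even.2 hi
    have hsq : ∑ k : Fin d, (c k : ℝ) ^ 2 ≤ 1 := by
      calc ∑ k : Fin d, (c k : ℝ) ^ 2 ≤ ∑ k : Fin d, (nV (x k) / σ) ^ 2 :=
            sum_le_sum fun k _ => pow_le_pow_left₀ (by exact_mod_cast hc0 k) (hc1 k) 2
        _ = (∑ k : Fin d, nV (x k) ^ 2) / σ ^ 2 := by
            rw [sum_div]
            exact sum_congr rfl fun k _ => div_pow _ _ _
        _ = 1 := by
            rw [Fin.sum_univ_eq_sum_range (fun k => nV (x k) ^ 2), ← hσ2, div_self]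
            positivity
    have hN : Valid (.node N U) := by
      refine ⟨hUv, ?_⟩
      refine ⟨?_, hd, ?_, ?_, ?_, fun h => absurd h hodd, fun h => absurd h hodd,
        fun h => absurd h hodd, fun h => absurd h hodd, fun h => absurd h hodd⟩
      · exact (hs 0 hd0).trans_le (UpB_smono hs (by omega) le_rfl)
      · exact_mod_cast hsq
      · intro k l hkl
        rw [hUhi, hUlo]
        exact UpB_smono hs (by exact_mod_cast hkl) l.2.le
      · intro k _
        rw [hUhi, hUlo]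
        exact ⟨UpB_smono hs (by omega) k.2.le, UpB_smono hs (show (k : ℕ) + 1 ≤ d from k.2) le_rfl⟩
    have h1 := ip_le_nV hN (∑ k ∈ range d, x k)
    have h2 : ip (∑ k ∈ range d, x k) (yv (.node N U)) =
        (1 / (m i : ℝ)) * ∑ k : Fin d, (c k : ℝ) * ip (x k) (yv (U k)) := by
      show ip (∑ k ∈ range d, x k) ((1 / (m i : ℝ)) • ∑ k : Fin d, (c k : ℝ) • yv (U k)) = _
      rw [map_smul, smul_eq_mul, map_sum]
      congr 1
      refine sum_congr rfl fun k _ => ?_
      rw [map_smul, smul_eq_mul]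
      congr 1
      rw [map_sum, LinearMap.sum_apply]
      rw [sum_eq_single (k : ℕ)]
      · intro l hl hlk
        rw [mem_range] at hl
        refine ip_disj fun n hn hn' => ?_
        have h3 := hx l hl n hn
        have h4 := yv_supp (hUv k) hn'
        rw [hUlo, hUhi] at h4
        rcases Nat.lt_or_gt_of_ne hlk with h | h
        · have := UpB_smono hs (show l + 1 ≤ k from h) k.2.le
          omega
        · have := UpB_smono hs (show (k : ℕ) + 1 ≤ l from h) hl.le
          omega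
      · intro h
        exact absurd (mem_range.2 k.2) h
    have h3 : ∑ k : Fin d, (c k : ℝ) * ip (x k) (yv (U k)) ≤ m i * nV (∑ k ∈ range d, x k) := by
      have h4 := (le_abs_self _).trans h1
      rw [h2, one_div, inv_mul_le_iff₀ hm] at h4
      exact h4
    have h5 : σ - ε * (∑ k ∈ range d, nV (x k) + d) ≤
        2 * ∑ k : Fin d, (c k : ℝ) * ip (x k) (yv (U k)) := by
      have h6 : ∀ k : Fin d, nV (x k) ^ 2 / σ - ε * nV (x k) - ε ≤
          2 * ((c k : ℝ) * ip (x k) (yv (U k))) := by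
        intro k
        have e1 := hUy k
        have e2 := hc1 k
        have e3 := hc2 k
        have e4 : (0 : ℝ) ≤ c k := by exact_mod_cast hc0 k
        have e5 : nV (x k) / σ ≤ 1 := (div_le_one h0).2 (hle1 k (mem_range.2 k.2))
        have e6 := nV_nonneg (x k)
        have e7 : (c k : ℝ) * (nV (x k) - ε) ≤ c k * (2 * ip (x k) (yv (U k))) :=
          mul_le_mul_of_nonneg_left e1.le e4
        have e8 : nV (x k) ^ 2 / σ = nV (x k) / σ * nV (x k) := by ring
        rw [e8]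
        nlinarith [mul_le_mul_of_nonneg_right e3 e6, mul_le_mul_of_nonneg_right (e2.trans e5) hε.le]
      have h7 := sum_le_sum fun k (_ : k ∈ (univ : Finset (Fin d))) => h6 k
      rw [← mul_sum] at h7
      refine le_trans (le_of_eq ?_) h7
      rw [Fin.sum_univ_eq_sum_range (fun k => nV (x k) ^ 2 / σ - ε * nV (x k) - ε), sum_sub_distrib,
        sum_sub_distrib, ← sum_div, ← hσ2, ← mul_sum, sum_const, card_range, nsmul_eq_mul]
      have : σ ^ 2 / σ = σ := by
        rw [sq, mul_div_assoc, div_self h0.ne', mul_one]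
      rw [this]
      ring
    linarith
  have hA : 0 ≤ ∑ k ∈ range d, nV (x k) + d := by
    have := sum_nonneg fun k (_ : k ∈ range d) => nV_nonneg (x k)
    positivity
  refine le_of_forall_pos_le_add fun δ hδ => ?_
  refine (key (δ / (∑ k ∈ range d, nV (x k) + d + 1)) (by positivity)).trans ?_
  refine add_le_add le_rfl ?_
  rw [div_mul_eq_mul_div, div_le_iff₀ (by positivity)]
  nlinarith

open Finset in
theorem UpB_up (i : ℕ) (hi : Even i) (d : ℕ) (s : ℕ → ℕ) (hs : ∀ k < d, s k < s (k + 1))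
    (g : ℕ → (ℕ →₀ ℝ)) (hg : ∀ k < d, ∀ n, g k n ≠ 0 → s k ≤ n ∧ n < s (k + 1)) (hd : d ≤ nn i) :
    nD (∑ k ∈ range d, g k) ≤ 2 * m i * √(∑ k ∈ range d, nD (g k) ^ 2) := by
  have hm : (0 : ℝ) < m i := by
    have := m_ge i
    exact_mod_cast (by omega : 0 < m i)
  refine nD_le (by positivity) fun x hx => ?_
  -- restrictions of `x`
  have h1 : ip x (∑ k ∈ range d, g k) = ∑ k ∈ range d, ip (ct (s k) (s (k + 1)) x) (g k) := by
    rw [map_sum]
    refine sum_congr rfl fun k hk => ?_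
    rw [ip_ct, ct_self (hg k (mem_range.1 hk))]
  have h2 := UpB_low i hi d s hs (fun k => ct (s k) (s (k + 1)) x) (by
    intro k _ n hn
    rw [ct_apply] at hn
    by_contra h
    rw [if_neg h] at hn
    exact hn rfl) hd
  have h3 : ∑ k ∈ range d, ct (s k) (s (k + 1)) x = ct (s 0) (s d) x := by
    clear h1 h2 hg hd
    induction d with
    | zero =>
      rw [range_zero, sum_empty, ct_none]
      intro k _
      exact lt_or_ge k (s 0)
    | succ d ih =>
      rw [sum_range_succ, ih fun k hk => hs k (by omega)]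
      ext n
      rw [Finsupp.add_apply, ct_apply, ct_apply, ct_apply]
      have e1 := UpB_smono hs (Nat.zero_le d) (by omega)
      have e2 := hs d (by omega)
      by_cases c1 : n < s d
      · by_cases c0 : s 0 ≤ n
        · rw [if_pos ⟨c0, c1⟩, if_neg (by omega), if_pos ⟨c0, by omega⟩, add_zero]
        · rw [if_neg (by omega), if_neg (by omega), if_neg (by omega), add_zero]
      · by_cases c2 : n < s (d + 1)
        · rw [if_neg (by omega), if_pos (by omega), if_pos (by omega), zero_add]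
        · rw [if_neg (by omega), if_neg (by omega), if_neg (by omega), add_zero]
  rw [h3] at h2
  have h4 : nV (ct (s 0) (s d) x) ≤ 1 := (nV_ct _ _ _).trans hx
  have h5 : √(∑ k ∈ range d, nV (ct (s k) (s (k + 1)) x) ^ 2) ≤ 2 * m i := by
    refine h2.trans ?_
    have : 2 * (m i : ℝ) * nV (ct (s 0) (s d) x) ≤ 2 * m i * 1 :=
      mul_le_mul_of_nonneg_left h4 (by positivity)
    linarith
  rw [h1]
  calc |∑ k ∈ range d, ip (ct (s k) (s (k + 1)) x) (g k)| ≤
        ∑ k ∈ range d, |ip (ct (s k) (s (k + 1)) x) (g k)| := abs_sum_le_sum_abs _ _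
    _ ≤ ∑ k ∈ range d, nV (ct (s k) (s (k + 1)) x) * nD (g k) :=
        sum_le_sum fun k _ => le_nD _ _
    _ ≤ √(∑ k ∈ range d, nV (ct (s k) (s (k + 1)) x) ^ 2) * √(∑ k ∈ range d, nD (g k) ^ 2) :=
        Real.sum_mul_le_sqrt_mul_sqrt _ _ _
    _ ≤ 2 * m i * √(∑ k ∈ range d, nD (g k) ^ 2) :=
        mul_le_mul_of_nonneg_right h5 (Real.sqrt_nonneg _)

/-- slots of a list -/
theorem UpB_slots {a b : ℕ} {L : List (ℕ →₀ ℝ)} (h : Suc a b L) :
    ∃ s : ℕ → ℕ, s 0 = a ∧ (∀ k < L.length, s k < s (k + 1)) ∧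
      ∀ k < L.length, ∀ n, L.getD k 0 n ≠ 0 → s k ≤ n ∧ n < s (k + 1) := by
  induction L generalizing a with
  | nil => exact ⟨fun _ => a, rfl, by simp, by simp⟩
  | cons x L ih =>
    obtain ⟨e, h1, h2, h3⟩ := h
    obtain ⟨s, hs0, hs1, hs2⟩ := ih h3
    refine ⟨fun k => Nat.casesOn k a s, rfl, ?_, ?_⟩
    · intro k hk
      cases k with
      | zero =>
        show a < s 0
        rw [hs0]
        exact h1
      | succ k => exact hs1 k (by simpa using hk)
    · intro k hk n hn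
      cases k with
      | zero =>
        show a ≤ n ∧ n < s 0
        rw [hs0]
        exact h2 n (by simpa using hn)
      | succ k => exact hs2 k (by simpa using hk) n (by simpa using hn)

theorem UpB_sum {A : Type} [AddCommMonoid A] (φ : (ℕ →₀ ℝ) → A) (L : List (ℕ →₀ ℝ)) :
    (L.map φ).sum = ∑ k ∈ Finset.range L.length, φ (L.getD k 0) := by
  induction L with
  | nil => simp
  | cons x L ih =>
    rw [List.map_cons, List.sum_cons, List.length_cons, Finset.sum_range_succ', ih, add_comm]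
    simp

/-- lower estimates in V -/
theorem nV_low (i : ℕ) (hi : Even i) (L : List (ℕ →₀ ℝ)) (a b : ℕ) (hL : Suc a b L)
    (hlen : L.length ≤ nn i) : √((L.map fun x => nV x ^ 2).sum) ≤ 2 * m i * nV L.sum := by
  obtain ⟨s, -, hs1, hs2⟩ := UpB_slots hL
  have h1 := UpB_low i hi L.length s hs1 (fun k => L.getD k 0) hs2 hlen
  have h2 := UpB_sum (fun x => x) L
  rw [List.map_id'] at h2
  rw [UpB_sum, h2]
  exact h1

/-- upper estimates in the dual -/
theorem nD_up (i : ℕ) (hi : Even i) (L : List (ℕ →₀ ℝ)) (a b : ℕ) (hL : Suc a b L)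
    (hlen : L.length ≤ nn i) : nD L.sum ≤ 2 * m i * √((L.map fun x => nD x ^ 2).sum) := by
  obtain ⟨s, -, hs1, hs2⟩ := UpB_slots hL
  have h1 := UpB_up i hi L.length s hs1 (fun k => L.getD k 0) hs2 hlen
  have h2 := UpB_sum (fun x => x) L
  rw [List.map_id'] at h2
  rw [UpB_sum, h2]
  exact h1

end Pool.Agent.Helper60.HD
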