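import Pool.Agent.Helper60.HD.Res

/-!
# Estimates in V and in its dual
-/

set_option autoImplicit false

namespace Pool.Agent.Helper60.HD

/-- restriction of a vector to the coordinates in `[a, b)` -/
noncomputable def UpC_r (a b : ℕ) (y : ℕ →₀ ℝ) : (Finset.Ico a b) → ℝ := fun k => y k

/-- the set of restricted functionals of trees with box `[a, b)` -/
def UpC_S (a b : ℕ) : Set ((Finset.Ico a b) → ℝ) :=
  {e | ∃ T, Valid T ∧ T.lo = a ∧ T.hi = b ∧ e = UpC_r a b (yv T)}

lemma UpC_comb (a b : ℕ) (s t : ℚ) (hst : |s| + |t| ≤ 1) (e e' : (Finset.Ico a b) → ℝ)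
    (he : e ∈ UpC_S a b) (he' : e' ∈ UpC_S a b) : (s : ℝ) • e + (t : ℝ) • e' ∈ UpC_S a b := by
  obtain ⟨T, hT, h1, h2, h3⟩ := he
  obtain ⟨T', hT', h1', h2', h3'⟩ := he'
  refine ⟨.comb a b s t T T', ?_, rfl, rfl, ?_⟩
  · rw [valid_comb]
    exact ⟨hT, hT', hst, h1.ge, h2.le, h1'.ge, h2'.le⟩
  · rw [h3, h3']
    funext k
    simp [UpC_r, yv]

lemma UpC_nonempty (a b : ℕ) (hab : a < b) : (UpC_S a b).Nonempty := by
  refine ⟨_, .comb a b 0 0 (.leaf a) (.leaf a), ?_, rfl, rfl, rfl⟩
  rw [valid_comb]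
  refine ⟨valid_leaf a, valid_leaf a, by simp, le_rfl, ?_, le_rfl, ?_⟩ <;>
  · rw [hi_leaf]; omega

lemma UpC_convex (a b : ℕ) : Convex ℝ (closure (UpC_S a b)) := by
  have key : ∀ x ∈ UpC_S a b, ∀ y ∈ UpC_S a b, ∀ α β : ℝ, 0 ≤ α → 0 ≤ β → α + β = 1 →
      α • x + β • y ∈ closure (UpC_S a b) := by
    intro x hx y hy α β hα hβ hαβ
    have h1 : α ∈ closure {q : ℝ | ∃ s : ℚ, 0 ≤ s ∧ s ≤ 1 ∧ q = s} := by
      rw [Metric.mem_closure_iff]
      intro ε hε
      rcases eq_or_lt_of_le hα with h0 | h0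
      · exact ⟨0, ⟨0, le_rfl, by norm_num, by simp⟩, by rw [← h0]; simpa using hε⟩
      · obtain ⟨s, hs1, hs2⟩ := exists_rat_btwn (show max 0 (α - ε) < α from by
          rw [max_lt_iff]; exact ⟨h0, by linarith⟩)
        have hs0 : (0 : ℝ) < s := lt_of_le_of_lt (le_max_left _ _) hs1
        have hs3 : α - ε < s := lt_of_le_of_lt (le_max_right _ _) hs1
        refine ⟨s, ⟨s, by exact_mod_cast hs0.le, ?_, rfl⟩, ?_⟩
        · have : (s : ℝ) ≤ 1 := by linarith
          exact_mod_cast this
        · rw [Real.dist_eq, abs_lt]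
          constructor <;> linarith
    have h2 : Continuous fun q : ℝ => q • x + (1 - q) • y := by fun_prop
    have h3 := map_mem_closure h2 h1 (t := UpC_S a b) (by
      rintro q ⟨s, hs0, hs1, rfl⟩
      have := UpC_comb a b s (1 - s) (by
        rw [abs_of_nonneg hs0, abs_of_nonneg (by linarith)]; linarith) x y hx hy
      push_cast at this
      exact this)
    have h4 : β = 1 - α := by linarith
    rw [h4]
    exact h3
  intro x hx y hy α β hα hβ hαβ
  have h2 : Continuous (Function.uncurry fun (p q : (Finset.Ico a b) → ℝ) => α • p + β • q) := by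
    unfold Function.uncurry
    fun_prop
  have h3 := map_mem_closure₂ h2 hx hy (u := closure (UpC_S a b)) (fun p hp q hq =>
    key p hp q hq α β hα hβ hαβ)
  rwa [closure_closure] at h3

/-- functionals of trees are dense up to a factor -/
theorem nD_tree (a b : ℕ) (hab : a < b) (y : ℕ →₀ ℝ) (hy : ∀ n, y n ≠ 0 → a ≤ n ∧ n < b) (t : ℝ)
    (ht : 0 < t) (h1 : nD y ≤ t) (η : ℝ) (hη : 0 < η) :
    ∃ T, Valid T ∧ T.lo = a ∧ T.hi = b ∧ l1 (y - (2 * t) • yv T) ≤ η := by
  classical
  have hmem : UpC_r a b ((1 / (2 * t)) • y) ∈ closure (UpC_S a b) := by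
    by_contra hcon
    obtain ⟨f, u, hf1, hf2⟩ := geometric_hahn_banach_closed_point (UpC_convex a b)
      isClosed_closure hcon
    have hf1' : ∀ e ∈ UpC_S a b, f e < u := fun e he => hf1 e (subset_closure he)
    -- the vector of f
    let z : ℕ →₀ ℝ := Finsupp.onFinset (Finset.Ico a b)
      (fun k => if h : k ∈ Finset.Ico a b then f (Pi.single (⟨k, h⟩ : (Finset.Ico a b)) (1 : ℝ)) else 0)
      (by
        intro k hk
        by_contra h
        simp [h] at hk)
    have hz : ∀ k (h : k ∈ Finset.Ico a b), z k = f (Pi.single (⟨k, h⟩ : (Finset.Ico a b)) (1 : ℝ)) := by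
      intro k h
      simp only [z, Finsupp.onFinset_apply]
      rw [dif_pos h]
    have hz0 : ∀ k, k ∉ Finset.Ico a b → z k = 0 := by
      intro k h
      simp only [z, Finsupp.onFinset_apply]
      rw [dif_neg h]
    have hzs : ∀ k, z k ≠ 0 → a ≤ k ∧ k < b := by
      intro k hk
      by_contra h
      exact hk (hz0 k (by rw [Finset.mem_Ico]; exact h))
    have hzip : ∀ v : ℕ →₀ ℝ, ip z v = f (UpC_r a b v) := by
      intro v
      rw [ip_eq z v (Finset.Ico a b) (by
        intro k hk
        rw [Finset.mem_Ico]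
        exact hzs k (Finsupp.mem_support_iff.mp hk))]
      have e1 : UpC_r a b v = ∑ k : (Finset.Ico a b), v k • Pi.single k (1 : ℝ) := by
        funext j
        rw [Finset.sum_apply, Finset.sum_eq_single j]
        · simp [UpC_r]
        · intro k _ hkj
          simp [Ne.symm hkj]
        · intro h; exact absurd (Finset.mem_univ _) h
      rw [e1, map_sum, ← Finset.sum_coe_sort (Finset.Ico a b) (fun k => z k * v k)]
      refine Finset.sum_congr rfl fun k _ => ?_
      rw [map_smul, smul_eq_mul, hz k k.2, mul_comm]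
    have habs : ∀ T, Valid T → T.lo = a → T.hi = b → |ip z (yv T)| ≤ u := by
      intro T hT hlo hhi
      have hm : UpC_r a b (yv T) ∈ UpC_S a b := ⟨T, hT, hlo, hhi, rfl⟩
      have h2 := hf1' _ hm
      have h3 := hf1' _ (UpC_comb a b (-1) 0 (by norm_num) _ _ hm hm)
      have e3 : ((-1 : ℚ) : ℝ) • UpC_r a b (yv T) + ((0 : ℚ) : ℝ) • UpC_r a b (yv T)
          = -UpC_r a b (yv T) := by
        push_cast
        simp
      rw [e3, map_neg] at h3
      rw [hzip, abs_le]
      constructor <;> linarith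
    have hu : 0 ≤ u := by
      obtain ⟨e, T, hT, hlo, hhi, _⟩ := UpC_nonempty a b hab
      exact (abs_nonneg _).trans (habs T hT hlo hhi)
    have hnV : nV z ≤ 2 * u := by
      refine nV_le (by linarith) fun a' b' T hT => ?_
      have e1 : ct a' b' z = ct (max a' a) (min b' b) z := by
        rw [← ct_ct, ct_self (a := a) (b := b) hzs]
      rw [e1, ip_ct]
      rcases lt_or_ge (max a' a) (min b' b) with hlt | hge
      · obtain ⟨U, hU, hUl, hUh, hUy⟩ := restr T hT (max a' a) (min b' b) hlt
        rw [hUy, map_smul, smul_eq_mul, abs_mul, abs_two]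
        have hV : Valid (.comb a b 1 0 U U) := by
          rw [valid_comb]
          refine ⟨hU, hU, by norm_num, ?_, ?_, ?_, ?_⟩
          · rw [hUl]; exact le_max_right _ _
          · rw [hUh]; exact min_le_right _ _
          · rw [hUl]; exact le_max_right _ _
          · rw [hUh]; exact min_le_right _ _
        have h4 := habs _ hV rfl rfl
        have e2 : yv (.comb a b 1 0 U U) = yv U := by simp [yv]
        rw [e2] at h4
        linarith
      · have : ct (max a' a) (min b' b) (yv T) = 0 := by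
          apply ct_none
          intro k _
          by_contra h
          push Not at h
          omega
        rw [this, map_zero, abs_zero]
        linarith
    have h5 := le_nD z y
    have h6 : ip z y ≤ 2 * u * t := by
      calc ip z y ≤ |ip z y| := le_abs_self _
        _ ≤ nV z * nD y := h5
        _ ≤ 2 * u * t := mul_le_mul hnV h1 (nD_nonneg y) (by linarith)
    have h7 : f (UpC_r a b ((1 / (2 * t)) • y)) = ip z y / (2 * t) := by
      rw [← hzip, map_smul, smul_eq_mul]
      ring
    rw [h7, lt_div_iff₀ (by linarith)] at hf2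
    nlinarith
  have hd : 0 < η / (2 * t * (b - a : ℕ) + 1) := by positivity
  obtain ⟨e, ⟨T, hT, hlo, hhi, rfl⟩, hdist⟩ := Metric.mem_closure_iff.mp hmem _ hd
  refine ⟨T, hT, hlo, hhi, ?_⟩
  rw [l1_eq _ (Finset.Ico a b)]
  · have hk : ∀ k ∈ Finset.Ico a b, |(y - (2 * t) • yv T) k| ≤ 2 * t * (η / (2 * t * (b - a : ℕ) + 1)) := by
      intro k hk
      have h2 := (dist_pi_lt_iff hd).mp hdist ⟨k, hk⟩
      rw [Real.dist_eq] at h2
      simp only [UpC_r, Finsupp.smul_apply, smul_eq_mul] at h2
      have h3 : (y - (2 * t) • yv T) k = 2 * t * (1 / (2 * t) * y k - yv T k) := by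
        simp only [Finsupp.sub_apply, Finsupp.smul_apply, smul_eq_mul]
        field_simp
      rw [h3, abs_mul, abs_of_pos (by linarith : (0 : ℝ) < 2 * t)]
      exact mul_le_mul_of_nonneg_left h2.le (by linarith)
    refine (Finset.sum_le_sum hk).trans ?_
    rw [Finset.sum_const, Nat.card_Ico, nsmul_eq_mul]
    have h4 : (0 : ℝ) < 2 * t * (b - a : ℕ) + 1 := by positivity
    rw [show ((b - a : ℕ) : ℝ) * (2 * t * (η / (2 * t * (b - a : ℕ) + 1)))
      = η * ((2 * t * (b - a : ℕ)) / (2 * t * (b - a : ℕ) + 1)) by ring]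
    have h5 : (2 * t * (b - a : ℕ)) / (2 * t * (b - a : ℕ) + 1) ≤ 1 := by
      rw [div_le_one h4]; linarith
    nlinarith
  · intro k hk
    rw [Finset.mem_Ico]
    rw [Finsupp.mem_support_iff] at hk
    by_contra h
    apply hk
    have h2 : y k = 0 := by
      by_contra h3
      exact h (hy k h3)
    have h3 : yv T k = 0 := by
      by_contra h3
      have := yv_supp hT h3
      rw [hlo, hhi] at this
      exact h this
    simp [h2, h3]

end Pool.Agent.Helper60.HD
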