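import Pool.Agent.Helper60.HD.UpA
import Pool.Agent.Helper60.HD.UpB
import Pool.Agent.Helper60.HD.UpC

/-!
# Estimates in V and in its dual
-/

set_option autoImplicit false

namespace Pool.Agent.Helper60.HD

end Pool.Agent.Helper60.HD
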