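import Pool.Agent.Helper60.HD.Nrm
import Pool.Agent.Helper60.HD.Up

/-!
# Decomposition, self-duality estimates, upper estimates in X
-/

set_option autoImplicit false

namespace Pool.Agent.Helper60.HD

open Finset

lemma DecA_l1_jn (e : ℕ →₀ ℝ) : l1 (jn 0 e) = l1 e := by
  have hinj : Function.Injective (fun n : ℕ => 2 * n + 1) := by
    intro a b h
    simpa using h
  have h0 : jn 0 e = e.mapDomain (fun n => 2 * n + 1) := by
    unfold jn
    rw [Finsupp.mapDomain_zero, zero_add]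
  rw [h0]
  unfold l1
  rw [Finsupp.mapDomain_support_of_injective hinj, Finset.sum_image (fun a _ b _ h => hinj h)]
  refine Finset.sum_congr rfl fun k _ => ?_
  rw [Finsupp.mapDomain_apply hinj]

theorem nN_dec : ∃ C : ℝ, 1 ≤ C ∧ ∀ a b : ℕ, a < b → ∀ z : ℕ →₀ ℝ, (∀ n, z n ≠ 0 → 2 * a ≤ n ∧ n < 2 * b) →
    ∀ t : ℝ, 0 < t → nD (ys z) ≤ t → ∀ η : ℝ, 0 < η →
    ∃ (T : Tr) (x' : ℕ →₀ ℝ), Valid T ∧ T.lo = a ∧ T.hi = b ∧ (∀ n, x' n ≠ 0 → a ≤ n ∧ n < b) ∧
      nN (z - jn x' 0 - (2 * t) • jn (uv T) (yv T)) ≤ η ∧ nV x' ≤ nN z + C * t + η := by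
  obtain ⟨C1, hC1, h1⟩ := nN_l1
  obtain ⟨C2, hC2, h2⟩ := nN_tr
  refine ⟨2 * C2, by linarith, fun a b hab z hz t ht hzt η hη => ?_⟩
  have hys : ∀ n, ys z n ≠ 0 → a ≤ n ∧ n < b := by
    intro n hn
    rw [ys_apply] at hn
    have := hz _ hn
    omega
  have hxs : ∀ n, xs z n ≠ 0 → a ≤ n ∧ n < b := by
    intro n hn
    rw [xs_apply] at hn
    have := hz _ hn
    omega
  have hC1' : 0 < C1 := by linarith
  obtain ⟨T, hT, hlo, hhi, hl⟩ := nD_tree a b hab (ys z) hys t ht hzt (η / C1) (div_pos hη hC1')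
  have hsupp : ∀ n, (xs z - (2 * t) • uv T) n ≠ 0 → a ≤ n ∧ n < b := by
    intro n hn
    by_contra hcon
    have hx0 : xs z n = 0 := by
      by_contra hne
      exact hcon (hxs n hne)
    have hu0 : uv T n = 0 := by
      by_contra hne
      have := uv_supp hT hne
      rw [hlo, hhi] at this
      exact hcon this
    apply hn
    rw [Finsupp.sub_apply, Finsupp.smul_apply, hx0, hu0]
    simp
  have e1 : z - jn (xs z - (2 * t) • uv T) 0 - (2 * t) • jn (uv T) (yv T)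
      = jn 0 (ys z - (2 * t) • yv T) := by
    have e2 : z = jn (xs z) (ys z) := (jn_xs_ys z).symm
    have e3 : jn (xs z) (ys z) = jn (xs z - (2 * t) • uv T) 0 + jn ((2 * t) • uv T) ((2 * t) • yv T)
        + jn 0 (ys z - (2 * t) • yv T) := by
      rw [← jn_add, ← jn_add]
      congr 1
      · abel
      · abel
    rw [← jn_smul]
    nth_rewrite 1 [e2]
    rw [e3]
    abel
  have h3 : nN (z - jn (xs z - (2 * t) • uv T) 0 - (2 * t) • jn (uv T) (yv T)) ≤ η := by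
    rw [e1]
    calc nN (jn 0 (ys z - (2 * t) • yv T)) ≤ C1 * l1 (jn 0 (ys z - (2 * t) • yv T)) := h1 _
      _ = C1 * l1 (ys z - (2 * t) • yv T) := by rw [DecA_l1_jn]
      _ ≤ C1 * (η / C1) := mul_le_mul_of_nonneg_left hl hC1'.le
      _ = η := by field_simp
  refine ⟨T, xs z - (2 * t) • uv T, hT, hlo, hhi, hsupp, h3, ?_⟩
  rw [← nN_jn0]
  have e4 : jn (xs z - (2 * t) • uv T) 0 = z + (-1 : ℝ) • ((2 * t) • jn (uv T) (yv T))
      + (-1 : ℝ) • (z - jn (xs z - (2 * t) • uv T) 0 - (2 * t) • jn (uv T) (yv T)) := by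
    rw [neg_one_smul, neg_one_smul]
    abel
  rw [e4]
  calc nN (z + (-1 : ℝ) • ((2 * t) • jn (uv T) (yv T))
      + (-1 : ℝ) • (z - jn (xs z - (2 * t) • uv T) 0 - (2 * t) • jn (uv T) (yv T)))
      ≤ nN (z + (-1 : ℝ) • ((2 * t) • jn (uv T) (yv T)))
        + nN ((-1 : ℝ) • (z - jn (xs z - (2 * t) • uv T) 0 - (2 * t) • jn (uv T) (yv T))) := nN_add _ _
    _ ≤ (nN z + nN ((-1 : ℝ) • ((2 * t) • jn (uv T) (yv T))))
        + nN ((-1 : ℝ) • (z - jn (xs z - (2 * t) • uv T) 0 - (2 * t) • jn (uv T) (yv T))) := by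
        gcongr
        exact nN_add _ _
    _ = (nN z + 2 * t * nN (jn (uv T) (yv T)))
        + nN (z - jn (xs z - (2 * t) • uv T) 0 - (2 * t) • jn (uv T) (yv T)) := by
        rw [nN_smul, nN_smul, nN_smul, abs_neg, abs_one, one_mul, one_mul, abs_of_pos (by linarith)]
    _ ≤ (nN z + 2 * t * C2) + η := by
        have := mul_le_mul_of_nonneg_left (h2 T hT) (show (0 : ℝ) ≤ 2 * t by linarith)
        linarith
    _ = nN z + 2 * C2 * t + η := by ring

end Pool.Agent.Helper60.HD
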