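import Pool.Agent.Helper60.HD.DecA

/-!
# Decomposition, self-duality estimates, upper estimates in X
-/

set_option autoImplicit false

namespace Pool.Agent.Helper60.HD

open Finset

lemma DecB_w (z z' : ℕ →₀ ℝ) (S : Finset ℕ) (h1 : (xs z).support ⊆ S) (h2 : (xs z').support ⊆ S) :
    w z z' = ∑ n ∈ S, (z (2 * n) * z' (2 * n + 1) - z' (2 * n) * z (2 * n + 1)) := by
  rw [w, ip_eq _ _ S h1, ip_eq _ _ S h2, ← Finset.sum_sub_distrib]
  refine Finset.sum_congr rfl fun n _ => ?_
  rw [xs_apply, ys_apply, xs_apply, ys_apply]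

lemma DecB_add (z x y : ℕ →₀ ℝ) : w z (x + y) = w z x + w z y := by
  rw [w_anti (x + y) z, w_add_left, w_anti x z, w_anti y z]
  ring

lemma DecB_smul (c : ℝ) (z x : ℕ →₀ ℝ) : w z (c • x) = c * w z x := by
  rw [w_anti (c • x) z, w_smul_left, w_anti x z]
  ring

lemma DecB_zero (z : ℕ →₀ ℝ) : w z 0 = 0 := by
  have := DecB_smul 0 z 0
  rwa [zero_smul, zero_mul] at this

lemma DecB_jn0 (z x : ℕ →₀ ℝ) : w z (jn x 0) = - ip x (ys z) := by
  rw [w, ys_jn, xs_jn, map_zero, zero_sub]

lemma DecB_crude (z e : ℕ →₀ ℝ) : |w z e| ≤ nN e * (l1 (xs z) + l1 (ys z)) := by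
  rw [w]
  have h1 : |ip (xs z) (ys e)| ≤ nN e * l1 (xs z) := by
    apply ip_le_l1
    intro k
    rw [ys_apply]
    exact nN_coord e _
  have h2 : |ip (xs e) (ys z)| ≤ nN e * l1 (ys z) := by
    rw [ip_comm]
    apply ip_le_l1
    intro k
    rw [xs_apply]
    exact nN_coord e _
  calc |ip (xs z) (ys e) - ip (xs e) (ys z)| ≤ |ip (xs z) (ys e)| + |ip (xs e) (ys z)| :=
        abs_sub _ _
    _ ≤ nN e * l1 (xs z) + nN e * l1 (ys z) := add_le_add h1 h2
    _ = _ := by ring

/-- the form is bounded -/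
theorem w_bdd : ∃ C : ℝ, 0 ≤ C ∧ ∀ z z', |w z z'| ≤ C * nN z * nN z' := by
  obtain ⟨C, hC1, hdec⟩ := nN_dec
  refine ⟨3 + C, by linarith, fun z z' => ?_⟩
  have hz0 := nN_nonneg z
  by_cases hz' : z' = 0
  · rw [hz', DecB_zero, abs_zero]
    have := nN_nonneg 0
    positivity
  · have hpos := nN_pos hz'
    obtain ⟨b, hb, hsup⟩ : ∃ b : ℕ, 0 < b ∧ ∀ n, z' n ≠ 0 → 2 * 0 ≤ n ∧ n < 2 * b := by
      refine ⟨z'.support.sup id + 1, Nat.succ_pos _, fun n hn => ⟨by omega, ?_⟩⟩
      have h1 : n ∈ z'.support := Finsupp.mem_support_iff.mpr hn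
      have h2 : id n ≤ z'.support.sup id := Finset.le_sup (f := id) h1
      simp only [id] at h2
      have h3 : z'.support.sup id = z'.support.sup fun x => x := rfl
      omega
    apply le_of_forall_pos_le_add
    intro ε hε
    set D := l1 (xs z) + l1 (ys z) with hD
    have hD0 : 0 ≤ D := add_nonneg (l1_nonneg _) (l1_nonneg _)
    have hden : 0 < nN z + D + 1 := by linarith
    set η := ε / (nN z + D + 1) with hη
    have hη0 : 0 < η := div_pos hε hden
    obtain ⟨T, x', hT, -, -, -, he, hx'⟩ := hdec 0 b hb z' hsup (nN z') hpos (nD_ys_le' z') η hη0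
    set e := z' - jn x' 0 - (2 * nN z') • jn (uv T) (yv T) with hedef
    have hz : z' = jn x' 0 + (2 * nN z') • jn (uv T) (yv T) + e := by
      rw [hedef]; abel
    have hw : w z z' = - ip x' (ys z) + 2 * nN z' * w z (jn (uv T) (yv T)) + w z e := by
      conv_lhs => rw [hz]
      rw [DecB_add, DecB_add, DecB_smul, DecB_jn0]
    have e1 : |ip x' (ys z)| ≤ nV x' * nN z :=
      (le_nD x' (ys z)).trans (mul_le_mul_of_nonneg_left (nD_ys_le' z) (nV_nonneg _))
    have e2 : nV x' * nN z ≤ (nN z' + C * nN z' + η) * nN z := mul_le_mul_of_nonneg_right hx' hz0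
    have e3 : |2 * nN z' * w z (jn (uv T) (yv T))| ≤ 2 * nN z' * nN z := by
      rw [abs_mul, abs_of_nonneg (by positivity)]
      exact mul_le_mul_of_nonneg_left (w_tr_le' hT z) (by positivity)
    have e4 : |w z e| ≤ η * D := (DecB_crude z e).trans (mul_le_mul_of_nonneg_right he hD0)
    have e5 : η * (nN z + D) ≤ ε := by
      have : η * (nN z + D + 1) = ε := by rw [hη]; exact div_mul_cancel₀ _ hden.ne'
      nlinarith
    calc |w z z'| = |- ip x' (ys z) + 2 * nN z' * w z (jn (uv T) (yv T)) + w z e| := by rw [hw]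
      _ ≤ |- ip x' (ys z)| + |2 * nN z' * w z (jn (uv T) (yv T))| + |w z e| :=
          abs_add_three _ _ _
      _ ≤ (nN z' + C * nN z' + η) * nN z + 2 * nN z' * nN z + η * D := by
          rw [abs_neg]
          linarith
      _ = (3 + C) * nN z * nN z' + η * (nN z + D) := by ring
      _ ≤ (3 + C) * nN z * nN z' + ε := by linarith

/-- moving a restriction from one side to the other -/
lemma DecB_ct (a b : ℕ) (z : ℕ →₀ ℝ) (z' : ℕ →₀ ℝ) :
    ∃ z'' : ℕ →₀ ℝ, w (ct a b z) z' = w z z'' ∧ nN z'' ≤ 3 * nN z' := by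
  set α : ℝ := if a % 2 = 1 ∧ a < b then 1 else 0 with hα
  set β : ℝ := if b % 2 = 1 ∧ a < b then 1 else 0 with hβ
  refine ⟨ct (2 * ((a + 1) / 2)) (2 * (b / 2)) z' + α • ct (a - 1) a z' + β • ct b (b + 1) z', ?_, ?_⟩
  · set z'' := ct (2 * ((a + 1) / 2)) (2 * (b / 2)) z' + α • ct (a - 1) a z' + β • ct b (b + 1) z'
      with hz''
    set S := (xs (ct a b z)).support ∪ (xs z').support ∪ ((xs z).support ∪ (xs z'').support) with hS
    rw [DecB_w _ _ S (Finset.subset_union_left.trans Finset.subset_union_left)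
      (Finset.subset_union_right.trans Finset.subset_union_left),
      DecB_w _ _ S (Finset.subset_union_left.trans Finset.subset_union_right)
      (Finset.subset_union_right.trans Finset.subset_union_right)]
    refine Finset.sum_congr rfl fun n _ => ?_
    have e1 : z'' (2 * n + 1) = if a ≤ 2 * n ∧ 2 * n < b then z' (2 * n + 1) else 0 := by
      rw [hz'', Finsupp.add_apply, Finsupp.add_apply, Finsupp.smul_apply, Finsupp.smul_apply,
        ct_apply, ct_apply, ct_apply, hα, hβ, smul_eq_mul, smul_eq_mul]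
      split_ifs <;> first | (exfalso; omega) | simp
    have e2 : z'' (2 * n) = if a ≤ 2 * n + 1 ∧ 2 * n + 1 < b then z' (2 * n) else 0 := by
      rw [hz'', Finsupp.add_apply, Finsupp.add_apply, Finsupp.smul_apply, Finsupp.smul_apply,
        ct_apply, ct_apply, ct_apply, hα, hβ, smul_eq_mul, smul_eq_mul]
      split_ifs <;> first | (exfalso; omega) | simp
    rw [e1, e2, ct_apply, ct_apply]
    split_ifs <;> ring
  · have h0 := nN_nonneg z'
    have hα1 : |α| ≤ 1 := by rw [hα]; split_ifs <;> simp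
    have hβ1 : |β| ≤ 1 := by rw [hβ]; split_ifs <;> simp
    have e1 := nN_ct (2 * ((a + 1) / 2)) (2 * (b / 2)) z'
    have e2 : nN (α • ct (a - 1) a z') ≤ nN z' := by
      rw [nN_smul]
      have := nN_ct (a - 1) a z'
      have h1 := nN_nonneg (ct (a - 1) a z')
      nlinarith [abs_nonneg α]
    have e3 : nN (β • ct b (b + 1) z') ≤ nN z' := by
      rw [nN_smul]
      have := nN_ct b (b + 1) z'
      have h1 := nN_nonneg (ct b (b + 1) z')
      nlinarith [abs_nonneg β]
    have e4 := nN_add (ct (2 * ((a + 1) / 2)) (2 * (b / 2)) z' + α • ct (a - 1) a z')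
      (β • ct b (b + 1) z')
    have e5 := nN_add (ct (2 * ((a + 1) / 2)) (2 * (b / 2)) z') (α • ct (a - 1) a z')
    linarith

/-- the form is bounded below -/
theorem w_low : ∃ C : ℝ, 0 < C ∧ ∀ z, z ≠ 0 → ∃ z', nN z' ≤ 1 ∧ nN z ≤ C * |w z z'| := by
  obtain ⟨Ct, hCt, htr⟩ := nN_tr
  refine ⟨6 * Ct, by linarith, fun z hz => ?_⟩
  have hpos := nN_pos hz
  -- a good test vector
  obtain ⟨a, b, y, hy, hwy⟩ : ∃ a b y, nN y ≤ Ct ∧ nN z / 2 < |w (ct a b z) y| := by
    by_contra hcon
    push Not at hcon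
    have : nN z ≤ nN z / 2 := by
      apply nN_le (by linarith)
      · intro a b
        by_contra hlt
        rw [not_le] at hlt
        obtain ⟨x, hx1, hx2⟩ := exists_nD hlt
        have h1 := hcon a b (jn x 0) (by rw [nN_jn0]; linarith)
        rw [DecB_jn0, abs_neg] at h1
        have h2 := le_abs_self (ip x (ys (ct a b z)))
        linarith
      · intro a b T hT
        exact hcon a b _ (htr T hT)
    linarith
  obtain ⟨y', hy1, hy2⟩ := DecB_ct a b z y
  have hCpos : 0 < Ct := by linarith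
  refine ⟨(1 / (3 * Ct)) • y', ?_, ?_⟩
  · rw [nN_smul, abs_of_nonneg (by positivity), one_div, inv_mul_le_iff₀ (by positivity)]
    linarith
  · rw [DecB_smul, abs_mul, abs_of_nonneg (by positivity), ← hy1]
    have : 6 * Ct * (1 / (3 * Ct) * |w (ct a b z) y|) = 2 * |w (ct a b z) y| := by
      field_simp
      ring
    rw [this]
    linarith

end Pool.Agent.Helper60.HD
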