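import Mathlib

/-!
# Trees, functionals, and the map Omega
-/

set_option autoImplicit false

namespace Pool.Agent.Helper60.HD

/-- weights -/
@[irreducible] def m (i : ℕ) : ℕ := 2 ^ 2 ^ (i + 4)

/-- exponents -/
@[irreducible] def rr (i : ℕ) : ℕ := 2 * m i ^ 2

/-- lengths -/
@[irreducible] def nn (i : ℕ) : ℕ := 4 ^ rr i

/-- the Kalton-Peck weights -/
def lam (j r : ℕ) : ℕ := min (r - m j ^ 2) (m j ^ 2)

/-- constant of good vectors -/
noncomputable def C0 : ℝ := 4096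

/-- data of a node -/
structure ND where
  p : ℕ
  q : ℕ
  i : ℕ
  d : ℕ
  r : ℕ
  c : Fin d → ℚ
  v : Fin d → (ℕ →₀ ℚ)

/-- trees -/
inductive Tr : Type
  | leaf (n : ℕ) : Tr
  | comb (p q : ℕ) (s t : ℚ) (A B : Tr) : Tr
  | node (N : ND) (f : Fin N.d → Tr) : Tr

/-- left end of the box -/
def Tr.lo : Tr → ℕ
  | .leaf n => n
  | .comb p _ _ _ _ _ => p
  | .node N _ => N.p

/-- right end of the box -/
def Tr.hi : Tr → ℕ
  | .leaf n => n + 1
  | .comb _ q _ _ _ _ => q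
  | .node N _ => N.q

/-- class of a tree -/
def Tr.cls : Tr → Option ℕ
  | .leaf _ => none
  | .comb _ _ _ _ _ _ => none
  | .node N _ => some N.i

@[simp] lemma lo_leaf (n : ℕ) : (Tr.leaf n).lo = n := rfl
@[simp] lemma hi_leaf (n : ℕ) : (Tr.leaf n).hi = n + 1 := rfl
@[simp] lemma cls_leaf (n : ℕ) : (Tr.leaf n).cls = none := rfl
@[simp] lemma lo_comb (p q : ℕ) (s t : ℚ) (A B : Tr) : (Tr.comb p q s t A B).lo = p := rfl
@[simp] lemma hi_comb (p q : ℕ) (s t : ℚ) (A B : Tr) : (Tr.comb p q s t A B).hi = q := rfl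
@[simp] lemma cls_comb (p q : ℕ) (s t : ℚ) (A B : Tr) : (Tr.comb p q s t A B).cls = none := rfl
@[simp] lemma lo_node (N : ND) (f : Fin N.d → Tr) : (Tr.node N f).lo = N.p := rfl
@[simp] lemma hi_node (N : ND) (f : Fin N.d → Tr) : (Tr.node N f).hi = N.q := rfl
@[simp] lemma cls_node (N : ND) (f : Fin N.d → Tr) : (Tr.node N f).cls = some N.i := rfl

/-- size of a tree -/
def Tr.size : Tr → ℕ
  | .leaf _ => 1
  | .comb _ _ _ _ A B => A.size + B.size + 1
  | .node N f => (∑ k : Fin N.d, (f k).size) + 1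

/-- the countable type of node labels -/
abbrev Lab : Type := (ℕ × ℕ × ℕ × ℕ) × (Σ d : ℕ, (Fin d → ℚ) × (Fin d → (ℕ →₀ ℚ)) × (Fin d → ℕ))

/-- injections of the countable types used -/
noncomputable def inL : Lab → ℕ := (exists_injective_nat Lab).choose

lemma inL_inj : Function.Injective inL := (exists_injective_nat Lab).choose_spec

/-- injection of the labels of combinations -/
noncomputable def inC : (ℕ × ℕ × ℚ × ℚ × ℕ × ℕ) → ℕ := (exists_injective_nat (ℕ × ℕ × ℚ × ℚ × ℕ × ℕ)).choose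

lemma inC_inj : Function.Injective inC := (exists_injective_nat (ℕ × ℕ × ℚ × ℚ × ℕ × ℕ)).choose_spec

/-- numbering of trees -/
noncomputable def Tr.num : Tr → ℕ
  | .leaf n => 3 * n
  | .comb p q s t A B => 3 * inC (p, q, s, t, A.num, B.num) + 1
  | .node N f => 3 * inL ((N.p, N.q, N.i, N.r), ⟨N.d, N.c, N.v, fun k => (f k).num⟩) + 2

lemma Tr.num_inj : Function.Injective Tr.num := by
  intro S
  induction S with
  | leaf n =>
    intro T h
    cases T with
    | leaf n' => simp only [Tr.num] at h; congr 1; omega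
    | comb p q s t A B => simp only [Tr.num] at h; omega
    | node N f => simp only [Tr.num] at h; omega
  | comb p q s t A B ihA ihB =>
    intro T h
    cases T with
    | leaf n' => simp only [Tr.num] at h; omega
    | comb p' q' s' t' A' B' =>
      simp only [Tr.num] at h
      have h1 := inC_inj (show inC (p, q, s, t, A.num, B.num) = inC (p', q', s', t', A'.num, B'.num) by omega)
      simp only [Prod.mk.injEq] at h1
      obtain ⟨h1, h2, h3, h4, h5, h6⟩ := h1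
      rw [h1, h2, h3, h4, ihA h5, ihB h6]
    | node N f => simp only [Tr.num] at h; omega
  | node N f ih =>
    intro T h
    cases T with
    | leaf n' => simp only [Tr.num] at h; omega
    | comb p q s t A B => simp only [Tr.num] at h; omega
    | node N' f' =>
      obtain ⟨p, q, i, d, r, c, v⟩ := N
      obtain ⟨p', q', i', d', r', c', v'⟩ := N'
      simp only [Tr.num] at h
      have h1 := inL_inj (show inL ((p, q, i, r), ⟨d, c, v, fun k => (f k).num⟩)
        = inL ((p', q', i', r'), ⟨d', c', v', fun k => (f' k).num⟩) by omega)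
      simp only [Prod.mk.injEq] at h1
      obtain ⟨⟨h1, h2, h3, h4⟩, h5⟩ := h1
      subst h1; subst h2; subst h3; subst h4
      rw [Sigma.mk.injEq] at h5
      obtain ⟨h5, h6⟩ := h5
      subst h5
      simp only [heq_eq_eq, Prod.mk.injEq] at h6
      obtain ⟨h6, h7, h8⟩ := h6
      subst h6; subst h7
      have : f = f' := by
        funext k
        exact ih k (congrFun h8 k)
      rw [this]

instance : Countable Tr := Tr.num_inj.countable

/-- coding of sequences -/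
noncomputable def enc : List (Tr × (ℕ →₀ ℚ)) → ℕ := (exists_injective_nat (List (Tr × (ℕ →₀ ℚ)))).choose

lemma enc_inj : Function.Injective enc := (exists_injective_nat (List (Tr × (ℕ →₀ ℚ)))).choose_spec

/-- the class following a sequence -/
noncomputable def cod (j : ℕ) (L : List (Tr × (ℕ →₀ ℚ))) : ℕ := 2 * (2 ^ (j + 5) + enc L)

/-- the first `k` members of a sequence -/
def pre {d : ℕ} (f : Fin d → Tr) (v : Fin d → (ℕ →₀ ℚ)) (k : ℕ) : List (Tr × (ℕ →₀ ℚ)) :=
  (List.ofFn fun l => (f l, v l)).take k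

/-- local validity of a node -/
structure NodeOk (N : ND) (f : Fin N.d → Tr) : Prop where
  pq : N.p < N.q
  dn : N.d ≤ nn N.i
  sq : ∑ k, N.c k ^ 2 ≤ 1
  suc : ∀ k l, k < l → (f k).hi ≤ (f l).lo
  box : ∀ k, N.c k ≠ 0 → N.p ≤ (f k).lo ∧ (f k).hi ≤ N.q
  rle : Odd N.i → N.r ≤ rr N.i
  co : Odd N.i → ∀ k, N.c k = 0 ∨ N.c k = (1 / 2) ^ N.r
  cvx : Odd N.i → ∀ k l k', k ≤ l → l ≤ k' → N.c k ≠ 0 → N.c k' ≠ 0 → N.c l ≠ 0
  cls : Odd N.i → ∀ k, (f k).cls = some (cod N.i (pre f N.v k))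
  vs : Odd N.i → ∀ k, ∀ x ∈ (N.v k).support, (f k).lo ≤ x ∧ x < (f k).hi

/-- validity -/
def Valid : Tr → Prop
  | .leaf _ => True
  | .comb p q s t A B => Valid A ∧ Valid B ∧ |s| + |t| ≤ 1 ∧ p ≤ A.lo ∧ A.hi ≤ q ∧ p ≤ B.lo ∧ B.hi ≤ q
  | .node N f => (∀ k, Valid (f k)) ∧ NodeOk N f

@[simp] lemma valid_leaf (n : ℕ) : Valid (.leaf n) := trivial
lemma valid_comb {p q : ℕ} {s t : ℚ} {A B : Tr} : Valid (.comb p q s t A B) ↔
    Valid A ∧ Valid B ∧ |s| + |t| ≤ 1 ∧ p ≤ A.lo ∧ A.hi ≤ q ∧ p ≤ B.lo ∧ B.hi ≤ q := Iff.rfl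
lemma valid_node {N : ND} {f : Fin N.d → Tr} : Valid (.node N f) ↔ (∀ k, Valid (f k)) ∧ NodeOk N f := Iff.rfl

/-- real version of a rational vector -/
noncomputable def rv (x : ℕ →₀ ℚ) : ℕ →₀ ℝ := x.mapRange (fun q : ℚ => (q : ℝ)) Rat.cast_zero

/-- the pairing -/
noncomputable def ip : (ℕ →₀ ℝ) →ₗ[ℝ] (ℕ →₀ ℝ) →ₗ[ℝ] ℝ :=
  LinearMap.mk₂ ℝ (fun x y => x.sum fun k a => a * y k)
    (fun x x' y => Finsupp.sum_add_index' (fun _ => zero_mul _) (fun _ _ _ => add_mul _ _ _))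
    (fun a x y => by
      rw [Finsupp.sum_smul_index' (fun _ => zero_mul _), Finsupp.smul_sum]
      refine Finsupp.sum_congr fun k _ => ?_
      simp only [smul_eq_mul]
      ring)
    (fun x y y' => by
      rw [← Finsupp.sum_add]
      refine Finsupp.sum_congr fun k _ => ?_
      rw [Finsupp.add_apply, mul_add])
    (fun a x y => by
      rw [Finsupp.smul_sum]
      refine Finsupp.sum_congr fun k _ => ?_
      simp only [Finsupp.smul_apply, smul_eq_mul]
      ring)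

/-- restriction to `[a, b)` -/
noncomputable def ct (a b : ℕ) : (ℕ →₀ ℝ) →ₗ[ℝ] (ℕ →₀ ℝ) where
  toFun x := x.filter (fun k => a ≤ k ∧ k < b)
  map_add' x y := by
    ext k
    simp only [Finsupp.filter_apply, Finsupp.add_apply]
    split_ifs <;> simp
  map_smul' c x := by
    ext k
    simp only [Finsupp.filter_apply, Finsupp.smul_apply, RingHom.id_apply]
    split_ifs <;> simp

/-- the l1 norm -/
noncomputable def l1 (x : ℕ →₀ ℝ) : ℝ := ∑ k ∈ x.support, |x k|

/-- the functional of a tree -/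
noncomputable def yv : Tr → (ℕ →₀ ℝ)
  | .leaf n => Finsupp.single n 1
  | .comb _ _ s t A B => (s : ℝ) • yv A + (t : ℝ) • yv B
  | .node N f => (1 / (m N.i : ℝ)) • ∑ k, (N.c k : ℝ) • yv (f k)

/-- good vectors -/
def Good (v : ℕ →₀ ℚ) (w : ℕ) : Prop := ∀ (a b : ℕ) (T : Tr), Valid T →
  |ip (ct a b (rv v)) (yv T)| ≤ C0 ∧
  (∀ i, T.cls = some i → i < w → |ip (ct a b (rv v)) (yv T)| ≤ C0 / m i) ∧
  (∀ i, T.cls = some i → w < i → |ip (ct a b (rv v)) (yv T)| ≤ C0 / m w)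

/-- good relative to the class of a tree -/
def GoodC (v : ℕ →₀ ℚ) (T : Tr) : Prop := ∃ w, T.cls = some w ∧ Good v w

open Classical in
/-- the Kalton-Peck part of a node -/
noncomputable def KP (N : ND) (f : Fin N.d → Tr) : ℕ →₀ ℝ :=
  (lam N.i N.r : ℝ) • ∑ k, if GoodC (N.v k) (f k) then (N.c k : ℝ) • rv (N.v k) else 0

/-- the map Omega -/
noncomputable def uv : Tr → (ℕ →₀ ℝ)
  | .leaf _ => 0
  | .comb _ _ s t A B => (s : ℝ) • uv A + (t : ℝ) • uv B
  | .node N f => (1 / (m N.i : ℝ)) • (∑ k, (N.c k : ℝ) • uv (f k)) + if Odd N.i then KP N f else 0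

/-- the norm of V -/
noncomputable def nV (x : ℕ →₀ ℝ) : ℝ := sSup {t | ∃ (a b : ℕ) (T : Tr), Valid T ∧ t = |ip (ct a b x) (yv T)|}

/-- the dual norm -/
noncomputable def nD (y : ℕ →₀ ℝ) : ℝ := sSup {t | ∃ x : ℕ →₀ ℝ, nV x ≤ 1 ∧ t = |ip x y|}

/-- records -/
structure Rc where
  p : ℝ
  g : ℝ
  t : Tr

/-- scaling of records -/
def Rc.sc (a b : ℝ) (x : Rc) : Rc := ⟨a * x.p, b * x.g, x.t⟩

/-- signs -/
noncomputable def sg (s : ℚ) : ℝ := if 0 ≤ s then 1 else -1

/-- special occurrences in a tree -/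
noncomputable def recs : Tr → Multiset Rc
  | .leaf _ => 0
  | .comb _ _ s t A B => (recs A).map (Rc.sc |(s : ℝ)| (sg s)) + (recs B).map (Rc.sc |(t : ℝ)| (sg t))
  | .node N f => (if Odd N.i then {⟨1, 1, .node N f⟩} else 0) +
      ∑ k, if N.c k = 0 then 0 else (recs (f k)).map (Rc.sc 1 ((N.c k : ℝ) / m N.i))

/-- the Kalton-Peck part of a tree -/
noncomputable def Tr.kp : Tr → (ℕ →₀ ℝ)
  | .leaf _ => 0
  | .comb _ _ _ _ _ _ => 0
  | .node N f => KP N f

/-- Kalton-Peck weight over the class weight -/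
noncomputable def Tr.lm : Tr → ℝ
  | .leaf _ => 0
  | .comb _ _ _ _ _ _ => 0
  | .node N _ => (lam N.i N.r : ℝ) / m N.i

open Classical in
/-- aligned pairs of two special nodes -/
noncomputable def al (a b : ℕ) : Tr → Tr → ℝ
  | .node N f, .node N' f' => if N.i = N'.i then
      ∑ k, ∑ k', if f k = f' k' ∧ N.v k = N'.v k' ∧ GoodC (N.v k) (f k) then
        (N.c k : ℝ) * N'.c k' * ip (ct a b (rv (N.v k))) (yv (f k)) else 0
      else 0
  | _, _ => 0

/-- linear sums over records -/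
noncomputable def lin (φ : Tr → ℝ) (T : Tr) : ℝ := ((recs T).map fun x => x.p * x.g * φ x.t).sum

/-- aligned part -/
noncomputable def alp (a b : ℕ) (t T : Tr) : ℝ := t.lm * lin (al a b t) T

/-- non-aligned part -/
noncomputable def be (a b : ℕ) (t T : Tr) : ℝ := ip (ct a b t.kp) (yv T) - alp a b t T

open Classical in
/-- number of children of a node equal to a given tree, with nonzero coefficient -/
noncomputable def nch (X : Tr) : Tr → ℝ
  | .leaf _ => 0
  | .comb _ _ _ _ _ _ => 0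
  | .node N f => ∑ k, if N.c k ≠ 0 ∧ f k = X then 1 else 0

/-- first coordinates -/
noncomputable def xs : (ℕ →₀ ℝ) →ₗ[ℝ] (ℕ →₀ ℝ) :=
  Finsupp.lcomapDomain (fun n => 2 * n) (fun a b h => by simpa using h)

/-- second coordinates -/
noncomputable def ys : (ℕ →₀ ℝ) →ₗ[ℝ] (ℕ →₀ ℝ) :=
  Finsupp.lcomapDomain (fun n => 2 * n + 1) (fun a b h => by simpa using h)

/-- interleaving -/
noncomputable def jn (x y : ℕ →₀ ℝ) : ℕ →₀ ℝ :=
  x.mapDomain (fun n => 2 * n) + y.mapDomain (fun n => 2 * n + 1)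

/-- the symplectic form -/
noncomputable def w (z z' : ℕ →₀ ℝ) : ℝ := ip (xs z) (ys z') - ip (xs z') (ys z)

/-- the norm of X -/
noncomputable def nN (z : ℕ →₀ ℝ) : ℝ := sSup {t | ∃ a b : ℕ, t = nD (ys (ct a b z)) ∨
  ∃ T, Valid T ∧ t = |w (ct a b z) (jn (uv T) (yv T))|}

/-- far submodules -/
def Far (P : Submodule ℝ (ℕ →₀ ℝ)) : Prop := ∀ M : ℕ, ∃ z ∈ P, z ≠ 0 ∧ ∀ n, z n ≠ 0 → M ≤ n

end Pool.Agent.Helper60.HD
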