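import Pool.Agent.Helper60.HD.BI

/-!
# Normalised averages of rapidly increasing sequences are good
-/

set_option autoImplicit false

namespace Pool.Agent.Helper60.HD

open Finset

lemma ExB_num1 {M R Q P4 : ℝ} (hM : 65536 ≤ M) (hQ : 1 ≤ Q) (hP : 4 ≤ P4)
    (h : 3 * M ^ 2 * Q * P4 ≤ R) :
    M * P4 ≤ R ∧ 3 * M ^ 2 * Q ≤ R ∧ M * (P4 * Q) ≤ R ∧ M ^ 2 ≤ R := by
  have hM0 : 0 < M := by linarith
  have hMM : M ≤ M ^ 2 := by nlinarith
  have hQP : P4 ≤ Q * P4 := by nlinarith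
  have hQP2 : Q ≤ Q * P4 := by nlinarith
  have hQP3 : 1 ≤ Q * P4 := by nlinarith
  have h0 : 0 ≤ Q * P4 := by linarith
  have e : 3 * M ^ 2 * (Q * P4) ≤ R := by linarith
  refine ⟨?_, ?_, ?_, ?_⟩
  · calc M * P4 ≤ M ^ 2 * (Q * P4) := mul_le_mul hMM hQP (by linarith) (by positivity)
      _ ≤ R := by nlinarith [mul_nonneg (sq_nonneg M) h0]
  · calc 3 * M ^ 2 * Q ≤ 3 * M ^ 2 * (Q * P4) := mul_le_mul_of_nonneg_left hQP2 (by positivity)
      _ ≤ R := e
  · calc M * (P4 * Q) ≤ M ^ 2 * (Q * P4) := by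
          rw [mul_comm P4 Q]; exact mul_le_mul_of_nonneg_right hMM h0
      _ ≤ R := by nlinarith [mul_nonneg (sq_nonneg M) h0]
  · calc M ^ 2 ≤ M ^ 2 * (Q * P4) := le_mul_of_one_le_right (by positivity) hQP3
      _ ≤ R := by nlinarith [mul_nonneg (sq_nonneg M) h0]

lemma ExB_b1 {M R Q P4 : ℝ} (hM : 65536 ≤ M) (hQ : 1 ≤ Q) (hP : 4 ≤ P4)
    (h : 3 * M ^ 2 * Q * P4 ≤ R) :
    M / R * (256 * (P4 + (8 / M + 4 * (1 / M ^ 2)) * R) + 1 / M ^ 2) ≤ 4096 := by
  obtain ⟨h1, -, -, h4⟩ := ExB_num1 hM hQ hP h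
  have hM0 : 0 < M := by linarith
  have hR0 : 0 < R := by nlinarith
  have hR1 : 1 ≤ R := by nlinarith
  have e : M / R * (256 * (P4 + (8 / M + 4 * (1 / M ^ 2)) * R) + 1 / M ^ 2)
      = 256 * (M * P4 / R) + 2048 + 1024 / M + 1 / (M * R) := by
    field_simp
    ring
  rw [e]
  have a1 : M * P4 / R ≤ 1 := by rw [div_le_one hR0]; exact h1
  have a2 : 1024 / M ≤ 1 := by rw [div_le_one hM0]; linarith
  have a3 : 1 / (M * R) ≤ 1 := by rw [div_le_one (by positivity)]; nlinarith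
  linarith

lemma ExB_b2 {M R Q P4 mi : ℝ} (hM : 65536 ≤ M) (hQ : 1 ≤ Q) (hP : 4 ≤ P4)
    (h : 3 * M ^ 2 * Q * P4 ≤ R) (hmi : 65536 ≤ mi) (hmM : mi ≤ M) :
    M / R * (256 * (3 * Q + 1 / mi * (P4 * Q + (8 / M + 4 * (1 / M ^ 2)) * R)) + 1 / M ^ 2)
      ≤ 4096 / mi := by
  obtain ⟨h1, h2, h3, h4⟩ := ExB_num1 hM hQ hP h
  have hM0 : 0 < M := by linarith
  have hmi0 : 0 < mi := by linarith
  have hR0 : 0 < R := by nlinarith
  have hR1 : 1 ≤ R := by nlinarith
  have e : M / R * (256 * (3 * Q + 1 / mi * (P4 * Q + (8 / M + 4 * (1 / M ^ 2)) * R)) + 1 / M ^ 2)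
      = (256 * (3 * M * Q * mi / R) + 256 * (M * (P4 * Q) / R) + 2048 + 1024 / M + mi / (M * R)) / mi := by
    field_simp
    ring
  rw [e]
  apply div_le_div_of_nonneg_right _ hmi0.le
  have a0 : 3 * M * Q * mi / R ≤ 1 := by
    rw [div_le_one hR0]
    calc 3 * M * Q * mi ≤ 3 * M * Q * M := mul_le_mul_of_nonneg_left hmM (by positivity)
      _ = 3 * M ^ 2 * Q := by ring
      _ ≤ R := h2
  have a1 : M * (P4 * Q) / R ≤ 1 := by rw [div_le_one hR0]; exact h3
  have a2 : 1024 / M ≤ 1 := by rw [div_le_one hM0]; linarith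
  have a3 : mi / (M * R) ≤ 1 := by rw [div_le_one (by positivity)]; nlinarith
  linarith

lemma ExB_b3 {M R Q P4 mi : ℝ} (hM : 65536 ≤ M) (hQ : 1 ≤ Q) (hP : 4 ≤ P4)
    (h : 3 * M ^ 2 * Q * P4 ≤ R) (hmi : M ^ 2 ≤ mi) :
    M / R * (256 + 8 * 256 / mi * R + 1 / M ^ 2) ≤ 4096 / M := by
  obtain ⟨h1, h2, h3, h4⟩ := ExB_num1 hM hQ hP h
  have hM0 : 0 < M := by linarith
  have hmi0 : 0 < mi := by nlinarith
  have hR0 : 0 < R := by nlinarith
  have hR1 : 1 ≤ R := by nlinarith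
  have e : M / R * (256 + 8 * 256 / mi * R + 1 / M ^ 2)
      = (256 * (M ^ 2 / R) + 2048 * (M ^ 2 / mi) + 1 / R) / M := by
    field_simp
    ring
  rw [e]
  apply div_le_div_of_nonneg_right _ hM0.le
  have a0 : M ^ 2 / R ≤ 1 := by rw [div_le_one hR0]; exact h4
  have a1 : M ^ 2 / mi ≤ 1 := by rw [div_le_one hmi0]; exact hmi
  have a3 : 1 / R ≤ 1 := by rw [div_le_one hR0]; exact hR1
  linarith

theorem ris_good (c : ℕ) (x : ℕ → (ℕ →₀ ℚ)) (lo hi l : ℕ → ℕ) (hl : StrictMono l)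
    (hpos : ∀ k, lo k < hi k) (hsuc : ∀ k, hi k ≤ lo (k + 1))
    (hsupp : ∀ k, ∀ n ∈ (x k).support, lo k ≤ n ∧ n < hi k)
    (hn : ∀ k, nV (rv (x k)) ≤ 256)
    (hc : ∀ k a b U i, Valid U → U.cls = some i → (i < l k ∨ l (k + 1) ≤ i) →
      |ip (ct a b (rv (x k))) (yv U)| ≤ 256 / m i + 1 / ((m c : ℝ) ^ 2 * (2 ^ rr c) ^ 2))
    (v : ℕ →₀ ℚ) (hv : rv v = ((m c : ℝ) / 2 ^ rr c) • ∑ k ∈ range (nn c), rv (x k)) : Good v c := by
  intro a b T hT
  have hmc : (65536 : ℝ) ≤ m c := by exact_mod_cast m_ge c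
  have hR0 : (0 : ℝ) < 2 ^ rr c := by positivity
  have hsuc' : ∀ d k, hi k ≤ lo (k + d + 1) := by
    intro d
    induction d with
    | zero => intro k; exact hsuc k
    | succ d ih =>
      intro k
      have h1 := ih k
      have h2 := hpos (k + d + 1)
      have h3 := hsuc (k + d + 1)
      have h4 : k + (d + 1) + 1 = k + d + 1 + 1 := by ring
      rw [h4]
      omega
  -- the system
  have H : BIH (nn c) (fun k T => ip (ct a b (rv (x k))) (yv T)) lo hi (fun _ => False) 256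
      (1 / ((m c : ℝ) ^ 2 * (2 ^ rr c) ^ 2)) (fun k i => l k ≤ i ∧ i < l (k + 1)) := by
    refine { pos := ?_, suc := ?_, comb := ?_, node := ?_, loc := ?_, C0 := ?_, e0 := ?_, bd := ?_,
             bc := ?_, uni := ?_, bx := ?_ }
    · intro k _; exact hpos k
    · intro k l' hkl _
      obtain ⟨d, rfl⟩ := Nat.exists_eq_add_of_lt hkl
      exact hsuc' d k
    · intro k _ p q s t A B _
      simp only [yv, map_add, map_smul, smul_eq_mul]
    · intro k _ N f _ _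
      simp only [yv, map_smul, map_sum, smul_eq_mul]
    · intro k _ T' hT' hd
      show ip (ct a b (rv (x k))) (yv T') = 0
      simp only [ip, LinearMap.mk₂_apply]
      rw [Finsupp.sum]
      refine Finset.sum_eq_zero fun n hnn => ?_
      by_cases hy : yv T' n = 0
      · rw [hy, mul_zero]
      · exfalso
        have h1 := yv_supp hT' hy
        have h2 : n ∈ (x k).support := by
          rw [Finsupp.mem_support_iff] at hnn ⊢
          intro h0
          apply hnn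
          simp only [ct, LinearMap.coe_mk, AddHom.coe_mk, Finsupp.filter_apply, rv,
            Finsupp.mapRange_apply, h0]
          simp
        have h3 := hsupp k n h2
        omega
    · norm_num
    · positivity
    · intro k _ T' hT'
      exact (le_nV hT' a b (rv (x k))).trans (hn k)
    · intro k _ T' i hT' hcl _ hex
      apply hc k a b T' i hT' hcl
      by_contra hcon
      push Not at hcon
      exact hex hcon
    · rintro i k k' _ _ ⟨h1, h2⟩ ⟨h3, h4⟩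
      by_contra hne
      rcases lt_or_gt_of_ne hne with h | h
      · have := hl.monotone (show k + 1 ≤ k' from h)
        omega
      · have := hl.monotone (show k' + 1 ≤ k from h)
        omega
    · intro N f _ hf; exact hf.elim
  have hA : Cvx (nn c) (range (nn c)) := by
    refine ⟨fun k hk => Finset.mem_range.mp hk, ?_⟩
    intro k hk l' k' hk' h1 h2
    rw [Finset.mem_range] at hk' ⊢
    omega
  have hcard : √((range (nn c)).card : ℝ) = 2 ^ rr c := by
    rw [Finset.card_range, nn_cast, Real.sqrt_sq hR0.le]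
  have hεK : 1 / ((m c : ℝ) ^ 2 * (2 ^ rr c) ^ 2) * ((range (nn c)).card : ℝ) = 1 / (m c : ℝ) ^ 2 := by
    rw [Finset.card_range, nn_cast]
    field_simp
  have hlam : ip (ct a b (rv v)) (yv T) = (m c : ℝ) / 2 ^ rr c *
      ∑ k ∈ range (nn c), ip (ct a b (rv (x k))) (yv T) := by
    rw [hv]
    simp only [map_smul, map_sum, LinearMap.smul_apply, LinearMap.sum_apply, smul_eq_mul]
  have habs : |ip (ct a b (rv v)) (yv T)| = (m c : ℝ) / 2 ^ rr c *
      |∑ k ∈ range (nn c), ip (ct a b (rv (x k))) (yv T)| := by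
    rw [hlam, abs_mul, abs_of_nonneg (by positivity)]
  have hQ : (1 : ℝ) ≤ 2 ^ (2 * m c) := one_le_pow₀ (by norm_num)
  have hP : (4 : ℝ) ≤ 4 + ((2 : ℝ) ^ (2 * m c + 2)) ^ (2 ^ (c + 1)) := by
    have : (0 : ℝ) ≤ ((2 : ℝ) ^ (2 * m c + 2)) ^ (2 ^ (c + 1)) := by positivity
    linarith
  have hpar : 3 * (m c : ℝ) ^ 2 * 2 ^ (2 * m c) * (4 + ((2 : ℝ) ^ (2 * m c + 2)) ^ (2 ^ (c + 1)))
      ≤ 2 ^ rr c := by
    refine (par_big c).trans ?_
    apply pow_le_pow_right₀ (by norm_num)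
    rw [rr_eq]
    omega
  have hh : ∀ i, c ≤ i → ¬ (fun _ : ℕ => False) i → (m c : ℝ) ≤ m i := by
    intro i hi' _
    exact_mod_cast m_strict.monotone hi'
  have hlm0 : (0 : ℝ) ≤ (m c : ℝ) / 2 ^ rr c := by positivity
  refine ⟨?_, ?_, ?_⟩
  · have h1 := bi_gen H c (m c) (by linarith) hh (2 ^ (c + 1)) T hT (range (nn c)) hA
    rw [hcard, hεK, theta_pow] at h1
    rw [habs]
    calc _ ≤ (m c : ℝ) / 2 ^ rr c * _ := mul_le_mul_of_nonneg_left h1 hlm0
      _ = (m c : ℝ) / 2 ^ rr c * (256 * ((4 + ((2 : ℝ) ^ (2 * m c + 2)) ^ (2 ^ (c + 1))) +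
          (8 / (m c : ℝ) + 4 * (1 / (m c : ℝ) ^ 2)) * 2 ^ rr c) + 1 / (m c : ℝ) ^ 2) := by ring
      _ ≤ 4096 := ExB_b1 hmc hQ hP hpar
      _ = C0 := by unfold C0; rfl
  · intro i hcl hic
    have hmi : (65536 : ℝ) ≤ m i := by exact_mod_cast m_ge i
    have hmM : (m i : ℝ) ≤ m c := by exact_mod_cast (m_strict hic).le
    cases T with
    | leaf n => simp at hcl
    | comb p q s t A B => simp at hcl
    | node N f =>
      rw [cls_node, Option.some.injEq] at hcl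
      have h1 := bi_low H c (m c) (by linarith) hh (2 ^ (c + 1)) N f hT (fun h => h)
        (by rw [hcl]; exact hic) (range (nn c)) hA
      rw [hcard, hεK, theta_pow, hcl] at h1
      rw [habs]
      calc _ ≤ (m c : ℝ) / 2 ^ rr c * _ := mul_le_mul_of_nonneg_left h1 hlm0
        _ ≤ 4096 / m i := ExB_b2 hmc hQ hP hpar hmi hmM
        _ = C0 / m i := by unfold C0; rfl
  · intro i hcl hic
    have hmi : (m c : ℝ) ^ 2 ≤ m i := by
      have h2 : m (c + 1) ≤ m i := m_strict.monotone hic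
      rw [m_succ] at h2
      exact_mod_cast h2
    cases T with
    | leaf n => simp at hcl
    | comb p q s t A B => simp at hcl
    | node N f =>
      rw [cls_node, Option.some.injEq] at hcl
      have h1 := bi_high H N f hT (fun h => h) (range (nn c)) hA
      rw [hcard, hεK, hcl] at h1
      rw [habs]
      calc _ ≤ (m c : ℝ) / 2 ^ rr c * _ := mul_le_mul_of_nonneg_left h1 hlm0
        _ ≤ 4096 / m c := ExB_b3 hmc hQ hP hpar hmi
        _ = C0 / m c := by unfold C0; rfl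

end Pool.Agent.Helper60.HD
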