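import Pool.Agent.Helper60.HD.ExA
import Pool.Agent.Helper60.HD.ExB

/-!
# Exact pairs
-/

set_option autoImplicit false

namespace Pool.Agent.Helper60.HD

open Finset

lemma ex1_rv_add (x y : ℕ →₀ ℚ) : rv (x + y) = rv x + rv y := by
  ext k
  simp only [rv_apply, Finsupp.add_apply]
  push_cast
  ring

lemma ex1_rv_smul (c : ℚ) (x : ℕ →₀ ℚ) : rv (c • x) = (c : ℝ) • rv x := by
  ext k
  simp only [rv_apply, Finsupp.smul_apply, smul_eq_mul]
  push_cast
  ring

lemma ex1_rv_zero : rv 0 = 0 := by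
  ext k
  simp only [rv_apply, Finsupp.zero_apply]
  push_cast
  rfl

lemma ex1_rv_sum {ι : Type} (S : Finset ι) (x : ι → (ℕ →₀ ℚ)) :
    rv (∑ k ∈ S, x k) = ∑ k ∈ S, rv (x k) := by
  classical
  induction S using Finset.induction_on with
  | empty => simp only [Finset.sum_empty]; exact ex1_rv_zero
  | insert a S ha ih => rw [Finset.sum_insert ha, Finset.sum_insert ha, ex1_rv_add, ih]

lemma ex1_chain {g : ℕ → Tr} (hv : ∀ k, Valid (g k)) (hs : ∀ k, (g k).hi ≤ (g (k + 1)).lo) :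
    ∀ k l, k < l → (g k).hi ≤ (g l).lo := by
  intro k l hkl
  induction l with
  | zero => omega
  | succ l ih =>
    rcases Nat.lt_succ_iff_lt_or_eq.1 hkl with h | h
    · exact le_trans (ih h) (le_trans (lo_lt_hi (hv l)).le (hs l))
    · rw [h]; exact hs l

theorem exact_pair (Q : (ℕ →₀ ℚ) → Tr → ℝ → Prop) (hQ : Src Q) (c : ℕ) (hc : Even c) (p : ℕ) (η : ℝ)
    (hη : 0 < η) :
    ∃ (x : ℕ → (ℕ →₀ ℚ)) (g : ℕ → Tr) (v : ℕ →₀ ℚ) (T : Tr),
      Valid T ∧ p ≤ T.lo ∧ T.cls = some c ∧ (∀ n ∈ v.support, T.lo ≤ n ∧ n < T.hi) ∧ Good v c ∧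
      |ip (rv v) (yv T) - 1| ≤ η ∧
      rv v = ((m c : ℝ) / 2 ^ rr c) • ∑ k ∈ range (nn c), rv (x k) ∧
      yv T = (1 / ((m c : ℝ) * 2 ^ rr c)) • ∑ k ∈ range (nn c), yv (g k) ∧
      ∀ k < nn c, Q (x k) (g k) η ∧ T.lo ≤ (g k).lo ∧ (g k).hi ≤ T.hi := by
  have hm : (0 : ℝ) < m c := by
    have := m_ge c
    have h5 : (0 : ℕ) < m c := by omega
    exact_mod_cast h5
  have h2 : (0 : ℝ) < 2 ^ rr c := by positivity
  have hnn : (nn c : ℝ) = ((2 : ℝ) ^ rr c) ^ 2 := nn_cast c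
  have hnp := nn_pos c
  obtain ⟨x, g, l, hl, hp, hsuc, H⟩ := ris Q hQ p η (1 / ((m c : ℝ) ^ 2 * (2 ^ rr c) ^ 2)) hη
    (by positivity)
  have hV : ∀ k, Valid (g k) := fun k => (H k).1
  have hch := ex1_chain hV hsuc
  have hlo : ∀ k, (g 0).lo ≤ (g k).lo := by
    intro k
    rcases Nat.eq_zero_or_pos k with h | h
    · rw [h]
    · exact le_trans (lo_lt_hi (hV 0)).le (hch 0 k h)
  have hhi : ∀ k < nn c, (g k).hi ≤ (g (nn c - 1)).hi := by
    intro k hk
    rcases Nat.lt_or_ge k (nn c - 1) with h | h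
    · exact le_trans (hch k _ h) (lo_lt_hi (hV _)).le
    · have : k = nn c - 1 := by omega
      rw [this]
  let v : ℕ →₀ ℚ := ((m c : ℚ) / 2 ^ rr c) • ∑ k ∈ range (nn c), x k
  have hv : rv v = ((m c : ℝ) / 2 ^ rr c) • ∑ k ∈ range (nn c), rv (x k) := by
    show rv (((m c : ℚ) / 2 ^ rr c) • ∑ k ∈ range (nn c), x k) = _
    rw [ex1_rv_smul, ex1_rv_sum]
    push_cast
    rfl
  let N : ND := ⟨(g 0).lo, (g (nn c - 1)).hi, c, nn c, 0, fun _ => (1 / 2) ^ rr c, fun _ => 0⟩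
  let f : Fin N.d → Tr := fun k => g k
  have hodd : ¬ Odd c := by rwa [Nat.not_odd_iff_even]
  have hvalid : Valid (.node N f) := by
    refine valid_node.2 ⟨fun k => hV _, ?_⟩
    refine ⟨?_, le_rfl, ?_, ?_, ?_, ?_, ?_, ?_, ?_, ?_⟩
    · exact lt_of_lt_of_le (lo_lt_hi (hV 0)) (hhi 0 hnp)
    · show ∑ k : Fin (nn c), (((1 : ℚ) / 2) ^ rr c) ^ 2 ≤ 1
      rw [Finset.sum_const, Finset.card_univ, Fintype.card_fin, nsmul_eq_mul]
      have e : (nn c : ℚ) = ((2 : ℚ) ^ rr c) ^ 2 := by exact_mod_cast hnn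
      rw [e, ← mul_pow, ← mul_pow]
      norm_num
    · intro k l' hkl
      exact hch k l' hkl
    · intro k _
      exact ⟨hlo _, hhi _ k.2⟩
    · exact fun ho => absurd ho hodd
    · exact fun ho => absurd ho hodd
    · exact fun ho => absurd ho hodd
    · exact fun ho => absurd ho hodd
    · exact fun ho => absurd ho hodd
  have hy : yv (.node N f) = (1 / ((m c : ℝ) * 2 ^ rr c)) • ∑ k ∈ range (nn c), yv (g k) := by
    show (1 / (m c : ℝ)) • ∑ k : Fin (nn c), (((((1 : ℚ) / 2) ^ rr c : ℚ)) : ℝ) • yv (g k) = _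
    rw [← Finset.smul_sum, Fin.sum_univ_eq_sum_range (fun k => yv (g k)) (nn c), smul_smul]
    congr 1
    push_cast
    rw [one_div_pow]
    field_simp
  refine ⟨x, g, v, .node N f, hvalid, hp, rfl, ?_, ?_, ?_, hv, hy, ?_⟩
  · intro n hn
    have h1 : v n ≠ 0 := Finsupp.mem_support_iff.1 hn
    have h3 : ∃ k ∈ range (nn c), x k n ≠ 0 := by
      by_contra hcon
      push Not at hcon
      apply h1
      show (((m c : ℚ) / 2 ^ rr c) • ∑ k ∈ range (nn c), x k) n = 0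
      rw [Finsupp.smul_apply, Finsupp.finsetSum_apply, Finset.sum_eq_zero hcon, smul_zero]
    obtain ⟨k, hk, hkn⟩ := h3
    have h4 := (H k).2.1 n (Finsupp.mem_support_iff.2 hkn)
    exact ⟨le_trans (hlo k) h4.1, lt_of_lt_of_le h4.2 (hhi k (Finset.mem_range.1 hk))⟩
  · exact ris_good c x (fun k => (g k).lo) (fun k => (g k).hi) l hl (fun k => lo_lt_hi (hV k)) hsuc
      (fun k => (H k).2.1) (fun k => (H k).2.2.2.1) (fun k => (H k).2.2.2.2.1) v hv
  · have hoff : ∀ k l', k ≠ l' → ip (rv (x k)) (yv (g l')) = 0 := by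
      intro k l' hkl
      refine ip_disj fun n hn hn' => ?_
      have h1 := yv_supp (hV l') hn'
      have h3 : x k n ≠ 0 := by
        intro h0
        rw [rv_apply, h0] at hn
        exact hn Rat.cast_zero
      have h4 := (H k).2.1 n (Finsupp.mem_support_iff.2 h3)
      rcases Nat.lt_or_gt_of_ne hkl with h | h
      · have := hch k l' h; omega
      · have := hch l' k h; omega
    have e : ip (rv v) (yv (.node N f)) =
        (1 / (nn c : ℝ)) * ∑ k ∈ range (nn c), ip (rv (x k)) (yv (g k)) := by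
      rw [hv, hy]
      simp only [map_smul, map_sum, LinearMap.smul_apply, LinearMap.sum_apply, smul_eq_mul]
      have e2 : ∀ k ∈ range (nn c), ∑ k' ∈ range (nn c), ip (rv (x k')) (yv (g k)) =
          ip (rv (x k)) (yv (g k)) := by
        intro k hk
        exact Finset.sum_eq_single_of_mem k hk (fun b _ hb => hoff b k hb)
      rw [← Finset.mul_sum, Finset.sum_congr rfl e2, hnn]
      field_simp
    rw [e]
    have hN : (0 : ℝ) < nn c := by exact_mod_cast hnp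
    have e3 : 1 / (nn c : ℝ) * ∑ k ∈ range (nn c), ip (rv (x k)) (yv (g k)) - 1 =
        1 / (nn c : ℝ) * ∑ k ∈ range (nn c), (ip (rv (x k)) (yv (g k)) - 1) := by
      rw [Finset.sum_sub_distrib, Finset.sum_const, Finset.card_range, nsmul_eq_mul]
      field_simp
    rw [e3, abs_mul, abs_of_pos (by positivity : 0 < 1 / (nn c : ℝ))]
    have e4 : |∑ k ∈ range (nn c), (ip (rv (x k)) (yv (g k)) - 1)| ≤ nn c * η := by
      refine le_trans (Finset.abs_sum_le_sum_abs _ _) ?_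
      refine le_trans (Finset.sum_le_sum (fun k _ => (H k).2.2.1)) ?_
      rw [Finset.sum_const, Finset.card_range, nsmul_eq_mul]
    rw [one_div, inv_mul_le_iff₀ hN]
    exact e4
  · intro k hk
    exact ⟨(H k).2.2.2.2.2, hlo k, hhi k hk⟩

end Pool.Agent.Helper60.HD
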