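import Pool.Agent.Helper60.HD.Bas

/-!
# Special sequences
-/

set_option autoImplicit false

namespace Pool.Agent.Helper60.HD

lemma seq_lt {T : Tr} (h : Valid T) : T.lo < T.hi := by
  induction T with
  | leaf n => simp
  | comb p q s t A B ihA ihB =>
    obtain ⟨hA, hB, -, h1, h2, -, -⟩ := h
    have := ihA hA
    simp only [lo_comb, hi_comb]
    omega
  | node N f ih => exact h.2.pq

lemma seq_ofFn {α : Type*} (d : ℕ) (g : ℕ → α) :
    List.ofFn (fun l : Fin d => g l) = (List.range d).map g := by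
  apply List.ext_getElem
  · simp
  · intro i h1 h2
    simp

lemma seq_pre {d : ℕ} (F : ℕ → Tr) (V : ℕ → (ℕ →₀ ℚ)) (k : ℕ) (hk : k ≤ d) :
    pre (fun l : Fin d => F l) (fun l : Fin d => V l) k =
      (List.range k).map (fun l => (F l, V l)) := by
  unfold pre
  rw [seq_ofFn d (fun l => (F l, V l)), ← List.map_take, List.take_range, Nat.min_eq_left hk]

theorem spec_seq (j : ℕ) (Q : ℕ → (ℕ →₀ ℚ) → Tr → Prop)
    (hQ : ∀ k c p, Even c → ∃ (v : ℕ →₀ ℚ) (T : Tr), Valid T ∧ p ≤ T.lo ∧ T.cls = some c ∧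
      (∀ n ∈ v.support, T.lo ≤ n ∧ n < T.hi) ∧ Q k v T) (p₀ d : ℕ) :
    ∃ (f : Fin d → Tr) (v : Fin d → (ℕ →₀ ℚ)),
      (∀ k, Valid (f k) ∧ p₀ ≤ (f k).lo ∧ (f k).cls = some (cod j (pre f v k)) ∧
        (∀ n ∈ (v k).support, (f k).lo ≤ n ∧ n < (f k).hi) ∧ Q k (v k) (f k)) ∧
      ∀ k l, k < l → (f k).hi ≤ (f l).lo := by
  have hQ' : ∀ (k : ℕ) (L : List (Tr × (ℕ →₀ ℚ))) (p : ℕ), ∃ z : Tr × (ℕ →₀ ℚ),
      Valid z.1 ∧ p ≤ z.1.lo ∧ z.1.cls = some (cod j L) ∧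
      (∀ n ∈ z.2.support, z.1.lo ≤ n ∧ n < z.1.hi) ∧ Q k z.2 z.1 := by
    intro k L p
    obtain ⟨v, T, h⟩ := hQ k (cod j L) p (cod_even j L)
    exact ⟨(T, v), h⟩
  choose Z hZ using hQ'
  let st : ℕ → List (Tr × (ℕ →₀ ℚ)) × ℕ := fun n => Nat.rec ([], p₀)
    (fun k s => (s.1 ++ [Z k s.1 s.2], max s.2 (Z k s.1 s.2).1.hi)) n
  have hst0 : st 0 = ([], p₀) := rfl
  have hsts : ∀ k, st (k + 1) = ((st k).1 ++ [Z k (st k).1 (st k).2],
    max (st k).2 (Z k (st k).1 (st k).2).1.hi) := fun k => rfl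
  let g : ℕ → Tr × (ℕ →₀ ℚ) := fun k => Z k (st k).1 (st k).2
  have hL : ∀ k, (st k).1 = (List.range k).map (fun l => ((g l).1, (g l).2)) := by
    intro k
    induction k with
    | zero => simp [hst0]
    | succ k ih =>
      rw [hsts, List.range_succ, List.map_append]
      simp only [List.map_cons, List.map_nil]
      rw [← ih]
  have hmono : ∀ k l, k ≤ l → (st k).2 ≤ (st l).2 := by
    intro k l hkl
    induction l, hkl using Nat.le_induction with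
    | base => exact le_rfl
    | succ l _ ih => rw [hsts]; exact le_trans ih (le_max_left _ _)
  have hg : ∀ k, Valid (g k).1 ∧ (st k).2 ≤ (g k).1.lo ∧ (g k).1.cls = some (cod j (st k).1) ∧
      (∀ n ∈ (g k).2.support, (g k).1.lo ≤ n ∧ n < (g k).1.hi) ∧ Q k (g k).2 (g k).1 :=
    fun k => hZ k (st k).1 (st k).2
  refine ⟨fun k => (g k).1, fun k => (g k).2, ?_, ?_⟩
  · intro k
    obtain ⟨a1, a2, a3, a4, a5⟩ := hg k
    refine ⟨a1, le_trans (by simpa [hst0] using hmono 0 k (Nat.zero_le _)) a2, ?_, a4, a5⟩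
    rw [seq_pre (fun l => (g l).1) (fun l => (g l).2) k k.2.le, ← hL]
    exact a3
  · intro k l hkl
    have h1 : (g k).1.hi ≤ (st (k + 1)).2 := by rw [hsts]; exact le_max_right _ _
    have h2 := hmono (k + 1) l hkl
    exact le_trans h1 (le_trans h2 (hg l).2.1)

/-- the full special node of a special sequence -/
theorem spec_node (j : ℕ) (hj : Odd j) (f : Fin (nn j) → Tr) (v : Fin (nn j) → (ℕ →₀ ℚ)) (p q : ℕ)
    (h1 : ∀ k, Valid (f k) ∧ (f k).cls = some (cod j (pre f v k)) ∧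
        (∀ n ∈ (v k).support, (f k).lo ≤ n ∧ n < (f k).hi) ∧ p ≤ (f k).lo ∧ (f k).hi ≤ q)
    (h2 : ∀ k l, k < l → (f k).hi ≤ (f l).lo) :
    Valid (.node ⟨p, q, j, nn j, rr j, fun _ => (1 / 2) ^ rr j, v⟩ f) := by
  refine valid_node.2 ⟨fun k => (h1 k).1, ?_⟩
  have hne : ((1 : ℚ) / 2) ^ rr j ≠ 0 := pow_ne_zero _ (by norm_num)
  refine ⟨?_, le_rfl, ?_, h2, fun k _ => (h1 k).2.2.2, fun _ => le_rfl, fun _ _ => Or.inr rfl,
    fun _ _ _ _ _ _ _ _ => hne, fun _ k => (h1 k).2.1, fun _ k => (h1 k).2.2.1⟩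
  · have h3 := h1 ⟨0, nn_pos j⟩
    have h4 := seq_lt h3.1
    have h5 := h3.2.2.2
    show p < q
    omega
  · show ∑ _k : Fin (nn j), (((1 : ℚ) / 2) ^ rr j) ^ 2 ≤ 1
    rw [Finset.sum_const, Finset.card_univ, Fintype.card_fin, nsmul_eq_mul, nn_eq, ← pow_mul,
      Nat.cast_pow, mul_comm (rr j) 2, pow_mul, ← mul_pow]
    norm_num

end Pool.Agent.Helper60.HD
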