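import Pool.Agent.Helper60.HD.Bas

/-!
# Interleaving and the symplectic form
-/

set_option autoImplicit false

namespace Pool.Agent.Helper60.HD

lemma xs_apply (z : ℕ →₀ ℝ) (n : ℕ) : xs z n = z (2 * n) := rfl

lemma ys_apply (z : ℕ →₀ ℝ) (n : ℕ) : ys z n = z (2 * n + 1) := rfl

lemma Ilv_jn_even (x y : ℕ →₀ ℝ) (n : ℕ) : jn x y (2 * n) = x n := by
  unfold jn
  rw [Finsupp.add_apply, Finsupp.mapDomain_apply (f := fun n => 2 * n) (fun a b h => by simpa using h) x n,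
    Finsupp.mapDomain_notin_range, add_zero]
  rintro ⟨k, hk⟩
  simp only at hk
  omega

lemma Ilv_jn_odd (x y : ℕ →₀ ℝ) (n : ℕ) : jn x y (2 * n + 1) = y n := by
  unfold jn
  rw [Finsupp.add_apply,
    Finsupp.mapDomain_apply (f := fun n => 2 * n + 1) (fun a b h => by simpa using h) y n,
    Finsupp.mapDomain_notin_range, zero_add]
  rintro ⟨k, hk⟩
  simp only at hk
  omega

lemma Ilv_ext {z z' : ℕ →₀ ℝ} (h1 : ∀ n, z (2 * n) = z' (2 * n))
    (h2 : ∀ n, z (2 * n + 1) = z' (2 * n + 1)) : z = z' := by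
  ext k
  rcases Nat.even_or_odd' k with ⟨n, rfl | rfl⟩
  · exact h1 n
  · exact h2 n

lemma xs_jn (x y : ℕ →₀ ℝ) : xs (jn x y) = x := by
  ext n
  rw [xs_apply, Ilv_jn_even]

lemma ys_jn (x y : ℕ →₀ ℝ) : ys (jn x y) = y := by
  ext n
  rw [ys_apply, Ilv_jn_odd]

lemma jn_xs_ys (z : ℕ →₀ ℝ) : jn (xs z) (ys z) = z := by
  refine Ilv_ext (fun n => ?_) (fun n => ?_)
  · rw [Ilv_jn_even, xs_apply]
  · rw [Ilv_jn_odd, ys_apply]

lemma jn_add (x y x' y' : ℕ →₀ ℝ) : jn (x + x') (y + y') = jn x y + jn x' y' := by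
  refine Ilv_ext (fun n => ?_) (fun n => ?_)
  · rw [Finsupp.add_apply, Ilv_jn_even, Ilv_jn_even, Ilv_jn_even, Finsupp.add_apply]
  · rw [Finsupp.add_apply, Ilv_jn_odd, Ilv_jn_odd, Ilv_jn_odd, Finsupp.add_apply]

lemma jn_smul (c : ℝ) (x y : ℕ →₀ ℝ) : jn (c • x) (c • y) = c • jn x y := by
  refine Ilv_ext (fun n => ?_) (fun n => ?_)
  · rw [Finsupp.smul_apply, Ilv_jn_even, Ilv_jn_even, Finsupp.smul_apply]
  · rw [Finsupp.smul_apply, Ilv_jn_odd, Ilv_jn_odd, Finsupp.smul_apply]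

lemma w_add_left (z z' z'' : ℕ →₀ ℝ) : w (z + z') z'' = w z z'' + w z' z'' := by
  unfold w
  simp only [map_add, LinearMap.add_apply]
  ring

lemma w_smul_left (c : ℝ) (z z' : ℕ →₀ ℝ) : w (c • z) z' = c * w z z' := by
  unfold w
  simp only [map_smul, LinearMap.smul_apply, smul_eq_mul]
  ring

lemma w_anti (z z' : ℕ →₀ ℝ) : w z' z = - w z z' := by
  unfold w
  ring

/-- `w` and restrictions -/
lemma w_ct (a b : ℕ) (z z' : ℕ →₀ ℝ) : w (ct (2 * a) (2 * b) z) z' = w z (ct (2 * a) (2 * b) z') := by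
  have hx : ∀ z : ℕ →₀ ℝ, xs (ct (2 * a) (2 * b) z) = ct a b (xs z) := by
    intro z
    ext n
    rw [xs_apply, ct_apply, ct_apply, xs_apply]
    refine if_congr ?_ rfl rfl
    omega
  have hy : ∀ z : ℕ →₀ ℝ, ys (ct (2 * a) (2 * b) z) = ct a b (ys z) := by
    intro z
    ext n
    rw [ys_apply, ct_apply, ct_apply, ys_apply]
    refine if_congr ?_ rfl rfl
    omega
  unfold w
  rw [hx, hx, hy, hy, ip_ct, ip_ct]

end Pool.Agent.Helper60.HD
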