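import Pool.Agent.Helper60.HD.JamV
import Pool.Agent.Helper60.HD.Ilv

/-!
# James type arguments in V and in its dual
-/

set_option autoImplicit false

namespace Pool.Agent.Helper60.HD

open Finset

lemma JamD_num (L : ℕ) {u : ℝ} (hu : 0 < u) :
    (u ^ 2) ^ L * ((2 * u)⁻¹ ^ L) ^ 2 = (((2 : ℝ) ^ L)⁻¹) ^ 2 := by
  have h1 : ∀ a : ℝ, (a ^ L) ^ 2 = (a ^ 2) ^ L := fun a => by rw [← pow_mul, ← pow_mul, mul_comm]
  rw [← inv_pow, h1 (2 : ℝ)⁻¹, h1 (2 * u)⁻¹, ← mul_pow]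
  congr 1
  field_simp

theorem james_D (P : Submodule ℝ (ℕ →₀ ℝ)) (hP : Far P) (hinj : ∀ z ∈ P, z ≠ 0 → ys z ≠ 0) (l M : ℕ) :
    ∃ (z : ℕ → (ℕ →₀ ℝ)) (s : ℕ → ℕ), StrictMono s ∧ M ≤ s 0 ∧
      (∀ k < nn l, z k ∈ P ∧ nD (ys (z k)) = 1 ∧ ∀ n, z k n ≠ 0 → 2 * s k ≤ n ∧ n < 2 * s (k + 1)) ∧
      nD (∑ k ∈ range (nn l), ys (z k)) ≤ 2 * 2 ^ rr l := by
  by_contra hcon
  push Not at hcon
  set R : ℝ := 2 * (2 : ℝ) ^ rr l with hR
  have hRpos : 0 < R := by positivity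
  obtain ⟨i, L, hi, hL, hNL⟩ := JamV_par l
  obtain ⟨b, B, hB, hlen, -, hsum, hmem⟩ := JamV_list P hP 2 (nn l) M two_pos (nn_pos l)
    (fun z => nD (ys z)) (fun c x => by simp only [map_smul, nD_smul])
    (fun x hx hx0 => nD_pos (hinj x hx hx0)) (fun c => R < c) (fun t x => nD (ys x) ≤ (R⁻¹) ^ t)
    (by
      intro x s hs hM hx
      simp only [map_sum]
      exact hcon x s hs hM hx)
    (by
      intro x hx
      rw [hx, pow_zero])
    (by
      intro t x c hc hcR hx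
      simp only [map_smul]
      rw [nD_smul, abs_of_pos (inv_pos.2 hc), pow_succ, mul_comm]
      refine mul_le_mul hx ?_ (by positivity) (by positivity)
      exact inv_anti₀ hRpos hcR.le) L M le_rfl
  have hsuc : Suc M b (B.map ys) := by
    clear hlen hsum hmem
    generalize M = a at hB
    induction B generalizing a with
    | nil => exact hB
    | cons x B ih =>
      obtain ⟨c, h1, h2, h3⟩ := hB
      refine ⟨c, h1, fun n hn => ?_, ih _ h3⟩
      rw [ys_apply] at hn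
      have := h2 _ hn
      omega
  have hup := nD_up i hi (B.map ys) M b hsuc (by rw [List.length_map, hlen]; exact hNL)
  have hsum' : nD (B.map ys).sum = 1 := by
    rw [← hsum, ← map_list_sum]
  rw [hsum', List.map_map] at hup
  have hsq : (B.map ((fun x => nD x ^ 2) ∘ ys)).sum ≤ (((2 : ℝ) ^ L)⁻¹) ^ 2 := by
    have h1 : ∀ (B : List (ℕ →₀ ℝ)), (∀ x ∈ B, nD (ys x) ≤ (R⁻¹) ^ L) →
        (B.map ((fun x => nD x ^ 2) ∘ ys)).sum ≤ (B.length : ℝ) * ((R⁻¹) ^ L) ^ 2 := by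
      intro B hB
      induction B with
      | nil => simp
      | cons x B ih =>
        rw [List.map_cons, List.sum_cons, List.length_cons]
        have h2 := ih fun y hy => hB y (List.mem_cons_of_mem _ hy)
        have h3 : nD (ys x) ^ 2 ≤ ((R⁻¹) ^ L) ^ 2 :=
          pow_le_pow_left₀ (nD_nonneg _) (hB x List.mem_cons_self) 2
        simp only [Function.comp_apply]
        push_cast
        linarith
    refine (h1 B hmem).trans (le_of_eq ?_)
    rw [hlen, hR, Nat.cast_pow, nn_cast]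
    exact JamD_num L (by positivity)
  have h4 : √((B.map ((fun x => nD x ^ 2) ∘ ys)).sum) ≤ ((2 : ℝ) ^ L)⁻¹ := by
    rw [← Real.sqrt_sq (show 0 ≤ ((2 : ℝ) ^ L)⁻¹ by positivity)]
    exact Real.sqrt_le_sqrt hsq
  have h5 : (0 : ℝ) < m i := by
    have := m_ge i
    exact_mod_cast (by omega : 0 < m i)
  rw [hL] at h4
  have h6 : 2 * (m i : ℝ) * √((B.map ((fun x => nD x ^ 2) ∘ ys)).sum) ≤ 2 * (m i : ℝ) * (4 * (m i : ℝ))⁻¹ :=
    mul_le_mul_of_nonneg_left h4 (by positivity)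
  have h7 : 2 * (m i : ℝ) * (4 * (m i : ℝ))⁻¹ = 1 / 2 := by
    field_simp
    norm_num
  linarith

end Pool.Agent.Helper60.HD
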