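import Pool.Agent.Helper60.HD.Src0
import Pool.Agent.Helper60.HD.JamD

/-!
# Sources of averages
-/

set_option autoImplicit false

namespace Pool.Agent.Helper60.HD

open Finset in
lemma SrcD_sum_supp (N : ℕ) (x : ℕ → (ℕ →₀ ℝ)) (s : ℕ → ℕ) (hs : StrictMono s) (c : ℕ)
    (hx : ∀ k < N, ∀ n, x k n ≠ 0 → c * s k ≤ n ∧ n < c * s (k + 1)) (n : ℕ)
    (hn : (∑ k ∈ range N, x k) n ≠ 0) : c * s 0 ≤ n ∧ n < c * s N := by
  rw [Finsupp.finsetSum_apply] at hn
  obtain ⟨k, hk, hk0⟩ := Finset.exists_ne_zero_of_sum_ne_zero hn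
  rw [Finset.mem_range] at hk
  obtain ⟨h1, h2⟩ := hx k hk n hk0
  have h3 : s 0 ≤ s k := hs.monotone (Nat.zero_le k)
  have h4 : s (k + 1) ≤ s N := hs.monotone hk
  exact ⟨(Nat.mul_le_mul_left c h3).trans h1, h2.trans_le (Nat.mul_le_mul_left c h4)⟩

open Finset in
theorem src_D (P : Submodule ℝ (ℕ →₀ ℝ)) (hP : Far P) (hinj : ∀ z ∈ P, z ≠ 0 → ys z ≠ 0) :
    Src fun _ T η => ∃ z ∈ P, (∀ n, z n ≠ 0 → 2 * T.lo ≤ n ∧ n < 2 * T.hi) ∧ l1 (ys z - yv T) ≤ η := by
  intro p l η hη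
  obtain ⟨z, s, hs, hM, hz, hD⟩ := james_D P hP hinj l p
  have hNpos : 0 < nn l := nn_pos l
  have hR : (0 : ℝ) < 2 ^ rr l := by positivity
  have hNR : (nn l : ℝ) = ((2 : ℝ) ^ rr l) ^ 2 := nn_cast l
  -- the functionals norming ys (z k)
  have hex : ∀ k, ∃ x' : ℕ →₀ ℝ, k < nn l → nV x' ≤ 1 ∧ 1 / 2 < ip x' (ys (z k)) := by
    intro k
    by_cases hk : k < nn l
    · obtain ⟨x', h1, h2⟩ := exists_nD (y := ys (z k)) (c := 1 / 2) (by rw [(hz k hk).2.1]; norm_num)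
      exact ⟨x', fun _ => ⟨h1, h2⟩⟩
    · exact ⟨0, fun h => absurd h hk⟩
  choose x' hx' using hex
  have hysupp : ∀ k < nn l, ∀ n, ys (z k) n ≠ 0 → s k ≤ n ∧ n < s (k + 1) := by
    intro k hk n hn
    rw [ys_apply] at hn
    have := (hz k hk).2.2 _ hn
    omega
  set X : ℕ → (ℕ →₀ ℝ) := fun k => ct (s k) (s (k + 1)) (x' k) with hXdef
  have hXsupp : ∀ k < nn l, ∀ n, X k n ≠ 0 → s k ≤ n ∧ n < s (k + 1) := by
    intro k _ n hn
    simp only [hXdef, ct_apply] at hn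
    by_contra hcon
    rw [if_neg hcon] at hn
    exact hn rfl
  have hXn : ∀ k < nn l, nV (X k) ≤ 1 := fun k hk => (nV_ct _ _ _).trans (hx' k hk).1
  have hXip : ∀ k < nn l, 1 / 2 < ip (X k) (ys (z k)) := by
    intro k hk
    simp only [hXdef]
    rw [ip_ct, ct_self (hysupp k hk)]
    exact (hx' k hk).2
  have hXdisj : ∀ k < nn l, ∀ j < nn l, j ≠ k → ip (X k) (ys (z j)) = 0 := by
    intro k hk j hj hjk
    refine ip_disj fun n h1 h2 => ?_
    have a1 := hXsupp k hk n h1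
    have a2 := hysupp j hj n h2
    rcases lt_or_gt_of_ne hjk with h | h
    · have := hs.monotone (show j + 1 ≤ k from h)
      omega
    · have := hs.monotone (show k + 1 ≤ j from h)
      omega
  set x0 : ℕ →₀ ℝ := (1 / 2 ^ rr l : ℝ) • ∑ k ∈ range (nn l), X k with hx0
  set y : ℕ →₀ ℝ := (1 / 2 ^ rr l : ℝ) • ∑ k ∈ range (nn l), ys (z k) with hy
  have hnx0 : nV x0 ≤ 4 := by
    rw [hx0, nV_smul, abs_of_nonneg (by positivity)]
    have h1 := nV_up (nn l) X s hs hXsupp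
    have h2 : √(∑ k ∈ range (nn l), nV (X k) ^ 2) ≤ 2 ^ rr l := by
      rw [Real.sqrt_le_left hR.le, ← hNR]
      calc ∑ k ∈ range (nn l), nV (X k) ^ 2 ≤ ∑ k ∈ range (nn l), (1 : ℝ) := by
            refine Finset.sum_le_sum fun k hk => ?_
            have := hXn k (Finset.mem_range.mp hk)
            have h0 := nV_nonneg (X k)
            nlinarith
        _ = nn l := by simp
    calc 1 / 2 ^ rr l * nV (∑ k ∈ range (nn l), X k) ≤ 1 / 2 ^ rr l * (4 * 2 ^ rr l) := by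
          refine mul_le_mul_of_nonneg_left (h1.trans ?_) (by positivity)
          linarith
      _ = 4 := by field_simp
  have hny : nD y ≤ 2 := by
    rw [hy, nD_smul, abs_of_nonneg (by positivity)]
    calc 1 / 2 ^ rr l * nD (∑ k ∈ range (nn l), ys (z k)) ≤ 1 / 2 ^ rr l * (2 * 2 ^ rr l) :=
          mul_le_mul_of_nonneg_left hD (by positivity)
      _ = 2 := by field_simp
  have hip : 1 / 2 ≤ ip x0 y := by
    have e1 : ip x0 y = (1 / 2 ^ rr l : ℝ) * ((1 / 2 ^ rr l : ℝ) *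
        ∑ k ∈ range (nn l), ip (X k) (ys (z k))) := by
      rw [hx0, hy]
      simp only [map_smul, LinearMap.smul_apply, smul_eq_mul]
      rw [map_sum]
      congr 2
      refine Finset.sum_congr rfl fun j hj => ?_
      rw [map_sum, LinearMap.sum_apply]
      refine Finset.sum_eq_single_of_mem j hj fun k hk hkj => ?_
      exact hXdisj k (Finset.mem_range.mp hk) j (Finset.mem_range.mp hj) hkj.symm
    have e2 : (nn l : ℝ) * (1 / 2) ≤ ∑ k ∈ range (nn l), ip (X k) (ys (z k)) := by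
      calc (nn l : ℝ) * (1 / 2) = ∑ k ∈ range (nn l), (1 / 2 : ℝ) := by simp
        _ ≤ _ := Finset.sum_le_sum fun k hk => (hXip k (Finset.mem_range.mp hk)).le
    rw [e1]
    calc (1 / 2 : ℝ) = 1 / 2 ^ rr l * (1 / 2 ^ rr l * ((nn l : ℝ) * (1 / 2))) := by
          rw [hNR]; field_simp
      _ ≤ _ := mul_le_mul_of_nonneg_left (mul_le_mul_of_nonneg_left e2 (by positivity)) (by positivity)
  -- the tree
  have hlt : s 0 < s (nn l) := hs hNpos
  have hysup0 : ∀ n, y n ≠ 0 → s 0 ≤ n ∧ n < s (nn l) := by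
    intro n hn
    rw [hy, Finsupp.smul_apply, smul_eq_mul] at hn
    have h1 := SrcD_sum_supp (nn l) (fun k => ys (z k)) s hs 1
      (fun k hk n hn => by simpa using hysupp k hk n hn) n (right_ne_zero_of_mul hn)
    simpa using h1
  obtain ⟨T, hT, hTlo, hThi, hTl⟩ := nD_tree (s 0) (s (nn l)) hlt y hysup0 2 (by norm_num) hny
    (min η (1 / 16)) (lt_min hη (by norm_num))
  have e22 : (2 * 2 : ℝ) = 4 := by norm_num
  rw [e22] at hTl
  have hTl1 : l1 (y - (4 : ℝ) • yv T) ≤ η := hTl.trans (min_le_left _ _)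
  have hTl2 : l1 (y - (4 : ℝ) • yv T) ≤ 1 / 16 := hTl.trans (min_le_right _ _)
  set ρ : ℝ := ip x0 (yv T) with hρ
  have hρ16 : 1 / 16 ≤ ρ := by
    have e1 : ip x0 y = ip x0 (y - (4 : ℝ) • yv T) + 4 * ρ := by
      have e5 : ip x0 ((4 : ℝ) • yv T) = 4 * ρ := by rw [map_smul, smul_eq_mul]
      rw [map_sub, e5]
      ring
    have e2 : |ip x0 (y - (4 : ℝ) • yv T)| ≤ 4 * l1 (y - (4 : ℝ) • yv T) := by
      rw [ip_comm]
      exact ip_le_l1 fun k => (nV_coord x0 k).trans hnx0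
    have e3 := le_abs_self (ip x0 (y - (4 : ℝ) • yv T))
    linarith
  have hρ0 : 0 < ρ := by linarith
  obtain ⟨x, hxs, hxl⟩ := exists_rv ((1 / ρ) • x0) (min η 1) (lt_min hη one_pos)
  have hxl1 : l1 (rv x - (1 / ρ) • x0) ≤ η := hxl.trans (min_le_left _ _)
  have hxl2 : l1 (rv x - (1 / ρ) • x0) ≤ 1 := hxl.trans (min_le_right _ _)
  have hρinv : 1 / ρ ≤ 16 := by
    rw [div_le_iff₀ hρ0]; linarith
  have hρinv0 : 0 ≤ 1 / ρ := by positivity
  refine ⟨x, T, hT, hTlo ▸ hM, ?_, ?_, ?_, ?_, ?_⟩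
  · intro n hn
    have h1 := hxs n hn
    rw [Finsupp.smul_apply, smul_eq_mul] at h1
    have h2 := right_ne_zero_of_mul h1
    rw [hx0, Finsupp.smul_apply, smul_eq_mul] at h2
    have h3 := SrcD_sum_supp (nn l) X s hs 1
      (fun k hk n hn => by simpa using hXsupp k hk n hn) n (right_ne_zero_of_mul h2)
    rw [hTlo, hThi]
    simpa using h3
  · have e1 : ip (rv x) (yv T) - 1 = ip (rv x - (1 / ρ) • x0) (yv T) := by
      rw [map_sub, LinearMap.sub_apply, map_smul, LinearMap.smul_apply, smul_eq_mul, ← hρ]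
      congr 1
      field_simp
    rw [e1]
    have := ip_le_l1 (x := rv x - (1 / ρ) • x0) (yv_le_one hT)
    linarith
  · have e1 : rv x = (rv x - (1 / ρ) • x0) + (1 / ρ) • x0 := by abel
    rw [e1]
    have e2 := nV_add (rv x - (1 / ρ) • x0) ((1 / ρ) • x0)
    have e3 := nV_le_l1 (rv x - (1 / ρ) • x0)
    have e4 : nV ((1 / ρ) • x0) ≤ 16 * 4 := by
      rw [nV_smul, abs_of_nonneg hρinv0]
      exact mul_le_mul hρinv hnx0 (nV_nonneg _) (by norm_num)
    linarith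
  · intro a b U i hU hi hil
    have hmi : (0 : ℝ) < m i := by
      have := m_ge i
      exact_mod_cast (by omega : 0 < m i)
    have e0 : ip (ct a b (rv x)) (yv U) = ip (ct a b (rv x - (1 / ρ) • x0)) (yv U) +
        1 / ρ * ip (ct a b x0) (yv U) := by
      rw [map_sub, map_smul, map_sub, map_smul, LinearMap.sub_apply, LinearMap.smul_apply, smul_eq_mul]
      ring
    have e1 : |ip (ct a b (rv x - (1 / ρ) • x0)) (yv U)| ≤ 1 / m i * 1 := by
      refine (ip_le_l1 (yv_cls hU hi)).trans ?_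
      exact mul_le_mul_of_nonneg_left ((l1_ct _ _ _).trans hxl2) (by positivity)
    have e2 : |ip (ct a b x0) (yv U)| ≤ 8 / m i :=
      avg_cls l X s hs hXsupp hXn U hU i hi hil a b
    have e3 : |1 / ρ * ip (ct a b x0) (yv U)| ≤ 16 * (8 / m i) := by
      rw [abs_mul, abs_of_nonneg hρinv0]
      exact mul_le_mul hρinv e2 (abs_nonneg _) (by norm_num)
    rw [e0]
    calc |ip (ct a b (rv x - (1 / ρ) • x0)) (yv U) + 1 / ρ * ip (ct a b x0) (yv U)|
        ≤ |ip (ct a b (rv x - (1 / ρ) • x0)) (yv U)| + |1 / ρ * ip (ct a b x0) (yv U)| := abs_add_le _ _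
      _ ≤ 1 / m i * 1 + 16 * (8 / m i) := add_le_add e1 e3
      _ = 129 / m i := by ring
      _ ≤ 256 / m i := by gcongr; norm_num
  · refine ⟨(1 / 4 : ℝ) • (1 / 2 ^ rr l : ℝ) • ∑ k ∈ range (nn l), z k, ?_, ?_, ?_⟩
    · refine P.smul_mem _ (P.smul_mem _ (P.sum_mem fun k hk => ?_))
      exact (hz k (Finset.mem_range.mp hk)).1
    · intro n hn
      rw [Finsupp.smul_apply, smul_eq_mul, Finsupp.smul_apply, smul_eq_mul] at hn
      have h1 := SrcD_sum_supp (nn l) z s hs 2 (fun k hk => (hz k hk).2.2) n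
        (right_ne_zero_of_mul (right_ne_zero_of_mul hn))
      rw [hTlo, hThi]
      exact h1
    · have e1 : ys ((1 / 4 : ℝ) • (1 / 2 ^ rr l : ℝ) • ∑ k ∈ range (nn l), z k) = (1 / 4 : ℝ) • y := by
        rw [map_smul, map_smul, map_sum, hy]
      have e2 : (1 / 4 : ℝ) • y - yv T = (1 / 4 : ℝ) • (y - (4 : ℝ) • yv T) := by
        have e6 : (1 / 4 * 4 : ℝ) = 1 := by norm_num
        rw [smul_sub, smul_smul (1 / 4 : ℝ) 4 (yv T), e6, one_smul]
      rw [e1, e2, l1_smul, abs_of_nonneg (by norm_num : (0 : ℝ) ≤ 1 / 4)]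
      have := l1_nonneg (y - (4 : ℝ) • yv T)
      linarith

end Pool.Agent.Helper60.HD
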