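import Pool.Agent.Helper60.HD.Dec
import Pool.Agent.Helper60.HD.Ex1
import Pool.Agent.Helper60.HD.SrcD
import Pool.Agent.Helper60.HD.Seq

/-!
# The quotient map is strictly singular
-/

set_option autoImplicit false

namespace Pool.Agent.Helper60.HD

lemma det_jn_sub (x y x' y' : ℕ →₀ ℝ) : jn (x - x') (y - y') = jn x y - jn x' y' := by
  rw [eq_sub_iff_add_eq, ← jn_add, sub_add_cancel, sub_add_cancel]

lemma det_l1_jn (e : ℕ →₀ ℝ) : l1 (jn 0 e) ≤ l1 e := by
  have h0 : ∀ n, jn 0 e (2 * n) = 0 := fun n => by rw [← xs_apply, xs_jn]; rfl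
  have h1 : ∀ n, jn 0 e (2 * n + 1) = e n := fun n => by rw [← ys_apply, ys_jn]
  have hsub : (jn 0 e).support ⊆ e.support.image (fun n => 2 * n + 1) := by
    intro k hk
    rw [Finsupp.mem_support_iff] at hk
    rw [Finset.mem_image]
    rcases Nat.even_or_odd' k with ⟨n, hn | hn⟩
    · rw [hn, h0] at hk
      exact absurd rfl hk
    · refine ⟨n, ?_, hn.symm⟩
      rw [Finsupp.mem_support_iff]
      rw [hn, h1] at hk
      exact hk
  rw [l1_eq _ _ hsub, Finset.sum_image (by intro a _ b _ h; simpa using h)]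
  rw [l1]
  exact le_of_eq (Finset.sum_congr rfl fun n _ => by rw [h1])

lemma det_m_one (j : ℕ) : (1 : ℝ) ≤ m j := by
  have := m_ge j
  exact_mod_cast (by omega : 1 ≤ m j)

open Finset in
theorem det_pair (P' : Submodule ℝ (ℕ →₀ ℝ))
    (hQ : Src fun _ T η => ∃ z ∈ P', (∀ n, z n ≠ 0 → 2 * T.lo ≤ n ∧ n < 2 * T.hi) ∧
      l1 (ys z - yv T) ≤ η)
    (c : ℕ) (hc : Even c) (p : ℕ) (η : ℝ) (hη : 0 < η) :
    ∃ (v : ℕ →₀ ℚ) (T : Tr), Valid T ∧ p ≤ T.lo ∧ T.cls = some c ∧
      (∀ n ∈ v.support, T.lo ≤ n ∧ n < T.hi) ∧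
      (GoodC v T ∧ |ip (rv v) (yv T) - 1| ≤ 1 / 2 ∧
        ∃ z ∈ P', (∀ n, z n ≠ 0 → 2 * T.lo ≤ n ∧ n < 2 * T.hi) ∧ l1 (ys z - yv T) ≤ η) := by
  have h2r : (0 : ℝ) < 2 ^ rr c := by positivity
  have hm1 := det_m_one c
  have hm0 : (0 : ℝ) < m c := by linarith
  set η' : ℝ := min (1 / 2) (η / 2 ^ rr c) with hη'
  have hη'0 : 0 < η' := lt_min (by norm_num) (by positivity)
  obtain ⟨x, g, v, T, hT, hp, hcls, hsupp, hgood, h1, -, hyT, hk⟩ :=
    exact_pair _ hQ c hc p η' hη'0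
  refine ⟨v, T, hT, hp, hcls, hsupp, ⟨c, hcls, hgood⟩, h1.trans (min_le_left _ _), ?_⟩
  have hz : ∀ k, ∃ z ∈ P', k < nn c → (∀ n, z n ≠ 0 → 2 * T.lo ≤ n ∧ n < 2 * T.hi) ∧
      l1 (ys z - yv (g k)) ≤ η' := by
    intro k
    by_cases hkc : k < nn c
    · obtain ⟨⟨z, hz, hz1, hz2⟩, hlo, hhi⟩ := hk k hkc
      refine ⟨z, hz, fun _ => ⟨fun n hn => ?_, hz2⟩⟩
      have := hz1 n hn
      omega
    · exact ⟨0, P'.zero_mem, fun h => absurd h hkc⟩
  choose z hzP hz using hz
  refine ⟨(1 / ((m c : ℝ) * 2 ^ rr c)) • ∑ k ∈ range (nn c), z k,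
    P'.smul_mem _ (P'.sum_mem fun k _ => hzP k), ?_, ?_⟩
  · intro n hn
    have : ∃ k ∈ range (nn c), z k n ≠ 0 := by
      by_contra hcon
      push Not at hcon
      apply hn
      rw [Finsupp.smul_apply, Finsupp.finsetSum_apply, Finset.sum_eq_zero hcon, smul_zero]
    obtain ⟨k, hk1, hk2⟩ := this
    exact (hz k (mem_range.mp hk1)).1 n hk2
  · have e1 : ys ((1 / ((m c : ℝ) * 2 ^ rr c)) • ∑ k ∈ range (nn c), z k) - yv T =
        (1 / ((m c : ℝ) * 2 ^ rr c)) • ∑ k ∈ range (nn c), (ys (z k) - yv (g k)) := by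
      rw [hyT, map_smul, map_sum, ← smul_sub, ← sum_sub_distrib]
    rw [e1, l1_smul, abs_of_pos (by positivity)]
    have e2 : l1 (∑ k ∈ range (nn c), (ys (z k) - yv (g k))) ≤ (nn c : ℝ) * η' := by
      refine (l1_sum _ _).trans ?_
      refine (sum_le_sum fun k hk => (hz k (mem_range.mp hk)).2).trans ?_
      rw [sum_const, card_range, nsmul_eq_mul]
    have e3 : η' * 2 ^ rr c ≤ η := by
      have := min_le_right (1 / 2) (η / 2 ^ rr c)
      rw [← hη', le_div_iff₀ h2r] at this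
      exact this
    calc 1 / ((m c : ℝ) * 2 ^ rr c) * l1 (∑ k ∈ range (nn c), (ys (z k) - yv (g k)))
        ≤ 1 / ((m c : ℝ) * 2 ^ rr c) * ((nn c : ℝ) * η') := by gcongr
      _ = (η' * 2 ^ rr c) / m c := by
        rw [nn_cast]
        field_simp
      _ ≤ (η' * 2 ^ rr c) / 1 := by
        apply div_le_div_of_nonneg_left (by positivity) one_pos hm1
      _ ≤ η := by rw [div_one]; exact e3

open Finset in
theorem det (P : Submodule ℝ (ℕ →₀ ℝ)) (hP : Far P) (δ : ℝ) (hδ : 0 < δ) (M : ℕ) :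
    ∃ g ∈ P, g ≠ 0 ∧ (∀ n, g n ≠ 0 → M ≤ n) ∧ nD (ys g) ≤ δ * nN g := by
  classical
  by_contra hcon
  push Not at hcon
  -- the subspace of vectors of `P` supported beyond `M`
  set P' : Submodule ℝ (ℕ →₀ ℝ) := P ⊓ Finsupp.supported ℝ ℝ (Set.Ici M) with hP'
  have hmem : ∀ z, z ∈ P' ↔ z ∈ P ∧ ∀ n, z n ≠ 0 → M ≤ n := by
    intro z
    rw [hP', Submodule.mem_inf, Finsupp.mem_supported]
    constructor
    · rintro ⟨h1, h2⟩
      exact ⟨h1, fun n hn => h2 (Finsupp.mem_support_iff.mpr hn)⟩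
    · rintro ⟨h1, h2⟩
      exact ⟨h1, fun n hn => h2 n (Finsupp.mem_support_iff.mp hn)⟩
  have hlow : ∀ z ∈ P', δ * nN z ≤ nD (ys z) := by
    intro z hz
    by_cases h0 : z = 0
    · have h1 : nN z = 0 := by
        have := nN_smul 0 z
        rw [zero_smul, abs_zero, zero_mul] at this
        rw [h0]; exact this
      rw [h1, mul_zero]
      exact nD_nonneg _
    · exact (hcon z ((hmem z).mp hz).1 h0 ((hmem z).mp hz).2).le
  have hfar : Far P' := by
    intro M'
    obtain ⟨z, hz, h0, h1⟩ := hP (max M M')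
    exact ⟨z, (hmem z).mpr ⟨hz, fun n hn => (le_max_left _ _).trans (h1 n hn)⟩, h0,
      fun n hn => (le_max_right _ _).trans (h1 n hn)⟩
  have hinj : ∀ z ∈ P', z ≠ 0 → ys z ≠ 0 := by
    intro z hz h0 h1
    have h2 := hcon z ((hmem z).mp hz).1 h0 ((hmem z).mp hz).2
    have h3 : nD (ys z) = 0 := by
      have := nD_smul 0 (ys z)
      rw [zero_smul, abs_zero, zero_mul] at this
      rw [h1]; exact this
    have h4 := nN_pos h0
    rw [h3] at h2
    have : 0 < δ * nN z := mul_pos hδ h4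
    linarith
  have hsrc := src_D P' hfar hinj
  obtain ⟨Ct, hCt1, hCt⟩ := nN_tr
  obtain ⟨Cl, hCl1, hCl⟩ := nN_l1
  set H : ℝ := 2 / δ + Ct + 1 with hH
  have hδ2 : 0 < 2 / δ := by positivity
  have hH0 : 0 < H := by linarith
  obtain ⟨j, hjodd, hjbig⟩ := exists_odd (2 * (4 * H + 1 + Ct + 2 / δ) + 1)
  set μ : ℝ := (m j : ℝ) with hμ
  have hμ1 : 1 ≤ μ := det_m_one j
  have hμ0 : 0 < μ := by linarith
  set ρ : ℝ := (2 : ℝ) ^ rr j with hρ
  have hρ1 : 1 ≤ ρ := one_le_pow₀ (by norm_num)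
  have hρ0 : 0 < ρ := by linarith
  have hθ : ((1 : ℝ) / 2) ^ rr j = 1 / ρ := by rw [hρ, one_div, one_div, inv_pow]
  have hnn : (nn j : ℝ) = ρ ^ 2 := nn_cast j
  set η : ℝ := 1 / (Cl * ρ) with hη
  have hClρ : 1 ≤ Cl * ρ := one_le_mul_of_one_le_of_one_le hCl1 hρ1
  have hη0 : 0 < η := by positivity
  have hη1 : η ≤ 1 := by
    rw [hη, div_le_one (by positivity)]; exact hClρ
  have hClη : Cl * (ρ * η) ≤ 1 := by
    rw [hη]; apply le_of_eq; field_simp
  have hClη' : Cl * η ≤ 1 := by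
    have : Cl * η ≤ Cl * (ρ * η) := by
      apply mul_le_mul_of_nonneg_left _ (by linarith)
      nlinarith
    linarith
  have hρη : ρ * η ≤ 1 := by
    have : ρ * η ≤ Cl * (ρ * η) := by
      have : 0 ≤ ρ * η := by positivity
      nlinarith
    linarith
  -- the special sequence
  obtain ⟨f, v, hfv, hsuc⟩ := spec_seq j (fun _ v T => GoodC v T ∧ |ip (rv v) (yv T) - 1| ≤ 1 / 2 ∧
        ∃ z ∈ P', (∀ n, z n ≠ 0 → 2 * T.lo ≤ n ∧ n < 2 * T.hi) ∧ l1 (ys z - yv T) ≤ η)
    (fun _ c p hc => det_pair P' hsrc c hc p η hη0) 0 (nn j)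
  have hval : ∀ k, Valid (f k) := fun k => (hfv k).1
  have hgood : ∀ k, GoodC (v k) (f k) := fun k => (hfv k).2.2.2.2.1
  have hip : ∀ k, |ip (rv (v k)) (yv (f k)) - 1| ≤ 1 / 2 := fun k => (hfv k).2.2.2.2.2.1
  have hvs : ∀ k, ∀ n ∈ (v k).support, (f k).lo ≤ n ∧ n < (f k).hi := fun k => (hfv k).2.2.2.1
  have hz : ∀ k, ∃ z ∈ P', (∀ n, z n ≠ 0 → 2 * (f k).lo ≤ n ∧ n < 2 * (f k).hi) ∧
      l1 (ys z - yv (f k)) ≤ η := fun k => (hfv k).2.2.2.2.2.2
  choose z hzP hzs hzl using hz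
  set q : ℕ := ∑ k, (f k).hi with hq
  have hhq : ∀ k, (f k).hi ≤ q := fun k =>
    Finset.single_le_sum (f := fun k => (f k).hi) (fun _ _ => Nat.zero_le _) (mem_univ k)
  set T : Tr := .node ⟨0, q, j, nn j, rr j, fun _ => (1 / 2) ^ rr j, v⟩ f with hT
  have hTv : Valid T := spec_node j hjodd f v 0 q
    (fun k => ⟨hval k, (hfv k).2.2.1, hvs k, Nat.zero_le _, hhq k⟩) hsuc
  have hyT : yv T = (1 / μ) • ∑ k, (1 / ρ) • yv (f k) := by
    rw [hT, yv]
    simp only [Rat.cast_pow, Rat.cast_div, Rat.cast_one, Rat.cast_ofNat]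
    rw [hθ]
  have huT : uv T = (1 / μ) • (∑ k, (1 / ρ) • uv (f k)) +
      (μ ^ 2) • ∑ k, (1 / ρ) • rv (v k) := by
    rw [hT, uv, if_pos hjodd, KP]
    simp only [Rat.cast_pow, Rat.cast_div, Rat.cast_one, Rat.cast_ofNat]
    rw [hθ, lam_rr]
    push_cast
    congr 2
    apply Finset.sum_congr rfl
    intro k _
    rw [if_pos (hgood k)]
  -- the vectors
  set Z : ℕ →₀ ℝ := (1 / ρ) • ∑ k, z k with hZ
  have hZP : Z ∈ P' := P'.smul_mem _ (P'.sum_mem fun k _ => hzP k)
  set h : Fin (nn j) → (ℕ →₀ ℝ) := fun k => xs (z k) - uv (f k) with hh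
  set e : Fin (nn j) → (ℕ →₀ ℝ) := fun k => ys (z k) - yv (f k) with he
  have hel : ∀ k, l1 (e k) ≤ η := hzl
  have hcard : (∑ _k : Fin (nn j), (1 : ℝ)) = ρ ^ 2 := by
    rw [sum_const, card_univ, Fintype.card_fin, nsmul_eq_mul, mul_one, hnn]
  -- bound for the second coordinates
  set E : ℕ →₀ ℝ := (1 / ρ) • ∑ k, e k with hE
  have hEl : l1 E ≤ ρ * η := by
    rw [hE, l1_smul, abs_of_pos (by positivity)]
    have : l1 (∑ k, e k) ≤ ρ ^ 2 * η := by
      refine (l1_sum _ _).trans ?_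
      refine (sum_le_sum fun k _ => hel k).trans ?_
      rw [← hcard, Finset.sum_mul]
      simp
    calc 1 / ρ * l1 (∑ k, e k) ≤ 1 / ρ * (ρ ^ 2 * η) := by gcongr
      _ = ρ * η := by field_simp
  have hYZ : ys Z - μ • yv T = E := by
    rw [hZ, hE, hyT, map_smul, map_sum, smul_smul, mul_one_div_cancel hμ0.ne', one_smul,
      ← Finset.smul_sum, ← smul_sub, ← sum_sub_distrib]
  -- bound for the first coordinates
  set A : ℕ →₀ ℝ := xs Z - μ • uv T with hA
  set V : ℕ →₀ ℝ := ∑ k, (1 / ρ) • rv (v k) with hV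
  have hA' : A = (1 / ρ) • (∑ k, h k) - μ ^ 3 • V := by
    have e1 : μ • ((1 / μ) • ∑ k, (1 / ρ) • uv (f k)) = (1 / ρ) • ∑ k, uv (f k) := by
      rw [smul_smul, mul_one_div_cancel hμ0.ne', one_smul, Finset.smul_sum]
    have e2 : μ • (μ ^ 2 • V) = μ ^ 3 • V := by
      rw [smul_smul]; congr 1; ring
    rw [hA, huT, smul_add, e1, e2, hZ, map_smul, map_sum, hh, sum_sub_distrib, smul_sub]
    abel
  have hjE : ∀ e' : ℕ →₀ ℝ, nN (jn 0 e') ≤ Cl * l1 e' := fun e' =>
    (hCl _).trans (mul_le_mul_of_nonneg_left (det_l1_jn e') (by linarith))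
  -- norms of z k
  have hnD_l1 : ∀ y : ℕ →₀ ℝ, nD y ≤ l1 y := nD_le_l1
  have hzN : ∀ k, nN (z k) ≤ 2 / δ := by
    intro k
    have h1 := hlow (z k) (hzP k)
    have h2 : nD (ys (z k)) ≤ 2 := by
      have e3 : ys (z k) = yv (f k) + e k := by rw [he]; simp
      rw [e3]
      have h3 := nD_add (yv (f k)) (e k)
      have h4 := nD_yv (hval k)
      have h5 := hnD_l1 (e k)
      have h6 := hel k
      linarith
    rw [le_div_iff₀ hδ]
    linarith
  have hhk : ∀ k, nV (h k) ≤ H := by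
    intro k
    have e3 : jn (h k) 0 = z k - jn (uv (f k)) (yv (f k)) - jn 0 (e k) := by
      have e4 : z k = jn (xs (z k)) (ys (z k)) := (jn_xs_ys _).symm
      conv_rhs => rw [e4]
      rw [← det_jn_sub, ← det_jn_sub]
      congr 1
      · rw [sub_zero]
      · rw [he]; simp
    rw [← nN_jn0, e3]
    have h1 : nN (z k - jn (uv (f k)) (yv (f k)) - jn 0 (e k)) ≤
        nN (z k) + nN (jn (uv (f k)) (yv (f k))) + nN (jn 0 (e k)) := by
      have hneg : ∀ x : ℕ →₀ ℝ, nN (-x) = nN x := by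
        intro x
        have := nN_smul (-1) x
        rw [neg_one_smul, abs_neg, abs_one, one_mul] at this
        exact this
      rw [sub_eq_add_neg, sub_eq_add_neg]
      have h2 := nN_add (z k + -jn (uv (f k)) (yv (f k))) (-jn 0 (e k))
      have h3 := nN_add (z k) (-jn (uv (f k)) (yv (f k)))
      rw [hneg] at h2 h3
      linarith
    have h2 := hzN k
    have h3 := hCt (f k) (hval k)
    have h4 := hjE (e k)
    have h5 : Cl * l1 (e k) ≤ Cl * η := mul_le_mul_of_nonneg_left (hel k) (by linarith)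
    rw [hH]
    linarith
  have hnVneg : ∀ x : ℕ →₀ ℝ, nV (-x) = nV x := by
    intro x
    have := nV_smul (-1) x
    rw [neg_one_smul, abs_neg, abs_one, one_mul] at this
    exact this
  have hNneg : ∀ x : ℕ →₀ ℝ, nN (-x) = nN x := by
    intro x
    have := nN_smul (-1) x
    rw [neg_one_smul, abs_neg, abs_one, one_mul] at this
    exact this
  -- the upper estimate for the sum of the h k
  have hsumh : nV (∑ k, h k) ≤ 4 * (ρ * H) := by
    set x : ℕ → (ℕ →₀ ℝ) := fun k => if hk : k < nn j then h ⟨k, hk⟩ else 0 with hx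
    set s : ℕ → ℕ := fun k => if hk : k < nn j then (f ⟨k, hk⟩).lo else q + k with hs
    have hxk : ∀ k : Fin (nn j), x k = h k := by
      intro k
      simp only [hx, k.2, dif_pos]
    have hsmono : StrictMono s := by
      apply strictMono_nat_of_lt_succ
      intro k
      simp only [hs]
      by_cases hk : k + 1 < nn j
      · have hk' : k < nn j := by omega
        rw [dif_pos hk', dif_pos hk]
        have h1 := lo_lt_hi (hval ⟨k, hk'⟩)
        have h2 := hsuc ⟨k, hk'⟩ ⟨k + 1, hk⟩ (by simp [Fin.lt_def])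
        omega
      · rw [dif_neg hk]
        by_cases hk' : k < nn j
        · rw [dif_pos hk']
          have h1 := lo_lt_hi (hval ⟨k, hk'⟩)
          have h2 := hhq ⟨k, hk'⟩
          omega
        · rw [dif_neg hk']
          omega
    have hxs : ∀ k < nn j, ∀ n, x k n ≠ 0 → s k ≤ n ∧ n < s (k + 1) := by
      intro k hk n hn
      have h1 : (f ⟨k, hk⟩).lo ≤ n ∧ n < (f ⟨k, hk⟩).hi := by
        simp only [hx, hk, dif_pos] at hn
        by_contra hcon2
        apply hn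
        rw [hh]
        simp only
        rw [Finsupp.sub_apply, xs_apply]
        have h2 : z ⟨k, hk⟩ (2 * n) = 0 := by
          by_contra h3
          have := hzs ⟨k, hk⟩ _ h3
          omega
        have h3 : uv (f ⟨k, hk⟩) n = 0 := by
          by_contra h4
          exact hcon2 (uv_supp (hval _) h4)
        rw [h2, h3, sub_zero]
      simp only [hs, hk, dif_pos]
      refine ⟨h1.1, ?_⟩
      by_cases hk1 : k + 1 < nn j
      · rw [dif_pos hk1]
        have h2 := hsuc ⟨k, hk⟩ ⟨k + 1, hk1⟩ (by simp [Fin.lt_def])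
        omega
      · rw [dif_neg hk1]
        have h2 := hhq ⟨k, hk⟩
        omega
    have h1 := nV_up (nn j) x s hsmono hxs
    have h2 : ∑ k ∈ range (nn j), x k = ∑ k, h k := by
      rw [Finset.sum_range]
      exact sum_congr rfl fun k _ => hxk k
    rw [h2] at h1
    refine h1.trans ?_
    apply mul_le_mul_of_nonneg_left _ (by norm_num)
    apply Real.sqrt_le_iff.mpr
    refine ⟨by positivity, ?_⟩
    have h3 : ∑ k ∈ range (nn j), nV (x k) ^ 2 ≤ ∑ k ∈ range (nn j), H ^ 2 := by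
      apply sum_le_sum
      intro k hk
      have h4 := hxk ⟨k, mem_range.mp hk⟩
      simp only at h4
      rw [h4]
      exact pow_le_pow_left₀ (nV_nonneg _) (hhk _) 2
    refine h3.trans ?_
    rw [sum_const, card_range, nsmul_eq_mul, hnn]
    apply le_of_eq
    ring
  have hVh : nV ((1 / ρ) • ∑ k, h k) ≤ 4 * H := by
    rw [nV_smul, abs_of_pos (by positivity)]
    calc 1 / ρ * nV (∑ k, h k) ≤ 1 / ρ * (4 * (ρ * H)) := by gcongr
      _ = 4 * H := by field_simp
  -- the lower estimate for V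
  have hVlow : 1 / (2 * μ) ≤ nV V := by
    have h1 : |ip V (yv T)| ≤ nV V := ip_le_nV hTv V
    have h2 : ip V (yv T) = (1 / μ) * (1 / ρ ^ 2) * ∑ k, ip (rv (v k)) (yv (f k)) := by
      rw [hV, hyT, map_sum, LinearMap.sum_apply]
      rw [Finset.mul_sum]
      apply sum_congr rfl
      intro k _
      rw [map_smul, map_smul, LinearMap.smul_apply, map_sum]
      rw [Finset.sum_eq_single k]
      · rw [map_smul]
        simp only [smul_eq_mul]
        field_simp
      · intro l _ hlk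
        rw [map_smul, ip_disj, smul_zero]
        intro n hn1 hn2
        rw [rv_apply] at hn1
        have h3 : v k n ≠ 0 := by
          intro h4; apply hn1; rw [h4]; simp
        have h4 := hvs k n (Finsupp.mem_support_iff.mpr h3)
        have h5 := yv_supp (hval l) hn2
        rcases lt_or_gt_of_ne hlk with h6 | h6
        · have := hsuc l k h6
          omega
        · have := hsuc k l h6
          omega
      · intro h3
        exact absurd (mem_univ k) h3
    have h3 : ρ ^ 2 / 2 ≤ ∑ k, ip (rv (v k)) (yv (f k)) := by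
      have h4 : ∑ _k : Fin (nn j), ((1 : ℝ) / 2) ≤ ∑ k, ip (rv (v k)) (yv (f k)) := by
        apply sum_le_sum
        intro k _
        have := (abs_le.mp (hip k)).1
        linarith
      have h5 : ∑ _k : Fin (nn j), ((1 : ℝ) / 2) = ρ ^ 2 / 2 := by
        rw [← hcard, Finset.sum_div]
      linarith
    have h4 : 1 / (2 * μ) ≤ ip V (yv T) := by
      rw [h2]
      calc 1 / (2 * μ) = (1 / μ) * (1 / ρ ^ 2) * (ρ ^ 2 / 2) := by field_simp
        _ ≤ _ := by gcongr
    exact (h4.trans (le_abs_self _)).trans h1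
  -- the lower estimate for Z
  have hZlow : μ ^ 2 / 2 - 4 * H - 1 - Ct * μ ≤ nN Z := by
    have e1 : jn A 0 = Z - μ • jn (uv T) (yv T) - jn 0 E := by
      have e2 : Z = jn (xs Z) (ys Z) := (jn_xs_ys _).symm
      conv_rhs => rw [e2]
      rw [← jn_smul, ← det_jn_sub, ← det_jn_sub, hYZ, sub_self, sub_zero]
    have h1 : nN (jn A 0) ≤ nN Z + μ * nN (jn (uv T) (yv T)) + nN (jn 0 E) := by
      rw [e1, sub_eq_add_neg, sub_eq_add_neg]
      have h2 := nN_add (Z + -(μ • jn (uv T) (yv T))) (-jn 0 E)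
      have h3 := nN_add Z (-(μ • jn (uv T) (yv T)))
      rw [hNneg] at h2 h3
      rw [nN_smul μ, abs_of_pos hμ0] at h3
      linarith
    rw [nN_jn0] at h1
    have h2 : nV (μ ^ 3 • V) ≤ nV A + nV ((1 / ρ) • ∑ k, h k) := by
      have e2 : μ ^ 3 • V = -A + (1 / ρ) • ∑ k, h k := by
        rw [hA']; abel
      rw [e2]
      have h3 := nV_add (-A) ((1 / ρ) • ∑ k, h k)
      rw [hnVneg] at h3
      exact h3
    rw [nV_smul, abs_of_pos (by positivity)] at h2
    have h3 : μ ^ 2 / 2 ≤ μ ^ 3 * nV V := by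
      calc μ ^ 2 / 2 = μ ^ 3 * (1 / (2 * μ)) := by field_simp
        _ ≤ _ := by gcongr
    have h4 : μ * nN (jn (uv T) (yv T)) ≤ Ct * μ := by
      rw [mul_comm Ct μ]
      exact mul_le_mul_of_nonneg_left (hCt T hTv) hμ0.le
    have h5 : nN (jn 0 E) ≤ 1 := by
      refine (hjE E).trans ?_
      refine (mul_le_mul_of_nonneg_left hEl (by linarith)).trans hClη
    linarith
  -- the upper estimate for Z
  have hZup : δ * nN Z ≤ μ + 1 := by
    refine (hlow Z hZP).trans ?_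
    have e1 : ys Z = μ • yv T + E := by rw [← hYZ]; abel
    rw [e1]
    have h1 := nD_add (μ • yv T) E
    rw [nD_smul, abs_of_pos hμ0] at h1
    have h2 : μ * nD (yv T) ≤ μ * 1 := mul_le_mul_of_nonneg_left (nD_yv hTv) hμ0.le
    have h3 := hnD_l1 E
    linarith
  have hfin : nN Z ≤ (2 / δ) * μ := by
    rw [div_mul_eq_mul_div, le_div_iff₀ hδ]
    linarith
  -- contradiction
  have h1 : μ ^ 2 / 2 ≤ (4 * H + 1 + Ct + 2 / δ) * μ := by
    have : 4 * H + 1 ≤ (4 * H + 1) * μ := by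
      have : 0 ≤ 4 * H + 1 := by linarith
      nlinarith
    linarith
  have h2 : μ ≤ 2 * (4 * H + 1 + Ct + 2 / δ) := by
    have h3 : μ * μ ≤ (2 * (4 * H + 1 + Ct + 2 / δ)) * μ := by nlinarith
    exact le_of_mul_le_mul_right h3 hμ0
  linarith

end Pool.Agent.Helper60.HD
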