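import Pool.Agent.Helper60.HD.Dec
import Pool.Agent.Helper32.Hit.A

/-!
# The completion is isomorphic to its dual
-/

set_option autoImplicit false

namespace Pool.Agent.Helper60.HD

open Finset

/-- the symplectic form as a bilinear map -/
noncomputable def Dua_wl : (ℕ →₀ ℝ) →ₗ[ℝ] (ℕ →₀ ℝ) →ₗ[ℝ] ℝ :=
  LinearMap.mk₂ ℝ w (fun z z' z'' => w_add_left z z' z'') (fun c z z' => w_smul_left c z z')
    (fun z z' z'' => by
      rw [w_anti (z' + z'') z, w_add_left, w_anti z' z, w_anti z'' z, w_anti z z', w_anti z z'']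
      ring)
    (fun c z z' => by
      rw [w_anti (c • z') z, w_smul_left, w_anti z' z, w_anti z z']
      simp only [smul_eq_mul]
      ring)

lemma Dua_wl_apply (z z' : ℕ →₀ ℝ) : Dua_wl z z' = w z z' := rfl

variable {X : Type} [NormedAddCommGroup X] [NormedSpace ℝ X] [CompleteSpace X]

/-- the map into the dual -/
theorem Dua_exists (S : Pool.Agent.Helper64.Hit.Ctx nN X) :
    ∃ Φ : X →L[ℝ] StrongDual ℝ X, ∀ z z', Φ (S.J z) (S.J z') = w z z' := by
  obtain ⟨C, hC, hw⟩ := w_bdd
  have h1 : ∀ z z', ‖Dua_wl z z'‖ ≤ (C * ‖S.J z‖) * ‖S.J z'‖ := by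
    intro z z'
    rw [Dua_wl_apply, Real.norm_eq_abs, S.norm_J, S.norm_J]
    exact hw z z'
  have h2 : ∀ z z', (Dua_wl z).extendOfNorm S.J (S.J z') = w z z' := by
    intro z z'
    rw [LinearMap.extendOfNorm_eq S.dense ⟨C * ‖S.J z‖, h1 z⟩, Dua_wl_apply]
  have ext : ∀ f g : X →L[ℝ] ℝ, (∀ z, f (S.J z) = g (S.J z)) → f = g := by
    intro f g h
    refine ContinuousLinearMap.coeFn_injective ?_
    exact S.dense.equalizer f.continuous g.continuous (funext h)
  let L : (ℕ →₀ ℝ) →ₗ[ℝ] (X →L[ℝ] ℝ) :=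
    { toFun := fun z => (Dua_wl z).extendOfNorm S.J
      map_add' := by
        intro z z'
        refine ext _ _ fun z'' => ?_
        rw [ContinuousLinearMap.add_apply, h2, h2, h2, w_add_left]
      map_smul' := by
        intro c z
        refine ext _ _ fun z'' => ?_
        rw [RingHom.id_apply, ContinuousLinearMap.smul_apply, h2, h2, w_smul_left, smul_eq_mul] }
  have h3 : ∀ z, ‖L z‖ ≤ C * ‖S.J z‖ := by
    intro z
    refine LinearMap.opNorm_extendOfNorm_le S.dense (by positivity) (h1 z)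
  refine ⟨L.extendOfNorm S.J, fun z z' => ?_⟩
  rw [LinearMap.extendOfNorm_eq S.dense ⟨C, h3⟩]
  exact h2 z z'

/-- the map into the dual is bounded below -/
theorem Dua_low (S : Pool.Agent.Helper64.Hit.Ctx nN X) (Φ : X →L[ℝ] StrongDual ℝ X)
    (hΦ : ∀ z z', Φ (S.J z) (S.J z') = w z z') : ∃ C : ℝ, 0 < C ∧ ∀ x, ‖x‖ ≤ C * ‖Φ x‖ := by
  obtain ⟨C, hC, hw⟩ := w_low
  refine ⟨C, hC, fun x => ?_⟩
  refine S.dense.induction_on (p := fun x => ‖x‖ ≤ C * ‖Φ x‖) x ?_ ?_
  · exact isClosed_le (by fun_prop) (by fun_prop)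
  · intro z
    by_cases hz : z = 0
    · rw [hz, map_zero, norm_zero]
      positivity
    obtain ⟨z', h1, h2⟩ := hw z hz
    rw [S.norm_J]
    refine h2.trans ?_
    gcongr
    rw [← hΦ, ← Real.norm_eq_abs]
    refine ((Φ (S.J z)).le_opNorm _).trans ?_
    rw [S.norm_J]
    calc ‖Φ (S.J z)‖ * nN z' ≤ ‖Φ (S.J z)‖ * 1 := by gcongr
      _ = ‖Φ (S.J z)‖ := mul_one _

/-- the coordinate functionals are in the range -/
theorem Dua_es (S : Pool.Agent.Helper64.Hit.Ctx nN X) (Φ : X →L[ℝ] StrongDual ℝ X)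
    (hΦ : ∀ z z', Φ (S.J z) (S.J z') = w z z') (k : ℕ) : S.es k ∈ LinearMap.range Φ.toLinearMap := by
  have ext : ∀ f g : X →L[ℝ] ℝ, (∀ z, f (S.J z) = g (S.J z)) → f = g := by
    intro f g h
    refine ContinuousLinearMap.coeFn_injective ?_
    exact S.dense.equalizer f.continuous g.continuous (funext h)
  have key : ∀ (n : ℕ) (y : ℕ →₀ ℝ), ip (Finsupp.single n 1) y = y n := by
    intro n y
    rw [ip_eq _ _ {n} (Finsupp.support_single_subset), Finset.sum_singleton, Finsupp.single_eq_same,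
      one_mul]
  rcases Nat.even_or_odd' k with ⟨n, rfl | rfl⟩
  · refine ⟨- S.J (Finsupp.single (2 * n + 1) 1), ?_⟩
    refine ext _ _ fun z => ?_
    change Φ (- S.J (Finsupp.single (2 * n + 1) 1)) (S.J z) = S.es (2 * n) (S.J z)
    rw [map_neg, ContinuousLinearMap.neg_apply, hΦ, S.es_J]
    have e1 : xs (Finsupp.single (2 * n + 1) 1) = 0 := by
      ext j
      rw [xs_apply, Finsupp.single_eq_of_ne (by omega), Finsupp.zero_apply]
    have e2 : ys (Finsupp.single (2 * n + 1) 1) = Finsupp.single n 1 := by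
      ext j
      rw [ys_apply]
      by_cases h : j = n
      · rw [h, Finsupp.single_eq_same, Finsupp.single_eq_same]
      · rw [Finsupp.single_eq_of_ne (by omega), Finsupp.single_eq_of_ne h]
    unfold w
    rw [e1, e2, map_zero, LinearMap.zero_apply, ip_comm, key, xs_apply]
    ring
  · refine ⟨S.J (Finsupp.single (2 * n) 1), ?_⟩
    refine ext _ _ fun z => ?_
    change Φ (S.J (Finsupp.single (2 * n) 1)) (S.J z) = S.es (2 * n + 1) (S.J z)
    rw [hΦ, S.es_J]
    have e1 : ys (Finsupp.single (2 * n) 1) = 0 := by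
      ext j
      rw [ys_apply, Finsupp.single_eq_of_ne (by omega), Finsupp.zero_apply]
    have e2 : xs (Finsupp.single (2 * n) 1) = Finsupp.single n 1 := by
      ext j
      rw [xs_apply]
      by_cases h : j = n
      · rw [h, Finsupp.single_eq_same, Finsupp.single_eq_same]
      · rw [Finsupp.single_eq_of_ne (by omega), Finsupp.single_eq_of_ne h]
    unfold w
    rw [e1, e2, map_zero, key, ys_apply]
    ring

/-- no functional is large on far vectors -/
theorem Dua_shr (S : Pool.Agent.Helper64.Hit.Ctx nN X) (f : StrongDual ℝ X) (δ : ℝ) (hδ : 0 < δ)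
    (h : ∀ s : ℕ, ∃ (z : ℕ →₀ ℝ) (s' : ℕ), s < s' ∧ nN z ≤ 1 ∧ (∀ n, z n ≠ 0 → 2 * s ≤ n ∧ n < 2 * s') ∧
      δ ≤ f (S.J z)) : False := by
  choose Z nx h1 h2 h3 h4 using h
  let s : ℕ → ℕ := fun k => Nat.rec 0 (fun _ r => nx r) k
  have hs : ∀ k, s (k + 1) = nx (s k) := fun _ => rfl
  have hmono : StrictMono s := strictMono_nat_of_lt_succ fun k => by rw [hs]; exact h1 _
  obtain ⟨C, hC, hup⟩ := nN_up
  obtain ⟨i, hi, hlt⟩ := exists_even (‖f‖ * C / δ)
  have h5 := hup i hi (fun k => Z (s k)) s hmono (fun k _ => ⟨h2 _, fun n hn => by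
    rw [hs]; exact h3 _ n hn⟩)
  have h6 : (nn i : ℝ) * δ ≤ f (S.J (∑ k ∈ range (nn i), Z (s k))) := by
    rw [map_sum, map_sum]
    have := Finset.card_nsmul_le_sum (range (nn i)) (fun k => f (S.J (Z (s k)))) δ (fun k _ => h4 _)
    rw [card_range, nsmul_eq_mul] at this
    exact this
  have h7 : f (S.J (∑ k ∈ range (nn i), Z (s k))) ≤ ‖f‖ * (C * m i * 2 ^ rr i) := by
    refine (le_abs_self _).trans ?_
    rw [← Real.norm_eq_abs]
    refine (f.le_opNorm _).trans ?_
    rw [S.norm_J]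
    gcongr
  rw [nn_cast] at h6
  have h8 : (0 : ℝ) < 2 ^ rr i := by positivity
  generalize (2 : ℝ) ^ rr i = P at h6 h7 h8 hlt
  generalize (m i : ℝ) = M at h7 hlt
  have h9 : P ^ 2 * δ ≤ ‖f‖ * (C * M * P) := h6.trans h7
  have h10 : P * δ ≤ ‖f‖ * C * M := by
    refine le_of_mul_le_mul_left ?_ h8
    nlinarith
  have h11 : ‖f‖ * C * M < P * δ := by
    have := mul_lt_mul_of_pos_right hlt hδ
    have e : ‖f‖ * C / δ * M * δ = ‖f‖ * C * M := by field_simp
    rw [e] at this
    exact this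
  linarith

/-- functionals are limits of finite combinations of the coordinate functionals -/
theorem Dua_lim (S : Pool.Agent.Helper64.Hit.Ctx nN X) (f : StrongDual ℝ X) (δ : ℝ) (hδ : 0 < δ) :
    ∃ n : ℕ, ‖f - ∑ k ∈ range n, f (S.J (Finsupp.single k 1)) • S.es k‖ ≤ δ := by
  classical
  by_contra hcon
  push Not at hcon
  refine Dua_shr S f δ hδ fun s => ?_
  -- a vector on which the difference is large
  obtain ⟨z, hz⟩ : ∃ z, δ * nN z < |f (S.J z) - ∑ k ∈ range (2 * s), f (S.J (Finsupp.single k 1)) * z k| := by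
    by_contra hc
    push Not at hc
    refine absurd (hcon (2 * s)) (not_lt.2 ?_)
    refine ContinuousLinearMap.opNorm_le_bound _ hδ.le fun x => ?_
    refine S.dense.induction_on (p := fun x => ‖(f - ∑ k ∈ range (2 * s),
      f (S.J (Finsupp.single k 1)) • S.es k) x‖ ≤ δ * ‖x‖) x ?_ ?_
    · exact isClosed_le (by fun_prop) (by fun_prop)
    · intro z
      rw [ContinuousLinearMap.sub_apply, ContinuousLinearMap.sum_apply, S.norm_J, Real.norm_eq_abs]
      simp only [ContinuousLinearMap.smul_apply, S.es_J, smul_eq_mul]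
      exact hc z
  -- the tail of `z`
  set M : ℕ := z.support.sup id + 1 + s with hM
  set t : ℕ →₀ ℝ := ct (2 * s) (2 * M) z with ht
  have hsum : f (S.J z) - ∑ k ∈ range (2 * s), f (S.J (Finsupp.single k 1)) * z k = f (S.J t) := by
    have e : z = ∑ k ∈ range (2 * s), z k • Finsupp.single k (1 : ℝ) + t := by
      ext n
      rw [Finsupp.add_apply, Finsupp.finsetSum_apply, ht, ct_apply]
      simp only [Finsupp.smul_apply, Finsupp.single_apply, smul_eq_mul, mul_ite, mul_one, mul_zero]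
      rw [Finset.sum_ite_eq' (range (2 * s)) n (fun k => z k)]
      by_cases h1 : n < 2 * s
      · rw [if_pos (mem_range.2 h1), if_neg (by omega), add_zero]
      · rw [if_neg (by simpa using h1), zero_add]
        by_cases h2 : z n = 0
        · rw [h2]; simp
        · have h3 : n ≤ z.support.sup id := Finset.le_sup (f := id) (Finsupp.mem_support_iff.2 h2)
          rw [if_pos (by omega)]
    have e2 : f (S.J z) = ∑ k ∈ range (2 * s), f (S.J (Finsupp.single k 1)) * z k + f (S.J t) := by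
      conv_lhs => rw [e]
      rw [map_add, map_add, map_sum, map_sum]
      congr 1
      refine Finset.sum_congr rfl fun k _ => ?_
      rw [map_smul, map_smul, smul_eq_mul, mul_comm]
    rw [e2]; ring
  rw [hsum] at hz
  have hN : nN t ≤ nN z := nN_ct _ _ _
  have hz' : δ * nN t < |f (S.J t)| := lt_of_le_of_lt (by gcongr) hz
  have ht0 : t ≠ 0 := by
    intro h0
    rw [h0, map_zero, map_zero, abs_zero] at hz'
    have := nN_nonneg (0 : ℕ →₀ ℝ)
    have : 0 ≤ δ * nN 0 := by positivity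
    linarith
  have hpos : 0 < nN t := nN_pos ht0
  have hsupp : ∀ n, t n ≠ 0 → 2 * s ≤ n ∧ n < 2 * M := by
    intro n hn
    rw [ht, ct_apply] at hn
    by_contra hc
    rw [if_neg hc] at hn
    exact hn rfl
  refine ⟨(SignType.sign (f (S.J t)) * (nN t)⁻¹ : ℝ) • t, M, by omega, ?_, ?_, ?_⟩
  · rw [nN_smul, abs_mul, abs_inv, abs_of_pos hpos]
    have h1 : |((SignType.sign (f (S.J t)) : SignType) : ℝ)| ≤ 1 := by
      rcases lt_trichotomy (f (S.J t)) 0 with h | h | h
      · rw [sign_neg h]; simp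
      · rw [h]; simp
      · rw [sign_pos h]; simp
    rw [mul_assoc, inv_mul_cancel₀ hpos.ne', mul_one]
    exact h1
  · intro n hn
    rw [Finsupp.smul_apply, smul_eq_mul] at hn
    exact hsupp n (right_ne_zero_of_mul hn)
  · rw [map_smul, map_smul, smul_eq_mul]
    have e : (SignType.sign (f (S.J t)) * (nN t)⁻¹ : ℝ) * f (S.J t) = (nN t)⁻¹ * |f (S.J t)| := by
      rw [← sign_mul_self (f (S.J t))]
      ring
    rw [e]
    rw [inv_mul_eq_div, le_div_iff₀ hpos]
    exact hz'.le

theorem dual_iso {X : Type} [NormedAddCommGroup X] [NormedSpace ℝ X] [CompleteSpace X]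
    (S : Pool.Agent.Helper64.Hit.Ctx nN X) : Nonempty (X ≃L[ℝ] StrongDual ℝ X) := by
  obtain ⟨Φ, hΦ⟩ := Dua_exists S
  obtain ⟨C, hC, hlow⟩ := Dua_low S Φ hΦ
  have hanti : AntilipschitzWith (Real.toNNReal C) Φ := by
    refine ContinuousLinearMap.antilipschitz_of_bound Φ fun x => ?_
    rw [Real.coe_toNNReal C hC.le]
    exact hlow x
  have hker : Φ.ker = ⊥ := by
    rw [LinearMap.ker_eq_bot]
    exact hanti.injective
  have hcl : IsClosed (Φ.range : Set (StrongDual ℝ X)) := hanti.isClosed_range Φ.uniformContinuous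
  have hrange : Φ.range = ⊤ := by
    rw [Submodule.eq_top_iff']
    intro f
    have : f ∈ closure (Φ.range : Set (StrongDual ℝ X)) := by
      rw [Metric.mem_closure_iff]
      intro ε hε
      obtain ⟨n, hn⟩ := Dua_lim S f (ε / 2) (half_pos hε)
      refine ⟨∑ k ∈ range n, f (S.J (Finsupp.single k 1)) • S.es k, ?_, ?_⟩
      · refine Submodule.sum_mem _ fun k _ => Submodule.smul_mem _ _ ?_
        exact Dua_es S Φ hΦ k
      · rw [dist_eq_norm]
        linarith
    rw [hcl.closure_eq] at this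
    exact this
  exact ⟨ContinuousLinearEquiv.ofBijective Φ hker hrange⟩

end Pool.Agent.Helper60.HD
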