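import Pool.Agent.Helper60.HD.Src0

/-!
# Rapidly increasing sequences
-/

set_option autoImplicit false

namespace Pool.Agent.Helper60.HD

lemma exA_level (s : ℝ) (ε : ℝ) (hε : 0 < ε) (l : ℕ) :
    ∃ L : ℕ, l < L ∧ ∀ i, L ≤ i → 1 / (m i : ℝ) * s ≤ ε := by
  refine ⟨max (l + 1) ⌈s / ε⌉₊, lt_of_lt_of_le (Nat.lt_succ_self l) (le_max_left _ _), ?_⟩
  intro i hi
  have h1 : ⌈s / ε⌉₊ ≤ i := le_trans (le_max_right _ _) hi
  have h2 : i ≤ m i := m_strict.le_apply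
  have h3 : s / ε ≤ m i := le_trans (Nat.le_ceil _) (by exact_mod_cast le_trans h1 h2)
  have h4 : (0 : ℝ) < m i := by
    have := m_ge i
    have h5 : (0 : ℕ) < m i := by omega
    exact_mod_cast h5
  rw [div_le_iff₀ hε] at h3
  rw [one_div, inv_mul_le_iff₀ h4]
  exact h3

theorem ris (Q : (ℕ →₀ ℚ) → Tr → ℝ → Prop) (hQ : Src Q) (p : ℕ) (η ε : ℝ) (hη : 0 < η) (hε : 0 < ε) :
    ∃ (x : ℕ → (ℕ →₀ ℚ)) (g : ℕ → Tr) (l : ℕ → ℕ), StrictMono l ∧ p ≤ (g 0).lo ∧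
      (∀ k, (g k).hi ≤ (g (k + 1)).lo) ∧
      ∀ k, Valid (g k) ∧ (∀ n ∈ (x k).support, (g k).lo ≤ n ∧ n < (g k).hi) ∧
        |ip (rv (x k)) (yv (g k)) - 1| ≤ η ∧ nV (rv (x k)) ≤ 256 ∧
        (∀ a b U i, Valid U → U.cls = some i → (i < l k ∨ l (k + 1) ≤ i) →
          |ip (ct a b (rv (x k))) (yv U)| ≤ 256 / m i + ε) ∧
        Q (x k) (g k) η := by
  choose X G hv hp hs h1 hn hl hq using fun s : ℕ × ℕ => hQ s.1 s.2 η hη
  choose L hL1 hL2 using fun s : ℕ × ℕ => exA_level (l1 (rv (X s))) ε hε s.2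
  let σ : ℕ → ℕ × ℕ := fun k => Nat.rec (p, 0) (fun _ s => ((G s).hi, L s)) k
  have hσ : ∀ k, σ (k + 1) = ((G (σ k)).hi, L (σ k)) := fun k => rfl
  refine ⟨fun k => X (σ k), fun k => G (σ k), fun k => (σ k).2, ?_, hp (p, 0), ?_, ?_⟩
  · refine strictMono_nat_of_lt_succ fun k => ?_
    rw [hσ]
    exact hL1 (σ k)
  · intro k
    exact hp (σ (k + 1))
  · intro k
    refine ⟨hv _, hs _, h1 _, hn _, ?_, hq _⟩
    intro a b U i hU hi hor
    rcases hor with h | h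
    · exact le_trans (hl (σ k) a b U i hU hi h) (le_add_of_nonneg_right hε.le)
    · have h' : L (σ k) ≤ i := h
      have hm : (0 : ℝ) ≤ 1 / m i := by positivity
      have e1 : |ip (ct a b (rv (X (σ k)))) (yv U)| ≤ 1 / m i * l1 (rv (X (σ k))) :=
        le_trans (ip_le_l1 (fun n => yv_cls hU hi n)) (mul_le_mul_of_nonneg_left (l1_ct _ _ _) hm)
      have e2 := hL2 (σ k) i h'
      have e3 : (0 : ℝ) ≤ 256 / m i := by positivity
      linarith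

end Pool.Agent.Helper60.HD
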