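import Pool.Agent.Helper60.HD.Up

/-!
# James type arguments in V and in its dual
-/

set_option autoImplicit false

namespace Pool.Agent.Helper60.HD

open Finset

/-- successive vectors with breakpoints in the multiples of `e` -/
def JamVSuc (e : ℕ) : ℕ → ℕ → List (ℕ →₀ ℝ) → Prop
  | a, b, [] => a ≤ b
  | a, b, x :: L => ∃ c, a < c ∧ (∀ n, x n ≠ 0 → e * a ≤ n ∧ n < e * c) ∧ JamVSuc e c b L

lemma JamVSuc.append {e a b c : ℕ} {L L' : List (ℕ →₀ ℝ)} (h : JamVSuc e a b L)
    (h' : JamVSuc e b c L') : JamVSuc e a c (L ++ L') := by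
  induction L generalizing a with
  | nil =>
    have hab : a ≤ b := h
    cases L' with
    | nil => exact hab.trans h'
    | cons x L' =>
      obtain ⟨d, h1, h2, h3⟩ := h'
      exact ⟨d, by omega, fun n hn => ⟨(Nat.mul_le_mul_left e hab).trans (h2 n hn).1, (h2 n hn).2⟩, h3⟩
  | cons x L ih =>
    obtain ⟨d, h1, h2, h3⟩ := h
    exact ⟨d, h1, h2, ih h3⟩

lemma JamVSuc.le {e a b : ℕ} {L : List (ℕ →₀ ℝ)} (h : JamVSuc e a b L) : a ≤ b := by
  induction L generalizing a with
  | nil => exact h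
  | cons x L ih =>
    obtain ⟨d, h1, h2, h3⟩ := h
    exact h1.le.trans (ih h3)

lemma JamVSuc.lt {e a b : ℕ} {L : List (ℕ →₀ ℝ)} (h : JamVSuc e a b L) (hL : L ≠ []) : a < b := by
  cases L with
  | nil => exact absurd rfl hL
  | cons x L =>
    obtain ⟨d, h1, h2, h3⟩ := h
    exact h1.trans_le h3.le

lemma JamVSuc.supp {e a b : ℕ} {L : List (ℕ →₀ ℝ)} (h : JamVSuc e a b L) (n : ℕ)
    (hn : L.sum n ≠ 0) : e * a ≤ n ∧ n < e * b := by
  induction L generalizing a with
  | nil => simp at hn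
  | cons x L ih =>
    obtain ⟨d, h1, h2, h3⟩ := h
    rw [List.sum_cons, Finsupp.add_apply] at hn
    by_cases hx : x n = 0
    · rw [hx, zero_add] at hn
      have := ih h3 hn
      exact ⟨(Nat.mul_le_mul_left e h1.le).trans this.1, this.2⟩
    · exact ⟨(h2 n hx).1, (h2 n hx).2.trans_le (Nat.mul_le_mul_left e h3.le)⟩

lemma JamVSuc.smul {e a b : ℕ} {L : List (ℕ →₀ ℝ)} (h : JamVSuc e a b L) (c : ℝ) :
    JamVSuc e a b (L.map fun x => c • x) := by
  induction L generalizing a with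
  | nil => exact h
  | cons x L ih =>
    obtain ⟨d, h1, h2, h3⟩ := h
    refine ⟨d, h1, fun n hn => h2 n ?_, ih h3⟩
    intro h0
    apply hn
    rw [Finsupp.smul_apply, h0, smul_zero]

lemma JamV_list (P : Submodule ℝ (ℕ →₀ ℝ)) (hP : Far P) (e N M : ℕ) (he : 0 < e) (hN : 0 < N)
    (ν : (ℕ →₀ ℝ) → ℝ) (hsm : ∀ c x, ν (c • x) = |c| * ν x) (hpos : ∀ x ∈ P, x ≠ 0 → 0 < ν x)
    (Rel : ℝ → Prop) (Mem : ℕ → (ℕ →₀ ℝ) → Prop)
    (hfail : ∀ (x : ℕ → (ℕ →₀ ℝ)) (s : ℕ → ℕ), StrictMono s → M ≤ s 0 →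
      (∀ k < N, x k ∈ P ∧ ν (x k) = 1 ∧ ∀ n, x k n ≠ 0 → e * s k ≤ n ∧ n < e * s (k + 1)) →
      Rel (ν (∑ k ∈ range N, x k)))
    (h0 : ∀ x, ν x = 1 → Mem 0 x)
    (hstep : ∀ t x c, 0 < c → Rel c → Mem t x → Mem (t + 1) (c⁻¹ • x)) (t : ℕ) :
    ∀ a, M ≤ a → ∃ (b : ℕ) (B : List (ℕ →₀ ℝ)), JamVSuc e a b B ∧ B.length = N ^ t ∧ B.sum ∈ P ∧
      ν B.sum = 1 ∧ ∀ x ∈ B, Mem t x := by
  induction t with
  | zero =>
    intro a _
    obtain ⟨z, hz, hz0, hs⟩ := hP (e * a)
    have hp := hpos z hz hz0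
    set x : ℕ →₀ ℝ := (ν z)⁻¹ • z with hx
    have hx1 : ν x = 1 := by
      rw [hx, hsm, abs_of_pos (inv_pos.2 hp), inv_mul_cancel₀ hp.ne']
    refine ⟨a + 1 + z.support.sup id, [x], ⟨a + 1 + z.support.sup id, by omega, ?_, le_rfl⟩, by simp,
      ?_, ?_, ?_⟩
    · intro n hn
      have hzn : z n ≠ 0 := by
        intro h
        apply hn
        rw [hx, Finsupp.smul_apply, h, smul_zero]
      refine ⟨hs n hzn, ?_⟩
      have h1 : n ≤ z.support.sup id := Finset.le_sup (f := id) (Finsupp.mem_support_iff.2 hzn)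
      have h2 : 1 * (a + 1 + z.support.sup id) ≤ e * (a + 1 + z.support.sup id) :=
        Nat.mul_le_mul_right _ he
      omega
    · simp only [List.sum_cons, List.sum_nil, add_zero]
      exact P.smul_mem _ hz
    · simpa using hx1
    · intro y hy
      rw [List.mem_singleton] at hy
      rw [hy]
      exact h0 x hx1
  | succ t ih =>
    intro a ha
    choose! b B h1 h2 h3 h4 h5 using ih
    set s : ℕ → ℕ := fun k => b^[k] a with hsdef
    have hs0 : s 0 = a := rfl
    have hsucc : ∀ k, s (k + 1) = b (s k) := fun k => by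
      rw [hsdef]
      exact Function.iterate_succ_apply' b k a
    have hlt : ∀ x, M ≤ x → x < b x := by
      intro x hx
      refine (h1 x hx).lt ?_
      intro h
      have := h2 x hx
      rw [h, List.length_nil] at this
      exact (pow_pos hN t).ne this
    have hM : ∀ k, M ≤ s k := by
      intro k
      induction k with
      | zero => exact ha
      | succ k ih => rw [hsucc]; exact ih.trans (hlt _ ih).le
    have hmono : StrictMono s := strictMono_nat_of_lt_succ fun k => by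
      rw [hsucc]; exact hlt _ (hM k)
    have hsup : ∀ k n, (B (s k)).sum n ≠ 0 → e * s k ≤ n ∧ n < e * s (k + 1) := by
      intro k n hn
      rw [hsucc]
      exact (h1 _ (hM k)).supp n hn
    have hrel := hfail (fun k => (B (s k)).sum) s hmono (hM 0)
      (fun k _ => ⟨h3 _ (hM k), h4 _ (hM k), hsup k⟩)
    set S : ℕ →₀ ℝ := ∑ k ∈ range N, (B (s k)).sum with hS
    have hSP : S ∈ P := P.sum_mem fun k _ => h3 _ (hM k)
    have hS0 : S ≠ 0 := by
      have hx0 : (B (s 0)).sum ≠ 0 := by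
        intro h
        have h6 := h4 _ (hM 0)
        have h7 := hsm 0 0
        rw [h] at h6
        rw [smul_zero, abs_zero, zero_mul] at h7
        rw [h7] at h6
        exact zero_ne_one h6
      obtain ⟨n, hn⟩ := Finsupp.ne_iff.1 hx0
      rw [Finsupp.zero_apply] at hn
      intro h
      have h8 : S n = (B (s 0)).sum n := by
        rw [hS, Finsupp.finsetSum_apply]
        refine Finset.sum_eq_single 0 ?_ ?_
        · intro k _ hk
          by_contra h9
          have h10 := (hsup k n h9).1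
          have h11 := (hsup 0 n hn).2
          have h12 : s (0 + 1) ≤ s k := hmono.monotone (by omega)
          have h13 := Nat.mul_le_mul_left e h12
          omega
        · intro h9
          exact absurd (Finset.mem_range.2 hN) h9
      rw [h, Finsupp.zero_apply] at h8
      exact hn h8.symm
    have hc := hpos S hSP hS0
    have hlist : ∀ K, ∃ T : List (ℕ →₀ ℝ), JamVSuc e a (s K) T ∧ T.length = K * N ^ t ∧
        T.sum = ∑ k ∈ range K, (B (s k)).sum ∧ ∀ x ∈ T, Mem t x := by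
      intro K
      induction K with
      | zero => exact ⟨[], le_rfl, by simp, by simp, by simp⟩
      | succ K ih =>
        obtain ⟨T, hT1, hT2, hT3, hT4⟩ := ih
        refine ⟨T ++ B (s K), ?_, ?_, ?_, ?_⟩
        · rw [hsucc]
          exact hT1.append (h1 _ (hM K))
        · rw [List.length_append, hT2, h2 _ (hM K)]
          ring
        · rw [List.sum_append, hT3, Finset.sum_range_succ]
        · intro x hx
          rw [List.mem_append] at hx
          rcases hx with hx | hx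
          · exact hT4 x hx
          · exact h5 _ (hM K) x hx
    obtain ⟨T, hT1, hT2, hT3, hT4⟩ := hlist N
    have hsum : (T.map fun x => (ν S)⁻¹ • x).sum = (ν S)⁻¹ • S := by
      rw [hS, ← hT3, List.smul_sum]
    refine ⟨s N, T.map fun x => (ν S)⁻¹ • x, hT1.smul _, ?_, ?_, ?_, ?_⟩
    · rw [List.length_map, hT2, pow_succ]
      ring
    · rw [hsum]
      exact P.smul_mem _ hSP
    · rw [hsum, hsm, abs_of_pos (inv_pos.2 hc), inv_mul_cancel₀ hc.ne']
    · intro x hx
      rw [List.mem_map] at hx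
      obtain ⟨y, hy, rfl⟩ := hx
      exact hstep t y _ hc hrel (hT4 y hy)

/-- the parameters of the James argument -/
lemma JamV_par (l : ℕ) : ∃ i L : ℕ, Even i ∧ (2 : ℝ) ^ L = 4 * m i ∧ (nn l) ^ L ≤ nn i := by
  refine ⟨2 * (l + 1), 2 ^ (2 * (l + 1) + 4) + 2, even_two_mul _, ?_, ?_⟩
  · rw [pow_add, m_eq]
    push_cast
    ring
  · rw [nn_eq, nn_eq, ← pow_mul]
    refine Nat.pow_le_pow_right (by norm_num) ?_
    have h1 : m l ^ 2 ≤ m (2 * (l + 1)) := by
      rw [← m_succ]
      exact m_strict.monotone (by omega)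
    have h2 : 2 ^ (2 * (l + 1) + 4) + 2 ≤ m (2 * (l + 1)) := by
      rw [m_eq]
      set E := 2 ^ (2 * (l + 1) + 4) with hE
      have h3 : 4 ≤ E := by
        rw [hE]
        calc 4 = 2 ^ 2 := by norm_num
          _ ≤ _ := Nat.pow_le_pow_right (by norm_num) (by omega)
      have h4 : ∀ n : ℕ, 4 ≤ n → n + 2 ≤ 2 ^ n := by
        intro n hn
        induction n, hn using Nat.le_induction with
        | base => norm_num
        | succ k hk ih => rw [pow_succ]; omega
      exact h4 E h3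
    rw [rr_eq, rr_eq]
    calc 2 * m l ^ 2 * (2 ^ (2 * (l + 1) + 4) + 2) ≤ 2 * m (2 * (l + 1)) * m (2 * (l + 1)) :=
          Nat.mul_le_mul (Nat.mul_le_mul_left 2 h1) h2
      _ = 2 * m (2 * (l + 1)) ^ 2 := by ring

lemma JamV_num (L : ℕ) {u : ℝ} (hu : 0 < u) :
    ((2 : ℝ) ^ L) ^ 2 = (u ^ 2) ^ L * ((u / 2)⁻¹ ^ L) ^ 2 := by
  have h1 : ∀ a : ℝ, (a ^ L) ^ 2 = (a ^ 2) ^ L := fun a => by rw [← pow_mul, ← pow_mul, mul_comm]
  rw [h1 2, h1 (u / 2)⁻¹, ← mul_pow]
  congr 1
  field_simp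

theorem james_V (P : Submodule ℝ (ℕ →₀ ℝ)) (hP : Far P) (l M : ℕ) :
    ∃ (x : ℕ → (ℕ →₀ ℝ)) (s : ℕ → ℕ), StrictMono s ∧ M ≤ s 0 ∧
      (∀ k < nn l, x k ∈ P ∧ nV (x k) = 1 ∧ ∀ n, x k n ≠ 0 → s k ≤ n ∧ n < s (k + 1)) ∧
      (2 : ℝ) ^ rr l / 2 ≤ nV (∑ k ∈ range (nn l), x k) := by
  by_contra hcon
  push Not at hcon
  set R : ℝ := (2 : ℝ) ^ rr l / 2 with hR
  have hRpos : 0 < R := by positivity
  obtain ⟨i, L, hi, hL, hNL⟩ := JamV_par l
  obtain ⟨b, B, hB, hlen, -, hsum, hmem⟩ := JamV_list P hP 1 (nn l) M one_pos (nn_pos l) nV nV_smul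
    (fun x _ hx => nV_pos hx) (fun c => c < R) (fun t x => (R⁻¹) ^ t ≤ nV x)
    (by
      intro x s hs hM hx
      refine hcon x s hs hM fun k hk => ⟨(hx k hk).1, (hx k hk).2.1, fun n hn => ?_⟩
      have := (hx k hk).2.2 n hn
      rwa [one_mul, one_mul] at this)
    (by
      intro x hx
      rw [hx, pow_zero])
    (by
      intro t x c hc hcR hx
      rw [nV_smul, abs_of_pos (inv_pos.2 hc), pow_succ, mul_comm]
      refine mul_le_mul ?_ hx (by positivity) (by positivity)
      exact inv_anti₀ hc hcR.le) L M le_rfl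
  have hsuc : Suc M b B := by
    clear hlen hsum hmem
    generalize M = a at hB
    induction B generalizing a with
    | nil => exact hB
    | cons x B ih =>
      obtain ⟨c, h1, h2, h3⟩ := hB
      refine ⟨c, h1, fun n hn => ?_, ih _ h3⟩
      have := h2 n hn
      rwa [one_mul, one_mul] at this
  have hlow := nV_low i hi B M b hsuc (by rw [hlen]; exact hNL)
  rw [hsum, mul_one] at hlow
  have hsq : ((2 : ℝ) ^ L) ^ 2 ≤ (B.map fun x => nV x ^ 2).sum := by
    have h1 : ∀ (B : List (ℕ →₀ ℝ)), (∀ x ∈ B, (R⁻¹) ^ L ≤ nV x) →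
        (B.length : ℝ) * ((R⁻¹) ^ L) ^ 2 ≤ (B.map fun x => nV x ^ 2).sum := by
      intro B hB
      induction B with
      | nil => simp
      | cons x B ih =>
        rw [List.map_cons, List.sum_cons, List.length_cons]
        have h2 := ih fun y hy => hB y (List.mem_cons_of_mem _ hy)
        have h3 : ((R⁻¹) ^ L) ^ 2 ≤ nV x ^ 2 :=
          pow_le_pow_left₀ (by positivity) (hB x List.mem_cons_self) 2
        push_cast
        linarith
    refine le_trans (le_of_eq ?_) (h1 B hmem)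
    rw [hlen, hR, Nat.cast_pow, nn_cast]
    exact JamV_num L (by positivity)
  have h4 : (2 : ℝ) ^ L ≤ √((B.map fun x => nV x ^ 2).sum) := Real.le_sqrt_of_sq_le hsq
  have h5 : (0 : ℝ) < m i := by
    have := m_ge i
    exact_mod_cast (by omega : 0 < m i)
  rw [hL] at h4
  linarith

end Pool.Agent.Helper60.HD
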