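import Pool.Agent.Helper60.HD.Src0
import Pool.Agent.Helper60.HD.JamV

/-!
# Sources of averages
-/

set_option autoImplicit false

namespace Pool.Agent.Helper60.HD

open Finset in
theorem src_V (P : Submodule ℝ (ℕ →₀ ℝ)) (hP : Far P) :
    Src fun x _ η => ∃ z ∈ P, l1 (rv x - z) ≤ η := by
  intro p l η hη
  obtain ⟨x, s, hs, hs0, hx, hlow⟩ := james_V P hP l p
  have hR : (0 : ℝ) < 2 ^ rr l := by positivity
  set x0 : ℕ →₀ ℝ := (1 / 2 ^ rr l : ℝ) • ∑ k ∈ range (nn l), x k with hx0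
  have hP0 : x0 ∈ P := P.smul_mem _ (P.sum_mem fun k hk => (hx k (mem_range.1 hk)).1)
  have hsupp : ∀ n, x0 n ≠ 0 → s 0 ≤ n ∧ n < s (nn l) := by
    intro n hn
    have h1 : (∑ k ∈ range (nn l), x k) n ≠ 0 := by
      intro h
      apply hn
      rw [hx0, Finsupp.smul_apply, h, smul_zero]
    rw [Finsupp.finsetSum_apply] at h1
    obtain ⟨k, hk, hkn⟩ := exists_ne_zero_of_sum_ne_zero h1
    have hk' := mem_range.1 hk
    obtain ⟨h2, h3⟩ := (hx k hk').2.2 n hkn
    exact ⟨(hs.monotone (Nat.zero_le k)).trans h2, h3.trans_le (hs.monotone hk')⟩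
  have hnV0 : nV x0 = (1 / 2 ^ rr l) * nV (∑ k ∈ range (nn l), x k) := by
    rw [hx0, nV_smul, abs_of_pos (by positivity)]
  have hnV1 : 1 / 2 ≤ nV x0 := by
    rw [hnV0, div_mul_eq_mul_div, one_mul, le_div_iff₀ hR]
    linarith
  have hnV2 : nV x0 ≤ 4 := by
    have h1 := nV_up (nn l) x s hs (fun k hk => (hx k hk).2.2)
    have h2 : ∑ k ∈ range (nn l), nV (x k) ^ 2 = ((2 : ℝ) ^ rr l) ^ 2 := by
      rw [← nn_cast, sum_congr rfl (fun k hk => by
        rw [(hx k (mem_range.1 hk)).2.1])]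
      simp
    rw [h2, Real.sqrt_sq hR.le] at h1
    rw [hnV0, div_mul_eq_mul_div, one_mul, div_le_iff₀ hR]
    exact h1
  obtain ⟨a, b, T0, hT0, hab⟩ := exists_nV (show (1 / 4 : ℝ) < nV x0 by linarith)
  -- cut to the box
  have hct : ct a b x0 = ct (max a (s 0)) (min b (s (nn l))) x0 := by
    rw [← ct_ct, ct_self hsupp]
  have hne : max a (s 0) < min b (s (nn l)) := by
    by_contra hc
    have h0 : ct a b x0 = 0 := by
      rw [hct]
      refine ct_none (fun k _ => ?_)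
      omega
    rw [h0, map_zero, LinearMap.zero_apply] at hab
    linarith
  obtain ⟨U, hU, hUlo, hUhi, hUy⟩ := restr T0 hT0 _ _ hne
  have hρ : ip (ct a b x0) (yv T0) = 2 * ip x0 (yv U) := by
    rw [hct, ip_ct, hUy, map_smul, smul_eq_mul]
  set ρ := ip x0 (yv U) with hρdef
  have hρ1 : 1 / 8 < ρ := by linarith
  have hρ0 : 0 < ρ := by linarith
  set T : Tr := .comb (s 0) (s (nn l)) 1 0 U U with hT
  have hTv : Valid T := by
    rw [hT, valid_comb]
    refine ⟨hU, hU, by norm_num, ?_, ?_, ?_, ?_⟩ <;> omega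
  have hTy : yv T = yv U := by
    rw [hT]
    simp only [yv, Rat.cast_one, one_smul, Rat.cast_zero, zero_smul, add_zero]
  have hinv : ρ⁻¹ ≤ 8 := by
    rw [inv_le_comm₀ hρ0 (by norm_num)]
    linarith
  have hinv0 : 0 < ρ⁻¹ := inv_pos.2 hρ0
  set z : ℕ →₀ ℝ := ρ⁻¹ • x0 with hz
  have hzP : z ∈ P := P.smul_mem _ hP0
  have hzsupp : ∀ n, z n ≠ 0 → s 0 ≤ n ∧ n < s (nn l) := by
    intro n hn
    apply hsupp
    intro h
    apply hn
    rw [hz, Finsupp.smul_apply, h, smul_zero]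
  have hzip : ip z (yv T) = 1 := by
    rw [hz, hTy, map_smul, LinearMap.smul_apply, smul_eq_mul, ← hρdef]
    exact inv_mul_cancel₀ hρ0.ne'
  have hznV : nV z ≤ 32 := by
    rw [hz, nV_smul, abs_of_pos hinv0]
    have := nV_nonneg x0
    nlinarith
  obtain ⟨x', hx'1, hx'2⟩ := exists_rv z (min η 1) (by positivity)
  have hη' : l1 (rv x' - z) ≤ η := hx'2.trans (min_le_left _ _)
  have h1' : l1 (rv x' - z) ≤ 1 := hx'2.trans (min_le_right _ _)
  have hrv : rv x' = z + (rv x' - z) := by abel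
  refine ⟨x', T, hTv, hs0, ?_, ?_, ?_, ?_, z, hzP, hη'⟩
  · intro n hn
    exact hzsupp n (hx'1 n hn)
  · have : ip (rv x') (yv T) - 1 = ip (rv x' - z) (yv T) := by
      rw [map_sub, LinearMap.sub_apply, hzip]
    rw [this]
    refine (ip_le_l1 (C := 1) (yv_le_one hTv)).trans ?_
    rw [one_mul]; exact hη'
  · rw [hrv]
    refine (nV_add _ _).trans ?_
    have := nV_le_l1 (rv x' - z)
    linarith
  · intro a b V i hV hi hil
    have hm : (0 : ℝ) < m i := by
      have := m_ge i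
      exact_mod_cast (by omega : 0 < m i)
    have e : ip (ct a b (rv x')) (yv V) = ρ⁻¹ * ip (ct a b x0) (yv V) +
        ip (ct a b (rv x' - z)) (yv V) := by
      conv_lhs => rw [hrv]
      rw [map_add, map_add, LinearMap.add_apply]
      congr 1
      rw [hz, map_smul, map_smul, LinearMap.smul_apply, smul_eq_mul]
    rw [e]
    have h1 : |ip (ct a b x0) (yv V)| ≤ 8 / m i :=
      avg_cls l x s hs (fun k hk => (hx k hk).2.2) (fun k hk => (hx k hk).2.1.le) V hV i hi hil a b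
    have h2 : |ip (ct a b (rv x' - z)) (yv V)| ≤ 1 / m i * 1 := by
      refine (ip_le_l1 (C := 1 / m i) (yv_cls hV hi)).trans ?_
      refine mul_le_mul_of_nonneg_left ((l1_ct _ _ _).trans h1') (by positivity)
    have h3 : |ρ⁻¹ * ip (ct a b x0) (yv V)| ≤ 8 * (8 / m i) := by
      rw [abs_mul, abs_of_pos hinv0]
      exact mul_le_mul hinv h1 (abs_nonneg _) (by norm_num)
    calc |ρ⁻¹ * ip (ct a b x0) (yv V) + ip (ct a b (rv x' - z)) (yv V)|
        ≤ 8 * (8 / m i) + 1 / m i * 1 := (abs_add_le _ _).trans (add_le_add h3 h2)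
      _ = 65 / m i := by ring
      _ ≤ 256 / m i := by gcongr; norm_num

end Pool.Agent.Helper60.HD
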