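import Pool.Agent.Helper60.HD.VHIa
import Pool.Agent.Helper60.HD.Ex1
import Pool.Agent.Helper60.HD.SrcV
import Pool.Agent.Helper60.HD.Seq

/-!
# V is hereditarily indecomposable
-/

set_option autoImplicit false

namespace Pool.Agent.Helper60.HD

open Finset

/-- exact pairs close to a given far submodule -/
lemma VHI_pair (P : Submodule ℝ (ℕ →₀ ℝ)) (hP : Far P) (c : ℕ) (hc : Even c) (p : ℕ) (δ η : ℝ)
    (hδ : 0 < δ) (hη : 0 < η) :
    ∃ (v : ℕ →₀ ℚ) (T : Tr), Valid T ∧ p ≤ T.lo ∧ T.cls = some c ∧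
      (∀ n ∈ v.support, T.lo ≤ n ∧ n < T.hi) ∧ GoodC v T ∧ |ip (rv v) (yv T) - 1| ≤ δ ∧
      ∃ z ∈ P, l1 (rv v - z) ≤ η := by
  have hm : (0 : ℝ) < m c := by
    have := m_ge c
    exact_mod_cast (by omega : 0 < m c)
  have h2 : (0 : ℝ) < 2 ^ rr c := by positivity
  obtain ⟨x, g, v, T, hT, hp, hcls, hsupp, hgood, hone, hv, _, hk⟩ :=
    exact_pair (fun x _ η => ∃ z ∈ P, l1 (rv x - z) ≤ η) (src_V P hP) c hc p
      (min δ (η / (m c * 2 ^ rr c))) (lt_min hδ (by positivity))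
  choose! z hz hzl using fun k (hk' : k < nn c) => (hk k hk').1
  refine ⟨v, T, hT, hp, hcls, hsupp, ⟨c, hcls, hgood⟩, hone.trans (min_le_left _ _),
    ((m c : ℝ) / 2 ^ rr c) • ∑ k ∈ range (nn c), z k,
    P.smul_mem _ (P.sum_mem fun k hk' => hz k (mem_range.1 hk')), ?_⟩
  have e : rv v - ((m c : ℝ) / 2 ^ rr c) • ∑ k ∈ range (nn c), z k
      = ((m c : ℝ) / 2 ^ rr c) • ∑ k ∈ range (nn c), (rv (x k) - z k) := by
    rw [hv, ← smul_sub, Finset.sum_sub_distrib]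
  rw [e, l1_smul, abs_of_pos (by positivity)]
  calc (m c : ℝ) / 2 ^ rr c * l1 (∑ k ∈ range (nn c), (rv (x k) - z k))
      ≤ (m c : ℝ) / 2 ^ rr c * ∑ k ∈ range (nn c), l1 (rv (x k) - z k) := by
        gcongr
        exact l1_sum _ _
    _ ≤ (m c : ℝ) / 2 ^ rr c * ∑ k ∈ range (nn c), η / (m c * 2 ^ rr c) := by
        gcongr with k hk'
        exact (hzl k (mem_range.1 hk')).trans (min_le_right _ _)
    _ = η := by
        rw [sum_const, card_range, nsmul_eq_mul, nn_cast]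
        field_simp

theorem v_hi (P₁ P₂ : Submodule ℝ (ℕ →₀ ℝ)) (h₁ : Far P₁) (h₂ : Far P₂) (ε : ℝ) (hε : 0 < ε) :
    ∃ a ∈ P₁, ∃ b ∈ P₂, nV (a - b) < ε * nV (a + b) := by
  obtain ⟨C, hC0, hC⟩ := alt_est
  obtain ⟨j, hj, hmj⟩ := exists_odd (2 * (C + 1 + ε) / ε + 1)
  have hm : (0 : ℝ) < m j := by
    have := m_ge j
    exact_mod_cast (by omega : 0 < m j)
  have h2 : (0 : ℝ) < 2 ^ rr j := by positivity
  have hnn : (0 : ℝ) < nn j := by rw [nn_cast]; positivity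
  -- the two submodules, by parity
  let PP : ℕ → Submodule ℝ (ℕ →₀ ℝ) := fun k => if Even k then P₁ else P₂
  have hPP : ∀ k, Far (PP k) := by
    intro k
    by_cases h : Even k
    · simp only [PP, h, if_true]; exact h₁
    · simp only [PP, h, if_false]; exact h₂
  obtain ⟨f, v, hfv, hsuc⟩ := spec_seq j
    (fun k v T => GoodC v T ∧ |ip (rv v) (yv T) - 1| ≤ 1 / nn j ∧
      ∃ z ∈ PP k, l1 (rv v - z) ≤ 1 / ((m j : ℝ) ^ 2 * 2 ^ rr j))
    (fun k c p hc => by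
      obtain ⟨v, T, h1, h2, h3, h4, h5, h6, h7⟩ :=
        VHI_pair (PP k) (hPP k) c hc p (1 / nn j) (1 / ((m j : ℝ) ^ 2 * 2 ^ rr j))
          (by positivity) (by positivity)
      exact ⟨v, T, h1, h2, h3, h4, h5, h6, h7⟩) 0 (nn j)
  choose z hzP hzl using fun k => (hfv k).2.2.2.2.2.2
  -- total error
  have herr : ∀ s : Fin (nn j) → ℝ, (∀ k, |s k| ≤ 1) →
      l1 ((1 / (2 : ℝ) ^ rr j) • ∑ k, s k • (rv (v k) - z k)) ≤ 1 / (m j : ℝ) ^ 2 := by
    intro s hs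
    rw [l1_smul, abs_of_pos (by positivity)]
    calc 1 / (2 : ℝ) ^ rr j * l1 (∑ k, s k • (rv (v k) - z k))
        ≤ 1 / (2 : ℝ) ^ rr j * ∑ k, l1 (s k • (rv (v k) - z k)) := by
          gcongr
          exact l1_sum _ _
      _ ≤ 1 / (2 : ℝ) ^ rr j * ∑ k : Fin (nn j), 1 / ((m j : ℝ) ^ 2 * 2 ^ rr j) := by
          gcongr with k _
          rw [l1_smul]
          calc |s k| * l1 (rv (v k) - z k) ≤ 1 * l1 (rv (v k) - z k) :=
                mul_le_mul_of_nonneg_right (hs k) (l1_nonneg _)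
            _ ≤ _ := by rw [one_mul]; exact hzl k
      _ = 1 / (m j : ℝ) ^ 2 := by
          rw [sum_const, card_univ, Fintype.card_fin, nsmul_eq_mul, nn_cast]
          field_simp
  -- supports
  have hdisj : ∀ k l, k ≠ l → ip (rv (v k)) (yv (f l)) = 0 := by
    intro k l hkl
    refine ip_disj fun n hn hn' => ?_
    have h3 : n ∈ (v k).support := by
      rw [Finsupp.mem_support_iff]
      intro h0
      apply hn
      rw [rv_apply, h0, Rat.cast_zero]
    have h4 := (hfv k).2.2.2.1 n h3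
    have h5 := yv_supp (hfv l).1 hn'
    rcases lt_or_gt_of_ne hkl with h | h
    · have := hsuc k l h; omega
    · have := hsuc l k h; omega
  -- an upper bound of the boxes
  obtain ⟨q, hq⟩ : ∃ q, ∀ k, (f k).hi ≤ q :=
    ⟨∑ k, (f k).hi, fun k => Finset.single_le_sum (f := fun k => (f k).hi)
      (fun _ _ => Nat.zero_le _) (mem_univ k)⟩
  have hV : Valid (.node ⟨0, q, j, nn j, rr j, fun _ => (1 / 2) ^ rr j, v⟩ f) :=
    spec_node j hj f v 0 q (fun k => ⟨(hfv k).1, (hfv k).2.2.1, (hfv k).2.2.2.1,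
      Nat.zero_le _, hq k⟩) hsuc
  -- the two vectors
  have ha : (1 / (2 : ℝ) ^ rr j) • ∑ k ∈ univ.filter (fun k : Fin (nn j) => Even (k : ℕ)), z k ∈ P₁ := by
    refine P₁.smul_mem _ (P₁.sum_mem fun k hk => ?_)
    have h3 := hzP k
    simp only [PP, (mem_filter.1 hk).2, if_true] at h3
    exact h3
  have hb : (1 / (2 : ℝ) ^ rr j) • ∑ k ∈ univ.filter (fun k : Fin (nn j) => ¬ Even (k : ℕ)), z k ∈ P₂ := by
    refine P₂.smul_mem _ (P₂.sum_mem fun k hk => ?_)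
    have h3 := hzP k
    simp only [PP, (mem_filter.1 hk).2, if_false] at h3
    exact h3
  refine ⟨_, ha, _, hb, ?_⟩
  have hab : (1 / (2 : ℝ) ^ rr j) • ∑ k ∈ univ.filter (fun k : Fin (nn j) => Even (k : ℕ)), z k +
      (1 / (2 : ℝ) ^ rr j) • ∑ k ∈ univ.filter (fun k : Fin (nn j) => ¬ Even (k : ℕ)), z k =
      (1 / (2 : ℝ) ^ rr j) • ∑ k, rv (v k) -
        (1 / (2 : ℝ) ^ rr j) • ∑ k, (1 : ℝ) • (rv (v k) - z k) := by
    rw [← smul_add, Finset.sum_filter_add_sum_filter_not, ← smul_sub, ← Finset.sum_sub_distrib]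
    congr 1
    refine Finset.sum_congr rfl fun k _ => ?_
    rw [one_smul]; abel
  have hamb : (1 / (2 : ℝ) ^ rr j) • ∑ k ∈ univ.filter (fun k : Fin (nn j) => Even (k : ℕ)), z k -
      (1 / (2 : ℝ) ^ rr j) • ∑ k ∈ univ.filter (fun k : Fin (nn j) => ¬ Even (k : ℕ)), z k =
      (1 / (2 : ℝ) ^ rr j) • ∑ k : Fin (nn j), ((-1 : ℝ) ^ (k : ℕ)) • rv (v k) +
        (1 / (2 : ℝ) ^ rr j) • ∑ k : Fin (nn j), (-(-1 : ℝ) ^ (k : ℕ)) • (rv (v k) - z k) := by
    have e1 : ∑ k : Fin (nn j), ((-1 : ℝ) ^ (k : ℕ)) • z k =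
        ∑ k ∈ univ.filter (fun k : Fin (nn j) => Even (k : ℕ)), z k -
        ∑ k ∈ univ.filter (fun k : Fin (nn j) => ¬ Even (k : ℕ)), z k := by
      rw [← Finset.sum_filter_add_sum_filter_not univ (fun k : Fin (nn j) => Even (k : ℕ)),
        sub_eq_add_neg, ← Finset.sum_neg_distrib]
      congr 1
      · refine Finset.sum_congr rfl fun k hk => ?_
        rw [(mem_filter.1 hk).2.neg_one_pow, one_smul]
      · refine Finset.sum_congr rfl fun k hk => ?_
        rw [(Nat.not_even_iff_odd.1 (mem_filter.1 hk).2).neg_one_pow, neg_one_smul]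
    rw [← smul_sub, ← e1, ← smul_add, ← Finset.sum_add_distrib]
    congr 1
    refine Finset.sum_congr rfl fun k _ => ?_
    rw [smul_sub, neg_smul, neg_smul]; abel
  -- upper bound
  have hup : nV ((1 / (2 : ℝ) ^ rr j) • ∑ k ∈ univ.filter (fun k : Fin (nn j) => Even (k : ℕ)), z k -
      (1 / (2 : ℝ) ^ rr j) • ∑ k ∈ univ.filter (fun k : Fin (nn j) => ¬ Even (k : ℕ)), z k) ≤
      C / (m j : ℝ) ^ 2 + 1 / (m j : ℝ) ^ 2 := by
    rw [hamb]
    refine (nV_add _ _).trans (add_le_add ?_ ((nV_le_l1 _).trans (herr _ fun k => ?_)))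
    · exact hC j f v hj (fun k => ⟨(hfv k).1, (hfv k).2.2.1, (hfv k).2.2.2.1, (hfv k).2.2.2.2.1,
        (hfv k).2.2.2.2.2.1⟩) hsuc
    · rw [abs_neg, abs_pow, abs_neg, abs_one, one_pow]
  -- lower bound
  have hlow : 1 / (2 * (m j : ℝ)) - 1 / (m j : ℝ) ^ 2 ≤
      nV ((1 / (2 : ℝ) ^ rr j) • ∑ k ∈ univ.filter (fun k : Fin (nn j) => Even (k : ℕ)), z k +
      (1 / (2 : ℝ) ^ rr j) • ∑ k ∈ univ.filter (fun k : Fin (nn j) => ¬ Even (k : ℕ)), z k) := by
    rw [hab]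
    refine le_trans ?_ (le_trans (le_abs_self _) (ip_le_nV hV _))
    rw [map_sub, LinearMap.sub_apply]
    have e2 : ip ((1 / (2 : ℝ) ^ rr j) • ∑ k, rv (v k))
        (yv (.node ⟨0, q, j, nn j, rr j, fun _ => (1 / 2) ^ rr j, v⟩ f)) =
        (1 / (2 : ℝ) ^ rr j) * (1 / (m j : ℝ) * ((1 / (2 : ℝ) ^ rr j) *
          ∑ k, ip (rv (v k)) (yv (f k)))) := by
      have e3 : yv (.node ⟨0, q, j, nn j, rr j, fun _ => (1 / 2) ^ rr j, v⟩ f) =
          (1 / (m j : ℝ)) • ∑ k, (1 / (2 : ℝ) ^ rr j) • yv (f k) := by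
        simp only [yv]
        congr 1
        refine Finset.sum_congr rfl fun k _ => ?_
        congr 1
        push_cast
        rw [one_div_pow]
      have e8 : ip (∑ k, rv (v k)) (∑ k, yv (f k)) = ∑ k, ip (rv (v k)) (yv (f k)) := by
        rw [map_sum]
        refine Finset.sum_congr rfl fun l _ => ?_
        rw [map_sum, LinearMap.sum_apply]
        exact Finset.sum_eq_single_of_mem l (mem_univ l) fun k _ hk => hdisj k l hk
      rw [e3, ← Finset.smul_sum, map_smul, map_smul, map_smul, LinearMap.smul_apply]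
      simp only [smul_eq_mul]
      rw [e8]; ring
    have e4 : |ip ((1 / (2 : ℝ) ^ rr j) • ∑ k, (1 : ℝ) • (rv (v k) - z k))
        (yv (.node ⟨0, q, j, nn j, rr j, fun _ => (1 / 2) ^ rr j, v⟩ f))| ≤ 1 / (m j : ℝ) ^ 2 := by
      refine (ip_le_l1 (C := 1) fun n => yv_le_one hV n).trans ?_
      rw [one_mul]
      exact herr (fun _ => 1) fun k => by rw [abs_one]
    have e5 : (nn j : ℝ) * (1 - 1 / nn j) ≤ ∑ k, ip (rv (v k)) (yv (f k)) := by
      calc (nn j : ℝ) * (1 - 1 / nn j) = ∑ k : Fin (nn j), (1 - 1 / (nn j : ℝ)) := by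
            rw [sum_const, card_univ, Fintype.card_fin, nsmul_eq_mul]
        _ ≤ _ := Finset.sum_le_sum fun k _ => by
            have := (abs_le.1 (hfv k).2.2.2.2.2.1).1
            linarith
    have e6 : (2 : ℝ) ≤ nn j := by
      have h3 : 1 ≤ rr j := by
        rw [rr_eq]
        have := m_ge j
        nlinarith
      rw [nn_cast]
      have h4 : (2 : ℝ) ^ 1 ≤ 2 ^ rr j := pow_le_pow_right₀ (by norm_num) h3
      nlinarith
    rw [e2]
    have e7 : 1 / (2 * (m j : ℝ)) ≤ (1 / (2 : ℝ) ^ rr j) * (1 / (m j : ℝ) * ((1 / (2 : ℝ) ^ rr j) *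
          ∑ k, ip (rv (v k)) (yv (f k)))) := by
      calc 1 / (2 * (m j : ℝ)) ≤ 1 / (m j : ℝ) * (1 - 1 / nn j) := by
            rw [one_div, mul_inv, mul_comm, one_div]
            apply mul_le_mul_of_nonneg_left _ (by positivity)
            have : 1 / (nn j : ℝ) ≤ 1 / 2 := one_div_le_one_div_of_le (by norm_num) e6
            linarith
        _ = (1 / (2 : ℝ) ^ rr j) * (1 / (m j : ℝ) * ((1 / (2 : ℝ) ^ rr j) *
          ((nn j : ℝ) * (1 - 1 / nn j)))) := by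
            rw [nn_cast]; field_simp
        _ ≤ _ := by gcongr
    have := (abs_le.1 e4).2
    linarith
  refine lt_of_le_of_lt hup (lt_of_lt_of_le ?_ (mul_le_mul_of_nonneg_left hlow hε.le))
  have h5 : C + 1 + ε < ε * m j / 2 := by
    have h6 : 2 * (C + 1 + ε) / ε < m j := by linarith
    rw [div_lt_iff₀ hε] at h6
    linarith
  have h7 : C / (m j : ℝ) ^ 2 + 1 / (m j : ℝ) ^ 2 = (C + 1) / (m j : ℝ) ^ 2 := by ring
  have h8 : ε * (1 / (2 * (m j : ℝ)) - 1 / (m j : ℝ) ^ 2) = (ε * m j / 2 - ε) / (m j : ℝ) ^ 2 := by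
    field_simp
  rw [h7, h8]
  exact div_lt_div_of_pos_right (by linarith) (by positivity)

end Pool.Agent.Helper60.HD
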