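import Pool.Agent.Helper60.HD.Det
import Pool.Agent.Helper60.HD.VHI

/-!
# X is hereditarily indecomposable
-/

set_option autoImplicit false

namespace Pool.Agent.Helper60.HD

/-- one step: a vector of `P` close to a vector of V -/
lemma xhi_step : ∃ C : ℝ, 1 ≤ C ∧ ∀ P : Submodule ℝ (ℕ →₀ ℝ), Far P → ∀ δ : ℝ, 0 < δ → C * δ ≤ 1 / 2 →
    ∀ M : ℕ, ∃ (b : ℕ) (g x : ℕ →₀ ℝ), M ≤ b ∧ g ∈ P ∧ (∀ n, x n ≠ 0 → M ≤ n ∧ n < b) ∧
      nN (g - jn x 0) ≤ C * δ ∧ 1 / 2 ≤ nV x := by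
  obtain ⟨Cd, hCd, hdec⟩ := nN_dec
  obtain ⟨Ct, hCt, htr⟩ := nN_tr
  refine ⟨1 + 2 * Ct, by linarith, ?_⟩
  intro P hP δ hδ hCδ M
  obtain ⟨g0, hg0, hg0n, hg0s, hg0d⟩ := det P hP δ hδ (2 * M)
  have hpos : 0 < nN g0 := nN_pos hg0n
  -- normalise
  set g : ℕ →₀ ℝ := (nN g0)⁻¹ • g0 with hg
  have hgP : g ∈ P := P.smul_mem _ hg0
  have hgN : nN g = 1 := by
    rw [hg, nN_smul, abs_of_pos (inv_pos.2 hpos)]
    exact inv_mul_cancel₀ hpos.ne'
  have hgd : nD (ys g) ≤ δ := by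
    rw [hg, map_smul, nD_smul, abs_of_pos (inv_pos.2 hpos)]
    rw [inv_mul_le_iff₀ hpos]
    linarith [mul_comm δ (nN g0)]
  have hgs : ∀ n, g n ≠ 0 → 2 * M ≤ n := by
    intro n hn
    apply hg0s
    intro h0
    apply hn
    rw [hg, Finsupp.smul_apply, h0, smul_zero]
  -- the upper end of the support
  obtain ⟨b, hbM, hb⟩ : ∃ b, M < b ∧ ∀ n, g n ≠ 0 → n < 2 * b := by
    refine ⟨g.support.sup id + M + 1, by omega, ?_⟩
    intro n hn
    have h1 : n ≤ g.support.sup id := Finset.le_sup (f := id) (Finsupp.mem_support_iff.2 hn)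
    omega
  obtain ⟨T, x', hT, -, -, hx's, hx'N, -⟩ := hdec M b hbM g (fun n hn => ⟨hgs n hn, hb n hn⟩) δ hδ hgd δ hδ
  have h1 : nN (g - jn x' 0) ≤ (1 + 2 * Ct) * δ := by
    have e : g - jn x' 0 = (g - jn x' 0 - (2 * δ) • jn (uv T) (yv T)) + (2 * δ) • jn (uv T) (yv T) := by abel
    rw [e]
    refine (nN_add _ _).trans ?_
    rw [nN_smul, abs_of_pos (by linarith)]
    have h2 := htr T hT
    nlinarith
  refine ⟨b, g, x', hbM.le, hgP, hx's, h1, ?_⟩
  have h3 : nN g ≤ nN (g - jn x' 0) + nN (jn x' 0) := by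
    have e : g = (g - jn x' 0) + jn x' 0 := by abel
    conv_lhs => rw [e]
    exact nN_add _ _
  rw [hgN, nN_jn0] at h3
  linarith

lemma xhi_jn_add (x y : ℕ →₀ ℝ) : jn (x + y) 0 = jn x 0 + jn y 0 := by
  rw [← jn_add, add_zero]

lemma xhi_jn_smul (c : ℝ) (x : ℕ →₀ ℝ) : jn (c • x) 0 = c • jn x 0 := by
  rw [← jn_smul, smul_zero]

/-- `jn x 0` as a linear map -/
noncomputable def xhiJ : (ℕ →₀ ℝ) →ₗ[ℝ] (ℕ →₀ ℝ) where
  toFun x := jn x 0
  map_add' := xhi_jn_add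
  map_smul' := xhi_jn_smul

lemma xhiJ_apply (x : ℕ →₀ ℝ) : xhiJ x = jn x 0 := rfl

lemma xhi_geom (S : Finset ℕ) : ∑ k ∈ S, (1 / 2 : ℝ) ^ (k + 1) ≤ 1 := by
  have h1 : Summable fun k : ℕ => (1 / 2 : ℝ) ^ (k + 1) := by
    have h5 := summable_geometric_two.mul_right (1 / 2 : ℝ)
    refine h5.congr fun k => ?_
    rw [pow_succ]
  have h2 : ∑' k : ℕ, (1 / 2 : ℝ) ^ (k + 1) = 1 := by
    have h3 := tsum_geometric_two
    have h4 : ∀ k : ℕ, (1 / 2 : ℝ) ^ (k + 1) = (1 / 2 : ℝ) ^ k * (1 / 2) := fun k => pow_succ _ _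
    simp_rw [h4]
    rw [tsum_mul_right, h3]
    norm_num
  exact (h1.sum_le_tsum S (fun k _ => by positivity)).trans h2.le

/-- error of a linear combination -/
lemma xhi_err (g x : ℕ → (ℕ →₀ ℝ)) (c : ℕ →₀ ℝ) (K σ : ℝ) (hK : 0 ≤ K) (hσ : 0 ≤ σ)
    (h1 : ∀ k, nN (g k - jn (x k) 0) ≤ σ * (1 / 2) ^ (k + 1)) (h2 : ∀ k, |c k| ≤ K) :
    nN ((c.sum fun k r => r • g k) - jn (c.sum fun k r => r • x k) 0) ≤ K * σ := by
  have e : (c.sum fun k r => r • g k) - jn (c.sum fun k r => r • x k) 0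
      = ∑ k ∈ c.support, c k • (g k - jn (x k) 0) := by
    rw [← xhiJ_apply, Finsupp.sum, Finsupp.sum, map_sum, ← Finset.sum_sub_distrib]
    refine Finset.sum_congr rfl fun k _ => ?_
    rw [map_smul, xhiJ_apply, smul_sub]
  rw [e]
  refine (nN_sum _ _).trans ?_
  calc ∑ k ∈ c.support, nN (c k • (g k - jn (x k) 0))
      ≤ ∑ k ∈ c.support, K * σ * (1 / 2) ^ (k + 1) := by
        refine Finset.sum_le_sum fun k _ => ?_
        rw [nN_smul, mul_assoc]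
        exact mul_le_mul (h2 k) (h1 k) (nN_nonneg _) hK
    _ = K * σ * ∑ k ∈ c.support, (1 / 2 : ℝ) ^ (k + 1) := by rw [Finset.mul_sum]
    _ ≤ K * σ * 1 := mul_le_mul_of_nonneg_left (xhi_geom _) (mul_nonneg hK hσ)
    _ = K * σ := mul_one _

/-- coefficient recovery by restriction -/
lemma xhi_ct (x : ℕ → (ℕ →₀ ℝ)) (s : ℕ → ℕ) (hs : Monotone s)
    (hx : ∀ k n, x k n ≠ 0 → s k ≤ n ∧ n < s (k + 1)) (φ : ℕ → ℕ) (hφ : Function.Injective φ) (c : ℕ →₀ ℝ) (k : ℕ) :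
    ct (s (φ k)) (s (φ k + 1)) (c.sum fun k r => r • x (φ k)) = c k • x (φ k) := by
  rw [Finsupp.sum, map_sum]
  have h1 : ∀ l, l ≠ k → ct (s (φ k)) (s (φ k + 1)) (c l • x (φ l)) = 0 := by
    intro l hl
    have hne : φ l ≠ φ k := fun h => hl (hφ h)
    apply ct_none
    intro n hn
    have h2 : x (φ l) n ≠ 0 := by
      intro h0
      apply hn
      rw [Finsupp.smul_apply, h0, smul_zero]
    obtain ⟨h3, h4⟩ := hx _ _ h2
    rcases lt_or_gt_of_ne hne with h | h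
    · left
      exact lt_of_lt_of_le h4 (hs h)
    · right
      exact le_trans (hs h) h3
  have h2 : ct (s (φ k)) (s (φ k + 1)) (c k • x (φ k)) = c k • x (φ k) := by
    apply ct_self
    intro n hn
    apply hx
    intro h0
    apply hn
    rw [Finsupp.smul_apply, h0, smul_zero]
  by_cases hk : k ∈ c.support
  · rw [Finset.sum_eq_single k, h2]
    · intro l _ hl
      exact h1 l hl
    · intro h
      exact absurd hk h
  · have h3 : c k = 0 := by simpa using hk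
    rw [h3, zero_smul]
    refine Finset.sum_eq_zero fun l hl => ?_
    apply h1
    rintro rfl
    exact hk hl

lemma xhi_ct_zero (x : ℕ → (ℕ →₀ ℝ)) (s : ℕ → ℕ) (hs : Monotone s)
    (hx : ∀ k n, x k n ≠ 0 → s k ≤ n ∧ n < s (k + 1)) (φ : ℕ → ℕ) (c : ℕ →₀ ℝ) (k : ℕ) (hk : ∀ l, φ l ≠ k) :
    ct (s k) (s (k + 1)) (c.sum fun k r => r • x (φ k)) = 0 := by
  rw [Finsupp.sum, map_sum]
  refine Finset.sum_eq_zero fun l hl => ?_
  apply ct_none
  intro n hn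
  have h2 : x (φ l) n ≠ 0 := by
    intro h0
    apply hn
    rw [Finsupp.smul_apply, h0, smul_zero]
  obtain ⟨h3, h4⟩ := hx _ _ h2
  rcases lt_or_gt_of_ne (hk l) with h | h
  · left
    exact lt_of_lt_of_le h4 (hs h)
  · right
    exact le_trans (hs h) h3

theorem x_hi (P₁ P₂ : Submodule ℝ (ℕ →₀ ℝ)) (h₁ : Far P₁) (h₂ : Far P₂) (ε : ℝ) (hε : 0 < ε) :
    ∃ a ∈ P₁, ∃ b ∈ P₂, nN (a - b) < ε * nN (a + b) := by
  obtain ⟨C, hC, hstep⟩ := xhi_step
  -- parameters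
  set σ : ℝ := min (1 / 8) (ε / 16) with hσd
  have hσ : 0 < σ := lt_min (by norm_num) (by positivity)
  have hσ1 : σ ≤ 1 / 8 := min_le_left _ _
  have hσ2 : σ ≤ ε / 16 := min_le_right _ _
  have hC0 : 0 < C := by linarith
  let δ : ℕ → ℝ := fun k => σ / C * (1 / 2) ^ (k + 1)
  have hδ : ∀ k, 0 < δ k := fun k => by positivity
  have hCδ : ∀ k, C * δ k = σ * (1 / 2) ^ (k + 1) := fun k => by
    simp only [δ]
    field_simp
  have hCδ' : ∀ k, C * δ k ≤ 1 / 2 := fun k => by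
    rw [hCδ]
    have : (1 / 2 : ℝ) ^ (k + 1) ≤ 1 := pow_le_one₀ (by norm_num) (by norm_num)
    nlinarith
  have hchoice : ∀ (k M : ℕ), ∃ (b : ℕ) (g x : ℕ →₀ ℝ), M ≤ b ∧ g ∈ (if Even k then P₁ else P₂) ∧
      (∀ n, x n ≠ 0 → M ≤ n ∧ n < b) ∧ nN (g - jn x 0) ≤ C * δ k ∧ 1 / 2 ≤ nV x := by
    intro k M
    refine hstep _ ?_ (δ k) (hδ k) (hCδ' k) M
    split_ifs
    · exact h₁
    · exact h₂
  choose bb gg xx hb1 hb2 hb3 hb4 hb5 using hchoice
  let s : ℕ → ℕ := fun k => Nat.rec 0 (fun k M => bb k M) k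
  have hs1 : ∀ k, s (k + 1) = bb k (s k) := fun k => rfl
  let g : ℕ → (ℕ →₀ ℝ) := fun k => gg k (s k)
  let x : ℕ → (ℕ →₀ ℝ) := fun k => xx k (s k)
  have hs : Monotone s := monotone_nat_of_le_succ fun k => by
    rw [hs1]; exact hb1 _ _
  have hg : ∀ k, g k ∈ (if Even k then P₁ else P₂) := fun k => hb2 _ _
  have hx : ∀ k n, x k n ≠ 0 → s k ≤ n ∧ n < s (k + 1) := fun k n hn => by
    rw [hs1]; exact hb3 _ _ n hn
  have hgx : ∀ k, nN (g k - jn (x k) 0) ≤ σ * (1 / 2) ^ (k + 1) := fun k => by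
    rw [← hCδ]; exact hb4 _ _
  have hxV : ∀ k, 1 / 2 ≤ nV (x k) := fun k => hb5 _ _
  have hx0 : ∀ k, x k ≠ 0 := by
    intro k h0
    have h1 := hxV k
    rw [h0] at h1
    have h2 : nV (0 : ℕ →₀ ℝ) = 0 := by
      have := nV_smul 0 (0 : ℕ →₀ ℝ)
      simpa using this
    rw [h2] at h1
    norm_num at h1
  -- s is unbounded
  have hsk : ∀ k, k ≤ s k := by
    intro k
    induction k with
    | zero => exact Nat.zero_le _
    | succ k ih =>
      obtain ⟨n, hn⟩ : ∃ n, x k n ≠ 0 := by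
        by_contra hcon
        push Not at hcon
        exact hx0 k (Finsupp.ext hcon)
      have := hx k n hn
      omega
  have far : ∀ φ : ℕ → ℕ, (∀ k, k ≤ φ k) → Far (Submodule.span ℝ (Set.range fun k => x (φ k))) := by
    intro φ hφ M
    refine ⟨x (φ M), Submodule.subset_span ⟨M, rfl⟩, hx0 _, ?_⟩
    intro n hn
    have h1 := (hx _ _ hn).1
    have h2 := hsk (φ M)
    have h3 := hφ M
    omega
  let φ₁ : ℕ → ℕ := fun k => 2 * k
  let φ₂ : ℕ → ℕ := fun k => 2 * k + 1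
  have hφ₁ : Function.Injective φ₁ := fun a b h => by simp only [φ₁] at h; omega
  have hφ₂ : Function.Injective φ₂ := fun a b h => by simp only [φ₂] at h; omega
  obtain ⟨a, ha, b, hb, hab⟩ := v_hi _ _ (far φ₁ fun k => by simp only [φ₁]; omega)
    (far φ₂ fun k => by simp only [φ₂]; omega) (ε / 4) (by positivity)
  rw [Finsupp.mem_span_range_iff_exists_finsupp] at ha hb
  obtain ⟨c, hc⟩ := ha
  obtain ⟨d, hd⟩ := hb
  set Nab : ℝ := nV (a + b) with hN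
  have hNp : 0 < Nab := by
    have h1 := nV_nonneg (a - b)
    by_contra hcon
    push Not at hcon
    nlinarith
  -- coefficients
  have hcK : ∀ k, |c k| ≤ 2 * Nab := by
    intro k
    have h1 : ct (s (φ₁ k)) (s (φ₁ k + 1)) (a + b) = c k • x (φ₁ k) := by
      rw [map_add, ← hc, ← hd, xhi_ct x s hs hx φ₁ hφ₁ c k,
        xhi_ct_zero x s hs hx φ₂ d (φ₁ k) (fun l => by simp only [φ₁, φ₂]; omega), add_zero]
    have h2 := nV_ct (s (φ₁ k)) (s (φ₁ k + 1)) (a + b)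
    rw [h1, nV_smul] at h2
    have h3 := hxV (φ₁ k)
    nlinarith [abs_nonneg (c k)]
  have hdK : ∀ k, |d k| ≤ 2 * Nab := by
    intro k
    have h1 : ct (s (φ₂ k)) (s (φ₂ k + 1)) (a + b) = d k • x (φ₂ k) := by
      rw [map_add, ← hc, ← hd, xhi_ct x s hs hx φ₂ hφ₂ d k,
        xhi_ct_zero x s hs hx φ₁ c (φ₂ k) (fun l => by simp only [φ₁, φ₂]; omega), zero_add]
    have h2 := nV_ct (s (φ₂ k)) (s (φ₂ k + 1)) (a + b)
    rw [h1, nV_smul] at h2
    have h3 := hxV (φ₂ k)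
    nlinarith [abs_nonneg (d k)]
  -- the errors
  have hle : ∀ φ : ℕ → ℕ, (∀ k, k ≤ φ k) → ∀ k, nN (g (φ k) - jn (x (φ k)) 0) ≤ σ * (1 / 2) ^ (k + 1) := by
    intro φ hφ k
    refine (hgx (φ k)).trans ?_
    refine mul_le_mul_of_nonneg_left ?_ hσ.le
    exact pow_le_pow_of_le_one (by norm_num) (by norm_num) (Nat.add_le_add_right (hφ k) 1)
  have e1 := xhi_err (fun k => g (φ₁ k)) (fun k => x (φ₁ k)) c (2 * Nab) σ (by positivity) hσ.le
    (hle φ₁ fun k => by simp only [φ₁]; omega) hcK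
  have e2 := xhi_err (fun k => g (φ₂ k)) (fun k => x (φ₂ k)) d (2 * Nab) σ (by positivity) hσ.le
    (hle φ₂ fun k => by simp only [φ₂]; omega) hdK
  rw [hc] at e1
  rw [hd] at e2
  set A : ℕ →₀ ℝ := c.sum fun k r => r • g (φ₁ k) with hA
  set B : ℕ →₀ ℝ := d.sum fun k r => r • g (φ₂ k) with hB
  refine ⟨A, ?_, B, ?_, ?_⟩
  · rw [hA, Finsupp.sum]
    refine P₁.sum_mem fun k _ => P₁.smul_mem _ ?_
    have := hg (φ₁ k)
    rwa [if_pos (by simp [φ₁])] at this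
  · rw [hB, Finsupp.sum]
    refine P₂.sum_mem fun k _ => P₂.smul_mem _ ?_
    have := hg (φ₂ k)
    rwa [if_neg (by simp only [φ₂]; exact Nat.not_even_iff_odd.2 ⟨k, rfl⟩)] at this
  · -- upper estimate
    have u1 : nN (A - B) ≤ 2 * Nab * σ + 2 * Nab * σ + nV (a - b) := by
      have e : A - B = ((A - jn a 0) + (-1 : ℝ) • (B - jn b 0)) + jn (a - b) 0 := by
        have h1 : jn (a - b) 0 = jn a 0 - jn b 0 := by
          rw [← xhiJ_apply, map_sub]; rfl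
        rw [h1]
        module
      rw [e]
      refine (nN_add _ _).trans ?_
      rw [nN_jn0]
      refine add_le_add ?_ le_rfl
      refine (nN_add _ _).trans ?_
      rw [nN_smul]
      have : |(-1 : ℝ)| = 1 := by norm_num
      rw [this, one_mul]
      exact add_le_add e1 e2
    -- lower estimate
    have l1 : Nab ≤ 2 * Nab * σ + 2 * Nab * σ + nN (A + B) := by
      have e : jn (a + b) 0 = ((-1 : ℝ) • (A - jn a 0) + (-1 : ℝ) • (B - jn b 0)) + (A + B) := by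
        rw [xhi_jn_add]
        module
      have e3 : Nab = nN (jn (a + b) 0) := by rw [hN, nN_jn0]
      refine e3.le.trans ?_
      rw [e]
      refine (nN_add _ _).trans ?_
      refine add_le_add ?_ le_rfl
      refine (nN_add _ _).trans ?_
      rw [nN_smul, nN_smul]
      have : |(-1 : ℝ)| = 1 := by norm_num
      rw [this, one_mul, one_mul]
      exact add_le_add e1 e2
    have l2 : Nab / 2 ≤ nN (A + B) := by nlinarith
    have u2 : nN (A - B) < ε / 2 * Nab := by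
      have h1 : 4 * Nab * σ ≤ ε / 4 * Nab := by nlinarith
      nlinarith
    calc nN (A - B) < ε / 2 * Nab := u2
      _ = ε * (Nab / 2) := by ring
      _ ≤ ε * nN (A + B) := mul_le_mul_of_nonneg_left l2 hε.le

end Pool.Agent.Helper60.HD
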