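import Pool.Agent.Helper60.HD.Dua
import Pool.Agent.Helper60.HD.XHI
import Pool.Agent.Helper32.Hit.B

/-!
# The final theorem
-/

set_option autoImplicit false

namespace Pool.Agent.Helper60.HD

open Pool.Agent.Helper64.Hit in
/-- a hereditarily indecomposable Banach space isomorphic to its dual -/
theorem main : ∃ (X : Type) (_ : NormedAddCommGroup X) (_ : NormedSpace ℝ X), CompleteSpace X ∧
    ¬ FiniteDimensional ℝ X ∧
    (∀ Y : Submodule ℝ X, IsClosed (Y : Set X) → ∀ P : Y →L[ℝ] Y, P ∘L P = P →
      FiniteDimensional ℝ (LinearMap.range P.toLinearMap) ∨ FiniteDimensional ℝ (LinearMap.ker P.toLinearMap)) ∧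
    Nonempty (X ≃L[ℝ] StrongDual ℝ X) := by
  obtain ⟨X, i1, i2, i3, J, hJ, hd⟩ := exists_completion nN nN_add nN_smul nN_coord
  have hcut : ∀ x a b, nN (cut a b x) ≤ nN x := fun x a b => nN_ct a b x
  obtain ⟨S⟩ := exists_ctx nN_coord hcut J hJ hd
  have n_hi : ∀ y w : ℕ → (ℕ →₀ ℝ), Blk y → Blk w → ∀ ε : ℝ, 0 < ε →
      ∃ a ∈ Submodule.span ℝ (Set.range y), ∃ b ∈ Submodule.span ℝ (Set.range w),
        nN (a - b) < ε * nN (a + b) := by
    have far : ∀ y : ℕ → (ℕ →₀ ℝ), Blk y → Far (Submodule.span ℝ (Set.range y)) := by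
      intro y hy M
      refine ⟨y M, Submodule.subset_span ⟨M, rfl⟩, hy.1 M, ?_⟩
      have key : ∀ k, ∀ n, y k n ≠ 0 → k ≤ n := by
        intro k
        induction k with
        | zero => intro n _; exact Nat.zero_le _
        | succ k ih =>
          intro n hn
          obtain ⟨n', hn'⟩ : ∃ n', y k n' ≠ 0 := by
            by_contra hcon
            push Not at hcon
            exact hy.1 k (Finsupp.ext hcon)
          have h1 := ih n' hn'
          have h2 := hy.2 k (k + 1) (Nat.lt_succ_self k) n' (Finsupp.mem_support_iff.2 hn') n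
            (Finsupp.mem_support_iff.2 hn)
          omega
      exact key M
    intro y w hy hw ε hε
    exact x_hi _ _ (far y hy) (far w hw) ε hε
  refine ⟨X, i1, i2, i3, ?_, ?_, dual_iso S⟩
  · intro hfd
    have hli : LinearIndependent ℝ (fun n : ℕ => S.J (Finsupp.single n 1)) := by
      rw [linearIndependent_iff']
      intro s g hg i hi
      have h1 := congrArg (S.es i) hg
      rw [map_sum, map_zero] at h1
      rw [Finset.sum_eq_single i] at h1
      · rw [map_smul, S.es_J] at h1
        simpa using h1
      · intro j _ hj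
        rw [map_smul, S.es_J]
        simp [hj]
      · intro h; exact absurd hi h
    have h3 := hli.lt_aleph0_of_finiteDimensional
    rw [Cardinal.mk_nat] at h3
    exact lt_irrefl _ h3
  · intro Y hY P hP
    by_contra hcon
    push Not at hcon
    obtain ⟨h1, h2⟩ := hcon
    have : CompleteSpace Y := hY.completeSpace_coe
    have hPP : ∀ y, P (P y) = P y := fun y => by
      have := congrArg (fun Q : Y →L[ℝ] Y => Q y) hP
      simpa using this
    set U : Submodule ℝ X := (LinearMap.range P.toLinearMap).map Y.subtype with hU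
    set W : Submodule ℝ X := (LinearMap.ker P.toLinearMap).map Y.subtype with hW
    have hemb : Topology.IsClosedEmbedding (Subtype.val : Y → X) := hY.isClosedEmbedding_subtypeVal
    have hUc : IsClosed (U : Set X) := by
      have e : (LinearMap.range P.toLinearMap : Set Y) = {y | P y = y} := by
        ext y
        constructor
        · rintro ⟨z, rfl⟩
          exact hPP z
        · intro hy
          exact ⟨y, hy⟩
      rw [hU, Submodule.map_coe]
      refine hemb.isClosedMap _ ?_
      rw [e]
      exact isClosed_eq P.continuous continuous_id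
    have hWc : IsClosed (W : Set X) := by
      rw [hW, Submodule.map_coe]
      refine hemb.isClosedMap _ ?_
      exact P.isClosed_ker
    have hinj : Function.Injective Y.subtype := Y.injective_subtype
    have hUf : ¬ FiniteDimensional ℝ U := by
      intro h
      exact h1 (Module.Finite.equiv (Submodule.equivMapOfInjective Y.subtype hinj _).symm)
    have hWf : ¬ FiniteDimensional ℝ W := by
      intro h
      exact h2 (Module.Finite.equiv (Submodule.equivMapOfInjective Y.subtype hinj _).symm)
    have hdis : Disjoint U W := by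
      rw [Submodule.disjoint_def]
      rintro x ⟨u, ⟨z, rfl⟩, rfl⟩ ⟨v, hv, hvu⟩
      have h5 : v = P z := hinj hvu
      have h6 : P v = 0 := hv
      rw [h5, hPP] at h6
      change ((P z : Y) : X) = 0
      rw [h6]; rfl
    refine S.hi n_hi U W hUc hWc hUf hWf hdis ?_
    have e : U ⊔ W = Y := by
      apply le_antisymm
      · refine sup_le ?_ ?_
        · rintro x ⟨u, _, rfl⟩; exact u.2
        · rintro x ⟨u, _, rfl⟩; exact u.2
      · intro x hx
        have h7 : x = ((P ⟨x, hx⟩ : Y) : X) + ((⟨x, hx⟩ - P ⟨x, hx⟩ : Y) : X) := by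
          push_cast; abel
        rw [h7]
        refine Submodule.add_mem_sup ⟨P ⟨x, hx⟩, ⟨⟨x, hx⟩, rfl⟩, rfl⟩ ⟨⟨x, hx⟩ - P ⟨x, hx⟩, ?_, rfl⟩
        change P (⟨x, hx⟩ - P ⟨x, hx⟩) = 0
        rw [map_sub, hPP, sub_self]
    rw [e]
    exact hY

end Pool.Agent.Helper60.HD
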