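import Pool.Agent.Helper60.HD.Anti
import Pool.Agent.Helper60.HD.Ilv

/-!
# The norm of X
-/

set_option autoImplicit false

namespace Pool.Agent.Helper60.HD

lemma Nrm_xs_ct (a b : ℕ) (z : ℕ →₀ ℝ) : xs (ct a b z) = ct ((a + 1) / 2) ((b + 1) / 2) (xs z) := by
  ext n
  rw [xs_apply, ct_apply, ct_apply, xs_apply]
  by_cases h : a ≤ 2 * n ∧ 2 * n < b
  · rw [if_pos h, if_pos (by omega)]
  · rw [if_neg h, if_neg (by omega)]

lemma Nrm_ys_ct (a b : ℕ) (z : ℕ →₀ ℝ) : ys (ct a b z) = ct (a / 2) (b / 2) (ys z) := by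
  ext n
  rw [ys_apply, ct_apply, ct_apply, ys_apply]
  by_cases h : a ≤ 2 * n + 1 ∧ 2 * n + 1 < b
  · rw [if_pos h, if_pos (by omega)]
  · rw [if_neg h, if_neg (by omega)]

lemma Nrm_xs_l1 (z : ℕ →₀ ℝ) : l1 (xs z) ≤ l1 z := by
  rw [l1_eq (xs z) (xs z).support (le_refl _)]
  have h1 : ∀ k ∈ (xs z).support, 2 * k ∈ z.support := by
    intro k hk
    rw [Finsupp.mem_support_iff, xs_apply] at hk
    exact Finsupp.mem_support_iff.2 hk
  calc ∑ k ∈ (xs z).support, |xs z k| = ∑ k ∈ (xs z).support.image (fun k => 2 * k), |z k| := by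
        rw [Finset.sum_image (by intro a _ b _ h; simpa using h)]
        exact Finset.sum_congr rfl fun k _ => by rw [xs_apply]
    _ ≤ ∑ k ∈ z.support, |z k| := by
        apply Finset.sum_le_sum_of_subset_of_nonneg
        · intro k hk
          obtain ⟨l, hl, rfl⟩ := Finset.mem_image.1 hk
          exact h1 l hl
        · intro k _ _
          exact abs_nonneg _

lemma Nrm_ys_l1 (z : ℕ →₀ ℝ) : l1 (ys z) ≤ l1 z := by
  rw [l1_eq (ys z) (ys z).support (le_refl _)]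
  have h1 : ∀ k ∈ (ys z).support, 2 * k + 1 ∈ z.support := by
    intro k hk
    rw [Finsupp.mem_support_iff, ys_apply] at hk
    exact Finsupp.mem_support_iff.2 hk
  calc ∑ k ∈ (ys z).support, |ys z k| = ∑ k ∈ (ys z).support.image (fun k => 2 * k + 1), |z k| := by
        rw [Finset.sum_image (by intro a _ b _ h; simpa using h)]
        exact Finset.sum_congr rfl fun k _ => by rw [ys_apply]
    _ ≤ ∑ k ∈ z.support, |z k| := by
        apply Finset.sum_le_sum_of_subset_of_nonneg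
        · intro k hk
          obtain ⟨l, hl, rfl⟩ := Finset.mem_image.1 hk
          exact h1 l hl
        · intro k _ _
          exact abs_nonneg _

lemma Nrm_uv_le {CA : ℝ} (hCA : ∀ (a b : ℕ) (T T' : Tr), Valid T → Valid T' →
    |ip (ct a b (uv T)) (yv T') - ip (ct a b (uv T')) (yv T)| ≤ CA) {T : Tr} (hT : Valid T) (n : ℕ) :
    |uv T n| ≤ CA := by
  have h := hCA n (n + 1) T (Tr.leaf n) hT (valid_leaf n)
  have h1 : ip (ct n (n + 1) (uv T)) (yv (Tr.leaf n)) = uv T n := by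
    rw [ip_comm, yv, ip_eq (Finsupp.single n 1) _ {n} Finsupp.support_single_subset]
    simp [ct_apply]
  have h2 : ip (ct n (n + 1) (uv (Tr.leaf n))) (yv T) = 0 := by
    rw [uv]
    simp
  rw [h1, h2, sub_zero] at h
  exact h

lemma Nrm_w_jn (z u y : ℕ →₀ ℝ) (a b : ℕ) : w (ct a b z) (jn u y) =
    ip (ct ((a + 1) / 2) ((b + 1) / 2) (xs z)) y - ip u (ct (a / 2) (b / 2) (ys z)) := by
  rw [w, xs_jn, ys_jn, Nrm_xs_ct, Nrm_ys_ct]

lemma Nrm_w_le {CA : ℝ} (hCA : ∀ (a b : ℕ) (T T' : Tr), Valid T → Valid T' →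
    |ip (ct a b (uv T)) (yv T') - ip (ct a b (uv T')) (yv T)| ≤ CA) (hCA1 : 1 ≤ CA)
    {T : Tr} (hT : Valid T) (z : ℕ →₀ ℝ) (a b : ℕ) :
    |w (ct a b z) (jn (uv T) (yv T))| ≤ (1 + CA) * l1 z := by
  rw [Nrm_w_jn]
  have h1 : |ip (ct ((a + 1) / 2) ((b + 1) / 2) (xs z)) (yv T)| ≤ 1 * l1 z :=
    (ip_le_l1 fun k => yv_le_one hT k).trans
      (mul_le_mul_of_nonneg_left ((l1_ct _ _ _).trans (Nrm_xs_l1 z)) zero_le_one)
  have h2 : |ip (uv T) (ct (a / 2) (b / 2) (ys z))| ≤ CA * l1 z := by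
    rw [ip_comm]
    exact (ip_le_l1 fun k => Nrm_uv_le hCA hT k).trans
      (mul_le_mul_of_nonneg_left ((l1_ct _ _ _).trans (Nrm_ys_l1 z)) (zero_le_one.trans hCA1))
  have h3 := abs_sub (ip (ct ((a + 1) / 2) ((b + 1) / 2) (xs z)) (yv T)) (ip (uv T) (ct (a / 2) (b / 2) (ys z)))
  linarith

lemma Nrm_bdd (z : ℕ →₀ ℝ) : BddAbove {t | ∃ a b : ℕ, t = nD (ys (ct a b z)) ∨
    ∃ T, Valid T ∧ t = |w (ct a b z) (jn (uv T) (yv T))|} := by
  obtain ⟨CA, h1, hCA⟩ := anti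
  refine ⟨(1 + CA) * l1 z, ?_⟩
  rintro t ⟨a, b, rfl | ⟨T, hT, rfl⟩⟩
  · have h2 : nD (ys (ct a b z)) ≤ l1 z := (nD_le_l1 _).trans ((Nrm_ys_l1 _).trans (l1_ct _ _ _))
    have h3 := l1_nonneg z
    nlinarith
  · exact Nrm_w_le hCA h1 hT z a b

lemma nD_ys_le (z : ℕ →₀ ℝ) (a b : ℕ) : nD (ys (ct a b z)) ≤ nN z :=
  le_csSup (Nrm_bdd z) ⟨a, b, Or.inl rfl⟩

lemma w_tr_le {T : Tr} (hT : Valid T) (z : ℕ →₀ ℝ) (a b : ℕ) :
    |w (ct a b z) (jn (uv T) (yv T))| ≤ nN z :=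
  le_csSup (Nrm_bdd z) ⟨a, b, Or.inr ⟨T, hT, rfl⟩⟩

lemma Nrm_ct_self (z : ℕ →₀ ℝ) : ∃ b, ct 0 b z = z := by
  refine ⟨z.support.sup id + 1, ct_self fun k hk => ⟨Nat.zero_le _, ?_⟩⟩
  have := Finset.le_sup (f := id) (Finsupp.mem_support_iff.2 hk)
  simp only [id] at this
  omega

lemma nD_ys_le' (z : ℕ →₀ ℝ) : nD (ys z) ≤ nN z := by
  obtain ⟨b, hb⟩ := Nrm_ct_self z
  have h := nD_ys_le z 0 b
  rwa [hb] at h

lemma w_tr_le' {T : Tr} (hT : Valid T) (z : ℕ →₀ ℝ) : |w z (jn (uv T) (yv T))| ≤ nN z := by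
  obtain ⟨b, hb⟩ := Nrm_ct_self z
  have h := w_tr_le hT z 0 b
  rwa [hb] at h

lemma nN_le {z : ℕ →₀ ℝ} {C : ℝ} (h0 : 0 ≤ C) (h1 : ∀ a b, nD (ys (ct a b z)) ≤ C)
    (h2 : ∀ a b T, Valid T → |w (ct a b z) (jn (uv T) (yv T))| ≤ C) : nN z ≤ C := by
  apply Real.sSup_le _ h0
  rintro t ⟨a, b, rfl | ⟨T, hT, rfl⟩⟩
  · exact h1 a b
  · exact h2 a b T hT

lemma nN_nonneg (z : ℕ →₀ ℝ) : 0 ≤ nN z := (nD_nonneg _).trans (nD_ys_le' z)

lemma nN_add (x y : ℕ →₀ ℝ) : nN (x + y) ≤ nN x + nN y := by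
  refine nN_le (add_nonneg (nN_nonneg x) (nN_nonneg y)) (fun a b => ?_) (fun a b T hT => ?_)
  · rw [map_add, map_add]
    exact (nD_add _ _).trans (add_le_add (nD_ys_le x a b) (nD_ys_le y a b))
  · rw [map_add, w_add_left]
    exact (abs_add_le _ _).trans (add_le_add (w_tr_le hT x a b) (w_tr_le hT y a b))

lemma Nrm_smul_le (c : ℝ) (x : ℕ →₀ ℝ) : nN (c • x) ≤ |c| * nN x := by
  refine nN_le (mul_nonneg (abs_nonneg _) (nN_nonneg x)) (fun a b => ?_) (fun a b T hT => ?_)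
  · rw [map_smul, map_smul, nD_smul]
    exact mul_le_mul_of_nonneg_left (nD_ys_le x a b) (abs_nonneg _)
  · rw [map_smul, w_smul_left, abs_mul]
    exact mul_le_mul_of_nonneg_left (w_tr_le hT x a b) (abs_nonneg _)

lemma nN_smul (c : ℝ) (x : ℕ →₀ ℝ) : nN (c • x) = |c| * nN x := by
  apply le_antisymm (Nrm_smul_le c x)
  by_cases hc : c = 0
  · subst hc
    rw [abs_zero, zero_mul]
    exact nN_nonneg _
  · have h := Nrm_smul_le c⁻¹ (c • x)
    rw [smul_smul, inv_mul_cancel₀ hc, one_smul, abs_inv] at h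
    have h1 : 0 < |c| := abs_pos.2 hc
    calc |c| * nN x ≤ |c| * (|c|⁻¹ * nN (c • x)) := mul_le_mul_of_nonneg_left h h1.le
      _ = nN (c • x) := by rw [← mul_assoc, mul_inv_cancel₀ h1.ne', one_mul]

lemma Nrm_zero : nN 0 = 0 := by
  have h := nN_smul 0 0
  rw [smul_zero, abs_zero, zero_mul] at h
  exact h

lemma nN_sum {ι : Type} (S : Finset ι) (x : ι → (ℕ →₀ ℝ)) : nN (∑ k ∈ S, x k) ≤ ∑ k ∈ S, nN (x k) := by
  classical
  induction S using Finset.induction_on with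
  | empty => rw [Finset.sum_empty, Finset.sum_empty, Nrm_zero]
  | insert a S ha ih =>
    rw [Finset.sum_insert ha, Finset.sum_insert ha]
    exact (nN_add _ _).trans (add_le_add_right ih _)

lemma nN_ct (a b : ℕ) (x : ℕ →₀ ℝ) : nN (ct a b x) ≤ nN x := by
  refine nN_le (nN_nonneg x) (fun c d => ?_) (fun c d T hT => ?_)
  · rw [ct_ct]
    exact nD_ys_le x _ _
  · rw [ct_ct]
    exact w_tr_le hT x _ _

lemma nN_coord (x : ℕ →₀ ℝ) (k : ℕ) : |x k| ≤ nN x := by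
  rcases Nat.even_or_odd' k with ⟨n, rfl | rfl⟩
  · have h := w_tr_le' (T := Tr.leaf n) (valid_leaf n) x
    have h1 : w x (jn (uv (Tr.leaf n)) (yv (Tr.leaf n))) = x (2 * n) := by
      rw [w, xs_jn, ys_jn, uv, yv, ip_comm, ip_eq (Finsupp.single n 1) _ {n} Finsupp.support_single_subset]
      simp [xs_apply]
    rwa [h1] at h
  · have h := (nD_coord (ys x) n).trans (nD_ys_le' x)
    rwa [ys_apply] at h

lemma nN_pos {x : ℕ →₀ ℝ} (h : x ≠ 0) : 0 < nN x := by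
  obtain ⟨k, hk⟩ := Finsupp.ne_iff.1 h
  rw [Finsupp.zero_apply] at hk
  exact (abs_pos.2 hk).trans_le (nN_coord x k)

/-- V sits isometrically in X -/
lemma nN_jn0 (x : ℕ →₀ ℝ) : nN (jn x 0) = nV x := by
  have hw : ∀ (a b : ℕ) (T : Tr), w (ct a b (jn x 0)) (jn (uv T) (yv T)) =
      ip (ct ((a + 1) / 2) ((b + 1) / 2) x) (yv T) := by
    intro a b T
    rw [Nrm_w_jn, xs_jn, ys_jn, map_zero, map_zero, sub_zero]
  apply le_antisymm
  · refine nN_le (nV_nonneg x) (fun a b => ?_) (fun a b T hT => ?_)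
    · rw [Nrm_ys_ct, ys_jn, map_zero]
      have h := nD_smul 0 0
      rw [smul_zero, abs_zero, zero_mul] at h
      rw [h]
      exact nV_nonneg x
    · rw [hw]
      exact le_nV hT _ _ _
  · refine nV_le (nN_nonneg _) (fun a b T hT => ?_)
    have h := w_tr_le hT (jn x 0) (2 * a) (2 * b)
    rw [hw] at h
    have e1 : (2 * a + 1) / 2 = a := by omega
    have e2 : (2 * b + 1) / 2 = b := by omega
    rwa [e1, e2] at h

theorem nN_l1 : ∃ C : ℝ, 1 ≤ C ∧ ∀ z, nN z ≤ C * l1 z := by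
  obtain ⟨CA, h1, hCA⟩ := anti
  refine ⟨1 + CA, by linarith, fun z => ?_⟩
  have h0 := l1_nonneg z
  refine nN_le (mul_nonneg (by linarith) h0) (fun a b => ?_) (fun a b T hT => ?_)
  · have h2 : nD (ys (ct a b z)) ≤ l1 z := (nD_le_l1 _).trans ((Nrm_ys_l1 _).trans (l1_ct _ _ _))
    nlinarith
  · exact Nrm_w_le hCA h1 hT z a b

/-- the vectors of trees are bounded -/
theorem nN_tr : ∃ C : ℝ, 1 ≤ C ∧ ∀ T, Valid T → nN (jn (uv T) (yv T)) ≤ C := by
  obtain ⟨CA, h1, hCA⟩ := anti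
  refine ⟨3 * CA, by linarith, fun T hT => ?_⟩
  refine nN_le (by linarith) (fun a b => ?_) (fun a b T' hT' => ?_)
  · rw [Nrm_ys_ct, ys_jn]
    have := (nD_ct (a / 2) (b / 2) (yv T)).trans (nD_yv hT)
    linarith
  · rw [Nrm_w_jn, xs_jn, ys_jn, ← ip_ct]
    have h2 := hCA ((a + 1) / 2) ((b + 1) / 2) T T' hT hT'
    have h3 : |ip (ct ((a + 1) / 2) ((b + 1) / 2) (uv T') - ct (a / 2) (b / 2) (uv T')) (yv T)| ≤ 2 * CA := by
      classical
      have hs : (ct ((a + 1) / 2) ((b + 1) / 2) (uv T') - ct (a / 2) (b / 2) (uv T')).support ⊆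
          ({a / 2, b / 2} : Finset ℕ) := by
        intro k hk
        rw [Finsupp.mem_support_iff, Finsupp.sub_apply, ct_apply, ct_apply] at hk
        by_contra hk'
        simp only [Finset.mem_insert, Finset.mem_singleton, not_or] at hk'
        apply hk
        by_cases h : a / 2 ≤ k ∧ k < b / 2
        · rw [if_pos h, if_pos (by omega), sub_self]
        · rw [if_neg h, if_neg (by omega), sub_self]
      rw [ip_eq _ _ _ hs]
      have hb : ∀ k ∈ ({a / 2, b / 2} : Finset ℕ),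
          |(ct ((a + 1) / 2) ((b + 1) / 2) (uv T') - ct (a / 2) (b / 2) (uv T')) k * yv T k| ≤ CA := by
        intro k _
        rw [abs_mul]
        have h4 : |(ct ((a + 1) / 2) ((b + 1) / 2) (uv T') - ct (a / 2) (b / 2) (uv T')) k| ≤ CA := by
          have h5 := Nrm_uv_le hCA hT' k
          rw [Finsupp.sub_apply, ct_apply, ct_apply]
          split_ifs
          · rw [sub_self, abs_zero]; linarith
          · rw [sub_zero]; exact h5
          · rw [zero_sub, abs_neg]; exact h5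
          · rw [sub_self, abs_zero]; linarith
        calc _ ≤ CA * 1 := mul_le_mul h4 (yv_le_one hT k) (abs_nonneg _) (by linarith)
          _ = CA := mul_one _
      refine (Finset.abs_sum_le_sum_abs _ _).trans ((Finset.sum_le_card_nsmul _ _ _ hb).trans ?_)
      rw [nsmul_eq_mul]
      have hc : (({a / 2, b / 2} : Finset ℕ).card : ℝ) ≤ 2 := by exact_mod_cast Finset.card_le_two
      nlinarith
    rw [map_sub, LinearMap.sub_apply] at h3
    rw [abs_le] at h2 h3 ⊢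
    constructor <;> linarith [h2.1, h2.2, h3.1, h3.2]

end Pool.Agent.Helper60.HD
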