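import Pool.Agent.Helper60.HD.Defs

/-!
# Numerical facts on the parameters
-/

set_option autoImplicit false

namespace Pool.Agent.Helper60.HD

lemma m_eq (i : ℕ) : m i = 2 ^ 2 ^ (i + 4) := by unfold m; rfl

lemma rr_eq (i : ℕ) : rr i = 2 * m i ^ 2 := by unfold rr; rfl

lemma nn_eq (i : ℕ) : nn i = 4 ^ rr i := by unfold nn; rfl

lemma m_ge (i : ℕ) : 65536 ≤ m i := by
  rw [m_eq]
  have h1 : 16 ≤ 2 ^ (i + 4) := by
    rw [pow_add]
    have : 1 ≤ 2 ^ i := Nat.one_le_two_pow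
    omega
  calc 65536 = 2 ^ 16 := by norm_num
    _ ≤ 2 ^ 2 ^ (i + 4) := Nat.pow_le_pow_right (by norm_num) h1

lemma m_succ (i : ℕ) : m (i + 1) = m i ^ 2 := by
  rw [m_eq, m_eq, ← pow_mul]
  congr 1

lemma m_strict : StrictMono m := by
  refine strictMono_nat_of_lt_succ fun i => ?_
  rw [m_succ]
  have := m_ge i
  generalize m i = x at this
  nlinarith

lemma nn_pos (i : ℕ) : 0 < nn i := by
  rw [nn_eq]
  exact Nat.pow_pos (by norm_num)

lemma nn_cast (i : ℕ) : (nn i : ℝ) = ((2 : ℝ) ^ rr i) ^ 2 := by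
  rw [nn_eq]
  generalize rr i = r
  push_cast
  rw [← pow_mul, mul_comm, pow_mul]
  norm_num

lemma Par_m_cast (i : ℕ) : (m i : ℝ) = (2 : ℝ) ^ 2 ^ (i + 4) := by
  rw [m_eq, Nat.cast_pow, Nat.cast_ofNat]

lemma theta_pow (h : ℕ) : ((1 : ℝ) / 65536) ^ (2 ^ (h + 1)) = 1 / (m h : ℝ) ^ 2 := by
  rw [Par_m_cast, one_div_pow]
  congr 1
  have h1 : (65536 : ℝ) = 2 ^ 16 := by norm_num
  rw [h1, ← pow_mul, ← pow_mul]
  congr 1
  rw [pow_add 2 h 1, pow_add 2 h 4]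
  omega

/-- the main numerical inequality -/
lemma par_big (h : ℕ) : (3 : ℝ) * (m h : ℝ) ^ 2 * 2 ^ (2 * m h) *
    (4 + ((2 : ℝ) ^ (2 * m h + 2)) ^ (2 ^ (h + 1))) ≤ 2 ^ (m h ^ 2) := by
  have hm : (m h : ℝ) = (2 : ℝ) ^ (8 * 2 ^ (h + 1)) := by
    rw [Par_m_cast]
    congr 1
    rw [pow_add 2 h 1, pow_add 2 h 4]
    omega
  have h1 : 8 * 2 ^ (h + 1) < m h := by
    have e : m h = 2 ^ (8 * 2 ^ (h + 1)) := by exact_mod_cast hm
    rw [e]
    exact Nat.lt_two_pow_self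
  have h2 : 1 ≤ 2 ^ (h + 1) := Nat.one_le_two_pow
  have h3 := m_ge h
  have hm2 : (m h : ℝ) ^ 2 = (2 : ℝ) ^ (2 * (8 * 2 ^ (h + 1))) := by
    rw [hm, ← pow_mul, mul_comm 2]
  rw [hm2]
  generalize 2 ^ (h + 1) = D at h1 h2
  generalize m h = M at h1 h3
  rw [← pow_mul]
  have h4 : (4 : ℝ) ≤ 2 ^ ((2 * M + 2) * D) := by
    have : (2 : ℝ) ^ 2 ≤ 2 ^ ((2 * M + 2) * D) := by
      refine pow_le_pow_right₀ (by norm_num) ?_
      nlinarith
    linarith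
  have h5 : (4 : ℝ) + 2 ^ ((2 * M + 2) * D) ≤ 2 ^ 1 * 2 ^ ((2 * M + 2) * D) := by linarith
  calc (3 : ℝ) * 2 ^ (2 * (8 * D)) * 2 ^ (2 * M) * (4 + 2 ^ ((2 * M + 2) * D))
      ≤ 2 ^ 2 * 2 ^ (2 * (8 * D)) * 2 ^ (2 * M) * (2 ^ 1 * 2 ^ ((2 * M + 2) * D)) := by
        gcongr
        norm_num
    _ = 2 ^ (2 + 2 * (8 * D) + 2 * M + (1 + (2 * M + 2) * D)) := by
        rw [pow_add, pow_add, pow_add, pow_add]
    _ ≤ 2 ^ (M ^ 2) := by
        refine pow_le_pow_right₀ (by norm_num) ?_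
        have h6 : 8 * D ≤ M := h1.le
        have h7 : 8 * (M * D) ≤ M * M := by
          calc 8 * (M * D) = M * (8 * D) := by ring
            _ ≤ M * M := Nat.mul_le_mul_left _ h6
        have h8 : 65536 * M ≤ M * M := Nat.mul_le_mul_right _ h3
        have e : 2 + 2 * (8 * D) + 2 * M + (1 + (2 * M + 2) * D) = 3 + 18 * D + 2 * M + 2 * (M * D) := by
          ring
        rw [e, sq]
        omega

lemma Par_le {i h : ℕ} (hi : i < h) : m i ^ 2 ≤ m h := by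
  rw [← m_succ]
  exact m_strict.monotone hi

lemma nn_low {i h : ℕ} (hi : i < h) : (nn i : ℝ) ≤ ((2 : ℝ) ^ (2 * m h)) ^ 2 := by
  rw [nn_cast, rr_eq]
  have := Par_le hi
  gcongr
  · norm_num

lemma rr_low {i l : ℕ} (h : i < l) : (3 : ℝ) * 2 ^ rr i * m i ≤ 2 ^ rr l := by
  rw [rr_eq, rr_eq]
  have h1 := Par_le h
  have h2 := m_ge i
  generalize m l = y at h1
  generalize m i = x at h1 h2
  have h3 : (x : ℝ) ≤ 2 ^ x := by exact_mod_cast (Nat.lt_two_pow_self (n := x)).le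
  calc (3 : ℝ) * 2 ^ (2 * x ^ 2) * x ≤ 2 ^ 2 * 2 ^ (2 * x ^ 2) * 2 ^ x := by
        gcongr
        norm_num
    _ = 2 ^ (2 + 2 * x ^ 2 + x) := by rw [pow_add, pow_add]
    _ ≤ 2 ^ (2 * y ^ 2) := by
        refine pow_le_pow_right₀ (by norm_num) ?_
        have h4 : 65536 * x ≤ x ^ 2 := by rw [sq]; exact Nat.mul_le_mul_right _ h2
        have h5 : 65536 * y ≤ y ^ 2 := by rw [sq]; exact Nat.mul_le_mul_right _ (by omega)
        omega

lemma cod_even (j : ℕ) (L : List (Tr × (ℕ →₀ ℚ))) : Even (cod j L) := even_two_mul _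

lemma lt_cod (j : ℕ) (L : List (Tr × (ℕ →₀ ℚ))) : j < cod j L := by
  unfold cod
  have h1 : j < 2 ^ j := Nat.lt_two_pow_self
  have h2 : 2 ^ j ≤ 2 ^ (j + 5) := Nat.pow_le_pow_right (by norm_num) (by omega)
  omega

lemma cod_inj (j : ℕ) {L L' : List (Tr × (ℕ →₀ ℚ))} (h : cod j L = cod j L') : L = L' := by
  unfold cod at h
  exact enc_inj (by omega)

lemma cod_big (j : ℕ) (L : List (Tr × (ℕ →₀ ℚ))) : (nn j : ℝ) ^ 4 ≤ m (cod j L) := by
  rw [Par_m_cast, nn_cast, rr_eq]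
  have hc : 2 ^ (j + 5) ≤ cod j L := by unfold cod; omega
  generalize cod j L = c at hc
  rw [← pow_mul, ← pow_mul]
  refine pow_le_pow_right₀ (by norm_num) ?_
  rw [m_eq, ← pow_mul]
  have e : 2 * 2 ^ (2 ^ (j + 4) * 2) * (2 * 4) = 2 ^ (2 ^ (j + 5) + 4) := by
    have e1 : 2 ^ (j + 4) * 2 = 2 ^ (j + 5) := by rw [← pow_succ]
    rw [e1]
    generalize 2 ^ (j + 5) = t
    rw [pow_add]
    ring
  rw [e]
  exact Nat.pow_le_pow_right (by norm_num) (by omega)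

lemma Par_le_m (i : ℕ) : i ≤ m i := m_strict.le_apply

lemma exists_odd (C : ℝ) : ∃ j, Odd j ∧ C ≤ m j := by
  obtain ⟨n, hn⟩ := exists_nat_ge C
  refine ⟨2 * n + 1, ⟨n, rfl⟩, hn.trans ?_⟩
  have := Par_le_m (2 * n + 1)
  exact_mod_cast (by omega : n ≤ m (2 * n + 1))

lemma exists_even (C : ℝ) : ∃ i, Even i ∧ C * m i < 2 ^ rr i := by
  obtain ⟨n, hn⟩ := exists_nat_ge C
  refine ⟨2 * n, even_two_mul n, ?_⟩
  have h1 := Par_le_m (2 * n)
  have h3 := m_ge (2 * n)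
  rw [rr_eq]
  generalize m (2 * n) = x at h1 h3
  have h2 : C ≤ x := hn.trans (by exact_mod_cast (by omega : n ≤ x))
  have h4 : (x ^ 2 : ℝ) < 2 ^ (x ^ 2) := by exact_mod_cast (Nat.lt_two_pow_self (n := x ^ 2))
  calc C * x ≤ x * x := by gcongr
    _ = x ^ 2 := by ring
    _ < 2 ^ (x ^ 2) := h4
    _ ≤ 2 ^ (2 * x ^ 2) := pow_le_pow_right₀ (by norm_num) (by omega)

lemma lam_le (j r : ℕ) : lam j r ≤ m j ^ 2 := min_le_right _ _

lemma lam_zero {j r : ℕ} (h : r ≤ m j ^ 2) : lam j r = 0 := by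
  unfold lam
  rw [Nat.sub_eq_zero_of_le h]
  exact Nat.zero_min _

lemma lam_rr (j : ℕ) : lam j (rr j) = m j ^ 2 := by
  unfold lam
  rw [rr_eq]
  omega

lemma lam_sub (j r r' : ℕ) : |(lam j r : ℝ) - lam j r'| ≤ m j * √|(r : ℝ) - r'| := by
  have key : ∀ r r' : ℕ, r' ≤ r → (lam j r : ℝ) - lam j r' ≤ (r : ℝ) - r' ∧ (lam j r' : ℝ) ≤ lam j r := by
    intro r r' h
    have h1 : lam j r + r' ≤ r + lam j r' := by unfold lam; omega
    have h2 : lam j r' ≤ lam j r := by unfold lam; omega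
    have h3 : (lam j r : ℝ) + r' ≤ r + lam j r' := by exact_mod_cast h1
    have h4 : (lam j r' : ℝ) ≤ lam j r := by exact_mod_cast h2
    exact ⟨by linarith, h4⟩
  have h1 : |(lam j r : ℝ) - lam j r'| ≤ |(r : ℝ) - r'| := by
    rcases le_total r' r with h | h
    · obtain ⟨h1, h2⟩ := key r r' h
      rw [abs_of_nonneg (by linarith)]
      exact h1.trans (le_abs_self _)
    · obtain ⟨h1, h2⟩ := key r' r h
      rw [abs_sub_comm, abs_sub_comm (r : ℝ), abs_of_nonneg (by linarith)]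
      exact h1.trans (le_abs_self _)
  have h2 : |(lam j r : ℝ) - lam j r'| ≤ (m j : ℝ) ^ 2 := by
    have h3 : (lam j r : ℝ) ≤ (m j : ℝ) ^ 2 := by exact_mod_cast lam_le j r
    have h4 : (lam j r' : ℝ) ≤ (m j : ℝ) ^ 2 := by exact_mod_cast lam_le j r'
    have h5 : (0 : ℝ) ≤ lam j r := Nat.cast_nonneg _
    have h6 : (0 : ℝ) ≤ lam j r' := Nat.cast_nonneg _
    rw [abs_le]
    constructor <;> linarith
  have h0 : (0 : ℝ) ≤ |(lam j r : ℝ) - lam j r'| := abs_nonneg _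
  generalize |(lam j r : ℝ) - lam j r'| = d at h0 h1 h2
  calc d = √d * √d := (Real.mul_self_sqrt h0).symm
    _ ≤ √((m j : ℝ) ^ 2) * √|(r : ℝ) - r'| := by
        gcongr
    _ = m j * √|(r : ℝ) - r'| := by rw [Real.sqrt_sq (Nat.cast_nonneg _)]

end Pool.Agent.Helper60.HD
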