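import Pool.Agent.Helper60.HD.RecA

/-!
# Records
-/

set_option autoImplicit false

namespace Pool.Agent.Helper60.HD

open Classical in
lemma rec_nch_node (X : Tr) (N : ND) (f : Fin N.d → Tr) :
    nch X (.node N f) = ∑ k, if N.c k ≠ 0 ∧ f k = X then 1 else 0 := by rw [nch]

/-- occurrences of a given child -/
theorem nch_mem {T X : Tr} (hT : Valid T) (hX : X.lo < X.hi) {x : Rc} (hx : x ∈ recs T)
    (h : nch X x.t ≠ 0) : T.lo ≤ X.lo ∧ X.hi ≤ T.hi ∧ X.size < T.size := by
  classical
  obtain ⟨a1, a2, a3, -, -, ⟨N, f, a6, -⟩, a7⟩ := recs_mem hT hx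
  rw [a6] at a1 a2 a3 a7 h
  rw [rec_nch_node] at h
  obtain ⟨k, -, hk⟩ := Finset.exists_ne_zero_of_sum_ne_zero h
  split_ifs at hk with hc
  · obtain ⟨hc0, hc1⟩ := hc
    obtain ⟨b1, b2⟩ := a1.2.box k hc0
    rw [hc1] at b1 b2
    refine ⟨a2.trans b1, b2.trans a3, lt_of_lt_of_le ?_ a7⟩
    show X.size < (∑ k : Fin N.d, (f k).size) + 1
    have : (f k).size ≤ ∑ k : Fin N.d, (f k).size :=
      Finset.single_le_sum (f := fun k => (f k).size) (fun _ _ => Nat.zero_le _) (Finset.mem_univ k)
    rw [hc1] at this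
    omega
  · exact absurd rfl hk

theorem nch_nonneg (X T : Tr) : 0 ≤ nch X T := by
  classical
  cases T with
  | leaf n => exact le_refl _
  | comb p q s t A B => exact le_refl _
  | node N f =>
    rw [rec_nch_node]
    refine Finset.sum_nonneg fun k _ => ?_
    split_ifs
    · exact zero_le_one
    · exact le_refl _

/-- a sum of nonnegative terms, at most one of them nonzero -/
lemma rec_sum_le {d : ℕ} (g : Fin d → ℝ) {C : ℝ} (hC : 0 ≤ C) (h1 : ∀ k, g k ≤ C)
    (h2 : ∀ k l, k ≠ l → g k ≠ 0 → g l = 0) : ∑ k, g k ≤ C := by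
  by_cases h : ∃ k, g k ≠ 0
  · obtain ⟨k, hk⟩ := h
    rw [Finset.sum_eq_single k (fun l _ hl => h2 k l hl.symm hk) (fun h => absurd (Finset.mem_univ k) h)]
    exact h1 k
  · rw [Finset.sum_eq_zero (fun k _ => by by_contra hk; exact h ⟨k, hk⟩)]
    exact hC

lemma rec_nch_zero {T X : Tr} (hT : Valid T) (hX : X.lo < X.hi)
    (h' : T.hi ≤ X.lo ∨ X.hi ≤ T.lo ∨ T.size ≤ X.size) {x : Rc} (hx : x ∈ recs T) : nch X x.t = 0 := by
  by_contra h
  obtain ⟨a1, a2, a3⟩ := nch_mem hT hX hx h
  rcases h' with h' | h' | h' <;> omega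

lemma rec_cnt_zero {T X : Tr} (hT : Valid T) (hX : X.lo < X.hi)
    (h' : T.hi ≤ X.lo ∨ X.hi ≤ T.lo ∨ T.size ≤ X.size) :
    ((recs T).map fun x => x.p * nch X x.t).sum = 0 := by
  apply Multiset.sum_eq_zero
  intro a ha
  obtain ⟨x, hx, rfl⟩ := Multiset.mem_map.1 ha
  rw [rec_nch_zero hT hX h' hx, mul_zero]

/-- boxes of two different children -/
lemma rec_box {N : ND} {f : Fin N.d → Tr} (hN : NodeOk N f) {k l : Fin N.d} (h : k ≠ l) :
    (f k).hi ≤ (f l).lo ∨ (f l).hi ≤ (f k).lo := by
  rcases lt_or_gt_of_ne h with h | h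
  · exact Or.inl (hN.suc k l h)
  · exact Or.inr (hN.suc l k h)

/-- the counting lemma -/
theorem cnt_le {T : Tr} (hT : Valid T) (X : Tr) (hX : X.lo < X.hi) :
    ((recs T).map fun x => x.p * nch X x.t).sum ≤ 1 := by
  classical
  induction T with
  | leaf n => rw [recA_recs_leaf]; simp
  | comb p q s t A B ihA ihB =>
    obtain ⟨hA, hB, h1, -⟩ := hT
    rw [recA_sum_comb]
    have key : ∀ (s : ℚ) (A : Tr), ((recs A).map fun x => x.p * nch X x.t).sum ≤ 1 →
        ((recs A).map fun x => (Rc.sc |(s : ℝ)| (sg s) x).p * nch X (Rc.sc |(s : ℝ)| (sg s) x).t).sum ≤ |(s : ℝ)| := by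
      intro s A hA
      have : ((recs A).map fun x => (Rc.sc |(s : ℝ)| (sg s) x).p * nch X (Rc.sc |(s : ℝ)| (sg s) x).t).sum
          = |(s : ℝ)| * ((recs A).map fun x => x.p * nch X x.t).sum := by
        rw [← Multiset.sum_map_mul_left]
        congr 1
        refine Multiset.map_congr rfl fun x _ => ?_
        show |(s : ℝ)| * x.p * nch X x.t = |(s : ℝ)| * (x.p * nch X x.t)
        ring
      rw [this]
      calc |(s : ℝ)| * ((recs A).map fun x => x.p * nch X x.t).sum ≤ |(s : ℝ)| * 1 :=
            mul_le_mul_of_nonneg_left hA (abs_nonneg _)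
        _ = |(s : ℝ)| := mul_one _
    have h2 : |(s : ℝ)| + |(t : ℝ)| ≤ 1 := by exact_mod_cast h1
    exact (add_le_add (key s A (ihA hA)) (key t B (ihB hB))).trans h2
  | node N f ih =>
    obtain ⟨hf, hN⟩ := hT
    rw [recA_sum_node]
    have hch : ∀ k : Fin N.d, ((recs (f k)).map fun x => (Rc.sc 1 ((N.c k : ℝ) / m N.i) x).p *
        nch X (Rc.sc 1 ((N.c k : ℝ) / m N.i) x).t).sum = ((recs (f k)).map fun x => x.p * nch X x.t).sum := by
      intro k
      congr 1
      refine Multiset.map_congr rfl fun x _ => ?_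
      show 1 * x.p * nch X x.t = x.p * nch X x.t
      ring
    have hsum : (∑ k, if N.c k = 0 then 0 else ((recs (f k)).map fun x => (Rc.sc 1 ((N.c k : ℝ) / m N.i) x).p *
        nch X (Rc.sc 1 ((N.c k : ℝ) / m N.i) x).t).sum) =
        ∑ k, if N.c k = 0 then 0 else ((recs (f k)).map fun x => x.p * nch X x.t).sum :=
      Finset.sum_congr rfl fun k _ => by rw [hch k]
    rw [hsum]
    show (if Odd N.i then (1 : ℝ) * nch X (.node N f) else 0) + _ ≤ 1
    rw [one_mul]
    by_cases hex : ∃ k, N.c k ≠ 0 ∧ f k = X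
    · obtain ⟨k, hk0, hk⟩ := hex
      have hn : nch X (.node N f) ≤ 1 := by
        rw [rec_nch_node]
        refine rec_sum_le _ zero_le_one (fun l => by split_ifs <;> norm_num) ?_
        intro l l' hl h
        split_ifs at h with hc
        · rw [if_neg]
          rintro ⟨hc1, hc2⟩
          have := rec_box hN hl
          rw [hc.2, hc2] at this
          omega
        · exact absurd rfl h
      have hz : (∑ k, if N.c k = 0 then 0 else ((recs (f k)).map fun x => x.p * nch X x.t).sum) = 0 := by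
        refine Finset.sum_eq_zero fun l _ => ?_
        split_ifs
        · rfl
        · refine rec_cnt_zero (hf l) hX ?_
          by_cases hl : k = l
          · subst hl; rw [hk]; exact Or.inr (Or.inr (le_refl _))
          · have := rec_box hN hl
            rw [hk] at this
            rcases this with h | h
            · exact Or.inr (Or.inl h)
            · exact Or.inl h
      rw [hz, add_zero]
      split_ifs
      · exact hn
      · exact zero_le_one
    · have hn : nch X (.node N f) = 0 := by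
        rw [rec_nch_node]
        refine Finset.sum_eq_zero fun k _ => ?_
        rw [if_neg]
        rintro ⟨h1, h2⟩
        exact hex ⟨k, h1, h2⟩
      rw [hn, ite_self, zero_add]
      refine rec_sum_le _ zero_le_one (fun l => ?_) ?_
      · split_ifs
        · exact zero_le_one
        · exact ih l (hf l)
      · intro k l hkl h
        split_ifs at h with hc
        · exact absurd rfl h
        · split_ifs
          · rfl
          · refine rec_cnt_zero (hf l) hX ?_
            have hex2 : ∃ x ∈ recs (f k), nch X x.t ≠ 0 := by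
              by_contra hcon
              apply h
              apply Multiset.sum_eq_zero
              intro a ha
              obtain ⟨x, hx, rfl⟩ := Multiset.mem_map.1 ha
              have : nch X x.t = 0 := by
                by_contra h3
                exact hcon ⟨x, hx, h3⟩
              rw [this, mul_zero]
            obtain ⟨x, hx, hx'⟩ := hex2
            obtain ⟨b1, b2, -⟩ := nch_mem (hf k) hX hx hx'
            rcases rec_box hN hkl with h | h
            · exact Or.inr (Or.inl (b2.trans h))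
            · exact Or.inl (h.trans b1)

theorem lin_le {T : Tr} (hT : Valid T) {φ : Tr → ℝ} {c : ℝ} {X : Tr} (hX : X.lo < X.hi) (hc : 0 ≤ c)
    (h : ∀ t, Valid t → |φ t| ≤ c * nch X t) : |lin φ T| ≤ c := by
  have h1 : |lin φ T| ≤ ((recs T).map fun x => c * (x.p * nch X x.t)).sum := by
    unfold lin
    refine (Multiset.abs_sum_le_sum_abs).trans ?_
    rw [Multiset.map_map]
    refine Multiset.sum_map_le_sum_map _ _ fun x hx => ?_
    obtain ⟨a1, -, -, a4, a5, -, -⟩ := recs_mem hT hx
    show |x.p * x.g * φ x.t| ≤ c * (x.p * nch X x.t)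
    rw [abs_mul, abs_mul, abs_of_nonneg a4]
    calc x.p * |x.g| * |φ x.t| ≤ x.p * 1 * (c * nch X x.t) :=
          mul_le_mul (mul_le_mul_of_nonneg_left a5 a4) (h _ a1) (abs_nonneg _) (by rw [mul_one]; exact a4)
      _ = c * (x.p * nch X x.t) := by ring
  refine h1.trans ?_
  rw [Multiset.sum_map_mul_left]
  calc c * ((recs T).map fun x => x.p * nch X x.t).sum ≤ c * 1 :=
        mul_le_mul_of_nonneg_left (cnt_le hT X hX) hc
    _ = c := mul_one c

theorem lin_none {T : Tr} (hT : Valid T) {φ : Tr → ℝ} {c : ℝ} {X : Tr} (hX : X.lo < X.hi)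
    (h : ∀ t, Valid t → |φ t| ≤ c * nch X t) (h' : T.hi ≤ X.lo ∨ X.hi ≤ T.lo ∨ T.size ≤ X.size) :
    lin φ T = 0 := by
  unfold lin
  apply Multiset.sum_eq_zero
  intro a ha
  obtain ⟨x, hx, rfl⟩ := Multiset.mem_map.1 ha
  obtain ⟨a1, -⟩ := recs_mem hT hx
  have h1 := h _ a1
  rw [rec_nch_zero hT hX h' hx, mul_zero] at h1
  have h2 : φ x.t = 0 := abs_nonpos_iff.1 h1
  rw [h2, mul_zero]

theorem lin_le_node {N : ND} {f : Fin N.d → Tr} (hT : Valid (.node N f)) {φ : Tr → ℝ} {c : ℝ} {X : Tr}
    (hX : X.lo < X.hi) (hc : 0 ≤ c) (h : ∀ t, Valid t → |φ t| ≤ c * nch X t) (h0 : Odd N.i → φ (.node N f) = 0) :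
    |lin φ (.node N f)| ≤ c / m N.i := by
  obtain ⟨hf, hN⟩ := hT
  rw [lin_node]
  have h1 : (if Odd N.i then φ (.node N f) else 0) = 0 := by
    split_ifs with ho
    · exact h0 ho
    · rfl
  rw [h1, zero_add, abs_mul, abs_of_pos (one_div_pos.2 (recA_m_pos N.i))]
  have h2 : |∑ k, (N.c k : ℝ) * lin φ (f k)| ≤ c := by
    refine (Finset.abs_sum_le_sum_abs _ _).trans ?_
    refine rec_sum_le _ hc (fun k => ?_) ?_
    · rw [abs_mul]
      calc |(N.c k : ℝ)| * |lin φ (f k)| ≤ 1 * c :=
            mul_le_mul (coef_le hN k) (lin_le (hf k) hX hc h) (abs_nonneg _) zero_le_one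
        _ = c := one_mul c
    · intro k l hkl hk
      have hk1 : lin φ (f k) ≠ 0 := by
        intro h3
        apply hk
        rw [h3, mul_zero, abs_zero]
      have hex2 : ∃ x ∈ recs (f k), nch X x.t ≠ 0 := by
        by_contra hcon
        apply hk1
        unfold lin
        apply Multiset.sum_eq_zero
        intro a ha
        obtain ⟨x, hx, rfl⟩ := Multiset.mem_map.1 ha
        have h4 : nch X x.t = 0 := by
          by_contra h3
          exact hcon ⟨x, hx, h3⟩
        obtain ⟨a1, -⟩ := recs_mem (hf k) hx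
        have h5 := h _ a1
        rw [h4, mul_zero] at h5
        rw [abs_nonpos_iff.1 h5, mul_zero]
      obtain ⟨x, hx, hx'⟩ := hex2
      obtain ⟨b1, b2, -⟩ := nch_mem (hf k) hX hx hx'
      have h6 : lin φ (f l) = 0 := by
        refine lin_none (hf l) hX h ?_
        rcases rec_box hN hkl with h | h
        · exact Or.inr (Or.inl (b2.trans h))
        · exact Or.inl (h.trans b1)
      rw [h6, mul_zero, abs_zero]
  calc 1 / (m N.i : ℝ) * |∑ k, (N.c k : ℝ) * lin φ (f k)| ≤ 1 / (m N.i : ℝ) * c :=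
        mul_le_mul_of_nonneg_left h2 (one_div_pos.2 (recA_m_pos N.i)).le
    _ = c / m N.i := by ring

end Pool.Agent.Helper60.HD
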