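import Pool.Agent.Helper60.HD.Bas

/-!
# Records
-/

set_option autoImplicit false

namespace Pool.Agent.Helper60.HD

lemma recA_abs_sg (s : ℚ) : |sg s| = 1 := by
  unfold sg; split_ifs <;> simp

lemma recA_abs_mul_sg (s : ℚ) : |(s : ℝ)| * sg s = s := by
  unfold sg
  split_ifs with h
  · rw [mul_one, abs_of_nonneg (by exact_mod_cast h)]
  · rw [abs_of_neg (by exact_mod_cast (not_le.1 h))]; ring

lemma recA_recs_leaf (n : ℕ) : recs (.leaf n) = 0 := rfl

lemma recA_recs_comb (p q : ℕ) (s t : ℚ) (A B : Tr) : recs (.comb p q s t A B) =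
    (recs A).map (Rc.sc |(s : ℝ)| (sg s)) + (recs B).map (Rc.sc |(t : ℝ)| (sg t)) := rfl

lemma recA_recs_node (N : ND) (f : Fin N.d → Tr) : recs (.node N f) =
    (if Odd N.i then {⟨1, 1, .node N f⟩} else 0) +
      ∑ k, if N.c k = 0 then 0 else (recs (f k)).map (Rc.sc 1 ((N.c k : ℝ) / m N.i)) := by
  rw [recs]

lemma recA_m_pos (i : ℕ) : (0 : ℝ) < m i := by
  have := m_ge i
  have h : 0 < m i := by omega
  exact_mod_cast h

lemma recA_one_le_m (i : ℕ) : (1 : ℝ) ≤ m i := by
  have := m_ge i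
  have h : 1 ≤ m i := by omega
  exact_mod_cast h

theorem recs_mem {T : Tr} (hT : Valid T) {x : Rc} (hx : x ∈ recs T) :
    Valid x.t ∧ T.lo ≤ x.t.lo ∧ x.t.hi ≤ T.hi ∧ 0 ≤ x.p ∧ |x.g| ≤ 1 ∧
      (∃ N f, x.t = .node N f ∧ Odd N.i) ∧ x.t.size ≤ T.size := by
  induction T generalizing x with
  | leaf n => exact absurd hx (Multiset.notMem_zero x)
  | comb p q s t A B ihA ihB =>
    obtain ⟨hA, hB, -, h1, h2, h3, h4⟩ := hT
    rw [recA_recs_comb, Multiset.mem_add] at hx
    rcases hx with hx | hx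
    · obtain ⟨y, hy, rfl⟩ := Multiset.mem_map.1 hx
      obtain ⟨a1, a2, a3, a4, a5, a6, a7⟩ := ihA hA hy
      refine ⟨a1, h1.trans a2, a3.trans h2, mul_nonneg (abs_nonneg _) a4, ?_, a6, ?_⟩
      · show |sg s * y.g| ≤ 1
        rw [abs_mul, recA_abs_sg, one_mul]; exact a5
      · show y.t.size ≤ A.size + B.size + 1
        omega
    · obtain ⟨y, hy, rfl⟩ := Multiset.mem_map.1 hx
      obtain ⟨a1, a2, a3, a4, a5, a6, a7⟩ := ihB hB hy
      refine ⟨a1, h3.trans a2, a3.trans h4, mul_nonneg (abs_nonneg _) a4, ?_, a6, ?_⟩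
      · show |sg t * y.g| ≤ 1
        rw [abs_mul, recA_abs_sg, one_mul]; exact a5
      · show y.t.size ≤ A.size + B.size + 1
        omega
  | node N f ih =>
    have hT' := hT
    obtain ⟨hf, hN⟩ := hT
    rw [recA_recs_node, Multiset.mem_add] at hx
    rcases hx with hx | hx
    · split_ifs at hx with ho
      · rw [Multiset.mem_singleton] at hx
        subst hx
        exact ⟨hT', le_refl _, le_refl _, zero_le_one, by simp, ⟨N, f, rfl, ho⟩, le_refl _⟩
      · exact absurd hx (Multiset.notMem_zero x)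
    · obtain ⟨k, -, hk⟩ := Multiset.mem_sum.1 hx
      split_ifs at hk with hc
      · exact absurd hk (Multiset.notMem_zero x)
      · obtain ⟨y, hy, rfl⟩ := Multiset.mem_map.1 hk
        obtain ⟨a1, a2, a3, a4, a5, a6, a7⟩ := ih k (hf k) hy
        obtain ⟨b1, b2⟩ := hN.box k hc
        refine ⟨a1, b1.trans a2, a3.trans b2, ?_, ?_, a6, ?_⟩
        · show 0 ≤ 1 * y.p
          rw [one_mul]; exact a4
        · show |(N.c k : ℝ) / m N.i * y.g| ≤ 1
          rw [abs_mul, abs_div, abs_of_pos (recA_m_pos N.i)]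
          have h1 : |(N.c k : ℝ)| / m N.i ≤ 1 := by
            rw [div_le_one (recA_m_pos _)]
            exact (coef_le hN k).trans (recA_one_le_m _)
          calc |(N.c k : ℝ)| / m N.i * |y.g| ≤ 1 * 1 :=
                mul_le_mul h1 a5 (abs_nonneg _) zero_le_one
            _ = 1 := one_mul 1
        · show y.t.size ≤ (∑ k : Fin N.d, (f k).size) + 1
          have : (f k).size ≤ ∑ k : Fin N.d, (f k).size :=
            Finset.single_le_sum (f := fun k => (f k).size) (fun _ _ => Nat.zero_le _) (Finset.mem_univ k)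
          omega

/-- the additive functional behind `lin` -/
noncomputable def recA_L (ψ : Rc → ℝ) : Multiset Rc →+ ℝ :=
  Multiset.sumAddMonoidHom.comp (Multiset.mapAddMonoidHom ψ)

lemma recA_L_apply (ψ : Rc → ℝ) (s : Multiset Rc) : recA_L ψ s = (s.map ψ).sum := rfl

lemma recA_sum_node (ψ : Rc → ℝ) (N : ND) (f : Fin N.d → Tr) :
    ((recs (.node N f)).map ψ).sum = (if Odd N.i then ψ ⟨1, 1, .node N f⟩ else 0) +
      ∑ k, if N.c k = 0 then 0 else
        ((recs (f k)).map fun x => ψ (Rc.sc 1 ((N.c k : ℝ) / m N.i) x)).sum := by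
  rw [← recA_L_apply, recA_recs_node, map_add, map_sum]
  congr 1
  · split_ifs
    · rw [recA_L_apply, Multiset.map_singleton, Multiset.sum_singleton]
    · exact map_zero _
  · refine Finset.sum_congr rfl fun k _ => ?_
    split_ifs
    · exact map_zero _
    · rw [recA_L_apply, Multiset.map_map]
      rfl

lemma recA_sum_comb (ψ : Rc → ℝ) (p q : ℕ) (s t : ℚ) (A B : Tr) :
    ((recs (.comb p q s t A B)).map ψ).sum =
      ((recs A).map fun x => ψ (Rc.sc |(s : ℝ)| (sg s) x)).sum +
      ((recs B).map fun x => ψ (Rc.sc |(t : ℝ)| (sg t) x)).sum := by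
  rw [recA_recs_comb, Multiset.map_add, Multiset.sum_add, Multiset.map_map, Multiset.map_map]
  rfl

theorem lin_leaf (φ : Tr → ℝ) (n : ℕ) : lin φ (.leaf n) = 0 := by
  unfold lin
  rw [recA_recs_leaf, Multiset.map_zero, Multiset.sum_zero]

theorem lin_comb (φ : Tr → ℝ) (p q : ℕ) (s t : ℚ) (A B : Tr) :
    lin φ (.comb p q s t A B) = s * lin φ A + t * lin φ B := by
  unfold lin
  rw [recA_sum_comb, ← Multiset.sum_map_mul_left, ← Multiset.sum_map_mul_left]
  have key : ∀ (s : ℚ) (x : Rc), (Rc.sc |(s : ℝ)| (sg s) x).p * (Rc.sc |(s : ℝ)| (sg s) x).g *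
      φ (Rc.sc |(s : ℝ)| (sg s) x).t = s * (x.p * x.g * φ x.t) := by
    intro s x
    show |(s : ℝ)| * x.p * (sg s * x.g) * φ x.t = s * (x.p * x.g * φ x.t)
    have h := recA_abs_mul_sg s
    calc |(s : ℝ)| * x.p * (sg s * x.g) * φ x.t = (|(s : ℝ)| * sg s) * (x.p * x.g * φ x.t) := by ring
      _ = s * (x.p * x.g * φ x.t) := by rw [h]
  congr 1
  · congr 1
    exact Multiset.map_congr rfl fun x _ => key s x
  · congr 1
    exact Multiset.map_congr rfl fun x _ => key t x

theorem lin_node (φ : Tr → ℝ) (N : ND) (f : Fin N.d → Tr) :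
    lin φ (.node N f) = (if Odd N.i then φ (.node N f) else 0) +
      1 / (m N.i : ℝ) * ∑ k, (N.c k : ℝ) * lin φ (f k) := by
  unfold lin
  rw [recA_sum_node, Finset.mul_sum]
  congr 1
  · split_ifs
    · show (1 : ℝ) * 1 * φ (.node N f) = φ (.node N f)
      ring
    · rfl
  · refine Finset.sum_congr rfl fun k _ => ?_
    split_ifs with hc
    · rw [hc]; simp
    · rw [← mul_assoc, ← Multiset.sum_map_mul_left]
      congr 1
      refine Multiset.map_congr rfl fun x _ => ?_
      show 1 * x.p * ((N.c k : ℝ) / m N.i * x.g) * φ x.t = 1 / (m N.i : ℝ) * (N.c k : ℝ) * (x.p * x.g * φ x.t)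
      ring

theorem lin_congr {φ ψ : Tr → ℝ} {T : Tr} (hT : Valid T)
    (h : ∀ N f, Valid (.node N f) → Odd N.i → φ (.node N f) = ψ (.node N f)) : lin φ T = lin ψ T := by
  unfold lin
  congr 1
  refine Multiset.map_congr rfl fun x hx => ?_
  obtain ⟨a1, -, -, -, -, ⟨N, f, a6, a7⟩, -⟩ := recs_mem hT hx
  rw [a6] at a1 ⊢
  rw [h N f a1 a7]

theorem lin_add (φ ψ : Tr → ℝ) (T : Tr) : lin (fun t => φ t + ψ t) T = lin φ T + lin ψ T := by
  unfold lin
  rw [← Multiset.sum_map_add]
  congr 1
  exact Multiset.map_congr rfl fun x _ => by ring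

theorem lin_mul (c : ℝ) (φ : Tr → ℝ) (T : Tr) : lin (fun t => c * φ t) T = c * lin φ T := by
  unfold lin
  rw [← Multiset.sum_map_mul_left]
  congr 1
  exact Multiset.map_congr rfl fun x _ => by ring

theorem lin_sub (φ ψ : Tr → ℝ) (T : Tr) : lin (fun t => φ t - ψ t) T = lin φ T - lin ψ T := by
  have h : (fun t => φ t - ψ t) = fun t => φ t + (-1) * ψ t := by
    funext t; ring
  rw [h, lin_add, lin_mul]; ring

theorem lin_sum {ι : Type} (S : Finset ι) (φ : ι → Tr → ℝ) (T : Tr) :
    lin (fun t => ∑ k ∈ S, φ k t) T = ∑ k ∈ S, lin (φ k) T := by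
  classical
  induction S using Finset.induction_on with
  | empty =>
    have h := lin_mul 0 (fun _ => 0) T
    simpa using h
  | insert a s ha ih =>
    simp only [Finset.sum_insert ha]
    rw [lin_add, ih]

theorem lin_swap (κ : Tr → Tr → ℝ) (T T' : Tr) :
    lin (fun t => lin (fun t' => κ t t') T') T = lin (fun t' => lin (fun t => κ t t') T) T' := by
  unfold lin
  have h1 : ((recs T).map fun x => x.p * x.g * ((recs T').map fun y => y.p * y.g * κ x.t y.t).sum).sum
      = ((recs T).map fun x => ((recs T').map fun y => (x.p * x.g) * (y.p * y.g * κ x.t y.t)).sum).sum := by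
    congr 1
    exact Multiset.map_congr rfl fun x _ => by rw [← Multiset.sum_map_mul_left]
  have h2 : ((recs T').map fun y => y.p * y.g * ((recs T).map fun x => x.p * x.g * κ x.t y.t).sum).sum
      = ((recs T').map fun y => ((recs T).map fun x => (x.p * x.g) * (y.p * y.g * κ x.t y.t)).sum).sum := by
    congr 1
    refine Multiset.map_congr rfl fun y _ => ?_
    rw [← Multiset.sum_map_mul_left]
    congr 1
    exact Multiset.map_congr rfl fun x _ => by ring
  rw [h1, h2, Multiset.sum_map_sum_map]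

/-- Omega as a sum over records -/
theorem ip_uv (a b : ℕ) (y : ℕ →₀ ℝ) (T : Tr) :
    ip (ct a b (uv T)) y = lin (fun t => ip (ct a b t.kp) y) T := by
  induction T with
  | leaf n =>
    rw [lin_leaf]
    show ip (ct a b 0) y = 0
    simp
  | comb p q s t A B ihA ihB =>
    rw [lin_comb, ← ihA, ← ihB]
    show ip (ct a b ((s : ℝ) • uv A + (t : ℝ) • uv B)) y = _
    simp only [map_add, map_smul, LinearMap.add_apply, LinearMap.smul_apply, smul_eq_mul]
  | node N f ih =>
    rw [lin_node]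
    have h : uv (.node N f) = (1 / (m N.i : ℝ)) • (∑ k, (N.c k : ℝ) • uv (f k)) +
      if Odd N.i then KP N f else 0 := by rw [uv]
    rw [h, add_comm]
    simp only [map_add, map_smul, map_sum, LinearMap.add_apply, LinearMap.smul_apply, smul_eq_mul,
      LinearMap.sum_apply]
    congr 1
    · split_ifs
      · rfl
      · simp
    · congr 1
      exact Finset.sum_congr rfl fun k _ => by rw [ih k]

end Pool.Agent.Helper60.HD
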