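import Pool.Agent.Helper60.HD.Bas

/-!
# Restrictions of nodes and trees
-/

set_option autoImplicit false

namespace Pool.Agent.Helper60.HD

/-- change of the coefficients of a valid node -/
theorem resA_change (N : ND) (f : Fin N.d → Tr) (hT : Valid (.node N f)) (r' : ℕ) (c' : Fin N.d → ℚ)
    (h1 : ∑ k, c' k ^ 2 ≤ 1) (h2 : ∀ k, c' k ≠ 0 → N.c k ≠ 0) (h3 : Odd N.i → r' ≤ rr N.i)
    (h4 : Odd N.i → ∀ k, c' k = 0 ∨ c' k = (1 / 2) ^ r')
    (h5 : Odd N.i → ∀ k l k', k ≤ l → l ≤ k' → c' k ≠ 0 → c' k' ≠ 0 → c' l ≠ 0) :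
    Valid (.node {N with r := r', c := c'} f) := by
  rw [valid_node] at hT
  obtain ⟨hv, hn⟩ := hT
  rw [valid_node]
  refine ⟨hv, ?_⟩
  exact
    { pq := hn.pq
      dn := hn.dn
      sq := h1
      suc := hn.suc
      box := fun k hk => hn.box k (h2 k hk)
      rle := h3
      co := h4
      cvx := h5
      cls := hn.cls
      vs := hn.vs }

theorem resA_pow (r : ℕ) : (((1 : ℚ) / 2) ^ r) ^ 2 = 1 / 4 ^ r := by
  rw [← pow_mul, mul_comm, pow_mul, show ((1 : ℚ) / 2) ^ 2 = 1 / 4 by norm_num, one_div_pow]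

/-- restriction of a node to a convex set of children -/
theorem node_restrict (N : ND) (f : Fin N.d → Tr) (hT : Valid (.node N f)) (S : Finset (Fin N.d))
    (hS : ∀ k ∈ S, ∀ l, ∀ k' ∈ S, k ≤ l → l ≤ k' → l ∈ S) :
    ∃ (r' : ℕ) (c' : Fin N.d → ℚ) (μ : ℚ), 0 ≤ μ ∧ μ ≤ 1 ∧ (μ : ℝ) ≤ 2 * √(∑ k ∈ S, (N.c k : ℝ) ^ 2) ∧
      Valid (.node {N with r := r', c := c'} f) ∧ ∀ k, μ * c' k = if k ∈ S then N.c k else 0 := by
  classical
  have hn : NodeOk N f := (valid_node.1 hT).2
  have hsumle : ∑ k ∈ S, N.c k ^ 2 ≤ 1 :=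
    (Finset.sum_le_sum_of_subset_of_nonneg (Finset.subset_univ S) (fun k _ _ => sq_nonneg _)).trans hn.sq
  by_cases h0 : ∑ k ∈ S, N.c k ^ 2 = 0
  · have hz : ∀ k ∈ S, N.c k = 0 := by
      intro k hk
      have := (Finset.sum_eq_zero_iff_of_nonneg (fun k _ => sq_nonneg (N.c k))).1 h0 k hk
      exact pow_eq_zero_iff (two_ne_zero) |>.1 this
    refine ⟨0, fun _ => 0, 0, le_refl _, zero_le_one, ?_, ?_, ?_⟩
    · push_cast
      positivity
    · refine resA_change N f hT 0 (fun _ => 0) (by simp) (fun k hk => (hk rfl).elim) (fun _ => Nat.zero_le _)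
        (fun _ k => Or.inl rfl) (fun _ k l k' _ _ hk _ => (hk rfl).elim)
    · intro k
      by_cases hk : k ∈ S
      · simp [hk, hz k hk]
      · simp [hk]
  have hpos : 0 < ∑ k ∈ S, N.c k ^ 2 := lt_of_le_of_ne (Finset.sum_nonneg fun k _ => sq_nonneg _) (Ne.symm h0)
  by_cases ho : Odd N.i
  · -- special node
    set S0 : Finset (Fin N.d) := S.filter (fun k => N.c k ≠ 0) with hS0
    have hmem : ∀ k, k ∈ S0 ↔ k ∈ S ∧ N.c k ≠ 0 := by
      intro k
      rw [hS0, Finset.mem_filter]
    have hc0 : ∀ k ∈ S0, N.c k = (1 / 2) ^ N.r := by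
      intro k hk
      rcases hn.co ho k with h | h
      · exact absurd h ((hmem k).1 hk).2
      · exact h
    have hsum : ∑ k ∈ S, N.c k ^ 2 = (S0.card : ℚ) * ((1 / 2) ^ N.r) ^ 2 := by
      rw [← Finset.sum_filter_add_sum_filter_not S (fun k => N.c k ≠ 0)]
      have e2 : ∑ k ∈ S.filter (fun k => ¬ N.c k ≠ 0), N.c k ^ 2 = 0 := by
        refine Finset.sum_eq_zero fun k hk => ?_
        have := (Finset.mem_filter.1 hk).2
        push Not at this
        rw [this]
        ring
      rw [e2, add_zero, ← hS0, Finset.sum_congr rfl (fun k hk => by rw [hc0 k hk]), Finset.sum_const, nsmul_eq_mul]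
    have hpow : (((1 : ℚ) / 2) ^ N.r) ^ 2 = 1 / 4 ^ N.r := by
      exact resA_pow _
    have hcard : 0 < S0.card := by
      rcases Nat.eq_zero_or_pos S0.card with h | h
      · rw [hsum, h] at hpos
        simp at hpos
      · exact h
    have hle : S0.card ≤ 4 ^ N.r := by
      rw [hsum, hpow] at hsumle
      have h4 : (0 : ℚ) < 4 ^ N.r := by positivity
      rw [mul_one_div, div_le_one h4] at hsumle
      exact_mod_cast hsumle
    set r' : ℕ := Nat.clog 4 S0.card with hr'
    have hr'le : r' ≤ N.r := Nat.clog_le_of_le_pow hle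
    have hcle : S0.card ≤ 4 ^ r' := Nat.le_pow_clog (by norm_num) _
    have h4le : 4 ^ r' ≤ 4 * S0.card := by
      rcases Nat.lt_or_ge 1 S0.card with h1 | h1
      · have := Nat.pow_pred_clog_lt_self (b := 4) (by norm_num) h1
        rw [← hr'] at this
        have hrpos : 0 < r' := Nat.clog_pos (by norm_num) h1
        obtain ⟨t, ht⟩ : ∃ t, r' = t + 1 := ⟨r' - 1, by omega⟩
        rw [ht] at this ⊢
        simp only [Nat.pred_succ] at this
        rw [pow_succ]
        omega
      · have h1' : S0.card = 1 := by omega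
        have : r' = 0 := by rw [hr', h1']; simp
        rw [this, h1']
        norm_num
    refine ⟨r', fun k => if k ∈ S0 then (1 / 2) ^ r' else 0, (1 / 2) ^ (N.r - r'), by positivity, ?_, ?_, ?_, ?_⟩
    · exact pow_le_one₀ (by norm_num) (by norm_num)
    · -- the bound on mu
      have e1 : (∑ k ∈ S, (N.c k : ℝ) ^ 2) = (S0.card : ℝ) * ((1 / 2 : ℝ) ^ N.r) ^ 2 := by
        have := congrArg (fun q : ℚ => (q : ℝ)) hsum
        push_cast at this
        exact this
      rw [e1, Real.sqrt_mul (by positivity), Real.sqrt_sq (by positivity)]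
      push_cast
      have e3 : ((1 : ℝ) / 2) ^ N.r = (1 / 2) ^ (N.r - r') * (1 / 2) ^ r' := by
        rw [← pow_add]
        congr 1
        omega
      rw [e3]
      have e4 : (2 : ℝ) ^ r' ≤ 2 * √(S0.card : ℝ) := by
        have : (2 : ℝ) ^ r' = √((4 : ℝ) ^ r') := by
          rw [show (4 : ℝ) ^ r' = ((2 : ℝ) ^ r') ^ 2 by rw [← pow_mul, mul_comm, pow_mul]; norm_num]
          rw [Real.sqrt_sq (by positivity)]
        rw [this, show (2 : ℝ) * √(S0.card : ℝ) = √(4 * (S0.card : ℝ)) by
          rw [Real.sqrt_mul (by norm_num), show (4 : ℝ) = 2 ^ 2 by norm_num, Real.sqrt_sq (by norm_num)]]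
        refine Real.sqrt_le_sqrt ?_
        exact_mod_cast h4le
      have e5 : (2 : ℝ) ^ r' * (1 / 2) ^ r' = 1 := by
        rw [← mul_pow]
        norm_num
      have e6 : (0 : ℝ) < (1 / 2) ^ (N.r - r') * (1 / 2) ^ r' := by positivity
      calc ((1 : ℝ) / 2) ^ (N.r - r') = (2 : ℝ) ^ r' * ((1 / 2) ^ (N.r - r') * (1 / 2) ^ r') := by
            rw [mul_left_comm, e5, mul_one]
        _ ≤ (2 * √(S0.card : ℝ)) * ((1 / 2) ^ (N.r - r') * (1 / 2) ^ r') :=
            mul_le_mul_of_nonneg_right e4 e6.le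
        _ = 2 * (√(S0.card : ℝ) * ((1 / 2) ^ (N.r - r') * (1 / 2) ^ r')) := by ring
    · refine resA_change N f hT r' _ ?_ ?_ (fun _ => hr'le.trans (hn.rle ho)) ?_ ?_
      · have : ∀ k : Fin N.d, (if k ∈ S0 then ((1 : ℚ) / 2) ^ r' else 0) ^ 2
            = if k ∈ S0 then 1 / 4 ^ r' else 0 := by
          intro k
          split_ifs
          · exact resA_pow _
          · ring
        rw [Finset.sum_congr rfl (fun k _ => this k), Finset.sum_ite_mem, Finset.univ_inter, Finset.sum_const,
          nsmul_eq_mul, mul_one_div, div_le_one (by positivity)]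
        exact_mod_cast hcle
      · intro k hk
        by_cases h : k ∈ S0
        · exact ((hmem k).1 h).2
        · simp [h] at hk
      · intro _ k
        by_cases h : k ∈ S0
        · right
          simp [h]
        · left
          simp [h]
      · intro _ k l k' hkl hlk' hk hk'
        have h1 : k ∈ S0 := by
          by_contra h
          simp [h] at hk
        have h2 : k' ∈ S0 := by
          by_contra h
          simp [h] at hk'
        have h3 : l ∈ S0 := by
          rw [hmem] at h1 h2 ⊢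
          exact ⟨hS k h1.1 l k' h2.1 hkl hlk', hn.cvx ho k l k' hkl hlk' h1.2 h2.2⟩
        simp only [h3, if_true]
        positivity
    · intro k
      by_cases hk : k ∈ S0
      · have hk1 := (hmem k).1 hk
        rw [if_pos hk1.1, hc0 k hk]
        simp only [hk, if_true]
        rw [← pow_add]
        congr 1
        omega
      · simp only [hk, if_false, mul_zero]
        by_cases hk2 : k ∈ S
        · rw [if_pos hk2]
          by_contra hne
          exact hk ((hmem k).2 ⟨hk2, fun h => hne h.symm⟩)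
        · rw [if_neg hk2]
  · -- generic node
    set g : ℝ := √(∑ k ∈ S, (N.c k : ℝ) ^ 2) with hg
    have hposR : 0 < ∑ k ∈ S, (N.c k : ℝ) ^ 2 := by exact_mod_cast hpos
    have hgpos : 0 < g := Real.sqrt_pos.2 hposR
    have hgle : g ≤ 1 := by
      rw [hg, Real.sqrt_le_left (by norm_num), one_pow]
      exact_mod_cast hsumle
    obtain ⟨μ, hμ1, hμ2, hμ3⟩ : ∃ μ : ℚ, g ≤ μ ∧ (μ : ℝ) ≤ 1 ∧ (μ : ℝ) ≤ 2 * g := by
      by_cases h : 1 ≤ 2 * g
      · exact ⟨1, by simpa using hgle, by simp, by simpa using h⟩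
      · push Not at h
        obtain ⟨q, hq1, hq2⟩ := exists_rat_btwn (show g < 2 * g by linarith)
        exact ⟨q, hq1.le, (hq2.trans h).le, hq2.le⟩
    have hμpos : (0 : ℝ) < μ := lt_of_lt_of_le hgpos hμ1
    have hμ0 : (0 : ℚ) < μ := by exact_mod_cast hμpos
    refine ⟨0, fun k => if k ∈ S then N.c k / μ else 0, μ, hμ0.le, by exact_mod_cast hμ2, hμ3, ?_, ?_⟩
    · refine resA_change N f hT 0 _ ?_ ?_ (fun h => absurd h ho) (fun h => absurd h ho) (fun h => absurd h ho)
      · have e1 : ∀ k : Fin N.d, (if k ∈ S then N.c k / μ else 0) ^ 2 = if k ∈ S then N.c k ^ 2 / μ ^ 2 else 0 := by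
          intro k
          split_ifs
          · rw [div_pow]
          · ring
        rw [Finset.sum_congr rfl (fun k _ => e1 k), Finset.sum_ite_mem, Finset.univ_inter, ← Finset.sum_div,
          div_le_one (by positivity)]
        have e2 : (∑ k ∈ S, (N.c k : ℝ) ^ 2) ≤ (μ : ℝ) ^ 2 := by
          have := pow_le_pow_left₀ hgpos.le hμ1 2
          rwa [hg, Real.sq_sqrt hposR.le] at this
        exact_mod_cast e2
      · intro k hk
        by_cases h : k ∈ S
        · simp only [h, if_true] at hk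
          intro h'
          rw [h', zero_div] at hk
          exact hk rfl
        · simp [h] at hk
    · intro k
      by_cases hk : k ∈ S
      · simp only [hk, if_true]
        field_simp
      · simp [hk]

end Pool.Agent.Helper60.HD
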