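import Pool.Agent.Helper60.HD.Res

/-!
# Splitting a sum over slots at a node
-/

set_option autoImplicit false

namespace Pool.Agent.Helper60.HD

/-- systems of functionals on trees, localised on successive slots -/
structure Sys (K : ℕ) (φ : ℕ → Tr → ℝ) (lo hi : ℕ → ℕ) (ex : ℕ → Prop) : Prop where
  pos : ∀ k < K, lo k < hi k
  suc : ∀ k l, k < l → l < K → hi k ≤ lo l
  comb : ∀ k < K, ∀ p q s t A B, Valid (.comb p q s t A B) →
    φ k (.comb p q s t A B) = s * φ k A + t * φ k B
  node : ∀ k < K, ∀ N f, Valid (.node N f) → ¬ ex N.i →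
    φ k (.node N f) = 1 / (m N.i : ℝ) * ∑ s, (N.c s : ℝ) * φ k (f s)
  loc : ∀ k < K, ∀ T, Valid T → (T.hi ≤ lo k ∨ hi k ≤ T.lo) → φ k T = 0

/-- convex sets of indices below `K` -/
def Cvx (K : ℕ) (A : Finset ℕ) : Prop :=
  (∀ k ∈ A, k < K) ∧ ∀ k ∈ A, ∀ l, ∀ k' ∈ A, k ≤ l → l ≤ k' → l ∈ A

/-- the children met by a slot -/
def Spl_M (N : ND) (f : Fin N.d → Tr) (lo hi : ℕ → ℕ) (k : ℕ) : Finset (Fin N.d) :=
  Finset.univ.filter fun s => lo k < (f s).hi ∧ (f s).lo < hi k

lemma Spl_mem {N : ND} {f : Fin N.d → Tr} {lo hi : ℕ → ℕ} {k : ℕ} {s : Fin N.d} :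
    s ∈ Spl_M N f lo hi k ↔ lo k < (f s).hi ∧ (f s).lo < hi k := by
  simp [Spl_M]

lemma Spl_conv {N : ND} {f : Fin N.d → Tr} (hT : Valid (.node N f)) (lo hi : ℕ → ℕ) (k : ℕ) :
    ∀ s ∈ Spl_M N f lo hi k, ∀ l, ∀ s' ∈ Spl_M N f lo hi k, s ≤ l → l ≤ s' →
      l ∈ Spl_M N f lo hi k := by
  intro s hs l s' hs' h1 h2
  rw [Spl_mem] at hs hs' ⊢
  have hl := lo_lt_hi (hT.1 l)
  constructor
  · rcases h1.lt_or_eq with h | h
    · have := hT.2.suc s l h
      omega
    · rw [← h]; exact hs.1
  · rcases h2.lt_or_eq with h | h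
    · have := hT.2.suc l s' h
      omega
    · rw [h]; exact hs'.2

lemma Spl_zero {K : ℕ} {φ : ℕ → Tr → ℝ} {lo hi : ℕ → ℕ} {ex : ℕ → Prop} (S : Sys K φ lo hi ex)
    {N : ND} {f : Fin N.d → Tr} (hT : Valid (.node N f)) {k : ℕ} (hk : k < K) {s : Fin N.d}
    (hs : s ∉ Spl_M N f lo hi k) : φ k (f s) = 0 := by
  apply S.loc k hk (f s) (hT.1 s)
  rw [Spl_mem] at hs
  omega

lemma Spl_inner {K : ℕ} {φ : ℕ → Tr → ℝ} {lo hi : ℕ → ℕ} {ex : ℕ → Prop} (S : Sys K φ lo hi ex)
    {N : ND} {f : Fin N.d → Tr} (hT : Valid (.node N f)) {k l k' : ℕ} (hkl : k < l) (hlk : l < k')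
    (hk' : k' < K) {s : Fin N.d} (h1 : Spl_M N f lo hi k = {s}) (h2 : Spl_M N f lo hi k' = {s}) :
    Spl_M N f lo hi l = {s} := by
  have a1 : s ∈ Spl_M N f lo hi k := by rw [h1]; exact Finset.mem_singleton_self s
  have a2 : s ∈ Spl_M N f lo hi k' := by rw [h2]; exact Finset.mem_singleton_self s
  rw [Spl_mem] at a1 a2
  have b1 := S.suc k l hkl (by omega)
  have b2 := S.suc l k' hlk hk'
  have b3 := S.pos l (by omega)
  ext s'
  rw [Spl_mem, Finset.mem_singleton]
  constructor
  · rintro ⟨c1, c2⟩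
    rcases lt_trichotomy s' s with h | h | h
    · have := hT.2.suc s' s h
      omega
    · exact h
    · have := hT.2.suc s s' h
      omega
  · rintro rfl
    omega

lemma Spl_card_le {K : ℕ} {φ : ℕ → Tr → ℝ} {lo hi : ℕ → ℕ} {ex : ℕ → Prop} (S : Sys K φ lo hi ex)
    {A : Finset ℕ} (hA : Cvx K A) (p : ℕ) :
    (A.filter fun k => lo k < p ∧ p < hi k).card ≤ 1 := by
  rw [Finset.card_le_one]
  intro a ha b hb
  rw [Finset.mem_filter] at ha hb
  rcases lt_trichotomy a b with h | h | h
  · have := S.suc a b h (hA.1 b hb.1)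
    omega
  · exact h
  · have := S.suc b a h (hA.1 a ha.1)
    omega

theorem node_split {K : ℕ} {φ : ℕ → Tr → ℝ} {lo hi : ℕ → ℕ} {ex : ℕ → Prop} (S : Sys K φ lo hi ex)
    (N : ND) (f : Fin N.d → Tr) (hT : Valid (.node N f)) (hex : ¬ ex N.i) (A : Finset ℕ) (hA : Cvx K A) :
    ∃ (cut : Finset ℕ) (As : Fin N.d → Finset ℕ) (μ : ℕ → ℝ) (U : ℕ → Tr),
      cut ⊆ A ∧ (∀ s, Cvx K (As s) ∧ As s ⊆ A) ∧
      (∀ b : ℕ → ℝ, (∀ k, 0 ≤ b k) → ∑ k ∈ cut, b k + ∑ s, ∑ k ∈ As s, b k ≤ ∑ k ∈ A, b k) ∧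
      cut.card ≤ N.d ∧
      (∀ k ∈ cut, 0 ≤ μ k ∧ μ k ≤ 1 ∧ Valid (U k) ∧ (U k).cls = some N.i) ∧
      ∑ k ∈ cut, μ k ^ 2 ≤ 8 ∧
      ∑ k ∈ A, φ k (.node N f) = ∑ k ∈ cut, μ k * φ k (U k) +
        1 / (m N.i : ℝ) * ∑ s, (N.c s : ℝ) * ∑ k ∈ As s, φ k (f s) := by
  classical
  have hch := fun k => node_restrict N f hT (Spl_M N f lo hi k) (Spl_conv hT lo hi k)
  choose r' c' μ hμ0 hμ1 hμ2 hV hc using hch
  have key : ∀ k ∈ A, φ k (.node N f) =
      (if 2 ≤ (Spl_M N f lo hi k).card then
        (μ k : ℝ) * φ k (.node {N with r := r' k, c := c' k} f) else 0) +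
      1 / (m N.i : ℝ) * ∑ s, (if Spl_M N f lo hi k = {s} then (N.c s : ℝ) * φ k (f s) else 0) := by
    intro k hk
    have hkK := hA.1 k hk
    have e0 := S.node k hkK N f hT hex
    have e1 : ∑ s, (N.c s : ℝ) * φ k (f s) =
        ∑ s, (if s ∈ Spl_M N f lo hi k then (N.c s : ℝ) * φ k (f s) else 0) := by
      refine Finset.sum_congr rfl fun s _ => ?_
      split_ifs with h
      · rfl
      · rw [Spl_zero S hT hkK h, mul_zero]
    by_cases h2 : 2 ≤ (Spl_M N f lo hi k).card
    · rw [if_pos h2]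
      have e2 : ∑ s, (if Spl_M N f lo hi k = {s} then (N.c s : ℝ) * φ k (f s) else 0) = 0 := by
        refine Finset.sum_eq_zero fun s _ => ?_
        rw [if_neg]
        intro h
        rw [h, Finset.card_singleton] at h2
        omega
      rw [e2, mul_zero, add_zero, e0]
      have e3 := S.node k hkK {N with r := r' k, c := c' k} f (hV k) hex
      rw [e3]
      change 1 / (m N.i : ℝ) * _ = (μ k : ℝ) * (1 / (m N.i : ℝ) * ∑ s, ((c' k s : ℚ) : ℝ) * φ k (f s))
      rw [mul_left_comm, e1]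
      congr 1
      rw [Finset.mul_sum]
      refine Finset.sum_congr rfl fun s _ => ?_
      have h3 := congrArg (fun q : ℚ => (q : ℝ)) (hc k s)
      simp only [Rat.cast_mul] at h3
      rw [← mul_assoc, h3]
      split_ifs <;> simp
    · rw [if_neg h2, zero_add, e0, e1]
      congr 1
      refine Finset.sum_congr rfl fun s _ => ?_
      have : (s ∈ Spl_M N f lo hi k) ↔ (Spl_M N f lo hi k = {s}) := by
        constructor
        · intro hs
          have h4 : (Spl_M N f lo hi k).card ≤ 1 := by omega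
          rw [Finset.card_le_one] at h4
          ext s'
          rw [Finset.mem_singleton]
          constructor
          · intro hs'
            exact h4 s' hs' s hs
          · rintro rfl
            exact hs
        · intro h
          rw [h]
          exact Finset.mem_singleton_self s
      simp only [this]
  refine ⟨A.filter fun k => 2 ≤ (Spl_M N f lo hi k).card,
    fun s => A.filter fun k => Spl_M N f lo hi k = {s}, fun k => (μ k : ℝ),
    fun k => .node {N with r := r' k, c := c' k} f, Finset.filter_subset _ _, ?_, ?_, ?_, ?_, ?_, ?_⟩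
  · intro s
    refine ⟨⟨fun k hk => hA.1 k (Finset.mem_filter.mp hk).1, ?_⟩, Finset.filter_subset _ _⟩
    intro k hk l k' hk' h1 h2
    rw [Finset.mem_filter] at hk hk' ⊢
    refine ⟨hA.2 k hk.1 l k' hk'.1 h1 h2, ?_⟩
    rcases h1.lt_or_eq with h | h
    · rcases h2.lt_or_eq with h' | h'
      · exact Spl_inner S hT h h' (hA.1 k' hk'.1) hk.2 hk'.2
      · rw [h']; exact hk'.2
    · rw [← h]; exact hk.2
  · intro b hb
    have e1 : ∑ s : Fin N.d, ∑ k ∈ A.filter (fun k => Spl_M N f lo hi k = {s}), b k =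
        ∑ k ∈ A, ∑ s : Fin N.d, (if Spl_M N f lo hi k = {s} then b k else 0) := by
      rw [Finset.sum_comm]
      refine Finset.sum_congr rfl fun s _ => ?_
      rw [Finset.sum_filter]
    rw [e1, Finset.sum_filter, ← Finset.sum_add_distrib]
    refine Finset.sum_le_sum fun k _ => ?_
    by_cases h2 : 2 ≤ (Spl_M N f lo hi k).card
    · rw [if_pos h2]
      have e2 : ∑ s, (if Spl_M N f lo hi k = {s} then b k else 0) = 0 := by
        refine Finset.sum_eq_zero fun s _ => ?_
        rw [if_neg]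
        intro h
        rw [h, Finset.card_singleton] at h2
        omega
      rw [e2, add_zero]
    · rw [if_neg h2, zero_add]
      by_cases h3 : ∃ s, Spl_M N f lo hi k = {s}
      · obtain ⟨s, hs⟩ := h3
        rw [Finset.sum_eq_single s]
        · rw [if_pos hs]
        · intro s' _ hs'
          rw [if_neg]
          intro h
          rw [hs] at h
          exact hs' (Finset.singleton_injective h).symm
        · intro h
          exact absurd (Finset.mem_univ s) h
      · rw [Finset.sum_eq_zero]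
        · exact hb k
        · intro s _
          rw [if_neg]
          intro h
          exact h3 ⟨s, h⟩
  · -- cardinality of the cut set
    have hne : ∀ k ∈ A.filter (fun k => 2 ≤ (Spl_M N f lo hi k).card), (Spl_M N f lo hi k).Nonempty := by
      intro k hk
      rw [Finset.mem_filter] at hk
      exact Finset.card_pos.mp (by omega)
    have hcard : (A.filter (fun k => 2 ≤ (Spl_M N f lo hi k).card)).card ≤
        (Finset.univ : Finset (Fin N.d)).card := by
      rcases Nat.eq_zero_or_pos N.d with hd | hd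
      · have : A.filter (fun k => 2 ≤ (Spl_M N f lo hi k).card) = ∅ := by
          rw [Finset.filter_eq_empty_iff]
          intro k _ h
          have h1 := Finset.card_le_univ (Spl_M N f lo hi k)
          rw [Fintype.card_fin] at h1
          omega
        rw [this]
        simp
      · let g : ℕ → Fin N.d := fun k => if h : (Spl_M N f lo hi k).Nonempty then
          (Spl_M N f lo hi k).min' h else ⟨0, hd⟩
        refine Finset.card_le_card_of_injOn g (fun k _ => Finset.mem_univ _) ?_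
        have main : ∀ k ∈ A.filter (fun k => 2 ≤ (Spl_M N f lo hi k).card),
            ∀ k' ∈ A.filter (fun k => 2 ≤ (Spl_M N f lo hi k).card), k < k' → g k ≠ g k' := by
          intro k hk k' hk' hlt heq
          have n1 := hne k hk
          have n2 := hne k' hk'
          simp only [g, dif_pos n1, dif_pos n2] at heq
          have m1 := Finset.min'_mem _ n1
          have m2 := Finset.min'_mem _ n2
          rw [← heq] at m2
          set s := (Spl_M N f lo hi k).min' n1 with hs
          have h2 : 1 < (Spl_M N f lo hi k).card := (Finset.mem_filter.mp hk).2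
          obtain ⟨s', hs', hne'⟩ := Finset.exists_mem_ne h2 s
          have hle : s ≤ s' := Finset.min'_le _ _ hs'
          have hlt' : s < s' := lt_of_le_of_ne hle (Ne.symm hne')
          have h3 := hT.2.suc s s' hlt'
          have h4 := S.suc k k' hlt (hA.1 k' (Finset.mem_filter.mp hk').1)
          rw [Spl_mem] at hs' m2
          omega
        intro k hk k' hk' heq
        rcases lt_trichotomy k k' with h | h | h
        · exact absurd heq (main k hk k' hk' h)
        · exact h
        · exact absurd heq.symm (main k' hk' k hk h)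
    rw [Finset.card_univ, Fintype.card_fin] at hcard
    exact hcard
  · intro k _
    have a1 : (0 : ℝ) ≤ (μ k : ℝ) := by exact_mod_cast hμ0 k
    have a2 : (μ k : ℝ) ≤ 1 := by exact_mod_cast hμ1 k
    exact ⟨a1, a2, hV k, rfl⟩
  · -- sum of squares
    have h1 : ∀ k, (μ k : ℝ) ^ 2 ≤ 4 * ∑ s ∈ Spl_M N f lo hi k, (N.c s : ℝ) ^ 2 := by
      intro k
      have h0 : (0 : ℝ) ≤ μ k := by exact_mod_cast hμ0 k
      have hn : (0 : ℝ) ≤ ∑ s ∈ Spl_M N f lo hi k, (N.c s : ℝ) ^ 2 :=
        Finset.sum_nonneg fun s _ => sq_nonneg _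
      calc (μ k : ℝ) ^ 2 ≤ (2 * √(∑ s ∈ Spl_M N f lo hi k, (N.c s : ℝ) ^ 2)) ^ 2 :=
            pow_le_pow_left₀ h0 (hμ2 k) 2
        _ = 4 * ∑ s ∈ Spl_M N f lo hi k, (N.c s : ℝ) ^ 2 := by
            rw [mul_pow, Real.sq_sqrt hn]; norm_num
    have hcount : ∀ s : Fin N.d, ((A.filter fun k => 2 ≤ (Spl_M N f lo hi k).card).filter
        fun k => s ∈ Spl_M N f lo hi k).card ≤ 2 := by
      intro s
      have hsub : ((A.filter fun k => 2 ≤ (Spl_M N f lo hi k).card).filter
          fun k => s ∈ Spl_M N f lo hi k) ⊆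
          (A.filter fun k => lo k < (f s).hi ∧ (f s).hi < hi k) ∪
          (A.filter fun k => lo k < (f s).lo ∧ (f s).lo < hi k) := by
        intro k hk
        rw [Finset.mem_filter, Finset.mem_filter] at hk
        obtain ⟨⟨hkA, hk2⟩, hks⟩ := hk
        obtain ⟨s', hs', hne'⟩ := Finset.exists_mem_ne (show 1 < (Spl_M N f lo hi k).card by omega) s
        rw [Spl_mem] at hks hs'
        rw [Finset.mem_union, Finset.mem_filter, Finset.mem_filter]
        have hb := lo_lt_hi (hT.1 s')
        rcases lt_or_gt_of_ne hne' with h | h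
        · have := hT.2.suc s' s h
          right
          refine ⟨hkA, ?_, hks.2⟩
          omega
        · have := hT.2.suc s s' h
          left
          refine ⟨hkA, hks.1, ?_⟩
          omega
      refine (Finset.card_le_card hsub).trans ((Finset.card_union_le _ _).trans ?_)
      have c1 := Spl_card_le S hA (f s).hi
      have c2 := Spl_card_le S hA (f s).lo
      omega
    have hsum : ∑ k ∈ A.filter (fun k => 2 ≤ (Spl_M N f lo hi k).card),
        ∑ s ∈ Spl_M N f lo hi k, (N.c s : ℝ) ^ 2 ≤ 2 := by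
      have e1 : ∑ k ∈ A.filter (fun k => 2 ≤ (Spl_M N f lo hi k).card),
          ∑ s ∈ Spl_M N f lo hi k, (N.c s : ℝ) ^ 2 =
          ∑ s : Fin N.d, (((A.filter fun k => 2 ≤ (Spl_M N f lo hi k).card).filter
            fun k => s ∈ Spl_M N f lo hi k).card : ℝ) * (N.c s : ℝ) ^ 2 := by
        have e2 : ∀ k, ∑ s ∈ Spl_M N f lo hi k, (N.c s : ℝ) ^ 2 =
            ∑ s : Fin N.d, if s ∈ Spl_M N f lo hi k then (N.c s : ℝ) ^ 2 else 0 := by
          intro k
          rw [← Finset.sum_filter]
          congr 1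
          ext s
          simp
        rw [Finset.sum_congr rfl fun k _ => e2 k, Finset.sum_comm]
        refine Finset.sum_congr rfl fun s _ => ?_
        rw [← Finset.sum_filter, Finset.sum_const, nsmul_eq_mul]
      rw [e1]
      have e3 : ∑ s : Fin N.d, (((A.filter fun k => 2 ≤ (Spl_M N f lo hi k).card).filter
            fun k => s ∈ Spl_M N f lo hi k).card : ℝ) * (N.c s : ℝ) ^ 2 ≤
          ∑ s : Fin N.d, 2 * (N.c s : ℝ) ^ 2 := by
        refine Finset.sum_le_sum fun s _ => ?_
        refine mul_le_mul_of_nonneg_right ?_ (sq_nonneg _)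
        exact_mod_cast hcount s
      refine e3.trans ?_
      rw [← Finset.mul_sum]
      have e4 : (∑ s, (N.c s : ℝ) ^ 2) ≤ 1 := by exact_mod_cast hT.2.sq
      linarith
    calc ∑ k ∈ A.filter (fun k => 2 ≤ (Spl_M N f lo hi k).card), (μ k : ℝ) ^ 2 ≤
        ∑ k ∈ A.filter (fun k => 2 ≤ (Spl_M N f lo hi k).card),
          4 * ∑ s ∈ Spl_M N f lo hi k, (N.c s : ℝ) ^ 2 := Finset.sum_le_sum fun k _ => h1 k
      _ = 4 * ∑ k ∈ A.filter (fun k => 2 ≤ (Spl_M N f lo hi k).card),
          ∑ s ∈ Spl_M N f lo hi k, (N.c s : ℝ) ^ 2 := by rw [Finset.mul_sum]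
      _ ≤ 8 := by linarith
  · rw [Finset.sum_congr rfl key, Finset.sum_add_distrib, Finset.sum_filter]
    congr 1
    rw [← Finset.mul_sum, Finset.sum_comm]
    congr 1
    refine Finset.sum_congr rfl fun s _ => ?_
    rw [Finset.sum_filter, Finset.mul_sum]
    refine Finset.sum_congr rfl fun k _ => ?_
    split_ifs <;> simp

end Pool.Agent.Helper60.HD
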