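import Pool.Agent.Helper60.HD.Bas

/-!
# Sources of averages
-/

set_option autoImplicit false

namespace Pool.Agent.Helper60.HD

/-- sources of averages paired with trees -/
def Src (Q : (ℕ →₀ ℚ) → Tr → ℝ → Prop) : Prop := ∀ (p l : ℕ) (η : ℝ), 0 < η →
  ∃ (x : ℕ →₀ ℚ) (T : Tr), Valid T ∧ p ≤ T.lo ∧ (∀ n ∈ x.support, T.lo ≤ n ∧ n < T.hi) ∧
    |ip (rv x) (yv T) - 1| ≤ η ∧ nV (rv x) ≤ 256 ∧
    (∀ a b U i, Valid U → U.cls = some i → i < l → |ip (ct a b (rv x)) (yv U)| ≤ 256 / m i) ∧ Q x T η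

end Pool.Agent.Helper60.HD
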