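import Pool.Agent.Helper60.HD.BI

/-!
# Estimates in V and in its dual
-/

set_option autoImplicit false

namespace Pool.Agent.Helper60.HD

/-- the system of the functionals `x k` -/
lemma upA_sys (K : ℕ) (x : ℕ → (ℕ →₀ ℝ)) (s : ℕ → ℕ) (hs : StrictMono s)
    (hx : ∀ k < K, ∀ n, x k n ≠ 0 → s k ≤ n ∧ n < s (k + 1)) (a b : ℕ) :
    Sys K (fun k T => ip (ct a b (x k)) (yv T)) s (fun k => s (k + 1)) (fun _ => False) where
  pos k _ := hs (Nat.lt_succ_self k)
  suc k l hkl _ := hs.monotone hkl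
  comb k _ p q s t A B _ := by
    simp only [yv, map_add, map_smul, smul_eq_mul]
  node k _ N f _ _ := by
    simp only [yv, map_smul, map_sum, smul_eq_mul]
  loc k hk T hT h := by
    refine ip_disj (fun n h1 h2 => ?_)
    rw [ct_apply] at h1
    have h3 : x k n ≠ 0 := by
      intro hc
      rw [hc] at h1
      simp at h1
    have h4 := hx k hk n h3
    have h5 := yv_supp hT h2
    omega

lemma upA_cvx (K : ℕ) : Cvx K (Finset.range K) := by
  refine ⟨fun k hk => Finset.mem_range.1 hk, fun k _ l k' hk' _ h2 => ?_⟩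
  have := Finset.mem_range.1 hk'
  exact Finset.mem_range.2 (by omega)

open Finset in
/-- the upper 2-estimate of V -/
theorem nV_up (K : ℕ) (x : ℕ → (ℕ →₀ ℝ)) (s : ℕ → ℕ) (hs : StrictMono s)
    (hx : ∀ k < K, ∀ n, x k n ≠ 0 → s k ≤ n ∧ n < s (k + 1)) :
    nV (∑ k ∈ range K, x k) ≤ 4 * √(∑ k ∈ range K, nV (x k) ^ 2) := by
  refine nV_le (by positivity) (fun a b T hT => ?_)
  have h1 := l2_est (upA_sys K x s hs hx a b) (fun k => nV (x k)) (fun k => nV_nonneg _)
    (fun k _ T hT => le_nV hT a b (x k)) 0 le_rfl (fun N f _ h => absurd h id) T hT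
    (range K) (upA_cvx K)
  rw [zero_mul, add_zero] at h1
  have h2 : ip (ct a b (∑ k ∈ range K, x k)) (yv T)
      = ∑ k ∈ range K, ip (ct a b (x k)) (yv T) := by
    rw [map_sum, map_sum, LinearMap.sum_apply]
  rw [h2]
  exact h1

open Finset in
/-- averages and low classes -/
theorem avg_cls (l : ℕ) (x : ℕ → (ℕ →₀ ℝ)) (s : ℕ → ℕ) (hs : StrictMono s)
    (hx : ∀ k < nn l, ∀ n, x k n ≠ 0 → s k ≤ n ∧ n < s (k + 1)) (h1 : ∀ k < nn l, nV (x k) ≤ 1)
    (T : Tr) (hT : Valid T) (i : ℕ) (hi : T.cls = some i) (hil : i < l) (a b : ℕ) :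
    |ip (ct a b ((1 / 2 ^ rr l : ℝ) • ∑ k ∈ range (nn l), x k)) (yv T)| ≤ 8 / m i := by
  cases T with
  | leaf n => simp at hi
  | comb p q s t A B => simp at hi
  | node N f =>
    rw [cls_node, Option.some.injEq] at hi
    subst hi
    have S := upA_sys (nn l) x s hs hx a b
    obtain ⟨cut, As, μ, U, hcA, hAs, hsum, hcard, hcut, hμ, heq⟩ :=
      node_split S N f hT (fun h => h) (range (nn l)) (upA_cvx _)
    have hnode := (valid_node.1 hT).2
    have hval := (valid_node.1 hT).1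
    have hm : (65536 : ℝ) ≤ m N.i := by exact_mod_cast m_ge N.i
    have hm0 : (0 : ℝ) < m N.i := by linarith
    have hsqn : ∀ j, √(nn j : ℝ) = 2 ^ rr j := by
      intro j
      rw [nn_cast, Real.sqrt_sq (by positivity)]
    -- the cut part
    have hcut1 : |∑ k ∈ cut, μ k * ip (ct a b (x k)) (yv (U k))| ≤ 3 * 2 ^ rr N.i := by
      have e1 : |∑ k ∈ cut, μ k * ip (ct a b (x k)) (yv (U k))| ≤ ∑ k ∈ cut, μ k := by
        refine (abs_sum_le_sum_abs _ _).trans (sum_le_sum (fun k hk => ?_))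
        obtain ⟨m1, m2, m3, m4⟩ := hcut k hk
        have hk' : k < nn l := mem_range.1 (hcA hk)
        rw [abs_mul, abs_of_nonneg m1]
        have := (le_nV m3 a b (x k)).trans (h1 k hk')
        nlinarith
      have e2 : ∑ k ∈ cut, μ k ≤ √(cut.card : ℝ) * √8 := by
        have h3 : (∑ k ∈ cut, μ k) ^ 2 ≤ cut.card * ∑ k ∈ cut, μ k ^ 2 :=
          sq_sum_le_card_mul_sum_sq
        have h4 : ∑ k ∈ cut, μ k ≤ √((cut.card : ℝ) * 8) := by
          refine Real.le_sqrt_of_sq_le (h3.trans ?_)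
          exact mul_le_mul_of_nonneg_left hμ (by positivity)
        rwa [Real.sqrt_mul (by positivity)] at h4
      have e3 : √(cut.card : ℝ) ≤ 2 ^ rr N.i := by
        rw [← hsqn]
        refine Real.sqrt_le_sqrt ?_
        exact_mod_cast hcard.trans hnode.dn
      have e4 : √(8 : ℝ) ≤ 3 := by
        rw [Real.sqrt_le_left (by norm_num)]
        norm_num
      calc _ ≤ √(cut.card : ℝ) * √8 := e1.trans e2
        _ ≤ 2 ^ rr N.i * 3 := mul_le_mul e3 e4 (Real.sqrt_nonneg _) (by positivity)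
        _ = 3 * 2 ^ rr N.i := by ring
    -- the other part
    have hAs1 : ∀ s', |∑ k ∈ As s', ip (ct a b (x k)) (yv (f s'))| ≤ 4 * √((As s').card : ℝ) := by
      intro s'
      have h3 := l2_est S (fun _ => 1) (fun _ => by norm_num)
        (fun k hk T hT => (le_nV hT a b (x k)).trans (h1 k hk)) 0 le_rfl
        (fun N f _ h => absurd h id) (f s') (hval s') (As s') (hAs s').1
      simpa using h3
    have hcs : |∑ s', (N.c s' : ℝ) * ∑ k ∈ As s', ip (ct a b (x k)) (yv (f s'))|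
        ≤ 4 * 2 ^ rr l := by
      have e1 : |∑ s', (N.c s' : ℝ) * ∑ k ∈ As s', ip (ct a b (x k)) (yv (f s'))|
          ≤ ∑ s', |(N.c s' : ℝ)| * (4 * √((As s').card : ℝ)) := by
        refine (abs_sum_le_sum_abs _ _).trans (sum_le_sum (fun s' _ => ?_))
        rw [abs_mul]
        exact mul_le_mul_of_nonneg_left (hAs1 s') (abs_nonneg _)
      have e2 : ∑ s', |(N.c s' : ℝ)| * (4 * √((As s').card : ℝ))
          ≤ √(∑ s', |(N.c s' : ℝ)| ^ 2) * √(∑ s', (4 * √((As s').card : ℝ)) ^ 2) :=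
        Real.sum_mul_le_sqrt_mul_sqrt _ _ _
      have e3 : √(∑ s', |(N.c s' : ℝ)| ^ 2) ≤ 1 := by
        rw [Real.sqrt_le_one]
        have : (∑ s', |(N.c s' : ℝ)| ^ 2) = ((∑ s', N.c s' ^ 2 : ℚ) : ℝ) := by
          push_cast
          exact sum_congr rfl (fun s' _ => sq_abs _)
        rw [this]
        exact_mod_cast hnode.sq
      have e4 : √(∑ s', (4 * √((As s').card : ℝ)) ^ 2) ≤ 4 * 2 ^ rr l := by
        rw [← hsqn]
        have h5 : ∑ s', (4 * √((As s').card : ℝ)) ^ 2 = 4 ^ 2 * ∑ s', ((As s').card : ℝ) := by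
          rw [mul_sum]
          refine sum_congr rfl (fun s' _ => ?_)
          rw [mul_pow, Real.sq_sqrt (by positivity)]
        have h6 : ∑ s', ((As s').card : ℝ) ≤ nn l := by
          have h7 := hsum (fun _ => 1) (fun _ => by norm_num)
          simp only [sum_const, nsmul_eq_mul, mul_one, card_range] at h7
          have : (0 : ℝ) ≤ cut.card := by positivity
          linarith
        rw [h5, Real.sqrt_mul (by positivity), Real.sqrt_sq (by norm_num)]
        exact mul_le_mul_of_nonneg_left (Real.sqrt_le_sqrt h6) (by norm_num)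
      calc _ ≤ √(∑ s', |(N.c s' : ℝ)| ^ 2) * √(∑ s', (4 * √((As s').card : ℝ)) ^ 2) :=
            e1.trans e2
        _ ≤ 1 * (4 * 2 ^ rr l) := mul_le_mul e3 e4 (Real.sqrt_nonneg _) (by norm_num)
        _ = 4 * 2 ^ rr l := one_mul _
    have htot : |∑ k ∈ range (nn l), ip (ct a b (x k)) (yv (Tr.node N f))|
        ≤ 3 * 2 ^ rr N.i + 1 / (m N.i : ℝ) * (4 * 2 ^ rr l) := by
      have heq' : ∑ k ∈ range (nn l), ip (ct a b (x k)) (yv (Tr.node N f))
          = ∑ k ∈ cut, μ k * ip (ct a b (x k)) (yv (U k))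
            + 1 / (m N.i : ℝ) * ∑ s', (N.c s' : ℝ)
              * ∑ k ∈ As s', ip (ct a b (x k)) (yv (f s')) := heq
      rw [heq']
      refine (abs_add_le _ _).trans (add_le_add hcut1 ?_)
      rw [abs_mul, abs_of_pos (by positivity : (0 : ℝ) < 1 / (m N.i : ℝ))]
      exact mul_le_mul_of_nonneg_left hcs (by positivity)
    have hlin : ip (ct a b ((1 / 2 ^ rr l : ℝ) • ∑ k ∈ range (nn l), x k)) (yv (Tr.node N f))
        = (1 / 2 ^ rr l : ℝ) * ∑ k ∈ range (nn l), ip (ct a b (x k)) (yv (Tr.node N f)) := by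
      rw [map_smul, map_smul, map_sum, map_sum, LinearMap.smul_apply, LinearMap.sum_apply,
        smul_eq_mul]
    rw [hlin, abs_mul, abs_of_pos (by positivity : (0 : ℝ) < 1 / 2 ^ rr l)]
    have hrr := rr_low hil
    have hp : (0 : ℝ) < 2 ^ rr l := by positivity
    calc 1 / 2 ^ rr l * |∑ k ∈ range (nn l), ip (ct a b (x k)) (yv (Tr.node N f))|
        ≤ 1 / 2 ^ rr l * (3 * 2 ^ rr N.i + 1 / (m N.i : ℝ) * (4 * 2 ^ rr l)) :=
          mul_le_mul_of_nonneg_left htot (by positivity)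
      _ ≤ 8 / m N.i := by
        rw [one_div_mul_eq_div, div_le_div_iff₀ hp hm0]
        have : (3 * 2 ^ rr N.i + 1 / (m N.i : ℝ) * (4 * 2 ^ rr l)) * m N.i
            = 3 * 2 ^ rr N.i * m N.i + 4 * 2 ^ rr l := by
          field_simp
        rw [this]
        linarith

end Pool.Agent.Helper60.HD
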