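import Pool.Agent.Helper60.HD.BI

/-!
# Alternating sums of special sequences
-/

set_option autoImplicit false

namespace Pool.Agent.Helper60.HD

lemma VHIa_pre_len {d : ℕ} (f : Fin d → Tr) (v : Fin d → (ℕ →₀ ℚ)) {k : ℕ} (h : k ≤ d) :
    (pre f v k).length = k := by
  simp [pre, h]

lemma VHIa_pre_get {d : ℕ} (f : Fin d → Tr) (v : Fin d → (ℕ →₀ ℚ)) {k l : ℕ} (hl : l < k) (hd : l < d) :
    (pre f v k)[l]? = some (f ⟨l, hd⟩, v ⟨l, hd⟩) := by
  rw [pre, List.getElem?_take]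
  simp [hl, hd]

lemma VHIa_pre_inj {d d' : ℕ} {f : Fin d → Tr} {v : Fin d → (ℕ →₀ ℚ)} {f' : Fin d' → Tr}
    {v' : Fin d' → (ℕ →₀ ℚ)} {k s : ℕ} (hk : k ≤ d) (hs : s ≤ d') (h : pre f v k = pre f' v' s) :
    k = s ∧ ∀ (l : ℕ) (h1 : l < d) (h2 : l < d'), l < k → f ⟨l, h1⟩ = f' ⟨l, h2⟩ := by
  have e : k = s := by
    rw [← VHIa_pre_len f v hk, h, VHIa_pre_len f' v' hs]
  refine ⟨e, fun l h1 h2 hl => ?_⟩
  have e1 := VHIa_pre_get f v hl h1
  rw [h, VHIa_pre_get f' v' (e ▸ hl) h2] at e1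
  simp only [Option.some.injEq, Prod.mk.injEq] at e1
  exact e1.1.symm

open Finset in
lemma VHIa_alt_sum {K : ℕ} {I : Finset ℕ} (hI : Cvx K I) : |∑ k ∈ I, (-1 : ℝ) ^ k| ≤ 1 := by
  rcases I.eq_empty_or_nonempty with h | h
  · simp [h]
  · have e : I = Ico (I.min' h) (I.max' h + 1) := by
      ext x
      simp only [mem_Ico]
      constructor
      · intro hx
        exact ⟨I.min'_le x hx, Nat.lt_succ_of_le (I.le_max' x hx)⟩
      · intro hx
        exact hI.2 _ (I.min'_mem h) x _ (I.max'_mem h) hx.1 (Nat.le_of_lt_succ hx.2)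
    rw [e]
    have h1 : I.min' h ≤ I.max' h + 1 := (I.min'_le _ (I.max'_mem h)).trans (Nat.le_succ _)
    rw [sum_Ico_eq_sub _ h1, neg_one_geom_sum, neg_one_geom_sum]
    split_ifs <;> simp

open Finset in
lemma VHIa_comb {K : ℕ} {A : Finset ℕ} (hA : Cvx K A) {lo hi : ℕ → ℕ} (pos : ∀ k < K, lo k < hi k)
    (suc : ∀ k l, k < l → l < K → hi k ≤ lo l) (κ c : ℕ → ℝ) (ρ : ℝ) (hρ0 : 0 ≤ ρ) (hρ : ρ ≤ 1)
    (hc : ∀ k ∈ A, c k = 0 ∨ c k = ρ)
    (hcv : ∀ k ∈ A, ∀ l ∈ A, ∀ k' ∈ A, k ≤ l → l ≤ k' → c k ≠ 0 → c k' ≠ 0 → c l ≠ 0)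
    (a b : ℕ) (B : ℝ) (hB : 0 ≤ B)
    (h0 : ∀ k ∈ A, a ≤ lo k → hi k ≤ b → |κ k - 1| ≤ 1 / K)
    (h1 : ∀ k ∈ A, hi k ≤ a ∨ b ≤ lo k → κ k = 0) (h2 : ∀ k ∈ A, |κ k| ≤ B) :
    |∑ k ∈ A, c k * ((-1) ^ k * κ k)| ≤ 2 + 2 * B := by
  classical
  set I := A.filter (fun k => c k ≠ 0 ∧ a ≤ lo k ∧ hi k ≤ b) with hI
  set J1 := A.filter (fun k => lo k < a ∧ a < hi k) with hJ1
  set J2 := A.filter (fun k => lo k < b ∧ b < hi k) with hJ2
  have hmono : ∀ k l, k ≤ l → l < K → lo k ≤ lo l ∧ hi k ≤ hi l := by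
    intro k l hkl hl
    rcases hkl.eq_or_lt with h | h
    · subst h; exact ⟨le_rfl, le_rfl⟩
    · have e1 := suc k l h hl
      have e2 := pos k (h.trans hl)
      have e3 := pos l hl
      exact ⟨by omega, by omega⟩
  have hIc : Cvx K I := by
    refine ⟨fun k hk => hA.1 k (mem_filter.1 hk).1, fun k hk l k' hk' hkl hlk => ?_⟩
    rw [hI, mem_filter] at hk hk' ⊢
    have hl : l ∈ A := hA.2 k hk.1 l k' hk'.1 hkl hlk
    have e1 := hmono k l hkl (hA.1 l hl)
    have e2 := hmono l k' hlk (hA.1 k' hk'.1)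
    exact ⟨hl, hcv k hk.1 l hl k' hk'.1 hkl hlk hk.2.1 hk'.2.1, by omega, by omega⟩
  have hcard : ∀ (J : Finset ℕ) (p : ℕ), (∀ k ∈ J, k < K ∧ lo k < p ∧ p < hi k) → J.card ≤ 1 := by
    intro J p hJ
    rw [card_le_one]
    intro k hk l hl
    rcases lt_trichotomy k l with h | h | h
    · have := suc k l h (hJ l hl).1
      have := (hJ k hk).2
      have := (hJ l hl).2
      omega
    · exact h
    · have := suc l k h (hJ k hk).1
      have := (hJ k hk).2
      have := (hJ l hl).2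
      omega
  have hc1 : J1.card ≤ 1 := hcard J1 a fun k hk => by
    rw [hJ1, mem_filter] at hk
    exact ⟨hA.1 k hk.1, hk.2⟩
  have hc2 : J2.card ≤ 1 := hcard J2 b fun k hk => by
    rw [hJ2, mem_filter] at hk
    exact ⟨hA.1 k hk.1, hk.2⟩
  have hIK : I.card ≤ K := by
    calc I.card ≤ (range K).card := card_le_card fun k hk => mem_range.2 (hIc.1 k hk)
      _ = K := card_range K
  have hcA : ∀ k ∈ A, |c k| ≤ 1 := by
    intro k hk
    rcases hc k hk with h | h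
    · rw [h]; simp
    · rw [h, abs_of_nonneg hρ0]; exact hρ
  -- splitting
  have hterm : ∀ k ∈ A, |c k * ((-1) ^ k * κ k) - (if k ∈ I then ρ * (-1) ^ k else 0)| ≤
      (if k ∈ I then 1 / (K : ℝ) else 0) + ((if k ∈ J1 then B else 0) + (if k ∈ J2 then B else 0)) := by
    intro k hk
    have hKk : k < K := hA.1 k hk
    have hb0 : (0 : ℝ) ≤ (if k ∈ J1 then B else 0) := by split_ifs <;> [exact hB; exact le_rfl]
    have hb1 : (0 : ℝ) ≤ (if k ∈ J2 then B else 0) := by split_ifs <;> [exact hB; exact le_rfl]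
    by_cases hkI : k ∈ I
    · rw [if_pos hkI, if_pos hkI]
      have hk' := hkI
      rw [hI, mem_filter] at hk'
      have hcρ : c k = ρ := (hc k hk).resolve_left hk'.2.1
      have e : c k * ((-1) ^ k * κ k) - ρ * (-1) ^ k = ρ * (-1) ^ k * (κ k - 1) := by
        rw [hcρ]; ring
      rw [e, abs_mul, abs_mul, abs_pow, abs_neg, abs_one, one_pow, mul_one, abs_of_nonneg hρ0]
      have e2 := h0 k hk hk'.2.2.1 hk'.2.2.2
      have e3 : ρ * |κ k - 1| ≤ 1 * (1 / K) := mul_le_mul hρ e2 (abs_nonneg _) zero_le_one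
      linarith
    · rw [if_neg hkI, if_neg hkI, sub_zero, zero_add]
      by_cases hc0 : c k = 0
      · rw [hc0, zero_mul, abs_zero]; linarith
      · have habs : |c k * ((-1) ^ k * κ k)| ≤ |κ k| := by
          rw [abs_mul, abs_mul, abs_pow, abs_neg, abs_one, one_pow, one_mul]
          exact mul_le_of_le_one_left (abs_nonneg _) (hcA k hk)
        by_cases hz : hi k ≤ a ∨ b ≤ lo k
        · have := h1 k hk hz
          rw [this, mul_zero, mul_zero, abs_zero]
          linarith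
        · have hnot : ¬ (a ≤ lo k ∧ hi k ≤ b) := fun h => hkI (by rw [hI, mem_filter]; exact ⟨hk, hc0, h⟩)
          have hj : k ∈ J1 ∨ k ∈ J2 := by
            rw [hJ1, hJ2, mem_filter, mem_filter]
            push Not at hz
            by_cases h3 : a ≤ lo k
            · right
              refine ⟨hk, hz.2, ?_⟩
              by_contra h4
              exact hnot ⟨h3, not_lt.1 h4⟩
            · left
              exact ⟨hk, not_le.1 h3, hz.1⟩
          have := h2 k hk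
          rcases hj with hj | hj
          · rw [if_pos hj]; linarith
          · rw [if_pos hj]; linarith
  have hsum := (abs_sum_le_sum_abs _ _).trans (sum_le_sum hterm)
  rw [sum_sub_distrib, sum_add_distrib, sum_add_distrib, ← sum_filter, ← sum_filter, ← sum_filter,
    ← sum_filter] at hsum
  have f1 : A.filter (fun k => k ∈ I) = I := by
    ext k; simp only [mem_filter, hI]; tauto
  have f2 : A.filter (fun k => k ∈ J1) = J1 := by
    ext k; simp only [mem_filter, hJ1]; tauto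
  have f3 : A.filter (fun k => k ∈ J2) = J2 := by
    ext k; simp only [mem_filter, hJ2]; tauto
  rw [f1, f2, f3, ← mul_sum, sum_const, sum_const, sum_const, nsmul_eq_mul, nsmul_eq_mul, nsmul_eq_mul] at hsum
  have g1 : (I.card : ℝ) * (1 / K) ≤ 1 := by
    rcases Nat.eq_zero_or_pos K with h | h
    · rw [h]; simp
    · have hK : (0 : ℝ) < K := Nat.cast_pos.2 h
      rw [mul_one_div, div_le_one hK]
      exact_mod_cast hIK
  have g2 : (J1.card : ℝ) * B ≤ 1 * B := mul_le_mul_of_nonneg_right (by exact_mod_cast hc1) hB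
  have g3 : (J2.card : ℝ) * B ≤ 1 * B := mul_le_mul_of_nonneg_right (by exact_mod_cast hc2) hB
  have g4 : |ρ * ∑ k ∈ I, (-1 : ℝ) ^ k| ≤ 1 := by
    rw [abs_mul, abs_of_nonneg hρ0]
    have := VHIa_alt_sum hIc
    calc ρ * |∑ k ∈ I, (-1 : ℝ) ^ k| ≤ 1 * 1 := mul_le_mul hρ this (abs_nonneg _) zero_le_one
      _ = 1 := one_mul 1
  have g5 := abs_sub_abs_le_abs_sub (∑ k ∈ A, c k * ((-1) ^ k * κ k)) (ρ * ∑ k ∈ I, (-1 : ℝ) ^ k)
  linarith

/-- total version of a sequence of trees -/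
noncomputable def VHIa_F {d : ℕ} (f : Fin d → Tr) (k : ℕ) : Tr := if h : k < d then f ⟨k, h⟩ else .leaf 0

/-- total version of a sequence of vectors -/
noncomputable def VHIa_V {d : ℕ} (v : Fin d → (ℕ →₀ ℚ)) (k : ℕ) : ℕ →₀ ℚ := if h : k < d then v ⟨k, h⟩ else 0

/-- total version of the coefficients -/
noncomputable def VHIa_c {d : ℕ} (c : Fin d → ℚ) (k : ℕ) : ℝ := if h : k < d then (c ⟨k, h⟩ : ℝ) else 0

/-- the functionals -/
noncomputable def VHIa_ph (a b : ℕ) {d : ℕ} (v : Fin d → (ℕ →₀ ℚ)) (k : ℕ) (T : Tr) : ℝ :=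
  (-1) ^ k * ip (ct a b (rv (VHIa_V v k))) (yv T)

lemma VHIa_ph_node (a b : ℕ) {d : ℕ} (v : Fin d → (ℕ →₀ ℚ)) (k : ℕ) (N : ND) (f : Fin N.d → Tr) :
    VHIa_ph a b v k (.node N f) = 1 / (m N.i : ℝ) * ∑ s, (N.c s : ℝ) * VHIa_ph a b v k (f s) := by
  simp only [VHIa_ph, yv, map_smul, map_sum, smul_eq_mul, Finset.mul_sum]
  refine Finset.sum_congr rfl fun s _ => ?_
  ring

lemma VHIa_ph_comb (a b : ℕ) {d : ℕ} (v : Fin d → (ℕ →₀ ℚ)) (k : ℕ) (p q : ℕ) (s t : ℚ) (A B : Tr) :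
    VHIa_ph a b v k (.comb p q s t A B) = s * VHIa_ph a b v k A + t * VHIa_ph a b v k B := by
  simp only [VHIa_ph, yv, map_smul, map_add, smul_eq_mul]
  ring

/-- the hypotheses on special sequences -/
structure VHIa_H (j : ℕ) (f : Fin (nn j) → Tr) (v : Fin (nn j) → (ℕ →₀ ℚ)) : Prop where
  val : ∀ k, Valid (f k)
  cls : ∀ k : Fin (nn j), (f k).cls = some (cod j (pre f v k))
  sup : ∀ k, ∀ n ∈ (v k).support, (f k).lo ≤ n ∧ n < (f k).hi
  good : ∀ k : Fin (nn j), Good (v k) (cod j (pre f v k))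
  one : ∀ k, |ip (rv (v k)) (yv (f k)) - 1| ≤ 1 / nn j
  suc : ∀ k l, k < l → (f k).hi ≤ (f l).lo

section

variable {j : ℕ} {f : Fin (nn j) → Tr} {v : Fin (nn j) → (ℕ →₀ ℚ)}

lemma VHIa_sys (H : VHIa_H j f v) (a b : ℕ) (ex : ℕ → Prop) :
    Sys (nn j) (VHIa_ph a b v) (fun k => (VHIa_F f k).lo) (fun k => (VHIa_F f k).hi) ex where
  pos := by
    intro k hk
    simp only [VHIa_F, dif_pos hk]
    exact lo_lt_hi (H.val _)
  suc := by
    intro k l hkl hl
    simp only [VHIa_F, dif_pos hl, dif_pos (hkl.trans hl)]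
    exact H.suc _ _ (by simpa using hkl)
  comb := by
    intro k _ p q s t A B _
    exact VHIa_ph_comb a b v k p q s t A B
  node := by
    intro k _ N g _ _
    exact VHIa_ph_node a b v k N g
  loc := by
    intro k hk T hT hl
    simp only [VHIa_F, dif_pos hk] at hl
    rw [VHIa_ph, VHIa_V, dif_pos hk, ip_disj, mul_zero]
    intro n h1 h2
    have h3 := yv_supp hT h2
    rw [ct_apply] at h1
    have h4 : rv (v ⟨k, hk⟩) n ≠ 0 := by
      intro h; apply h1; rw [h]; simp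
    rw [rv_apply] at h4
    have h5 := H.sup ⟨k, hk⟩ n (Finsupp.mem_support_iff.2 (by exact_mod_cast h4))
    omega

lemma VHIa_bd (H : VHIa_H j f v) (a b : ℕ) {k : ℕ} (hk : k < nn j) {T : Tr} (hT : Valid T) :
    |VHIa_ph a b v k T| ≤ C0 := by
  rw [VHIa_ph, VHIa_V, dif_pos hk, abs_mul, abs_pow, abs_neg, abs_one, one_pow, one_mul]
  exact (H.good ⟨k, hk⟩ a b T hT).1

lemma VHIa_lt (H : VHIa_H j f v) (a b : ℕ) {k : ℕ} (hk : k < nn j) {T : Tr} (hT : Valid T) {i : ℕ}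
    (hi : T.cls = some i) (hlt : i < cod j (pre f v k)) : |VHIa_ph a b v k T| ≤ C0 / m i := by
  rw [VHIa_ph, VHIa_V, dif_pos hk, abs_mul, abs_pow, abs_neg, abs_one, one_pow, one_mul]
  exact (H.good ⟨k, hk⟩ a b T hT).2.1 i hi hlt

lemma VHIa_gt (H : VHIa_H j f v) (a b : ℕ) {k : ℕ} (hk : k < nn j) {T : Tr} (hT : Valid T) {i : ℕ}
    (hi : T.cls = some i) (hlt : cod j (pre f v k) < i) :
    |VHIa_ph a b v k T| ≤ C0 / m (cod j (pre f v k)) := by
  rw [VHIa_ph, VHIa_V, dif_pos hk, abs_mul, abs_pow, abs_neg, abs_one, one_pow, one_mul]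
  exact (H.good ⟨k, hk⟩ a b T hT).2.2 i hi hlt

lemma VHIa_cod (j : ℕ) (L : List (Tr × (ℕ →₀ ℚ))) : C0 / m (cod j L) ≤ C0 / (nn j : ℝ) ^ 4 := by
  have h0 : (0 : ℝ) < (nn j : ℝ) ^ 4 := pow_pos (Nat.cast_pos.2 (nn_pos j)) 4
  exact div_le_div_of_nonneg_left (by unfold C0; norm_num) h0 (cod_big j L)

lemma VHIa_C0 : (1 : ℝ) ≤ C0 := by unfold C0; norm_num

/-- entries of the same class -/
lemma VHIa_same (H : VHIa_H j f v) (hj : Odd j) {N' : ND} {f' : Fin N'.d → Tr} (hT : Valid (.node N' f'))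
    (hi : N'.i = j) {k : ℕ} (hk : k < nn j) {s : Fin N'.d} (h : (f' s).cls = (VHIa_F f k).cls) :
    k = s ∧ ∀ (l : ℕ) (h1 : l < nn j) (h2 : l < N'.d), l < k → f ⟨l, h1⟩ = f' ⟨l, h2⟩ := by
  have ho : Odd N'.i := hi ▸ hj
  have e1 := (valid_node.1 hT).2.cls ho s
  have e2 := H.cls ⟨k, hk⟩
  rw [VHIa_F, dif_pos hk, e2, e1, hi] at h
  have e3 := cod_inj j (Option.some.inj h)
  exact VHIa_pre_inj hk.le s.2.le e3.symm

lemma VHIa_diff (H : VHIa_H j f v) (hj : Odd j) (a b : ℕ) {N' : ND} {f' : Fin N'.d → Tr}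
    (hT : Valid (.node N' f')) (hi : N'.i = j) {k : ℕ} (hk : k < nn j) {s : Fin N'.d}
    (h : (f' s).cls ≠ (VHIa_F f k).cls) : |VHIa_ph a b v k (f' s)| ≤ C0 / (nn j : ℝ) ^ 4 := by
  have ho : Odd N'.i := hi ▸ hj
  have hv := (valid_node.1 hT).1 s
  have e1 := (valid_node.1 hT).2.cls ho s
  have e2 := H.cls ⟨k, hk⟩
  rw [hi] at e1
  rw [VHIa_F, dif_pos hk, e2, e1] at h
  have h3 : cod j (pre f' N'.v s) ≠ cod j (pre f v k) := fun e => h (by rw [e])
  rcases lt_or_gt_of_ne h3 with h4 | h4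
  · exact (VHIa_lt H a b hk hv e1 h4).trans (VHIa_cod j _)
  · exact (VHIa_gt H a b hk hv e1 h4).trans (VHIa_cod j _)

open Finset in
theorem VHIa_bx (H : VHIa_H j f v) (hj : Odd j) (a b : ℕ) (N' : ND) (f' : Fin N'.d → Tr)
    (hT : Valid (.node N' f')) (hi : N'.i = j) (A : Finset ℕ) (hA : Cvx (nn j) A) :
    |∑ k ∈ A, VHIa_ph a b v k (.node N' f')| ≤ 4 * C0 + 2 * C0 / (nn j : ℝ) ^ 3 * A.card := by
  classical
  have ho : Odd N'.i := hi ▸ hj
  obtain ⟨hvs, hN⟩ := valid_node.1 hT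
  have hC := VHIa_C0
  have hnn : (1 : ℝ) ≤ nn j := by exact_mod_cast nn_pos j
  set X : ℕ → Fin N'.d → ℝ := fun k s => (N'.c s : ℝ) * VHIa_ph a b v k (f' s) with hX
  set P : ℕ → Fin N'.d → Prop := fun k s => (f' s).cls = (VHIa_F f k).cls with hP
  set g : ℕ → ℝ := fun k => ∑ s, if P k s then X k s else 0 with hg
  have hcs : ∀ s, |(N'.c s : ℝ)| ≤ 1 := fun s => coef_le hN s
  have hcX : ∀ k < nn j, ∀ s, |X k s| ≤ C0 := by
    intro k hk s
    have e1 := VHIa_bd H a b hk (hvs s)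
    simp only [hX]
    rw [abs_mul]
    calc |(N'.c s : ℝ)| * |VHIa_ph a b v k (f' s)| ≤ 1 * C0 := mul_le_mul (hcs s) e1 (abs_nonneg _) zero_le_one
      _ = C0 := one_mul _
  have hstep : ∀ k ∈ A, |∑ s, X k s - g k| ≤ C0 / (nn j : ℝ) ^ 3 := by
    intro k hk
    have hk' := hA.1 k hk
    have e1 : ∑ s, X k s - g k = ∑ s, if P k s then 0 else X k s := by
      rw [hg, ← sum_sub_distrib]
      refine sum_congr rfl fun s _ => ?_
      split_ifs <;> simp
    rw [e1]
    have e2 : ∀ s ∈ (univ : Finset (Fin N'.d)), |if P k s then 0 else X k s| ≤ C0 / (nn j : ℝ) ^ 4 := by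
      intro s _
      by_cases h : P k s
      · rw [if_pos h, abs_zero]; positivity
      · rw [if_neg h]
        have e3 := VHIa_diff H hj a b hT hi hk' h
        simp only [hX]
        rw [abs_mul]
        calc |(N'.c s : ℝ)| * |VHIa_ph a b v k (f' s)| ≤ 1 * (C0 / (nn j : ℝ) ^ 4) :=
              mul_le_mul (hcs s) e3 (abs_nonneg _) zero_le_one
          _ = _ := one_mul _
    refine (abs_sum_le_sum_abs _ _).trans ((sum_le_sum e2).trans ?_)
    rw [sum_const, card_univ, Fintype.card_fin, nsmul_eq_mul]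
    have e4 : (N'.d : ℝ) ≤ nn j := by
      have := hN.dn
      rw [hi] at this
      exact_mod_cast this
    calc (N'.d : ℝ) * (C0 / (nn j : ℝ) ^ 4) ≤ nn j * (C0 / (nn j : ℝ) ^ 4) :=
          mul_le_mul_of_nonneg_right e4 (by positivity)
      _ = C0 / (nn j : ℝ) ^ 3 := by
          field_simp
  -- the sum of the g k
  have hgsum : |∑ k ∈ A, g k| ≤ 2 + 3 * C0 := by
    set G := A.filter (fun k => ∃ s, P k s) with hG
    have hg0 : ∀ k, k ∉ G → k ∈ A → g k = 0 := by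
      intro k hk hkA
      simp only [hg]
      refine sum_eq_zero fun s _ => ?_
      rw [if_neg]
      intro h
      exact hk (mem_filter.2 ⟨hkA, s, h⟩)
    rcases G.eq_empty_or_nonempty with h | h
    · rw [sum_eq_zero fun k hk => hg0 k (by rw [h]; exact notMem_empty k) hk, abs_zero]
      linarith
    · set K0 := G.max' h with hK0
      have hK0G : K0 ∈ G := G.max'_mem h
      obtain ⟨hK0A, s0, hs0⟩ := mem_filter.1 hK0G
      obtain ⟨hs0', hpre⟩ := VHIa_same H hj hT hi (hA.1 K0 hK0A) hs0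
      have hK0d : K0 < N'.d := hs0' ▸ s0.2
      -- values
      have hone : ∀ k < nn j, ∀ s0 : Fin N'.d, P k s0 → g k = X k s0 := by
        intro k hk s1 hs1
        simp only [hg]
        rw [sum_eq_single s1]
        · rw [if_pos hs1]
        · intro s _ hs
          rw [if_neg]
          intro h'
          apply hs
          have e1 := (VHIa_same H hj hT hi hk h').1
          have e2 := (VHIa_same H hj hT hi hk hs1).1
          exact Fin.ext (e1.symm.trans e2)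
        · intro hh; exact absurd (mem_univ _) hh
      have hlow : ∀ k ∈ A.filter (fun k => k < K0), g k = VHIa_c N'.c k *
          ((-1) ^ k * ip (ct a b (rv (VHIa_V v k))) (yv (VHIa_F f k))) := by
        intro k hk
        obtain ⟨hkA, hkK⟩ := mem_filter.1 hk
        have hk1 := hA.1 k hkA
        have hk2 : k < N'.d := hkK.trans hK0d
        have e1 := hpre k hk1 hk2 hkK
        have e2 : VHIa_F f k = f' ⟨k, hk2⟩ := by rw [VHIa_F, dif_pos hk1, e1]
        rw [hone k hk1 ⟨k, hk2⟩ (by simp only [hP]; rw [e2])]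
        simp only [hX, VHIa_ph]
        rw [e2, VHIa_c, dif_pos hk2]
      have hsplit : ∑ k ∈ A, g k = ∑ k ∈ A.filter (fun k => k < K0), g k + g K0 := by
        rw [← sum_filter_add_sum_filter_not A (fun k => k < K0)]
        congr 1
        rw [sum_eq_single K0]
        · intro k hk hne
          obtain ⟨hkA, hk2⟩ := mem_filter.1 hk
          apply hg0 k _ hkA
          intro hkG
          have := G.le_max' k hkG
          rw [← hK0] at this
          omega
        · intro hh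
          exact absurd (mem_filter.2 ⟨hK0A, lt_irrefl _⟩) hh
      rw [hsplit, sum_congr rfl hlow]
      have hA' : Cvx (nn j) (A.filter (fun k => k < K0)) := by
        refine ⟨fun k hk => hA.1 k (mem_filter.1 hk).1, fun k hk l k' hk' hkl hlk => ?_⟩
        rw [mem_filter] at hk hk' ⊢
        exact ⟨hA.2 k hk.1 l k' hk'.1 hkl hlk, lt_of_le_of_lt hlk hk'.2⟩
      have hS := VHIa_sys H a b (fun _ => False)
      have hbig := VHIa_comb hA' hS.pos hS.suc (fun k => ip (ct a b (rv (VHIa_V v k))) (yv (VHIa_F f k)))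
        (VHIa_c N'.c) ((1 / 2) ^ N'.r) (by positivity) (pow_le_one₀ (by norm_num) (by norm_num)) ?_ ?_ a b C0
        (by linarith) ?_ ?_ ?_
      · have e5 : |g K0| ≤ C0 := by
          rw [hone K0 (hA.1 K0 hK0A) s0 hs0]
          exact hcX K0 (hA.1 K0 hK0A) s0
        refine (abs_add_le _ _).trans ?_
        linarith
      · intro k hk
        have hk2 : k < N'.d := (mem_filter.1 hk).2.trans hK0d
        rw [VHIa_c, dif_pos hk2]
        rcases hN.co ho ⟨k, hk2⟩ with h3 | h3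
        · left; rw [h3]; simp
        · right; rw [h3]; simp
      · intro k hk l hl k' hk' hkl hlk h3 h4
        have a1 : k < N'.d := (mem_filter.1 hk).2.trans hK0d
        have a2 : l < N'.d := (mem_filter.1 hl).2.trans hK0d
        have a3 : k' < N'.d := (mem_filter.1 hk').2.trans hK0d
        rw [VHIa_c, dif_pos a1] at h3
        rw [VHIa_c, dif_pos a3] at h4
        rw [VHIa_c, dif_pos a2]
        have := hN.cvx ho ⟨k, a1⟩ ⟨l, a2⟩ ⟨k', a3⟩ hkl hlk (by exact_mod_cast h3) (by exact_mod_cast h4)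
        exact_mod_cast this
      · intro k hk h3 h4
        have a1 : k < nn j := hA.1 k (mem_filter.1 hk).1
        simp only [VHIa_F, dif_pos a1] at h3 h4
        simp only [VHIa_F, dif_pos a1, VHIa_V]
        rw [ct_self]
        · exact H.one ⟨k, a1⟩
        · intro n hn
          rw [rv_apply] at hn
          have h5 := H.sup ⟨k, a1⟩ n (Finsupp.mem_support_iff.2 (by exact_mod_cast hn))
          omega
      · intro k hk h3
        have a1 : k < nn j := hA.1 k (mem_filter.1 hk).1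
        simp only [VHIa_F, dif_pos a1] at h3
        simp only [VHIa_F, dif_pos a1, VHIa_V]
        rw [ct_none]
        · simp
        · intro n hn
          rw [rv_apply] at hn
          have h5 := H.sup ⟨k, a1⟩ n (Finsupp.mem_support_iff.2 (by exact_mod_cast hn))
          omega
      · intro k hk
        have a1 : k < nn j := hA.1 k (mem_filter.1 hk).1
        simp only [VHIa_F, dif_pos a1, VHIa_V]
        exact (H.good ⟨k, a1⟩ a b _ (H.val _)).1
  have e6 : ∑ k ∈ A, VHIa_ph a b v k (.node N' f') = 1 / (m N'.i : ℝ) * ∑ k ∈ A, ∑ s, X k s := by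
    rw [mul_sum]
    exact sum_congr rfl fun k _ => VHIa_ph_node a b v k N' f'
  have e7 : |∑ k ∈ A, ∑ s, X k s| ≤ 2 + 3 * C0 + A.card * (C0 / (nn j : ℝ) ^ 3) := by
    have e8 : |∑ k ∈ A, (∑ s, X k s - g k)| ≤ A.card * (C0 / (nn j : ℝ) ^ 3) := by
      refine (abs_sum_le_sum_abs _ _).trans ((sum_le_sum hstep).trans ?_)
      rw [sum_const, nsmul_eq_mul]
    rw [sum_sub_distrib] at e8
    have e9 := abs_sub_abs_le_abs_sub (∑ k ∈ A, ∑ s, X k s) (∑ k ∈ A, g k)
    linarith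
  have hm : (1 : ℝ) ≤ m N'.i := by
    have := m_ge N'.i
    exact_mod_cast (le_trans (by norm_num) this)
  rw [e6, abs_mul, abs_of_nonneg (by positivity)]
  have e10 : 1 / (m N'.i : ℝ) ≤ 1 := by
    rw [div_le_one (by linarith)]; exact hm
  have e11 : 2 * C0 / (nn j : ℝ) ^ 3 * A.card = 2 * (A.card * (C0 / (nn j : ℝ) ^ 3)) := by ring
  have e12 : 0 ≤ (A.card : ℝ) * (C0 / (nn j : ℝ) ^ 3) := by positivity
  have e13 : (2 : ℝ) ≤ C0 := by unfold C0; norm_num
  calc 1 / (m N'.i : ℝ) * |∑ k ∈ A, ∑ s, X k s| ≤ 1 * |∑ k ∈ A, ∑ s, X k s| :=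
        mul_le_mul_of_nonneg_right e10 (abs_nonneg _)
    _ ≤ 4 * C0 + 2 * C0 / (nn j : ℝ) ^ 3 * A.card := by rw [e11]; linarith

theorem VHIa_bih (H : VHIa_H j f v) (hj : Odd j) (a b : ℕ) :
    BIH (nn j) (VHIa_ph a b v) (fun k => (VHIa_F f k).lo) (fun k => (VHIa_F f k).hi) (fun i => i = j)
      (4 * C0) (2 * C0 / (nn j : ℝ) ^ 3) (fun k i => ∃ h : k < nn j, (f ⟨k, h⟩).cls = some i) where
  toSys := VHIa_sys H a b _
  C0 := by have := VHIa_C0; linarith
  e0 := by have := VHIa_C0; positivity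
  bd := fun k hk T hT => (VHIa_bd H a b hk hT).trans (by have := VHIa_C0; linarith)
  bc := by
    intro k hk T i hT hi hij hex
    have hC := VHIa_C0
    have hnn : (1 : ℝ) ≤ nn j := by exact_mod_cast nn_pos j
    have hm : (0 : ℝ) < m i := by
      have := m_ge i
      exact_mod_cast (lt_of_lt_of_le (by norm_num) this)
    have h1 : 0 ≤ C0 / (m i : ℝ) := by positivity
    have h2 : 0 ≤ 2 * C0 / (nn j : ℝ) ^ 3 := by positivity
    have h3 : C0 / (nn j : ℝ) ^ 4 ≤ 2 * C0 / (nn j : ℝ) ^ 3 := by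
      rw [div_le_div_iff₀ (by positivity) (by positivity)]
      have : (nn j : ℝ) ^ 3 ≤ (nn j : ℝ) ^ 4 := pow_le_pow_right₀ hnn (by norm_num)
      nlinarith [pow_pos (lt_of_lt_of_le one_pos hnn) 4]
    have h4 : 4 * C0 / (m i : ℝ) = 4 * (C0 / m i) := by ring
    rw [h4]
    have hne : i ≠ cod j (pre f v k) := by
      intro e
      apply hex
      refine ⟨hk, ?_⟩
      rw [e]
      exact H.cls ⟨k, hk⟩
    rcases lt_or_gt_of_ne hne with h | h
    · have := VHIa_lt H a b hk hT hi h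
      linarith
    · have := (VHIa_gt H a b hk hT hi h).trans (VHIa_cod j _)
      linarith
  uni := by
    rintro i k l _ _ ⟨hk, h1⟩ ⟨hl, h2⟩
    rw [H.cls ⟨k, hk⟩] at h1
    rw [H.cls ⟨l, hl⟩] at h2
    have e := cod_inj j ((Option.some.inj h1).trans (Option.some.inj h2).symm)
    exact (VHIa_pre_inj hk.le hl.le e).1
  bx := by
    intro N g hT hi A hA
    exact VHIa_bx H hj a b N g hT hi A hA

end

theorem alt_est : ∃ C : ℝ, 0 ≤ C ∧ ∀ (j : ℕ) (f : Fin (nn j) → Tr) (v : Fin (nn j) → (ℕ →₀ ℚ)),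
    Odd j → (∀ k, Valid (f k) ∧ (f k).cls = some (cod j (pre f v k)) ∧
      (∀ n ∈ (v k).support, (f k).lo ≤ n ∧ n < (f k).hi) ∧ GoodC (v k) (f k) ∧
      |ip (rv (v k)) (yv (f k)) - 1| ≤ 1 / nn j) →
    (∀ k l, k < l → (f k).hi ≤ (f l).lo) →
    nV ((1 / (2 : ℝ) ^ rr j) • ∑ k : Fin (nn j), ((-1 : ℝ) ^ (k : ℕ)) • rv (v k)) ≤ C / (m j : ℝ) ^ 2 := by
  have hC := VHIa_C0
  refine ⟨54 * C0, by linarith, fun j f v hj h1 h2 => ?_⟩
  have H : VHIa_H j f v :=
    { val := fun k => (h1 k).1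
      cls := fun k => (h1 k).2.1
      sup := fun k => (h1 k).2.2.1
      good := fun k => by
        obtain ⟨w, hw, hg⟩ := (h1 k).2.2.2.1
        rw [(h1 k).2.1] at hw
        rwa [← Option.some.inj hw] at hg
      one := fun k => (h1 k).2.2.2.2
      suc := h2 }
  have hm1 : (65536 : ℝ) ≤ m j := by exact_mod_cast m_ge j
  have hm : (0 : ℝ) < (m j : ℝ) ^ 2 := by positivity
  have hr : (0 : ℝ) < (2 : ℝ) ^ rr j := by positivity
  refine nV_le (by positivity) fun a b T hT => ?_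
  have e1 : ip (ct a b ((1 / (2 : ℝ) ^ rr j) • ∑ k : Fin (nn j), ((-1 : ℝ) ^ (k : ℕ)) • rv (v k))) (yv T) =
      (1 / (2 : ℝ) ^ rr j) * ∑ k ∈ Finset.range (nn j), VHIa_ph a b v k T := by
    rw [Finset.sum_range]
    simp only [map_smul, map_sum, LinearMap.smul_apply, LinearMap.sum_apply, smul_eq_mul]
    congr 1
    refine Finset.sum_congr rfl fun k _ => ?_
    rw [VHIa_ph, VHIa_V, dif_pos k.2]
  have hB := bi_gen (VHIa_bih H hj a b) j ((m j : ℝ) ^ 2) hm ?_ (2 ^ (j + 1)) T hT (Finset.range (nn j)) ?_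
  · rw [e1, abs_mul, abs_of_pos (by positivity)]
    rw [Finset.card_range, nn_cast, Real.sqrt_sq hr.le, theta_pow] at hB
    have hp := par_big j
    set R : ℝ := (2 : ℝ) ^ rr j with hR
    set M : ℝ := (m j : ℝ) ^ 2 with hM
    set Q : ℝ := ((2 : ℝ) ^ (2 * m j + 2)) ^ 2 ^ (j + 1) with hQ
    have hQ0 : 0 ≤ Q := by positivity
    have hM1 : 1 ≤ M := one_le_pow₀ (by linarith)
    have hp2 : (2 : ℝ) ^ (m j ^ 2) ≤ R := by
      rw [hR]
      refine pow_le_pow_right₀ (by norm_num) ?_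
      rw [rr_eq]; omega
    have hp3 : M * (4 + Q) ≤ R := by
      have h5 : (1 : ℝ) ≤ 2 ^ (2 * m j) := one_le_pow₀ (by norm_num)
      have h6 : M * (4 + Q) * 1 ≤ M * (4 + Q) * (3 * 2 ^ (2 * m j)) :=
        mul_le_mul_of_nonneg_left (by linarith) (by positivity)
      have h7 : 3 * M * 2 ^ (2 * m j) * (4 + Q) = M * (4 + Q) * (3 * 2 ^ (2 * m j)) := by ring
      linarith
    have hR1 : 1 ≤ R := by nlinarith
    -- the three terms
    have g0 : 1 / R * |∑ k ∈ Finset.range (nn j), VHIa_ph a b v k T| ≤ 1 / R *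
        (4 * C0 * (4 + (8 / M + 4 * (1 / M)) * R + Q) + 2 * C0 / (R ^ 2) ^ 3 * R ^ 2) :=
      mul_le_mul_of_nonneg_left hB (by positivity)
    refine g0.trans ?_
    have g1 : 1 / R * (4 * C0 * (4 + (8 / M + 4 * (1 / M)) * R + Q) + 2 * C0 / (R ^ 2) ^ 3 * R ^ 2) =
        4 * C0 * ((4 + Q) / R) + 48 * C0 / M + 2 * C0 / R ^ 5 := by
      field_simp
      ring
    rw [g1]
    have g2 : (4 + Q) / R ≤ 1 / M := by
      rw [div_le_div_iff₀ hr hm]
      linarith
    have g3 : 2 * C0 / R ^ 5 ≤ 2 * C0 / M := by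
      apply div_le_div_of_nonneg_left (by linarith) hm
      have h8 : R ^ 1 ≤ R ^ 5 := pow_le_pow_right₀ hR1 (by norm_num)
      nlinarith
    have g4 : 4 * C0 * ((4 + Q) / R) ≤ 4 * C0 * (1 / M) := mul_le_mul_of_nonneg_left g2 (by linarith)
    have g5 : 54 * C0 / M = 4 * C0 * (1 / M) + 48 * C0 / M + 2 * C0 / M := by ring
    rw [g5]
    linarith
  · intro i hi hne
    have h3 : j + 1 ≤ i := Nat.lt_of_le_of_ne hi (Ne.symm hne)
    have h4 := m_strict.monotone h3
    rw [m_succ] at h4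
    exact_mod_cast h4
  · exact ⟨fun k hk => Finset.mem_range.1 hk, fun k _ l k' hk' _ hlk =>
      Finset.mem_range.2 (lt_of_le_of_lt hlk (Finset.mem_range.1 hk'))⟩

end Pool.Agent.Helper60.HD
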